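import Pool.Agent.H462R2.AD3
import Pool.Agent.TH363.CD.Uniq
import Pool.Agent.Y736.RN.A

set_option autoImplicit false

/-! # The degrees for which a fixed parameter lies in the boundary of the Multibrot set -/

namespace Pool.Agent.R240.Alm

open Complex Metric Set Filter Topology MeasureTheory N62a1eb23
open Pool.Agent.H749R2.Hyp
open Pool.Agent.H462R2.AD (hyp log_two_le norm_sq_add eventually_small exists_lower near
  measurableSet_near near_cover volume_near summable_aux ae_tsum)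

/-- The degrees for which the parameter `c` is in the Multibrot set and not hyperbolic. -/
def bad (c : ℂ) : Set ℕ := {n | 2 ≤ n ∧ c ∈ multibrotSet n ∧ c ∉ hyp n}

theorem not_att {n : ℕ} {c : ℂ} (h : c ∉ hyp n) : ¬ Att2 n c := by
  rintro ⟨m, z, -, hz⟩
  exact h ⟨m, z, hz⟩

theorem ne_zero_of_bad {n : ℕ} {c : ℂ} (h : n ∈ bad c) : c ≠ 0 := by
  rintro rfl
  exact not_att h.2.2 (att_zero h.1)

theorem log_norm_le {n : ℕ} {c : ℂ} (h : n ∈ bad c) :
    |Real.log ‖c‖| ≤ 200 * Real.log n / n := by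
  obtain ⟨hn, hM, hno⟩ := h
  have hn' : (2:ℝ) ≤ n := by exact_mod_cast hn
  have h1 := low1 hn (not_att hno)
  have h2 := t_le_two hn hM
  have hl2 : 0.6931471803 < Real.log 2 := Real.log_two_gt_d9
  have hln := log_two_le hn
  have hx0 : 0 < ‖c‖ := by
    rcases (norm_nonneg c).lt_or_eq with h0 | h0
    · exact h0
    · exfalso
      rw [← h0, zero_pow (by omega)] at h1
      norm_num at h1
  set x := ‖c‖ with hx
  have hp : 0 < x ^ (n - 1) := by positivity
  have h3 : Real.log (x ^ (n - 1)) = ((n:ℝ) - 1) * Real.log x := by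
    rw [Real.log_pow, Nat.cast_sub (by omega), Nat.cast_one]
  have h4 : Real.log (x ^ (n - 1)) ≤ Real.log 2 := Real.log_le_log hp h2
  have h5 : 0 < Real.log (Real.exp 1 * (n * x ^ (n - 1))) := Real.log_pos h1
  rw [Real.log_mul (Real.exp_pos 1).ne' (by positivity), Real.log_exp,
    Real.log_mul (by positivity) hp.ne'] at h5
  rw [h3] at h4 h5
  have hn1 : (0:ℝ) < n := by linarith
  have hkey : ((n:ℝ) - 1) * |Real.log x| ≤ 3 * Real.log n := by
    rcases abs_cases (Real.log x) with ⟨h6, -⟩ | ⟨h6, -⟩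
    · rw [h6]; linarith
    · rw [h6]; linarith
  rw [le_div_iff₀ hn1]
  have h7 : 0 ≤ |Real.log x| := abs_nonneg _
  nlinarith

theorem norm_cube_le {n : ℕ} {c : ℂ} (hc : ‖c‖ = 1) (h : n ∈ bad c) :
    ‖c ^ (3 * (n - 1)) - 1‖ ≤ 200 * Real.log n / n := by
  obtain ⟨hn, hM, hno⟩ := h
  have hn' : (2:ℝ) ≤ n := by exact_mod_cast hn
  have hn1 : (0:ℝ) < n := by linarith
  have hl2 : 0.6931471803 < Real.log 2 := Real.log_two_gt_d9
  have hln := log_two_le hn
  have htwo : ∀ z : ℂ, ‖z‖ = 1 → ‖z - 1‖ ≤ 2 := by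
    intro z hz
    have := norm_sub_le z 1
    rw [hz, norm_one] at this
    linarith
  rcases lt_or_ge n 64 with h64 | h64
  · have h1 := htwo (c ^ (3 * (n - 1))) (by rw [norm_pow, hc, one_pow])
    rw [le_div_iff₀ hn1]
    have h2 : (n:ℝ) ≤ 63 := by exact_mod_cast (by omega : n ≤ 63)
    nlinarith [norm_nonneg (c ^ (3 * (n - 1)) - 1)]
  have h64' : (64:ℝ) ≤ n := by exact_mod_cast h64
  have h1 := low2 h64 (not_att hno)
  have h2 := z2_le hn hM
  rw [hc, one_pow] at h1 h2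
  rw [mul_one] at h1
  rw [one_mul] at h2
  rw [mul_comm 3, pow_mul]
  set ζ := c ^ (n - 1) with hζ
  have hζn : ‖ζ‖ = 1 := by rw [hζ, norm_pow, hc, one_pow]
  set y := ‖1 + ζ‖ with hy
  have hy0 : 0 < y := by
    rcases (norm_nonneg (1 + ζ)).lt_or_eq with h0 | h0
    · exact h0
    · exfalso
      rw [hy, ← h0, zero_pow (by omega)] at h1
      norm_num at h1
  have hp : 0 < y ^ (n - 1) := by positivity
  have h3 : Real.log (y ^ (n - 1)) = ((n:ℝ) - 1) * Real.log y := by
    rw [Real.log_pow, Nat.cast_sub (by omega), Nat.cast_one]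
  have h4 : Real.log (y ^ (n - 1)) ≤ Real.log 2 := Real.log_le_log hp h2
  have h5 : Real.log (1 / 440) ≤ Real.log ((n:ℝ) ^ 2 * y ^ (n - 1)) :=
    Real.log_le_log (by norm_num) h1
  rw [Real.log_mul (by positivity) hp.ne', Real.log_pow, h3] at h5
  rw [h3] at h4
  have h440 : -(9 * Real.log 2) ≤ Real.log (1 / 440) := by
    have h6 : Real.log (1 / 440) = - Real.log 440 := by rw [one_div, Real.log_inv]
    have h7 : Real.log 440 ≤ Real.log (2 ^ 9) := Real.log_le_log (by norm_num) (by norm_num)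
    rw [Real.log_pow] at h7
    rw [h6]
    push_cast at h7
    linarith
  push_cast at h5
  set L := Real.log y with hL
  have hkey : ((n:ℝ) - 1) * |L| ≤ 11 * Real.log n := by
    rcases abs_cases L with ⟨h6, -⟩ | ⟨h6, -⟩
    · rw [h6]; linarith
    · rw [h6]; linarith
  have hkey2 : |2 * L| ≤ 44 * Real.log n / n := by
    rw [abs_mul, abs_two, le_div_iff₀ hn1]
    nlinarith [abs_nonneg L]
  have hfac : ‖ζ ^ 3 - 1‖ = ‖ζ - 1‖ * |y ^ 2 - 1| := by
    rw [hy, ← norm_sq_add hζn, ← norm_mul]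
    congr 1
    ring
  have hmain : ‖ζ ^ 3 - 1‖ ≤ 4 * |2 * L| := by
    rcases le_or_gt |2 * L| 1 with h6 | h6
    · have h7 := Real.abs_exp_sub_one_le h6
      have h8 : Real.exp (2 * L) = y ^ 2 := by
        rw [hL, mul_comm, Real.exp_mul, Real.exp_log hy0]
        norm_num
      rw [h8] at h7
      have h9 := htwo ζ hζn
      rw [hfac]
      calc ‖ζ - 1‖ * |y ^ 2 - 1| ≤ 2 * (2 * |2 * L|) := by gcongr
        _ = 4 * |2 * L| := by ring
    · have := htwo (ζ ^ 3) (by rw [norm_pow, hζn, one_pow])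
      linarith
  calc ‖ζ ^ 3 - 1‖ ≤ 4 * |2 * L| := hmain
    _ ≤ 4 * (44 * Real.log n / n) := by gcongr
    _ = 176 * (Real.log n / n) := by ring
    _ ≤ 200 * (Real.log n / n) := by
        gcongr
        norm_num
    _ = _ := by ring


/-- Off the unit circle only finitely many degrees are exceptional. -/
theorem bad_finite {c : ℂ} (h : ‖c‖ ≠ 1) : (bad c).Finite := by
  have key : ∀ δ : ℝ, 0 < δ → (∀ n ∈ bad c, δ ≤ 200 * Real.log n / n) → (bad c).Finite := by
    intro δ hδ hh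
    obtain ⟨n₀, hn₀⟩ := eventually_small hδ
    apply (Set.finite_Iio n₀).subset
    intro n hn
    by_contra hcon
    rw [mem_Iio, not_lt] at hcon
    exact absurd (hn₀ n hcon) (not_lt.mpr (hh n hn))
  by_cases h0 : c = 0
  · apply Set.Finite.subset Set.finite_empty
    intro n hn
    exact absurd h0 (ne_zero_of_bad hn)
  · apply key |Real.log ‖c‖|
    · rw [abs_pos]
      have h1 : 0 < ‖c‖ := norm_pos_iff.mpr h0
      intro h2
      rcases Real.log_eq_zero.mp h2 with h3 | h3 | h3 <;> [linarith; exact h h3; linarith]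
    · exact fun n hn => log_norm_le hn

/-- at a root of unity -/
theorem bad_root {c : ℂ} {k : ℕ} (hk : 0 < k) (hck : c ^ k = 1) :
    {n | n ∈ bad c ∧ c ^ (3 * (n - 1)) ≠ 1}.Finite := by
  have hc1 : ‖c‖ = 1 := by
    have h1 : ‖c‖ ^ k = 1 := by rw [← norm_pow, hck, norm_one]
    exact (pow_eq_one_iff_of_nonneg (norm_nonneg c) (by omega)).mp h1
  obtain ⟨δ, hδ, hδ2⟩ := exists_lower ((Finset.range k).filter (fun i => c ^ i ≠ 1))
    (fun i => ‖c ^ i - 1‖) (by
      intro i hi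
      rw [Finset.mem_filter] at hi
      exact norm_pos_iff.mpr (sub_ne_zero.mpr hi.2))
  obtain ⟨n₀, hn₀⟩ := eventually_small hδ
  apply (Set.finite_Iio n₀).subset
  rintro n ⟨hn, h1⟩
  by_contra hcon
  rw [mem_Iio, not_lt] at hcon
  have h2 := norm_cube_le hc1 hn
  rw [pow_eq_pow_mod _ hck] at h1 h2
  have h3 := hδ2 _ (Finset.mem_filter.mpr ⟨Finset.mem_range.mpr (Nat.mod_lt _ hk), h1⟩)
  have h4 := hn₀ n hcon
  linarith

/-- The gaps between exceptional degrees tend to infinity. -/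
theorem gaps {c : ℂ} (hroot : ∀ k : ℕ, 0 < k → c ^ k ≠ 1) (Q : ℕ) :
    {n | n ∈ bad c ∧ ∃ m ∈ bad c, n < m ∧ m ≤ n + Q}.Finite := by
  by_cases hc1 : ‖c‖ ≠ 1
  · exact (bad_finite hc1).subset fun n hn => hn.1
  push Not at hc1
  obtain ⟨δ, hδ, hδ2⟩ := exists_lower (Finset.Icc 1 Q) (fun q => ‖c ^ (3 * q) - 1‖) (by
    intro q hq
    rw [Finset.mem_Icc] at hq
    exact norm_pos_iff.mpr (sub_ne_zero.mpr (hroot (3 * q) (by omega))))
  obtain ⟨n₀, hn₀⟩ := eventually_small (half_pos hδ)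
  apply (Set.finite_Iio n₀).subset
  rintro n ⟨hn, m, hm, hnm, hmQ⟩
  by_contra hcon
  rw [mem_Iio, not_lt] at hcon
  have h1 := norm_cube_le hc1 hn
  have h2 := norm_cube_le hc1 hm
  have h3 := hn₀ n hcon
  have h4 := hn₀ m (by omega)
  have h5 := hδ2 (m - n) (Finset.mem_Icc.mpr ⟨by omega, by omega⟩)
  have h6 : ‖c ^ (3 * (m - n)) - 1‖ = ‖(c ^ (3 * (m - 1)) - 1) - (c ^ (3 * (n - 1)) - 1)‖ := by
    have hn2 := hn.1
    have h7 : (c ^ (3 * (m - 1)) - 1) - (c ^ (3 * (n - 1)) - 1)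
        = c ^ (3 * (n - 1)) * (c ^ (3 * (m - n)) - 1) := by
      have : 3 * (m - 1) = 3 * (n - 1) + 3 * (m - n) := by omega
      rw [this, pow_add]; ring
    rw [h7, norm_mul, norm_pow, hc1, one_pow, one_mul]
  have h8 := norm_sub_le (c ^ (3 * (m - 1)) - 1) (c ^ (3 * (n - 1)) - 1)
  rw [← h6] at h8
  linarith

/-- The exceptional degrees have density zero. -/
theorem density {c : ℂ} (hc : ∀ k : ℕ, 0 < k → c ^ k ≠ 1) :
    Tendsto (fun N : ℕ => ((bad c ∩ Iio N).ncard : ℝ) / N) atTop (𝓝 0) := by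
  have key : ∀ Q : ℕ, ∃ n₀ : ℕ, ∀ N : ℕ, (bad c ∩ Iio N).ncard ≤ n₀ + (N / (Q + 1) + 1) := by
    intro Q
    obtain ⟨n₀, hn₀⟩ := (gaps hc Q).bddAbove
    refine ⟨n₀ + 1, fun N => ?_⟩
    have hsub : bad c ∩ Iio N ⊆ Iio (n₀ + 1) ∪ (bad c ∩ Ico (n₀ + 1) N) := by
      rintro n ⟨hn1, hn2⟩
      rcases lt_or_ge n (n₀ + 1) with h | h
      · exact Or.inl h
      · exact Or.inr ⟨hn1, h, hn2⟩
    have hfin : (bad c ∩ Ico (n₀ + 1) N).Finite := (finite_Ico _ _).subset inter_subset_right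
    have h1 : (bad c ∩ Iio N).ncard ≤ (Iio (n₀ + 1)).ncard + (bad c ∩ Ico (n₀ + 1) N).ncard :=
      (Set.ncard_le_ncard hsub ((finite_Iio _).union hfin)).trans (Set.ncard_union_le _ _)
    have h2 : (Iio (n₀ + 1) : Set ℕ).ncard = n₀ + 1 := by
      rw [← Finset.coe_Iio, Set.ncard_coe_finset, Nat.card_Iio]
    have h3 : (bad c ∩ Ico (n₀ + 1) N).ncard ≤ N / (Q + 1) + 1 := by
      have h4 : (Iio (N / (Q + 1) + 1) : Set ℕ).ncard = N / (Q + 1) + 1 := by
        rw [← Finset.coe_Iio, Set.ncard_coe_finset, Nat.card_Iio]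
      rw [← h4]
      apply Set.ncard_le_ncard_of_injOn (fun n => n / (Q + 1))
      · rintro n ⟨-, -, hn⟩
        rw [mem_Iio, Nat.lt_succ_iff]
        exact Nat.div_le_div_right (le_of_lt hn)
      · have hlt : ∀ n ∈ bad c ∩ Ico (n₀ + 1) N, ∀ m ∈ bad c ∩ Ico (n₀ + 1) N, n < m →
            n / (Q + 1) < m / (Q + 1) := by
          rintro n ⟨hn1, hn2, -⟩ m ⟨hm1, -, -⟩ hnm
          have h5 : n + (Q + 1) ≤ m := by
            by_contra hcon
            push Not at hcon
            have := hn₀ (show n ∈ {n | n ∈ bad c ∧ ∃ m ∈ bad c, n < m ∧ m ≤ n + Q} from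
              ⟨hn1, m, hm1, hnm, by omega⟩)
            omega
          calc n / (Q + 1) < n / (Q + 1) + 1 := Nat.lt_succ_self _
            _ = (n + (Q + 1)) / (Q + 1) := (Nat.add_div_right n (Nat.succ_pos Q)).symm
            _ ≤ m / (Q + 1) := Nat.div_le_div_right h5
        intro n hn m hm hnm
        simp only at hnm
        rcases lt_trichotomy n m with h | h | h
        · exact absurd hnm (hlt n hn m hm h).ne
        · exact h
        · exact absurd hnm (hlt m hm n hn h).ne'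
    omega
  rw [Metric.tendsto_atTop]
  intro ε hε
  obtain ⟨Q, hQ⟩ := exists_nat_one_div_lt (half_pos hε)
  obtain ⟨n₀, hn₀⟩ := key Q
  obtain ⟨N₀, hN₀⟩ := exists_nat_gt ((n₀ + 1 : ℝ) / (ε / 2))
  refine ⟨N₀ + 1, fun N hN => ?_⟩
  have hN0 : (0:ℝ) < N := by exact_mod_cast (by omega : 0 < N)
  rw [Real.dist_eq, sub_zero, abs_of_nonneg (by positivity), div_lt_iff₀ hN0]
  have h1 : ((bad c ∩ Iio N).ncard : ℝ) ≤ n₀ + ((N / (Q + 1) : ℕ) + 1) := by
    exact_mod_cast hn₀ N
  have h2 : ((N / (Q + 1) : ℕ) : ℝ) ≤ N * (1 / ((Q:ℝ) + 1)) := by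
    have := Nat.cast_div_le (α := ℝ) (m := N) (n := Q + 1)
    push_cast at this
    rw [mul_one_div]
    exact this
  have h3 : (N:ℝ) * (1 / ((Q:ℝ) + 1)) ≤ N * (ε / 2) := by gcongr
  have h4 : (N₀:ℝ) < N := by exact_mod_cast (by omega : N₀ < N)
  have h5 : (n₀ + 1 : ℝ) < N * (ε / 2) := by
    rw [div_lt_iff₀ (half_pos hε)] at hN₀
    exact hN₀.trans (by gcongr)
  linarith

theorem near_of_bad {n : ℕ} {θ : ℝ} (h : n ∈ bad (exp (θ * I))) :
    θ ∈ near (3 * (n - 1)) (200 * Real.log n / n) :=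
  norm_cube_le (Complex.norm_exp_ofReal_mul_I θ) h

/-- In each degree the exceptional set of the unit circle has small length. -/
theorem volume_bad {n : ℕ} (hn : 2 ≤ n) :
    volume {θ : ℝ | θ ∈ Icc 0 (2 * Real.pi) ∧ n ∈ bad (exp (θ * I))} ≤
      ENNReal.ofReal (12000 * Real.log n / n) := by
  have h1 : {θ : ℝ | θ ∈ Icc 0 (2 * Real.pi) ∧ n ∈ bad (exp (θ * I))} ⊆
      near (3 * (n - 1)) (200 * Real.log n / n) ∩ Icc (-((7:ℕ):ℝ)) (7:ℕ) := by
    rintro θ ⟨⟨h2, h3⟩, h4⟩
    have hpi := Real.pi_lt_d2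
    refine ⟨near_of_bad h4, ?_, ?_⟩
    · push_cast; linarith
    · push_cast; linarith
  have hl : 0 ≤ Real.log n := Real.log_nonneg (by exact_mod_cast (by omega : 1 ≤ n))
  refine (measure_mono h1).trans ((volume_near (by omega) (by positivity) 7).trans ?_)
  apply ENNReal.ofReal_le_ofReal
  have hpi := Real.pi_lt_d2
  have h2 : 0 ≤ 200 * Real.log n / n := by positivity
  calc (2 * ((7:ℕ):ℝ) + 3) * Real.pi * (200 * Real.log n / n)
      ≤ (2 * ((7:ℕ):ℝ) + 3) * 3.15 * (200 * Real.log n / n) := by gcongr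
    _ ≤ 60 * (200 * Real.log n / n) := by
        gcongr
        norm_num
    _ = _ := by ring

/-- At almost every parameter of the unit circle the number of exceptional degrees up to `N` is at
most a constant times `(log N) ^ s`, for every `s > 2`. -/
theorem ae_count {s : ℝ} (hs : 2 < s) :
    ∀ᵐ θ : ℝ, ∃ K : ℝ, ∀ N : ℕ, 2 ≤ N →
      ((bad (exp (θ * I)) ∩ Iic N).ncard : ℝ) ≤ K * Real.log N ^ s := by
  filter_upwards [ae_tsum hs] with θ hθ
  set F := ∑' n : ℕ, (near (3 * (n + 1)) (200 * Real.log (n + 2 : ℕ) / (n + 2 : ℕ))).indicator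
      (fun _ => ENNReal.ofReal ((1 + Real.log (n + 2 : ℕ)) ^ (-s))) θ with hF
  refine ⟨F.toReal * 3 ^ s, fun N hN => ?_⟩
  have hfin : (bad (exp (θ * I)) ∩ Iic N).Finite := (finite_Iic N).subset inter_subset_right
  set T := hfin.toFinset.image (fun n => n - 2) with hT
  have hmemT : ∀ n ∈ T, n + 2 ∈ bad (exp (θ * I)) ∧ n + 2 ≤ N := by
    intro n hn
    rw [hT, Finset.mem_image] at hn
    obtain ⟨m, hm, rfl⟩ := hn
    rw [Set.Finite.mem_toFinset] at hm
    have h2 := hm.1.1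
    rw [Nat.sub_add_cancel h2]
    exact ⟨hm.1, hm.2⟩
  have hcard : (bad (exp (θ * I)) ∩ Iic N).ncard = T.card := by
    rw [Set.ncard_eq_toFinset_card _ hfin, hT, Finset.card_image_of_injOn]
    intro a ha b hb hab
    simp only [Set.Finite.coe_toFinset] at ha hb
    have h1 := ha.1.1
    have h2 := hb.1.1
    simp only at hab
    omega
  have hl2 := Real.log_two_gt_d9
  have hlN := log_two_le hN
  have hpos : 0 < 1 + Real.log N := by linarith
  have h1 : ENNReal.ofReal (T.card * (1 + Real.log N) ^ (-s)) ≤ F := by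
    calc ENNReal.ofReal (T.card * (1 + Real.log N) ^ (-s))
        = ∑ n ∈ T, ENNReal.ofReal ((1 + Real.log N) ^ (-s)) := by
          rw [Finset.sum_const, nsmul_eq_mul, ← ENNReal.ofReal_natCast,
            ← ENNReal.ofReal_mul (by positivity)]
      _ ≤ ∑ n ∈ T, (near (3 * (n + 1)) (200 * Real.log (n + 2 : ℕ) / (n + 2 : ℕ))).indicator
            (fun _ => ENNReal.ofReal ((1 + Real.log (n + 2 : ℕ)) ^ (-s))) θ := by
          apply Finset.sum_le_sum
          intro n hn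
          obtain ⟨h2, h3⟩ := hmemT n hn
          have h4 := near_of_bad h2
          rw [show n + 2 - 1 = n + 1 by omega] at h4
          rw [Set.indicator_of_mem h4]
          apply ENNReal.ofReal_le_ofReal
          apply Real.rpow_le_rpow_of_nonpos _ _ (by linarith)
          · have := Real.log_natCast_nonneg (n + 2)
            linarith
          · have h5 : Real.log (n + 2 : ℕ) ≤ Real.log N :=
              Real.log_le_log (by positivity) (by exact_mod_cast h3)
            linarith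
      _ ≤ F := ENNReal.sum_le_tsum _
  have h2 : (T.card : ℝ) * (1 + Real.log N) ^ (-s) ≤ F.toReal := by
    rw [← ENNReal.ofReal_le_iff_le_toReal hθ.ne]
    exact h1
  rw [hcard]
  have h3 : (T.card : ℝ) ≤ F.toReal * (1 + Real.log N) ^ s := by
    have h4 : (1 + Real.log N) ^ (-s) * (1 + Real.log N) ^ s = 1 := by
      rw [← Real.rpow_add hpos]; simp
    calc (T.card : ℝ) = (T.card : ℝ) * (1 + Real.log N) ^ (-s) * (1 + Real.log N) ^ s := by
          rw [mul_assoc, h4, mul_one]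
      _ ≤ F.toReal * (1 + Real.log N) ^ s := by gcongr
  have h5 : (1 + Real.log N) ^ s ≤ 3 ^ s * Real.log N ^ s := by
    rw [← Real.mul_rpow (by norm_num) (by linarith)]
    apply Real.rpow_le_rpow hpos.le _ (by linarith)
    linarith
  calc (T.card : ℝ) ≤ F.toReal * (1 + Real.log N) ^ s := h3
    _ ≤ F.toReal * (3 ^ s * Real.log N ^ s) := by gcongr
    _ = _ := by ring


end Pool.Agent.R240.Alm
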