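import Pool.Agent.R240.Alm
import Pool.Agent.H712R2.MultibrotConnected

set_option autoImplicit false

/-! # Local connectivity at a fixed parameter in almost all degrees -/

namespace Pool.Agent.R240.Alm

open Complex Metric Set Filter Topology MeasureTheory N62a1eb23
open Pool.Agent.H462R2.AD (hyp near volume_near)

/-- hyperbolic parameters are interior points -/
theorem att_interior {n : ℕ} (hn : 2 ≤ n) {c : ℂ} (h : c ∈ hyp n) :
    c ∈ interior (multibrotSet n) := by
  obtain ⟨m, z, hm, hz, -, hlt⟩ := h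
  obtain ⟨F, hF⟩ : ∃ F : ℂ × ℂ → ℂ, F = fun q => (Pool.Agent.H712R2.fc n q.1)^[m] q.2 := ⟨_, rfl⟩
  have hFc : ContDiff ℂ ⊤ F := by
    rw [hF]
    exact Pool.Agent.Y736.RN.contDiff_it n m
  have hFd : Differentiable ℂ F := hFc.differentiable (by simp)
  have hder : ∀ c' w : ℂ, deriv ((fun z : ℂ => z ^ n + c')^[m]) w = fderiv ℂ F (c', w) (0, 1) := by
    intro c' w
    have h1 : HasFDerivAt F (fderiv ℂ F (c', w)) (c', w) := (hFd _).hasFDerivAt
    have h2 : HasDerivAt (fun y : ℂ => ((c', y) : ℂ × ℂ)) (0, 1) w :=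
      (hasDerivAt_const w c').prodMk (hasDerivAt_id w)
    have h3 := h1.comp_hasDerivAt w h2
    have h4 : (F ∘ fun y : ℂ => (c', y)) = (fun z : ℂ => z ^ n + c')^[m] := by
      rw [hF]
      rfl
    rw [h4] at h3
    exact h3.deriv
  obtain ⟨q, hq1, hq2⟩ := exists_between hlt
  have hq0 : 0 ≤ q := (norm_nonneg _).trans hq1.le
  have hcont : Continuous fun p : ℂ × ℂ => ‖fderiv ℂ F p (0, 1)‖ :=
    ((hFc.continuous_fderiv (by simp)).clm_apply continuous_const).norm
  have hev : ∀ᶠ p in 𝓝 (c, z), ‖fderiv ℂ F p (0, 1)‖ < q := by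
    apply hcont.continuousAt.eventually_lt continuousAt_const
    rw [← hder c z]
    exact hq1
  obtain ⟨δ, hδ, hδ1⟩ := Metric.eventually_nhds_iff.1 hev
  have hcz : Continuous fun c' : ℂ => ‖F (c', z) - z‖ := by
    have := hFc.continuous
    fun_prop
  have hev2 : ∀ᶠ c' in 𝓝 c, ‖F (c', z) - z‖ < (1 - q) * (δ / 2) := by
    apply hcz.continuousAt.eventually_lt continuousAt_const
    have h1 : F (c, z) = z := by rw [hF]; exact hz
    rw [h1, sub_self, norm_zero]
    have : 0 < 1 - q := by linarith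
    positivity
  rw [mem_interior_iff_mem_nhds]
  filter_upwards [hev2, ball_mem_nhds c hδ] with c' h1 h2
  have hdq : ∀ w ∈ closedBall z (δ / 2), ‖deriv ((fun z : ℂ => z ^ n + c')^[m]) w‖ ≤ q := by
    intro w hw
    rw [hder c' w]
    apply (hδ1 _).le
    rw [Prod.dist_eq, max_lt_iff]
    rw [mem_ball] at h2
    rw [mem_closedBall] at hw
    exact ⟨h2, by show dist w z < δ; linarith⟩
  have hdiff : Differentiable ℂ ((fun z : ℂ => z ^ n + c')^[m]) :=
    (by fun_prop : Differentiable ℂ (fun z : ℂ => z ^ n + c')).iterate m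
  have hzm : z ∈ closedBall z (δ / 2) := mem_closedBall_self (by positivity)
  obtain ⟨z', -, hz1, hz2⟩ := Pool.Agent.H749R2.Hyp.fixed_of_contr (c := z) (ρ := δ / 2)
    (by positivity) hq0 hq2 hdiff (by
      intro w hw
      have h3 := (convex_closedBall z (δ / 2)).norm_image_sub_le_of_norm_deriv_le
        (f := (fun z : ℂ => z ^ n + c')^[m]) (fun x _ => hdiff x) hdq hzm hw
      rw [mem_closedBall, dist_eq_norm] at hw ⊢
      have h4 : ‖((fun z : ℂ => z ^ n + c')^[m]) z - z‖ < (1 - q) * (δ / 2) := by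
        rw [hF] at h1
        exact h1
      have h5 := norm_add_le (((fun z : ℂ => z ^ n + c')^[m]) w - ((fun z : ℂ => z ^ n + c')^[m]) z)
        (((fun z : ℂ => z ^ n + c')^[m]) z - z)
      rw [sub_add_sub_cancel] at h5
      have h6 : q * ‖w - z‖ ≤ q * (δ / 2) := by gcongr
      linarith) hdq
  exact Pool.Agent.TH363.CD.mem_multibrot hn (z := z') (m := m) ⟨hm, hz1, hdiff z', hz2⟩

/-- local connectivity at a point -/
def LCAt (K : Set ℂ) (c : ℂ) : Prop :=
  ∀ U ∈ 𝓝 c, ∃ V ⊆ U, IsOpen V ∧ c ∈ V ∧ IsPreconnected (K ∩ V)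

theorem lc_interior {K : Set ℂ} {c : ℂ} (h : c ∈ interior K) : LCAt K c := by
  intro U hU
  obtain ⟨ε, hε, hsub⟩ := Metric.mem_nhds_iff.1 (inter_mem hU (mem_interior_iff_mem_nhds.1 h))
  refine ⟨ball c ε, fun x hx => (hsub hx).1, isOpen_ball, mem_ball_self hε, ?_⟩
  have : K ∩ ball c ε = ball c ε := inter_eq_right.2 fun x hx => (hsub hx).2
  rw [this]
  exact (convex_ball c ε).isPreconnected

theorem lc_compl {K : Set ℂ} (hK : IsClosed K) {c : ℂ} (h : c ∉ K) : LCAt K c := by
  intro U hU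
  have h1 : U ∩ Kᶜ ∈ 𝓝 c := inter_mem hU (hK.isOpen_compl.mem_nhds h)
  obtain ⟨ε, hε, hsub⟩ := Metric.mem_nhds_iff.1 h1
  refine ⟨ball c ε, fun x hx => (hsub hx).1, isOpen_ball, mem_ball_self hε, ?_⟩
  have : K ∩ ball c ε = ∅ := by
    rw [eq_empty_iff_forall_notMem]
    rintro x ⟨hx1, hx2⟩
    exact (hsub hx2).2 hx1
  rw [this]
  exact isPreconnected_empty

theorem lc_zero (c : ℂ) : LCAt (multibrotSet 0) c := by
  apply lc_interior
  have : multibrotSet 0 = univ := by
    rw [eq_univ_iff_forall]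
    intro x hx
    have h1 : ∀ k : ℕ, (fun z : ℂ => z ^ 0 + x)^[k + 1] 0 = 1 + x := by
      intro k
      rw [Function.iterate_succ_apply']
      simp
    have h2 := hx.comp (tendsto_add_atTop_nat 1)
    have h3 : Tendsto (fun _ : ℕ => 1 + x) atTop (Bornology.cobounded ℂ) := h2.congr h1
    exact not_tendsto_const_atTop ‖1 + x‖ (atTop : Filter ℕ) (tendsto_norm_cobounded_atTop.comp h3)
  rw [this, interior_univ]
  trivial

theorem lc_one (c : ℂ) : LCAt (multibrotSet 1) c := by
  have hsub : multibrotSet 1 ⊆ {0} := by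
    intro x hx
    by_contra h0
    have h0' : x ≠ 0 := h0
    apply hx
    have h1 : ∀ k : ℕ, (fun z : ℂ => z ^ 1 + x)^[k] 0 = k * x := by
      intro k
      induction k with
      | zero => simp
      | succ k ih =>
        rw [Function.iterate_succ_apply', ih]
        push_cast
        ring
    rw [← tendsto_norm_atTop_iff_cobounded]
    have h2 : Tendsto (fun k : ℕ => (k : ℝ) * ‖x‖) atTop atTop :=
      tendsto_natCast_atTop_atTop.atTop_mul_const (norm_pos_iff.2 h0')
    refine h2.congr fun k => ?_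
    rw [h1 k, norm_mul, Complex.norm_natCast]
  intro U hU
  obtain ⟨ε, hε, hb⟩ := Metric.mem_nhds_iff.1 hU
  refine ⟨ball c ε, hb, isOpen_ball, mem_ball_self hε, ?_⟩
  apply Set.Subsingleton.isPreconnected
  intro x hx y hy
  have h1 : x = 0 := hsub hx.1
  have h2 : y = 0 := hsub hy.1
  rw [h1, h2]

/-- the degrees in which the Multibrot set is not locally connected at `c` -/
def E (c : ℂ) : Set ℕ := {n | ¬ LCAt (multibrotSet n) c}

theorem E_sub (c : ℂ) : E c ⊆ bad c := by
  intro n hn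
  have h2 : 2 ≤ n := by
    by_contra hcon
    have h3 : n = 0 ∨ n = 1 := by omega
    rcases h3 with rfl | rfl
    · exact hn (lc_zero c)
    · exact hn (lc_one c)
  refine ⟨h2, ?_, ?_⟩
  · by_contra hcon
    exact hn (lc_compl (Pool.Agent.H712R2.isCompact_multibrot h2).isClosed hcon)
  · intro hcon
    exact hn (lc_interior (att_interior h2 hcon))

end Pool.Agent.R240.Alm
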