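import Pool.Agent.R240.Sch
import Pool.Agent.H712R2.Par

set_option autoImplicit false

/-! # Harnack chains of parameters without centres of period dividing `N + 1` -/

namespace Pool.Agent.R240

open Complex Metric Set Filter Topology Pool.Agent.H712R2 Pool.Agent.H713R2 N62a1eb23

theorem P_at_zero {d : ℕ} (hd : 2 ≤ d) (n : ℕ) : P d n 0 = 0 := by
  induction n with
  | zero => rw [P_zero]
  | succ n ih => rw [P_succ, ih, zero_pow (by omega), zero_add]

/-- one step, along a holomorphic disc of parameters -/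
theorem disc_step {d N : ℕ} (hd : 2 ≤ d) {γ : ℂ → ℂ} (hγ : DifferentiableOn ℂ γ (ball 0 1))
    (hno : ∀ t ∈ ball (0 : ℂ) 1, P d (N + 1) (γ t) ≠ 0) {A : ℝ} (hA : 1 ≤ A)
    (h0 : ‖P d N (γ 0)‖ ^ d ≤ A * ‖γ 0‖) {t : ℂ} (ht : ‖t‖ ≤ 1 / 4) :
    ‖P d N (γ t)‖ ^ d ≤ SH A * ‖γ t‖ := by
  have hd0 : (d : ℂ) ≠ 0 := by
    have : d ≠ 0 := by omega
    exact_mod_cast this
  have hγ0 : ∀ t ∈ ball (0 : ℂ) 1, γ t ≠ 0 := by
    intro t ht h
    apply hno t ht
    rw [h]
    exact P_at_zero hd _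
  have h00 : (0 : ℂ) ∈ ball (0 : ℂ) 1 := mem_ball_self one_pos
  obtain ⟨ℓ, hℓd, -, hℓ⟩ := Pool.Agent.H712R2.M.exists_log_ball (g := fun t => -γ t) one_pos hγ.neg
    (fun z hz => neg_ne_zero.2 (hγ0 z hz)) (Complex.log (-γ 0))
    (Complex.exp_log (neg_ne_zero.2 (hγ0 0 h00)))
  obtain ⟨g, hg⟩ : ∃ g : ℂ → ℂ, g = fun t => P d N (γ t) * exp (-(ℓ t / d)) := ⟨_, rfl⟩
  have hgd : DifferentiableOn ℂ g (ball 0 1) := by
    rw [hg]
    apply DifferentiableOn.mul
    · exact (differentiable_P d N).comp_differentiableOn hγ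
    · exact ((hℓd.div_const _).neg).cexp
  have hpow : ∀ z ∈ ball (0 : ℂ) 1, g z ^ d = P d N (γ z) ^ d / (-γ z) := by
    intro z hz
    rw [hg]
    simp only
    rw [mul_pow, ← exp_nat_mul]
    have h1 : (d : ℂ) * -(ℓ z / d) = -ℓ z := by field_simp
    rw [h1, exp_neg, hℓ z hz]
    rfl
  have hnorm : ∀ z ∈ ball (0 : ℂ) 1, ‖g z‖ ^ d = ‖P d N (γ z)‖ ^ d / ‖γ z‖ := by
    intro z hz
    rw [← norm_pow, hpow z hz, norm_div, norm_pow, norm_neg]
  have h1 := omit_roots hd hgd (fun z hz h => by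
    rw [hpow z hz, div_eq_one_iff_eq (neg_ne_zero.2 (hγ0 z hz))] at h
    apply hno z hz
    rw [P_succ, h]
    ring) hA (by
      rw [hnorm 0 h00, div_le_iff₀ (norm_pos_iff.2 (hγ0 0 h00))]
      exact h0) ht
  have htb : t ∈ ball (0 : ℂ) 1 := by
    rw [mem_ball_zero_iff]; linarith
  rw [hnorm t htb, div_le_iff₀ (norm_pos_iff.2 (hγ0 t htb))] at h1
  exact h1

theorem SH_iter {A : ℝ} (hA : 1 ≤ A) (k : ℕ) : 1 ≤ SH^[k] A := by
  induction k with
  | zero => exact hA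
  | succ k ih =>
    rw [Function.iterate_succ_apply']
    exact SH_one ih

/-- the chain in a strip -/
theorem strip {d N : ℕ} (hd : 2 ≤ d) {e z₀ : ℂ} {a b : ℝ}
    (hno : ∀ w : ℂ, a - 1 < w.re → w.re < b + 1 → P d (N + 1) (e + (z₀ - e) * exp w) ≠ 0)
    {A : ℝ} (hA : 1 ≤ A) (h0 : ‖P d N z₀‖ ^ d ≤ A * ‖z₀‖) (ha : a ≤ 0) (hb : 0 ≤ b)
    {w : ℂ} (hw1 : a ≤ w.re) (hw2 : w.re ≤ b) {n : ℕ} (hn : 1 ≤ n) (hwn : ‖w‖ ≤ n / 4) :
    ‖P d N (e + (z₀ - e) * exp w)‖ ^ d ≤ SH^[n] A * ‖e + (z₀ - e) * exp w‖ := by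
  have hn0 : (0 : ℝ) < n := by exact_mod_cast hn
  have key : ∀ k : ℕ, k ≤ n → ‖P d N (e + (z₀ - e) * exp (((k : ℝ) / n : ℝ) * w))‖ ^ d ≤
      SH^[k] A * ‖e + (z₀ - e) * exp (((k : ℝ) / n : ℝ) * w)‖ := by
    intro k
    induction k with
    | zero =>
      intro _
      simpa using h0
    | succ k ih =>
      intro hk
      have hk1 : (k : ℝ) + 1 ≤ n := by exact_mod_cast hk
      obtain ⟨s, hs⟩ : ∃ s : ℝ, s = (k : ℝ) / n := ⟨_, rfl⟩
      have hs0 : 0 ≤ s := by rw [hs]; positivity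
      have hs1 : s ≤ 1 := by
        rw [hs, div_le_one hn0]; linarith
      have hre : ∀ t : ℂ, ((s : ℂ) * w + t).re = s * w.re + t.re := by
        intro t
        rw [add_re, re_ofReal_mul]
      have hrange : a ≤ s * w.re ∧ s * w.re ≤ b := by
        constructor <;> nlinarith
      have h1 := disc_step (N := N) hd (γ := fun t => e + (z₀ - e) * exp ((s : ℂ) * w + t))
        (by fun_prop) (fun t ht => by
          rw [mem_ball_zero_iff] at ht
          have h2 := (abs_le.1 ((abs_re_le_norm t).trans ht.le))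
          have h3 : |t.re| < 1 := (abs_re_le_norm t).trans_lt ht
          rw [abs_lt] at h3
          apply hno
          · rw [hre]; linarith [hrange.1]
          · rw [hre]; linarith [hrange.2]) (SH_iter hA k) (by
          simp only [add_zero]
          rw [hs]
          exact ih (by omega)) (t := ((1 : ℝ) / n : ℝ) * w) (by
          rw [norm_mul, Complex.norm_real, Real.norm_eq_abs, abs_of_pos (by positivity),
            one_div, inv_mul_le_iff₀ hn0]
          linarith)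
      have h4 : (s : ℂ) * w + ((1 : ℝ) / n : ℝ) * w = (((k + 1 : ℕ) : ℝ) / n : ℝ) * w := by
        rw [← add_mul, hs]
        push_cast
        ring
      simp only [h4] at h1
      rw [Function.iterate_succ_apply']
      exact h1
  have h1 := key n le_rfl
  rw [div_self hn0.ne'] at h1
  simpa using h1

theorem norm_P_succ_le {d N : ℕ} {x : ℂ} {A : ℝ} (h : ‖P d N x‖ ^ d ≤ A * ‖x‖) :
    ‖P d (N + 1) x‖ ≤ (A + 1) * ‖x‖ := by
  rw [P_succ]
  refine (norm_add_le _ _).trans ?_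
  rw [norm_pow]
  linarith

/-- **A free annulus.** If there are no centres of period dividing `N + 1` in the annulus
`e⁻¹ δ < |x - e| < e⁴ δ` then the critical orbit is bounded at the time `N + 1` in the disc of
radius `e³ δ`. -/
theorem free_annulus {d N : ℕ} (hd : 2 ≤ d) {e z₀ : ℂ} {δ : ℝ} (hδ : δ = ‖z₀ - e‖)
    (hδ0 : 0 < δ)
    (hno : ∀ x : ℂ, Real.exp (-1) * δ < ‖x - e‖ → ‖x - e‖ < Real.exp 4 * δ →
      P d (N + 1) x ≠ 0)
    {A : ℝ} (hA : 1 ≤ A) (h0 : ‖P d N z₀‖ ^ d ≤ A * ‖z₀‖) {x : ℂ}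
    (hx : ‖x - e‖ ≤ Real.exp 3 * δ) :
    ‖P d (N + 1) x‖ ≤ (SH^[20] A + 1) * (‖e‖ + Real.exp 3 * δ) := by
  have hne : z₀ - e ≠ 0 := by
    rw [← norm_pos_iff, ← hδ]; exact hδ0
  have hR : 0 < Real.exp 3 * δ := mul_pos (Real.exp_pos _) hδ0
  have hS : 1 ≤ SH^[20] A := SH_iter hA 20
  have hcirc : ∀ y : ℂ, ‖y - e‖ = Real.exp 3 * δ →
      ‖P d (N + 1) y‖ ≤ (SH^[20] A + 1) * (‖e‖ + Real.exp 3 * δ) := by
    intro y hy
    have hq : (y - e) / (z₀ - e) ≠ 0 := by
      apply div_ne_zero _ hne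
      rw [← norm_pos_iff, hy]
      exact hR
    obtain ⟨w, hw⟩ : ∃ w, w = Complex.log ((y - e) / (z₀ - e)) := ⟨_, rfl⟩
    have hexp : exp w = (y - e) / (z₀ - e) := by rw [hw, Complex.exp_log hq]
    have hre : w.re = 3 := by
      rw [hw, Complex.log_re, norm_div, hy, ← hδ, mul_div_assoc, div_self hδ0.ne', mul_one,
        Real.log_exp]
    have him : |w.im| ≤ Real.pi := by
      rw [hw, Complex.log_im]
      exact Complex.abs_arg_le_pi _
    have hwn : ‖w‖ ≤ 5 := by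
      rw [← abs_of_nonneg (show (0 : ℝ) ≤ 5 by norm_num), ← abs_of_nonneg (norm_nonneg w),
        ← sq_le_sq, ← Complex.normSq_eq_norm_sq, Complex.normSq_apply, hre]
      have h1 : w.im ^ 2 ≤ Real.pi ^ 2 := by
        rw [sq_le_sq, abs_of_pos Real.pi_pos]; exact him
      have h2 : Real.pi ^ 2 ≤ 3.15 ^ 2 := by
        have := Real.pi_lt_d2
        have := Real.pi_pos
        gcongr
      nlinarith
    have hy' : e + (z₀ - e) * exp w = y := by
      rw [hexp]; field_simp; ring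
    have h1 := strip (N := N) hd (e := e) (z₀ := z₀) (a := 0) (b := 3) (fun v hv1 hv2 => by
      apply hno
      · have h2 : e + (z₀ - e) * exp v - e = (z₀ - e) * exp v := by ring
        rw [h2, norm_mul, Complex.norm_exp, ← hδ, mul_comm]
        apply mul_lt_mul_of_pos_left _ hδ0
        exact Real.exp_lt_exp.2 (by linarith)
      · have h2 : e + (z₀ - e) * exp v - e = (z₀ - e) * exp v := by ring
        rw [h2, norm_mul, Complex.norm_exp, ← hδ, mul_comm]
        apply mul_lt_mul_of_pos_right _ hδ0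
        exact Real.exp_lt_exp.2 (by linarith)) hA h0 le_rfl (by norm_num) (w := w)
      (by rw [hre]; norm_num) (by rw [hre]) (n := 20) (by norm_num) (by norm_num; exact hwn)
    rw [hy'] at h1
    refine (norm_P_succ_le h1).trans ?_
    gcongr
    have h2 : y = e + (y - e) := by ring
    rw [h2]
    refine (norm_add_le _ _).trans ?_
    rw [hy]
  have h1 := Complex.norm_le_of_forall_mem_frontier_norm_le (U := ball e (Real.exp 3 * δ))
    isBounded_ball ((differentiable_P d (N + 1)).diffContOnCl)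
    (C := (SH^[20] A + 1) * (‖e‖ + Real.exp 3 * δ)) (fun y hy => by
      rw [frontier_ball _ hR.ne', mem_sphere, dist_eq_norm] at hy
      exact hcirc y hy) (z := x) (by
      rw [closure_ball _ hR.ne', mem_closedBall, dist_eq_norm]
      exact hx)
  exact h1

/-- **A free disc.** -/
theorem free_disc {d N : ℕ} (hd : 2 ≤ d) {z₀ : ℂ} {ρ : ℝ} (hρ : 0 < ρ)
    (hno : ∀ x : ℂ, ‖x - z₀‖ < ρ → P d (N + 1) x ≠ 0)
    {A : ℝ} (hA : 1 ≤ A) (h0 : ‖P d N z₀‖ ^ d ≤ A * ‖z₀‖) {x : ℂ}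
    (hx : ‖x - z₀‖ ≤ ρ / 4) :
    ‖P d (N + 1) x‖ ≤ (SH A + 1) * (‖z₀‖ + ρ) := by
  have hρC : (ρ : ℂ) ≠ 0 := by exact_mod_cast hρ.ne'
  have h1 := disc_step (N := N) hd (γ := fun t => z₀ + ρ * t) (by fun_prop) (fun t ht => by
    rw [mem_ball_zero_iff] at ht
    apply hno
    rw [add_sub_cancel_left, norm_mul, Complex.norm_real, Real.norm_eq_abs, abs_of_pos hρ]
    nlinarith) hA (by simpa using h0) (t := (x - z₀) / ρ) (by
      rw [norm_div, Complex.norm_real, Real.norm_eq_abs, abs_of_pos hρ, div_le_iff₀ hρ]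
      linarith)
  have h2 : z₀ + ρ * ((x - z₀) / ρ) = x := by field_simp; ring
  simp only [h2] at h1
  refine (norm_P_succ_le h1).trans ?_
  have hS := SH_one hA
  gcongr
  have h3 : x = z₀ + (x - z₀) := by ring
  rw [h3]
  refine (norm_add_le _ _).trans ?_
  linarith

end Pool.Agent.R240
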