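import Pool.Agent.R240.Count
import Pool.Agent.W746.LD.Final

set_option autoImplicit false

/-! # The nearest superattracting parameter and the Newton step -/

namespace Pool.Agent.R240

open Complex Metric Set Filter Topology Pool.Agent.H712R2 Pool.Agent.H713R2 N62a1eb23

variable {d N : ℕ}

theorem P_small (hd : 2 ≤ d) {c : ℂ} (hc : ‖c‖ ≤ 1 / 8) (k : ℕ) : ‖P d k c‖ ≤ 2 * ‖c‖ := by
  induction k with
  | zero => rw [P_zero]; simp
  | succ k ih =>
    rw [P_succ]
    refine (norm_add_le _ _).trans ?_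
    rw [norm_pow]
    have h1 : ‖P d k c‖ ≤ 1 := by linarith
    have h2 : ‖P d k c‖ ^ d ≤ ‖P d k c‖ ^ 2 := pow_le_pow_of_le_one (norm_nonneg _) h1 hd
    have h3 := norm_nonneg (P d k c)
    nlinarith [norm_nonneg c]

/-- the constant -/
noncomputable def KN : ℝ := 8 * (Real.log ((2 + SH 17) * (5 / 4)) + 4 * Real.log 2 + 1)

theorem one_le_SH : 1 ≤ SH 17 := SH_one (by norm_num)

theorem KN_pos : 0 < KN := by
  have h1 := one_le_SH
  have h2 : 0 ≤ Real.log ((2 + SH 17) * (5 / 4)) := Real.log_nonneg (by linarith)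
  have h3 : 0 < Real.log 2 := Real.log_pos (by norm_num)
  unfold KN
  positivity

theorem newton (hd : 2 ≤ d) {c : ℂ} (hc : ‖P d (N + 1) c‖ ≤ 2) (hc2 : ‖c‖ ≤ 2) :
    ∃ c' : ℂ, P d (N + 1) c' = 0 ∧ ‖c' - c‖ * ‖deriv (P d (N + 1)) c‖ ≤
      KN * ‖P d (N + 1) c‖ * (1 + |Real.log ‖P d (N + 1) c‖|) := by
  have hKN := KN_pos
  by_cases h0 : P d (N + 1) c = 0
  · refine ⟨c, h0, ?_⟩
    rw [h0]
    simp
  -- the nearest zero
  obtain ⟨Z, hZ⟩ : ∃ Z : Set ℂ, Z = {x | P d (N + 1) x = 0} := ⟨_, rfl⟩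
  have hZc : IsClosed Z := by
    rw [hZ]
    exact isClosed_eq (differentiable_P d (N + 1)).continuous continuous_const
  have hZ0 : (0 : ℂ) ∈ Z := by
    rw [hZ]
    exact P_at_zero hd _
  obtain ⟨c', hc', hdist⟩ := hZc.exists_infDist_eq_dist ⟨0, hZ0⟩ c
  obtain ⟨ρ, hρ⟩ : ∃ ρ, ρ = ‖c' - c‖ := ⟨_, rfl⟩
  have hρd : infDist c Z = ρ := by
    rw [hdist, hρ, dist_comm, dist_eq_norm]
  have hρ0 : 0 < ρ := by
    rw [hρ, norm_pos_iff, sub_ne_zero]
    rintro rfl
    rw [hZ] at hc'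
    exact h0 hc'
  have hρc : ρ ≤ ‖c‖ := by
    rw [← hρd]
    refine (infDist_le_dist_of_mem hZ0).trans ?_
    rw [dist_zero_right]
  have hfree : ∀ x ∈ ball c ρ, P d (N + 1) x ≠ 0 := by
    intro x hx h
    rw [mem_ball, dist_comm] at hx
    have h1 : x ∈ Z := by rw [hZ]; exact h
    have h2 := infDist_le_dist_of_mem (x := c) h1
    rw [hρd] at h2
    linarith
  have hc0 : 0 < ‖c‖ := hρ0.trans_le hρc
  refine ⟨c', by rw [hZ] at hc'; exact hc', ?_⟩
  rw [← hρ]
  -- the initial bound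
  have hA : ‖P d N c‖ ^ d ≤ 17 * ‖c‖ := by
    rcases le_total ‖c‖ (1 / 8) with h | h
    · have h1 := P_small hd h N
      have h2 : ‖P d N c‖ ^ d ≤ ‖P d N c‖ ^ 2 :=
        pow_le_pow_of_le_one (norm_nonneg _) (by linarith) hd
      nlinarith [norm_nonneg (P d N c)]
    · have h1 : P d N c ^ d = P d (N + 1) c - c := by
        rw [P_succ]; ring
      rw [← norm_pow, h1]
      refine (norm_sub_le _ _).trans ?_
      linarith
  have hlow : ‖c‖ ≤ 16 * ‖P d (N + 1) c‖ ∨ 1 / 8 ≤ ‖c‖ := by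
    rcases le_total ‖c‖ (1 / 8) with h | h
    · left
      have h1 := P_small hd h N
      have h2 : ‖P d N c‖ ^ d ≤ ‖P d N c‖ ^ 2 :=
        pow_le_pow_of_le_one (norm_nonneg _) (by linarith) hd
      have h3 : c = P d (N + 1) c - P d N c ^ d := by
        rw [P_succ]; ring
      have h4 := norm_sub_le (P d (N + 1) c) (P d N c ^ d)
      rw [← h3, norm_pow] at h4
      nlinarith [norm_nonneg (P d N c), norm_nonneg (P d (N + 1) c)]
    · right; exact h
  -- Schottky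
  have hstep : ∀ x ∈ ball c (ρ / 4), ‖P d (N + 1) x‖ < (2 + SH 17) * (5 / 4) * ‖c‖ := by
    intro x hx
    rw [mem_ball, dist_eq_norm] at hx
    have hρC : (ρ : ℂ) ≠ 0 := by exact_mod_cast hρ0.ne'
    have h1 := disc_step (N := N) hd (γ := fun t => c + ρ * t) (by fun_prop) (fun t ht => by
      rw [mem_ball_zero_iff] at ht
      apply hfree
      rw [mem_ball, dist_eq_norm, add_sub_cancel_left, norm_mul, Complex.norm_real,
        Real.norm_eq_abs, abs_of_pos hρ0]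
      nlinarith) (A := 17) (by norm_num) (by simpa using hA) (t := (x - c) / ρ) (by
      rw [norm_div, Complex.norm_real, Real.norm_eq_abs, abs_of_pos hρ0, div_le_iff₀ hρ0]
      linarith)
    have h2 : c + ρ * ((x - c) / ρ) = x := by
      field_simp
      ring
    simp only [h2] at h1
    have h3 : ‖x‖ ≤ 5 / 4 * ‖c‖ := by
      have h4 := norm_add_le (x - c) c
      rw [sub_add_cancel] at h4
      linarith
    have h4 : ‖P d (N + 1) x‖ ≤ ‖P d N x‖ ^ d + ‖x‖ := by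
      rw [P_succ]
      refine (norm_add_le _ _).trans ?_
      rw [norm_pow]
    have h5 := one_le_SH
    have h6 : SH 17 * ‖x‖ ≤ SH 17 * (5 / 4 * ‖c‖) := by gcongr
    nlinarith
  have hS := Pool.Agent.W746.LD.schwarz_log (F := P d (N + 1)) (a := c) (r := ρ / 4) (by positivity)
    (differentiable_P d (N + 1)).differentiableOn (fun t ht => hfree t (ball_subset_ball
      (by linarith) ht)) hstep
  have hP0 : 0 < ‖P d (N + 1) c‖ := norm_pos_iff.2 h0
  have hS1 := one_le_SH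
  have hlog : Real.log ((2 + SH 17) * (5 / 4) * ‖c‖ / ‖P d (N + 1) c‖) ≤
      Real.log ((2 + SH 17) * (5 / 4)) + (4 * Real.log 2 + |Real.log ‖P d (N + 1) c‖|) := by
    rw [mul_div_assoc, Real.log_mul (by positivity) (by positivity)]
    apply add_le_add_right
    rw [Real.log_div hc0.ne' hP0.ne']
    have h2 : Real.log 16 = 4 * Real.log 2 := by
      rw [show (16 : ℝ) = 2 ^ 4 by norm_num, Real.log_pow]
      norm_num
    have h3 : 0 < Real.log 2 := Real.log_pos (by norm_num)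
    rcases hlow with h | h
    · have h1 := Real.log_le_log hc0 h
      rw [Real.log_mul (by norm_num) hP0.ne', h2] at h1
      linarith [abs_nonneg (Real.log ‖P d (N + 1) c‖)]
    · have h1 := Real.log_le_log hc0 hc2
      have h4 := neg_abs_le (Real.log ‖P d (N + 1) c‖)
      linarith
  have hfin : ρ * ‖deriv (P d (N + 1)) c‖ ≤ 8 * ‖P d (N + 1) c‖ *
      (Real.log ((2 + SH 17) * (5 / 4)) + (4 * Real.log 2 + |Real.log ‖P d (N + 1) c‖|)) := by
    have h1 := mul_le_mul_of_nonneg_left hlog (show 0 ≤ 2 * ‖P d (N + 1) c‖ by positivity)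
    nlinarith
  refine hfin.trans ?_
  have h2 : 0 ≤ Real.log ((2 + SH 17) * (5 / 4)) := Real.log_nonneg (by linarith)
  have h3 : 0 < Real.log 2 := Real.log_pos (by norm_num)
  have h4 := abs_nonneg (Real.log ‖P d (N + 1) c‖)
  unfold KN
  obtain ⟨L, hL⟩ : ∃ L, L = Real.log ((2 + SH 17) * (5 / 4)) + 4 * Real.log 2 := ⟨_, rfl⟩
  have hL0 : 0 ≤ L := by rw [hL]; positivity
  obtain ⟨X, hX⟩ : ∃ X, X = |Real.log ‖P d (N + 1) c‖| := ⟨_, rfl⟩
  rw [← hX] at h4 ⊢
  rw [← hL]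
  have h5 : Real.log ((2 + SH 17) * (5 / 4)) + (4 * Real.log 2 + X) ≤ (L + 1) * (1 + X) := by
    rw [← add_assoc, ← hL]
    nlinarith
  calc 8 * ‖P d (N + 1) c‖ * (Real.log ((2 + SH 17) * (5 / 4)) + (4 * Real.log 2 + X))
      ≤ 8 * ‖P d (N + 1) c‖ * ((L + 1) * (1 + X)) := by gcongr
    _ = _ := by ring

end Pool.Agent.R240
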