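import Pool.Agent.R240.Trans
import Pool.Agent.R240.Newton

set_option autoImplicit false

/-! # Closing lemma for the critical orbit -/

namespace Pool.Agent.R240.Trans

open Complex Metric Set Filter Topology N62a1eb23
open Pool.Agent.H712R2 Pool.Agent.H713R2
open Pool.Agent.R240.Univ Pool.Agent.R240.Dpu

variable {d : ℕ} {c : ℂ}

theorem Sm.mono (hd : 2 ≤ d) {p : ℕ} {ε ε' : ℝ} (h : Sm d p ε) (h0 : 0 ≤ ε') (h1 : ε' ≤ ε) :
    Sm d p ε' := by
  have hd0 : (2:ℝ) ≤ d := by exact_mod_cast hd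
  unfold Sm at h ⊢
  refine le_trans ?_ h
  gcongr

theorem Sm_of (hd : 2 ≤ d) {p n : ℕ} (hn : 1 ≤ n) (hpn : p ≤ n) {ε : ℝ} (h0 : 0 ≤ ε)
    (h : (45 * (d:ℝ) ^ 2) ^ n * ε ≤ 1) : Sm d p ε := by
  have hd0 : (2:ℝ) ≤ d := by exact_mod_cast hd
  have h1 : (1:ℝ) ≤ (45 * (d:ℝ) ^ 2) ^ n := one_le_pow₀ (by nlinarith)
  have h2 : ε ≤ 1 := by nlinarith
  have h3 : ε ^ (d - 1) ≤ ε ^ 1 := pow_le_pow_of_le_one h0 h2 (by omega)
  rw [pow_one] at h3
  unfold Sm
  calc 3 * (d:ℝ) * (15 * d) ^ p * ε ^ (d - 1) ≤ (3 * d) ^ n * (15 * d) ^ n * ε := by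
        have h4 : 3 * (d:ℝ) ≤ (3 * d) ^ n := by
          calc 3 * (d:ℝ) = (3 * d) ^ 1 := (pow_one _).symm
            _ ≤ (3 * d) ^ n := pow_le_pow_right₀ (by linarith) hn
        have h5 : (15 * (d:ℝ)) ^ p ≤ (15 * d) ^ n := pow_le_pow_right₀ (by linarith) hpn
        gcongr
    _ = (45 * (d:ℝ) ^ 2) ^ n * ε := by
        rw [← mul_pow]
        congr 2
        ring
    _ ≤ 1 := h

theorem P_mult {p : ℕ} {a : ℂ} (h : P d p a = 0) (k : ℕ) : P d (p * k) a = 0 := by
  induction k with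
  | zero => rw [mul_zero, P_zero]
  | succ k ih =>
    rw [Nat.mul_succ, add_comm (p * k) p, P_add, ih]
    exact h

theorem xl_mono {x y : ℝ} (hx : 0 ≤ x) (hxy : x ≤ y) (hy : y ≤ 1) :
    x * (1 + |Real.log x|) ≤ y * (1 + |Real.log y|) := by
  rcases hx.eq_or_lt with rfl | hx0
  · rw [zero_mul]
    positivity
  · have hy0 : 0 < y := hx0.trans_le hxy
    have h1 : |Real.log x| = -Real.log x := abs_of_nonpos (Real.log_nonpos hx0.le (hxy.trans hy))
    have h2 : |Real.log y| = -Real.log y := abs_of_nonpos (Real.log_nonpos hy0.le hy)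
    have h3 : Real.log (y / x) ≤ y / x - 1 := Real.log_le_sub_one_of_pos (by positivity)
    rw [Real.log_div hy0.ne' hx0.ne'] at h3
    have h4 : x * (Real.log y - Real.log x) ≤ y - x := by
      calc x * (Real.log y - Real.log x) ≤ x * (y / x - 1) := by gcongr
        _ = y - x := by field_simp
    have h5 : 0 ≤ -Real.log y := by rw [← h2]; exact abs_nonneg _
    rw [h1, h2]
    nlinarith [mul_nonneg (sub_nonneg.2 hxy) h5]

theorem xl_two {x : ℝ} (hx : 0 ≤ x) (h : 2 * x ≤ 1) :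
    2 * x * (1 + |Real.log (2 * x)|) ≤ 2 * x * (1 + |Real.log x|) := by
  rcases hx.eq_or_lt with rfl | hx0
  · simp
  · have h1 : |Real.log x| = -Real.log x := abs_of_nonpos (Real.log_nonpos hx0.le (by linarith))
    have h2 : |Real.log (2 * x)| = -Real.log (2 * x) :=
      abs_of_nonpos (Real.log_nonpos (by linarith) h)
    have h3 : 0 < Real.log 2 := Real.log_pos (by norm_num)
    rw [h1, h2, Real.log_mul (by norm_num) hx0.ne']
    gcongr
    linarith

/-- **Closing lemma.** -/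
theorem closing (hd : 2 ≤ d) (hc : c ∈ multibrotSet d) {n : ℕ} (hn : 1 ≤ n) :
    ∃ a : ℂ, P d n a = 0 ∧ ‖a - c‖ ≤
      (16 * KN + 2) * (48 * AA d ^ 2) ^ n * (‖P d n c‖ * (1 + |Real.log ‖P d n c‖|)) := by
  have hd0 : (2:ℝ) ≤ d := by exact_mod_cast hd
  have hK := KN_pos
  have hA := AA_one hd
  obtain ⟨x, hx⟩ : ∃ x, x = ‖P d n c‖ := ⟨_, rfl⟩
  have hx0 : 0 ≤ x := by rw [hx]; exact norm_nonneg _
  rw [← hx]
  have hc2 := norm_c_le hd hc
  rcases lt_or_ge 1 ((48 * AA d ^ 2) ^ n * x) with hT | hT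
  · -- the trivial case
    refine ⟨0, P_at_zero hd n, ?_⟩
    rw [zero_sub, norm_neg]
    calc ‖c‖ ≤ 2 * 1 := by linarith
      _ ≤ (16 * KN + 2) * (((48 * AA d ^ 2) ^ n * x) * (1 + |Real.log x|)) := by
          have h1 : 1 ≤ ((48 * AA d ^ 2) ^ n * x) * (1 + |Real.log x|) :=
            one_le_mul_of_one_le_of_one_le hT.le (by linarith [abs_nonneg (Real.log x)])
          gcongr
          linarith
      _ = _ := by ring
  · -- the first close return
    have hex : ∃ k, 1 ≤ k ∧ ‖P d k c‖ ≤ x * 3 ^ (n - k) := ⟨n, hn, by simp [hx]⟩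
    classical
    obtain ⟨p, hp⟩ : ∃ p, p = Nat.find hex := ⟨_, rfl⟩
    have hp1 : 1 ≤ p := by rw [hp]; exact (Nat.find_spec hex).1
    have hpP : ‖P d p c‖ ≤ x * 3 ^ (n - p) := by rw [hp]; exact (Nat.find_spec hex).2
    have hpn : p ≤ n := by rw [hp]; exact Nat.find_min' hex ⟨hn, by simp [hx]⟩
    have hmin : ∀ i, 1 ≤ i → i < p → x * 3 ^ (n - i) < ‖P d i c‖ := by
      intro i h1 h2
      by_contra hcon
      push Not at hcon
      rw [hp] at h2
      exact Nat.find_min hex h2 ⟨h1, hcon⟩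
    obtain ⟨ε, hε⟩ : ∃ ε, ε = x * 3 ^ (n - p) := ⟨_, rfl⟩
    have hε0 : 0 ≤ ε := by rw [hε]; positivity
    rw [← hε] at hpP
    have h3n : (3:ℝ) ^ (n - p) ≤ 3 ^ n := pow_le_pow_right₀ (by norm_num) (by omega)
    have hxε : x ≤ ε := by
      rw [hε]
      have : (1:ℝ) ≤ 3 ^ (n - p) := one_le_pow₀ (by norm_num)
      nlinarith
    have hsm : Sm d p ε := by
      apply Sm_of hd hn hpn hε0
      calc (45 * (d:ℝ) ^ 2) ^ n * ε ≤ (45 * (d:ℝ) ^ 2) ^ n * (x * 3 ^ n) := by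
            rw [hε]
            gcongr
        _ = (135 * (d:ℝ) ^ 2) ^ n * x := by
            rw [mul_comm x, ← mul_assoc, ← mul_pow]
            congr 2
            ring
        _ ≤ (48 * AA d ^ 2) ^ n * x := by
            have h1 : AA d ≤ AA d ^ 2 := by nlinarith
            have h2 : 135 * (d:ℝ) ^ 2 ≤ 48 * AA d := by
              unfold AA
              nlinarith [sq_nonneg (d:ℝ)]
            have h3 : 135 * (d:ℝ) ^ 2 ≤ 48 * AA d ^ 2 := by linarith
            gcongr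
        _ ≤ 1 := hT
    have hgap : ∀ i, 1 ≤ i → i < p → 3 * ε < ‖P d i c‖ := by
      intro i h1 h2
      refine lt_of_le_of_lt ?_ (hmin i h1 h2)
      rw [hε]
      have h3 : (3:ℝ) ^ (n - p + 1) ≤ 3 ^ (n - i) := pow_le_pow_right₀ (by norm_num) (by omega)
      calc 3 * (x * 3 ^ (n - p)) = x * 3 ^ (n - p + 1) := by ring
        _ ≤ _ := by gcongr
    -- p divides n
    have hdiv : n % p = 0 := by
      by_contra hcon
      have h1 : 1 ≤ n % p := by omega
      have h2 : n % p < p := Nat.mod_lt _ (by omega)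
      have h3 := Sm.ret hd hc hp1 hε0 hsm hpP (n / p)
      have h4 := Sm.near hd hc hε0 hsm h3 h1 h2.le
      rw [← P_add, Nat.mod_add_div] at h4
      have h5 := hgap _ h1 h2
      have h6 := norm_sub_norm_le (P d (n % p) c) (P d n c)
      rw [norm_sub_rev, ← hx] at h6
      have h7 : ε / d ≤ ε / 2 := by gcongr
      linarith
    obtain ⟨k, hk⟩ : ∃ k, n = p * k := ⟨n / p, by
      have := Nat.mod_add_div n p
      omega⟩
    have hk1 : 1 ≤ k := by
      rcases Nat.eq_zero_or_pos k with h | h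
      · rw [h, mul_zero] at hk
        omega
      · exact h
    -- the first close return is as close
    have hP2 : ‖P d p c‖ ≤ 2 * x := by
      obtain ⟨k', hk'⟩ : ∃ k', k = k' + 1 := ⟨k - 1, by omega⟩
      have hsm' : Sm d p ‖P d p c‖ := Sm.mono hd hsm (norm_nonneg _) hpP
      have h3 := Sm.ret hd hc hp1 (norm_nonneg _) hsm' le_rfl k'
      have h4 := Sm.near hd hc (norm_nonneg _) hsm' h3 hp1 le_rfl
      have h5 : p + p * k' = n := by rw [hk, hk']; ring
      rw [← P_add, h5] at h4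
      have h6 := norm_sub_norm_le (P d p c) (P d n c)
      rw [norm_sub_rev, ← hx] at h6
      have h7 : ‖P d p c‖ / d ≤ ‖P d p c‖ / 2 := by gcongr
      linarith
    obtain ⟨N, rfl⟩ : ∃ N, p = N + 1 := ⟨p - 1, by omega⟩
    have hAN : AA d ^ N ≤ AA d ^ n := pow_le_pow_right₀ hA (by omega)
    have h48 : (48:ℝ) ≤ 48 ^ n := by
      calc (48:ℝ) = 48 ^ 1 := (pow_one _).symm
        _ ≤ _ := pow_le_pow_right₀ (by norm_num) hn
    have hTe : (48 * AA d ^ 2) ^ n = 48 ^ n * (AA d ^ n) ^ 2 := by rw [mul_pow]; ring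
    have h2x : 2 * x ≤ 1 := by
      have h1 : (1:ℝ) ≤ (AA d ^ n) ^ 2 := one_le_pow₀ (one_le_pow₀ hA)
      rw [hTe] at hT
      have h2 : 48 * 1 * x ≤ 48 ^ n * (AA d ^ n) ^ 2 * x := by gcongr
      linarith
    have htr := trans1 hd hc hε0 hsm hpP (fun i h1 h2 => by
      have := hgap i h1 (by omega)
      linarith) (by
      calc 16 * (AA d ^ N) ^ 2 * ‖P d (N + 1) c‖ ≤ 16 * (AA d ^ n) ^ 2 * (2 * x) := by gcongr
        _ = 32 * (AA d ^ n) ^ 2 * x := by ring
        _ ≤ 48 ^ n * (AA d ^ n) ^ 2 * x := by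
            gcongr
            linarith
        _ ≤ 1 := by rw [← hTe]; exact hT)
    obtain ⟨a, ha, hac⟩ := newton hd (norm_P_le hd hc (N + 1)) hc2
    refine ⟨a, by rw [hk]; exact P_mult ha k, ?_⟩
    have h8 : ‖P d (N + 1) c‖ * (1 + |Real.log ‖P d (N + 1) c‖|) ≤
        2 * x * (1 + |Real.log x|) := (xl_mono (norm_nonneg _) hP2 h2x).trans (xl_two hx0 h2x)
    have hB : AA d ^ N ≤ (48 * AA d ^ 2) ^ n := by
      rw [hTe]
      calc AA d ^ N ≤ 1 * (AA d ^ n) ^ 1 := by rw [one_mul, pow_one]; exact hAN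
        _ ≤ 48 ^ n * (AA d ^ n) ^ 2 := by
            gcongr
            · linarith
            · exact one_le_pow₀ hA
            · norm_num
    calc ‖a - c‖ ≤ ‖a - c‖ * (8 * AA d ^ N * ‖deriv (P d (N + 1)) c‖) :=
          le_mul_of_one_le_right (norm_nonneg _) htr
      _ = 8 * AA d ^ N * (‖a - c‖ * ‖deriv (P d (N + 1)) c‖) := by ring
      _ ≤ 8 * AA d ^ N * (KN * (‖P d (N + 1) c‖ * (1 + |Real.log ‖P d (N + 1) c‖|))) := by
          rw [← mul_assoc KN]
          gcongr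
      _ ≤ 8 * (48 * AA d ^ 2) ^ n * (KN * (2 * x * (1 + |Real.log x|))) := by gcongr
      _ = 16 * KN * (48 * AA d ^ 2) ^ n * (x * (1 + |Real.log x|)) := by ring
      _ ≤ _ := by
          gcongr
          linarith

end Pool.Agent.R240.Trans
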