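import Mathlib
import Pool.Prelude.Def_F_c31e40fa
import Pool.Agent.H712R2.MultiCoarse2

set_option autoImplicit false

/-! # Coarse local connectivity of the Multibrot sets with the sharp constant -/

open Complex Set Topology Filter Bornology N62a1eb23

namespace Pool.Agent.R240.Coarse

open Pool.Agent.H712R2

/-- the projection onto the inner disc does not increase distances -/
theorem proj_le {r : ℝ} {x y p q : ℂ} (hp : p = x ∨ (‖p‖ = r ∧ ∃ s : ℝ, 1 ≤ s ∧ x = s * p))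
    (hq : q = y ∨ (‖q‖ = r ∧ ∃ s : ℝ, 1 ≤ s ∧ y = s * q)) (hpr : ‖p‖ ≤ r) (hqr : ‖q‖ ≤ r) :
    ‖p - q‖ ≤ ‖x - y‖ := by
  have key : ∀ {x p q : ℂ}, (p = x ∨ (‖p‖ = r ∧ ∃ s : ℝ, 1 ≤ s ∧ x = s * p)) → ‖q‖ ≤ r →
      0 ≤ inner ℝ (x - p) (p - q) := by
    intro x p q hp hqr
    rcases hp with rfl | ⟨hp, s, hs, rfl⟩
    · simp
    · have h1 : (s : ℂ) * p - p = (s - 1 : ℝ) • p := by
        rw [real_smul]
        push_cast
        ring
      rw [h1, real_inner_smul_left, inner_sub_right, real_inner_self_eq_norm_sq]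
      have h2 := real_inner_le_norm p q
      have h3 : ‖p‖ * ‖q‖ ≤ r * r := by
        rw [hp]
        exact mul_le_mul_of_nonneg_left hqr (by rw [← hp]; exact norm_nonneg _)
      rw [hp] at *
      have h4 : 0 ≤ r ^ 2 - inner ℝ p q := by nlinarith
      exact mul_nonneg (by linarith) h4
  have h1 := key hp hqr
  have h2 := key hq hpr
  have h3 : inner ℝ (x - y) (p - q) = ‖p - q‖ ^ 2 + inner ℝ (x - p) (p - q) +
      inner ℝ (y - q) (q - p) := by
    have e : x - y = (p - q) + (x - p) - (y - q) := by ring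
    rw [e, inner_sub_left, inner_add_left, real_inner_self_eq_norm_sq,
      show q - p = -(p - q) by ring, inner_neg_right]
    ring
  have h4 := real_inner_le_norm (x - y) (p - q)
  by_contra hcon
  push Not at hcon
  have h5 : 0 < ‖p - q‖ := (norm_nonneg _).trans_lt hcon
  nlinarith

/-- the outer radius -/
noncomputable def R (d : ℕ) : ℝ := 1 + 1 / ((d : ℝ) - 1)

theorem piece {d : ℕ} (hd : 2 ≤ d) {x : ℂ} (hx : x ∈ multibrotSet d) :
    ∃ V : Set ℂ, ∃ x' : ℂ, IsPreconnected V ∧ V ⊆ multibrotSet d ∧ x ∈ V ∧ x' ∈ V ∧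
      ‖x'‖ ≤ rr d ∧ (x' = x ∨ (‖x'‖ = rr d ∧ ∃ s : ℝ, 1 ≤ s ∧ x = s * x')) ∧
      ∀ a ∈ V, ∃ (a' : ℂ) (ρ : ℝ), a = ρ * a' ∧ 1 ≤ ρ ∧ ρ ≤ R d / rr d ∧ ‖a'‖ ≤ rr d ∧
        ‖a' - x'‖ ≤ rr d * (2 * Real.pi / ((d : ℝ) - 1)) := by
  have hdr : (2:ℝ) ≤ d := by exact_mod_cast hd
  have h0 : 0 < (d:ℝ) - 1 := by linarith
  have hrr := rr_pos hd
  have hpi := Real.pi_pos
  have hrr1 : rr d ≤ 1 := by
    have h1 : rr d ≤ sr d := by
      unfold rr
      have := pow_nonneg (sr_pos d).le d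
      linarith
    linarith [sr_lt_one hd]
  have hR1 : 1 ≤ R d / rr d := by
    rw [le_div_iff₀ hrr, one_mul]
    unfold R
    have : 0 ≤ 1 / ((d : ℝ) - 1) := by positivity
    linarith
  by_cases hxr : ‖x‖ ≤ rr d
  · refine ⟨{x}, x, isPreconnected_singleton, by simpa using hx, rfl, rfl, hxr, Or.inl rfl, ?_⟩
    rintro a rfl
    refine ⟨a, 1, by push_cast; ring, le_rfl, hR1, hxr, ?_⟩
    rw [sub_self, norm_zero]
    positivity
  · push Not at hxr
    have hxpos : 0 < ‖x‖ := lt_trans hrr hxr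
    have hx0 : x ≠ 0 := norm_pos_iff.mp hxpos
    obtain ⟨z, hz⟩ : ∃ z, z = Complex.log x := ⟨_, rfl⟩
    have hexpz : Complex.exp z = x := by rw [hz]; exact Complex.exp_log hx0
    have hzre : z.re = Real.log ‖x‖ := by rw [hz]; exact Complex.log_re x
    obtain ⟨j, hj⟩ : ∃ j : ℤ, j = ⌊z.im * ((d:ℝ) - 1) / (2 * Real.pi)⌋ := ⟨_, rfl⟩
    have hj1 : th d j ≤ z.im := by
      have := Int.floor_le (z.im * ((d:ℝ) - 1) / (2 * Real.pi))
      rw [← hj, le_div_iff₀ (by positivity)] at this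
      unfold th
      rw [div_le_iff₀ h0]
      linarith
    have hj2 : z.im ≤ th d (j + 1) := by
      have := (Int.lt_floor_add_one (z.im * ((d:ℝ) - 1) / (2 * Real.pi))).le
      rw [← hj, div_le_iff₀ (by positivity)] at this
      unfold th
      rw [le_div_iff₀ h0]
      push_cast
      linarith
    have hrr2 : Real.log (rr d) ≤ Real.log 2 := Real.log_le_log hrr (by linarith)
    have hpol : ∀ w : ℂ, Real.exp w.re = Real.exp w.re / rr d * rr d := by
      intro w
      rw [div_mul_cancel₀ _ hrr.ne']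
    have hfac : ∀ w : ℂ, Complex.exp w = ((Real.exp w.re / rr d : ℝ) : ℂ) *
        Complex.exp ⟨Real.log (rr d), w.im⟩ := by
      intro w
      have e1 : Complex.exp w = ((Real.exp w.re : ℝ) : ℂ) * Complex.exp (w.im * I) := by
        rw [Complex.ofReal_exp, ← Complex.exp_add, Complex.re_add_im]
      have e2 : Complex.exp ⟨Real.log (rr d), w.im⟩ = ((rr d : ℝ) : ℂ) * Complex.exp (w.im * I) := by
        have h3 : (⟨Real.log (rr d), w.im⟩ : ℂ) = ((Real.log (rr d) : ℝ) : ℂ) + w.im * I := by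
          apply Complex.ext <;> simp
        rw [h3, Complex.exp_add, ← Complex.ofReal_exp, Real.exp_log hrr]
      rw [e1, e2, ← mul_assoc, ← Complex.ofReal_mul, ← hpol w]
    have hnorm : ∀ t : ℝ, ‖Complex.exp ⟨Real.log (rr d), t⟩‖ = rr d := by
      intro t
      rw [norm_exp_eq]
      simp [Real.exp_log hrr]
    refine ⟨multibrotSet d ∩ Complex.exp '' (KK d j), Complex.exp ⟨Real.log (rr d), z.im⟩,
      conn_piece hd j, inter_subset_left, ⟨hx, z, ⟨⟨?_, ?_⟩, ⟨hj1, hj2⟩⟩, hexpz⟩, ⟨?_, ?_⟩,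
      (hnorm _).le, Or.inr ⟨hnorm _, ‖x‖ / rr d, ?_, ?_⟩, ?_⟩
    · rw [hzre]; exact Real.log_le_log hrr hxr.le
    · rw [hzre]; exact Real.log_le_log hxpos (norm_le_two hd hx)
    · exact disc_subset hd (hnorm _).le
    · exact ⟨(⟨Real.log (rr d), z.im⟩ : ℂ), ⟨⟨le_rfl, hrr2⟩, ⟨hj1, hj2⟩⟩, rfl⟩
    · rw [le_div_iff₀ hrr, one_mul]
      exact hxr.le
    · have h1 := hfac z
      rw [hexpz] at h1
      have h2 : Real.exp z.re = ‖x‖ := by rw [hzre, Real.exp_log hxpos]
      rw [h2] at h1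
      exact h1
    · rintro _ ⟨haM, a, ha, rfl⟩
      have hRa := norm_le_outer hd haM
      rw [norm_exp_eq] at hRa
      have hra : rr d ≤ Real.exp a.re := by
        rw [← Real.exp_log hrr]; exact Real.exp_le_exp.mpr ha.1.1
      refine ⟨Complex.exp ⟨Real.log (rr d), a.im⟩, Real.exp a.re / rr d, hfac a, ?_, ?_,
        (hnorm _).le, ?_⟩
      · rw [le_div_iff₀ hrr, one_mul]
        exact hra
      · unfold R
        gcongr
      · have h1 := dist_exp_le (z := (⟨Real.log (rr d), a.im⟩ : ℂ))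
          (z' := (⟨Real.log (rr d), z.im⟩ : ℂ))
        rw [dist_eq_norm] at h1
        refine h1.trans ?_
        simp only [sub_self, abs_zero, zero_add, Real.exp_log hrr]
        apply mul_le_mul_of_nonneg_left _ hrr.le
        rw [← th_sub hd j, abs_le]
        have ha1 : th d j ≤ a.im := ha.2.1
        have ha2 : a.im ≤ th d (j + 1) := ha.2.2
        constructor <;> linarith

theorem rr_ge {d : ℕ} (hd : 2 ≤ d) : 1 / 4 ≤ rr d := by
  have hdr : (2:ℝ) ≤ d := by exact_mod_cast hd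
  have h0 : 0 < (d:ℝ) - 1 := by linarith
  rw [rr_eq hd]
  have h1 : 1 / 2 ≤ sr d := by
    unfold sr
    have h2 : Real.log d / ((d : ℝ) - 1) ≤ Real.log 2 := by
      rw [div_le_iff₀ h0]
      have h3 : (d : ℝ) ≤ 2 ^ (d - 1) := by
        have h4 : d ≤ 2 ^ (d - 1) := by
          have := Nat.lt_two_pow_self (n := d - 1)
          omega
        exact_mod_cast h4
      have h4 := Real.log_le_log (by linarith) h3
      rw [Real.log_pow, Nat.cast_sub (by omega), Nat.cast_one] at h4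
      linarith
    have h3 : Real.exp (-Real.log 2) ≤ Real.exp (-(Real.log d / ((d : ℝ) - 1))) :=
      Real.exp_le_exp.2 (by linarith)
    rw [Real.exp_neg, Real.exp_log (by norm_num)] at h3
    norm_num at h3 ⊢
    exact h3
  have h2 : 1 / (d:ℝ) ≤ 1 / 2 := one_div_le_one_div_of_le (by norm_num) hdr
  nlinarith

theorem R_sub {d : ℕ} (hd : 2 ≤ d) : R d - rr d ≤ (Real.log d + 2) / ((d : ℝ) - 1) := by
  have hdr : (2:ℝ) ≤ d := by exact_mod_cast hd
  have h0 : 0 < (d:ℝ) - 1 := by linarith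
  have hlog : 0 < Real.log d := Real.log_pos (by linarith)
  have h1 : rr d = sr d * (1 - 1 / d) := rr_eq hd
  have h2 := sr_ge d
  have h3 : 1 / (d:ℝ) ≤ 1 / ((d:ℝ) - 1) := one_div_le_one_div_of_le h0 (by linarith)
  have h4 : 0 < 1 / (d:ℝ) := by positivity
  have h5 : 0 ≤ 1 - 1 / (d:ℝ) := by
    have : 1 / (d:ℝ) ≤ 1 / 2 := one_div_le_one_div_of_le (by norm_num) hdr
    linarith
  have h6 : (1 - Real.log d / (d - 1)) * (1 - 1 / d) ≤ rr d := by
    rw [h1]; exact mul_le_mul_of_nonneg_right h2 h5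
  have h7 : 1 - Real.log d / (d - 1) - 1 / d ≤ (1 - Real.log d / (d - 1)) * (1 - 1 / d) := by
    have : 0 ≤ (Real.log d / ((d:ℝ) - 1)) * (1 / d) := by positivity
    nlinarith
  have h9 : (Real.log d + 2) / ((d:ℝ) - 1) = Real.log d / (d - 1) + 1 / ((d:ℝ) - 1) +
      1 / ((d:ℝ) - 1) := by
    field_simp; ring
  unfold R
  rw [h9]
  linarith

/-- the upper bound -/
theorem upper {d : ℕ} (hd : 2 ≤ d) {x y : ℂ} (hx : x ∈ multibrotSet d)
    (hy : y ∈ multibrotSet d) :
    ∃ S : Set ℂ, S ⊆ multibrotSet d ∧ IsCompact S ∧ IsConnected S ∧ x ∈ S ∧ y ∈ S ∧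
      Metric.diam S ≤ (1 + 4 * ((Real.log d + 2) / ((d : ℝ) - 1))) * dist x y +
        (Real.log d + 28) / ((d:ℝ) - 1) := by
  obtain ⟨V, x', hVp, hVM, hxV, hx'V, hx'r, hx', hVd⟩ := piece hd hx
  obtain ⟨W, y', hWp, hWM, hyW, hy'W, hy'r, hy', hWd⟩ := piece hd hy
  have hdr : (2:ℝ) ≤ d := by exact_mod_cast hd
  have h0 : 0 < (d:ℝ) - 1 := by linarith
  have hrr := rr_pos hd
  have hpi := Real.pi_pos
  have hlog : 0 < Real.log d := Real.log_pos (by linarith)
  obtain ⟨α, hα⟩ : ∃ α, α = 2 * Real.pi / ((d : ℝ) - 1) := ⟨_, rfl⟩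
  rw [← hα] at hVd hWd
  have hα0 : 0 < α := by rw [hα]; positivity
  obtain ⟨D, hD⟩ : ∃ D, D = ‖x' - y'‖ := ⟨_, rfl⟩
  have hDxy : D ≤ dist x y := by
    rw [hD, dist_eq_norm]
    exact proj_le hx' hy' hx'r hy'r
  have hR0 : 0 < R d := by unfold R; positivity
  have hRrr : 1 ≤ R d / rr d := by
    obtain ⟨a', ρ, -, h1, h2, -⟩ := hVd x hxV
    exact h1.trans h2
  obtain ⟨L, hL⟩ : ∃ L : Set ℂ, L = segment ℝ x' y' := ⟨_, rfl⟩
  have hLb : L ⊆ Metric.closedBall (0:ℂ) (rr d) := by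
    rw [hL]
    exact (convex_closedBall (0:ℂ) (rr d)).segment_subset (by simpa using hx'r) (by simpa using hy'r)
  have hLM : L ⊆ multibrotSet d := by
    intro c hc
    apply disc_subset hd
    simpa using hLb hc
  have hLp : IsPreconnected L := by rw [hL]; exact (convex_segment x' y').isPreconnected
  have hx'L : x' ∈ L := by rw [hL]; exact left_mem_segment ℝ x' y'
  have hy'L : y' ∈ L := by rw [hL]; exact right_mem_segment ℝ x' y'
  obtain ⟨S0, hS0⟩ : ∃ S0 : Set ℂ, S0 = (V ∪ L) ∪ W := ⟨_, rfl⟩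
  have hS0M : S0 ⊆ multibrotSet d := by
    rw [hS0]; exact union_subset (union_subset hVM hLM) hWM
  have hS0p : IsPreconnected S0 := by
    rw [hS0]
    apply IsPreconnected.union y' (Or.inr hy'L) hy'W
    · exact IsPreconnected.union x' hx'V hx'L hVp hLp
    · exact hWp
  have hLL : ∀ a ∈ L, ∀ b ∈ L, ‖a - b‖ ≤ D := by
    intro a ha b hb
    rw [hL, segment_eq_image_lineMap] at ha hb
    obtain ⟨s, hs, rfl⟩ := ha
    obtain ⟨t, ht, rfl⟩ := hb
    rw [← dist_eq_norm, dist_lineMap_lineMap, hD, ← dist_eq_norm]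
    have : dist s t ≤ 1 := by
      rw [Real.dist_eq, abs_le]
      constructor <;> linarith [hs.1, hs.2, ht.1, ht.2]
    nlinarith [dist_nonneg (x := x') (y := y')]
  -- description of the points
  have hdesc : ∀ a ∈ S0, ∃ (a' l : ℂ) (ρ : ℝ), a = ρ * a' ∧ 1 ≤ ρ ∧ ρ ≤ R d / rr d ∧
      ‖a'‖ ≤ rr d ∧ l ∈ L ∧ ‖a' - l‖ ≤ rr d * α := by
    intro a ha
    rw [hS0] at ha
    rcases ha with (ha | ha) | ha
    · obtain ⟨a', ρ, h1, h2, h3, h4, h5⟩ := hVd a ha
      exact ⟨a', x', ρ, h1, h2, h3, h4, hx'L, h5⟩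
    · refine ⟨a, a, 1, by push_cast; ring, le_rfl, hRrr, by simpa using hLb ha, ha, ?_⟩
      rw [sub_self, norm_zero]
      positivity
    · obtain ⟨a', ρ, h1, h2, h3, h4, h5⟩ := hWd a ha
      exact ⟨a', y', ρ, h1, h2, h3, h4, hy'L, h5⟩
  have hdiam : ∀ a ∈ S0, ∀ b ∈ S0, dist a b ≤ R d / rr d * (D + 2 * (rr d * α)) + (R d - rr d) := by
    intro a ha b hb
    obtain ⟨a', l, ρ, h1, h2, h3, h4, h5, h6⟩ := hdesc a ha
    obtain ⟨b', m, σ, k1, k2, k3, k4, k5, k6⟩ := hdesc b hb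
    have h7 : ‖a' - b'‖ ≤ D + 2 * (rr d * α) := by
      have e : a' - b' = (a' - l) + (l - m) - (b' - m) := by ring
      have := norm_sub_le ((a' - l) + (l - m)) (b' - m)
      have h8 := norm_add_le (a' - l) (l - m)
      rw [← e] at this
      linarith [hLL l h5 m k5]
    have h8 : a - b = σ * (a' - b') + ((ρ - σ : ℝ) : ℂ) * a' := by
      rw [h1, k1]
      push_cast
      ring
    have h9 : |ρ - σ| ≤ R d / rr d - 1 := by
      rw [abs_le]
      constructor <;> linarith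
    rw [dist_eq_norm, h8]
    refine (norm_add_le _ _).trans (add_le_add ?_ ?_)
    · rw [norm_mul, Complex.norm_real, Real.norm_eq_abs, abs_of_pos (by linarith)]
      gcongr
    · rw [norm_mul, Complex.norm_real, Real.norm_eq_abs]
      calc |ρ - σ| * ‖a'‖ ≤ (R d / rr d - 1) * rr d := by gcongr
        _ = _ := by field_simp
  have hfin : R d / rr d * (D + 2 * (rr d * α)) + (R d - rr d) ≤
      (1 + 4 * ((Real.log d + 2) / ((d : ℝ) - 1))) * dist x y +
        (Real.log d + 28) / ((d:ℝ) - 1) := by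
    have e1 : R d / rr d ≤ 1 + 4 * ((Real.log d + 2) / ((d : ℝ) - 1)) := by
      have h1 := R_sub hd
      have h2 := rr_ge hd
      rw [div_le_iff₀ hrr]
      have h3 : 0 ≤ (Real.log d + 2) / ((d : ℝ) - 1) := by positivity
      nlinarith
    have e2 : R d / rr d * (D + 2 * (rr d * α)) = R d / rr d * D + 2 * (R d * α) := by
      field_simp
    have e3 : R d / rr d * D ≤ (1 + 4 * ((Real.log d + 2) / ((d : ℝ) - 1))) * dist x y := by
      have hD0 : 0 ≤ D := by rw [hD]; exact norm_nonneg _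
      have : 0 ≤ (Real.log d + 2) / ((d : ℝ) - 1) := by positivity
      gcongr
    have e4 : R d ≤ 2 := by
      unfold R
      have : 1 / ((d:ℝ) - 1) ≤ 1 := by
        rw [div_le_one h0]; linarith
      linarith
    have e5 : 2 * (R d * α) ≤ 25.2 / ((d : ℝ) - 1) := by
      have hpi2 : Real.pi < 3.15 := Real.pi_lt_d2
      have h1 : 2 * (R d * α) ≤ 2 * (2 * α) := by gcongr
      refine h1.trans ?_
      rw [hα, le_div_iff₀ h0]
      field_simp
      linarith
    have e6 := R_sub hd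
    have e7 : (Real.log d + 28) / ((d:ℝ) - 1) = (Real.log d + 2) / ((d:ℝ) - 1) +
        25.2 / ((d:ℝ) - 1) + 0.8 / ((d:ℝ) - 1) := by
      field_simp
      ring
    have e8 : 0 < 0.8 / ((d:ℝ) - 1) := by positivity
    rw [e2, e7]
    linarith
  have hclM : closure S0 ⊆ multibrotSet d :=
    (isCompact_multibrot hd).isClosed.closure_subset_iff.mpr hS0M
  have hxS : x ∈ S0 := by rw [hS0]; exact Or.inl (Or.inl hxV)
  have hyS : y ∈ S0 := by rw [hS0]; exact Or.inr hyW
  refine ⟨closure S0, hclM, ?_, ⟨⟨x, subset_closure hxS⟩, hS0p.closure⟩,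
    subset_closure hxS, subset_closure hyS, ?_⟩
  · exact (isCompact_multibrot hd).of_isClosed_subset isClosed_closure hclM
  · rw [Metric.diam_closure]
    refine (Metric.diam_le_of_forall_dist_le ?_ hdiam).trans hfin
    exact dist_nonneg.trans (hdiam x hxS x hxS)

/-- the lower bound -/
theorem lower {d : ℕ} (hd : 3 ≤ d) : ∃ x ∈ multibrotSet d, ∃ y ∈ multibrotSet d,
    dist x y ≤ 2 * Real.pi / ((d : ℝ) - 1) ∧ ∀ S ⊆ multibrotSet d, IsPreconnected S →
      x ∈ S → y ∈ S → Real.log d / ((d : ℝ) - 1) - Real.log d ^ 2 / (2 * ((d : ℝ) - 1) ^ 2) ≤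
        Metric.diam S := by
  have hd2 : 2 ≤ d := by omega
  have hdr : (3:ℝ) ≤ d := by exact_mod_cast hd
  have h0 : 0 < (d:ℝ) - 1 := by linarith
  have hpi := Real.pi_pos
  have hd1 : ((d - 1 : ℕ) : ℝ) = (d : ℝ) - 1 := by
    rw [Nat.cast_sub (by omega)]; simp
  obtain ⟨φ, hφ⟩ : ∃ φ : ℝ, φ = Real.pi / ((d : ℝ) - 1) := ⟨_, rfl⟩
  have hφ0 : 0 < φ := by rw [hφ]; positivity
  have hφ2 : φ ≤ Real.pi / 2 := by
    rw [hφ]
    apply div_le_div_of_nonneg_left hpi.le (by norm_num) (by linarith)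
  have hmem : ∀ σ : ℝ, (σ = 1 ∨ σ = -1) → Complex.exp ((σ * φ : ℝ) * I) ∈ multibrotSet d := by
    intro σ hσ
    have h1 : Complex.exp ((σ * φ : ℝ) * I) ^ (d - 1) = -1 := by
      rw [← Complex.exp_nat_mul]
      have h2 : ((d - 1 : ℕ) : ℂ) * (((σ * φ : ℝ) : ℂ) * I) = ((σ * Real.pi : ℝ) : ℂ) * I := by
        have h3 : ((d : ℝ) - 1) * (σ * φ) = σ * Real.pi := by
          rw [hφ]; field_simp
        rw [← h3, ← hd1]
        push_cast
        ring
      rw [h2]
      rcases hσ with rfl | rfl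
      · rw [one_mul, Complex.exp_pi_mul_I]
      · rw [neg_one_mul, Complex.ofReal_neg, neg_mul, Complex.exp_neg, Complex.exp_pi_mul_I]
        norm_num
    obtain ⟨c, hc⟩ : ∃ c, c = Complex.exp ((σ * φ : ℝ) * I) := ⟨_, rfl⟩
    rw [← hc] at h1 ⊢
    have hc1 : ‖c‖ = 1 := by rw [hc]; exact Complex.norm_exp_ofReal_mul_I _
    have hP2 : P d 2 c = 0 := by
      rw [show (2 : ℕ) = 1 + 1 by rfl, P_succ, P_one hd2]
      have : c ^ d = c ^ (d - 1) * c := by rw [← pow_succ]; congr 1; omega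
      rw [this, h1]
      ring
    rw [mem_multibrot_iff hd2]
    have key : ∀ k, P d (2 * k) c = 0 ∧ P d (2 * k + 1) c = c := by
      intro k
      induction k with
      | zero => exact ⟨by rw [mul_zero, P_zero], by rw [mul_zero, zero_add, P_one hd2]⟩
      | succ k ih =>
        have h2 : P d (2 * (k + 1)) c = 0 := by
          rw [show 2 * (k + 1) = (2 * k + 1) + 1 by ring, P_succ, ih.2]
          rw [show (2 : ℕ) = 1 + 1 by rfl, P_succ, P_one hd2] at hP2
          exact hP2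
        refine ⟨h2, ?_⟩
        rw [P_succ, h2, zero_pow (by omega), zero_add]
    intro k
    rcases Nat.even_or_odd' k with ⟨m, rfl | rfl⟩
    · rw [(key m).1, norm_zero]; norm_num
    · rw [(key m).2, hc1]; norm_num
  refine ⟨_, hmem 1 (Or.inl rfl), _, hmem (-1) (Or.inr rfl), ?_, ?_⟩
  · have h1 := dist_exp_le (z := ((1 * φ : ℝ) : ℂ) * I) (z' := ((-1 * φ : ℝ) : ℂ) * I)
    refine h1.trans ?_
    simp only [mul_re, mul_im, ofReal_re, ofReal_im, I_re, I_im, mul_zero, mul_one,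
      sub_self, abs_zero, zero_add, add_zero, Real.exp_zero, one_mul]
    rw [hφ]
    have : Real.pi / ((d:ℝ) - 1) - -1 * (Real.pi / ((d:ℝ) - 1)) = 2 * Real.pi / ((d:ℝ) - 1) := by
      ring
    rw [this, abs_of_pos (by positivity)]
  · intro S hSM hS hx hy
    have hbd : IsBounded S := (isCompact_multibrot hd2).isBounded.subset hSM
    -- a real point of `S`
    obtain ⟨z, hz, hz0⟩ : ∃ z ∈ S, z.im = 0 := by
      have h1 := hS.intermediate_value hy hx (f := fun z : ℂ => z.im) Complex.continuous_im.continuousOn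
      have him : ∀ t : ℝ, (Complex.exp ((t : ℝ) * I)).im = Real.sin t := by
        intro t
        rw [Complex.exp_ofReal_mul_I_im]
      have h2 : (0 : ℝ) ∈ Icc (Complex.exp ((-1 * φ : ℝ) * I)).im (Complex.exp ((1 * φ : ℝ) * I)).im := by
        rw [him, him]
        have h3 : 0 ≤ Real.sin φ := Real.sin_nonneg_of_nonneg_of_le_pi hφ0.le (by linarith)
        constructor
        · rw [neg_one_mul, Real.sin_neg]; linarith
        · rw [one_mul]; exact h3
      obtain ⟨z, hz, hz2⟩ := h1 h2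
      exact ⟨z, hz, hz2⟩
    have hdz := Metric.dist_le_diam_of_mem hbd hx hz
    refine le_trans ?_ hdz
    obtain ⟨t, ht⟩ : ∃ t : ℝ, z = t := ⟨z.re, by apply Complex.ext <;> simp [hz0]⟩
    have hlow : 1 - rr d ≤ dist (Complex.exp ((1 * φ : ℝ) * I)) z := by
      rw [ht, dist_eq_norm]
      by_cases ht0 : 0 < t
      · have h1 : t ≤ rr d := by
          by_contra hcon
          push Not at hcon
          apply real_escape hd2 hcon
          rw [← ht]
          exact hSM hz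
        have h2 := norm_sub_norm_le (Complex.exp ((1 * φ : ℝ) * I)) (t : ℂ)
        rw [Complex.norm_exp_ofReal_mul_I, Complex.norm_real, Real.norm_eq_abs,
          abs_of_pos ht0] at h2
        linarith
      · push Not at ht0
        have h1 : (1 : ℝ) ≤ ‖Complex.exp ((1 * φ : ℝ) * I) - (t : ℂ)‖ ^ 2 := by
          rw [← Complex.normSq_eq_norm_sq, Complex.normSq_apply]
          rw [Complex.sub_re, Complex.sub_im, Complex.exp_ofReal_mul_I_re,
            Complex.exp_ofReal_mul_I_im, ofReal_re, ofReal_im, sub_zero, one_mul]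
          have h2 : 0 ≤ Real.cos φ := Real.cos_nonneg_of_neg_pi_div_two_le_of_le (by linarith) hφ2
          have h3 := Real.sin_sq_add_cos_sq φ
          nlinarith
        have h2 : 1 ≤ ‖Complex.exp ((1 * φ : ℝ) * I) - (t : ℂ)‖ := by
          by_contra hcon
          push Not at hcon
          have := norm_nonneg (Complex.exp ((1 * φ : ℝ) * I) - (t : ℂ))
          nlinarith
        linarith [rr_pos hd2]
    refine le_trans ?_ hlow
    have h1 : rr d ≤ sr d := by
      unfold rr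
      have := pow_nonneg (sr_pos d).le d
      linarith
    obtain ⟨u, hu⟩ : ∃ u, u = Real.log d / ((d : ℝ) - 1) := ⟨_, rfl⟩
    have hu0 : 0 < u := by
      rw [hu]
      exact div_pos (Real.log_pos (by linarith)) h0
    have h2 : sr d = Real.exp (-u) := by rw [hu]; rfl
    have h3 : Real.exp (-u) ≤ 1 - u + u ^ 2 / 2 := by
      have h4 : (1 + u + u ^ 2 / 2) ≤ Real.exp u := Real.quadratic_le_exp_of_nonneg hu0.le
      rw [Real.exp_neg, inv_le_comm₀ (Real.exp_pos _) (by nlinarith [sq_nonneg (u - 1)])]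
      refine le_trans ?_ h4
      rw [inv_le_iff_one_le_mul₀ (by nlinarith [sq_nonneg (u - 1)])]
      nlinarith [sq_nonneg (u ^ 2), mul_pos hu0 hu0]
    have h5 : Real.log d / ((d : ℝ) - 1) - Real.log d ^ 2 / (2 * ((d : ℝ) - 1) ^ 2) =
        u - u ^ 2 / 2 := by
      rw [hu, div_pow]
      field_simp
    rw [h5]
    linarith

end Pool.Agent.R240.Coarse
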