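import Pool.Agent.R240.Mass

set_option autoImplicit false

/-! # Centres and harmonic measure at every place and scale -/

namespace Pool.Agent.R240

open Complex Metric Set Filter Topology MeasureTheory Pool.Agent.H712R2 Pool.Agent.H713R2
open N62a1eb23 Pool.Agent.Y736.HD

noncomputable def B1 : ℝ := (SH 16 + 1) * 4
noncomputable def B2 : ℝ := (SH^[20] 16 + 1) * 46
noncomputable def K1 : ℝ := 2 * Real.pi * Real.log (B1 + 1) / Real.log 2
noncomputable def K2 : ℝ := 2 * Real.pi * Real.log (B2 + 1) / Real.log 2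

theorem B1_ge : 8 ≤ B1 := by
  have := SH_one (show (1 : ℝ) ≤ 16 by norm_num)
  unfold B1; linarith

theorem B2_ge : 92 ≤ B2 := by
  have := SH_iter (show (1 : ℝ) ≤ 16 by norm_num) 20
  unfold B2; linarith

theorem K1_pos : 0 < K1 := by
  have h1 : 0 < Real.log 2 := Real.log_pos (by norm_num)
  have h2 : 0 < Real.log (B1 + 1) := Real.log_pos (by linarith [B1_ge])
  have := Real.pi_pos
  unfold K1; positivity

theorem K2_pos : 0 < K2 := by
  have h1 : 0 < Real.log 2 := Real.log_pos (by norm_num)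
  have h2 : 0 < Real.log (B2 + 1) := Real.log_pos (by linarith [B2_ge])
  have := Real.pi_pos
  unfold K2; positivity

variable {d N : ℕ} {ψ : ℂ → ℂ}

/-- mass of free discs -/
theorem disc_mass (hd : 2 ≤ d) (hψ : IsExteriorMap (multibrotSet d) ψ) {z : ℂ}
    (hz : z ∈ multibrotSet d) {s : ℝ} (hs0 : 0 < s) (hs : s ≤ 2)
    (hno : ∀ x : ℂ, ‖x - z‖ < s → P d (N + 1) x ≠ 0) :
    om ψ (ball z (s / 8)) ≤ K1 / (d : ℝ) ^ N := by
  have hz2 : ‖z‖ ≤ 2 := by
    have := (mem_multibrot_iff hd z).1 hz 1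
    rwa [P_one hd] at this
  have h1 := mass_le (N := N) hd hψ hz (R := s / 8) (B := B1) (by linarith)
    (by linarith [B1_ge]) (by
      intro x hx
      constructor
      · have h2 : x = z + (x - z) := by ring
        rw [h2]
        have := norm_add_le z (x - z)
        linarith [B1_ge]
      · have h2 := free_disc hd hs0 hno (show (1 : ℝ) ≤ 16 by norm_num) (ratio' hd hz N)
          (x := x) (by linarith)
        refine h2.trans ?_
        have h3 := SH_one (show (1 : ℝ) ≤ 16 by norm_num)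
        unfold B1
        gcongr
        linarith)
  refine h1.trans (le_of_eq ?_)
  unfold K1
  ring

theorem exp_neg_one_gt : (1 / 3 : ℝ) < Real.exp (-1) := by
  rw [Real.exp_neg, one_div]
  apply inv_strictAnti₀ (Real.exp_pos _)
  have := Real.exp_one_lt_d9
  linarith

theorem exp_neg_one_lt : Real.exp (-1) < 1 := by
  rw [Real.exp_lt_one_iff]; norm_num

theorem exp_four_lt : Real.exp 4 < 55 := by
  have h1 : Real.exp 4 = Real.exp 1 ^ 4 := by rw [← Real.exp_nat_mul]; norm_num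
  rw [h1]
  calc Real.exp 1 ^ 4 < 2.7183 ^ 4 := by
        have := Real.exp_one_lt_d9
        have := Real.exp_pos 1
        gcongr
        linarith
    _ < 55 := by norm_num

theorem exp_three_lt : Real.exp 3 < 21 := by
  have h1 : Real.exp 3 = Real.exp 1 ^ 3 := by rw [← Real.exp_nat_mul]; norm_num
  rw [h1]
  calc Real.exp 1 ^ 3 < 2.7183 ^ 3 := by
        have := Real.exp_one_lt_d9
        have := Real.exp_pos 1
        gcongr
        linarith
    _ < 21 := by norm_num

theorem exp_three_gt : 8 < Real.exp 3 := by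
  have h1 : Real.exp 3 = Real.exp 1 ^ 3 := by rw [← Real.exp_nat_mul]; norm_num
  rw [h1]
  calc (8 : ℝ) = 2 ^ 3 := by norm_num
    _ < Real.exp 1 ^ 3 := by
        have := Real.exp_one_gt_d9
        gcongr
        linarith

/-- the zeros of the critical orbit polynomial in a disc -/
def Zs (d N : ℕ) (c : ℂ) (r : ℝ) : Set ℂ := {x | x ∈ ball c (2 * r) ∧ P d (N + 1) x = 0}

/-- mass near the pairs of centres -/
theorem annulus_mass (hd : 2 ≤ d) (hψ : IsExteriorMap (multibrotSet d) ψ) {e : ℂ} {W : Set ℂ}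
    {S : ℝ} (hWM : ∀ z ∈ W, z ∈ multibrotSet d) (hW0 : ∀ z ∈ W, 0 < ‖z - e‖)
    (hWS : ∀ z ∈ W, ‖z - e‖ ≤ S) (hW2 : ∀ z ∈ W, ‖z - e‖ ≤ 2)
    (hno : ∀ z ∈ W, ∀ x : ℂ, Real.exp (-1) * ‖z - e‖ < ‖x - e‖ → ‖x - e‖ < Real.exp 4 * ‖z - e‖ →
      P d (N + 1) x ≠ 0) : om ψ W ≤ K2 / (d : ℝ) ^ N := by
  have hd0 : (0 : ℝ) < d := by exact_mod_cast (by omega : 0 < d)
  have hK2 := K2_pos
  rcases W.eq_empty_or_nonempty with h | hne
  · rw [h]
    have : AngS ψ ∅ = ∅ := by
      rw [eq_empty_iff_forall_notMem]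
      rintro θ ⟨-, ζ, h1, -⟩
      exact h1
    unfold om
    rw [this, measure_empty]
    simp only [ENNReal.toReal_zero]
    positivity
  obtain ⟨D, hD⟩ : ∃ D : Set ℝ, D = (fun z => ‖z - e‖) '' W := ⟨_, rfl⟩
  have hDne : D.Nonempty := by rw [hD]; exact hne.image _
  have hDb : BddAbove D := ⟨S, by
    rw [hD]
    rintro _ ⟨z, hz, rfl⟩
    exact hWS z hz⟩
  have hle : ∀ z ∈ W, ‖z - e‖ ≤ sSup D := fun z hz => le_csSup hDb (by rw [hD]; exact ⟨z, hz, rfl⟩)
  have hpos : 0 < sSup D := by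
    obtain ⟨z, hz⟩ := hne
    exact (hW0 z hz).trans_le (hle z hz)
  obtain ⟨_, hmem, hlt⟩ := exists_lt_of_lt_csSup hDne (show sSup D / 2 < sSup D by linarith)
  rw [hD] at hmem
  obtain ⟨z, hz, rfl⟩ := hmem
  simp only at hlt
  have hz0 := hW0 z hz
  have hsub : W ⊆ ball z (7 / 2 * ‖z - e‖) := by
    intro x hx
    rw [mem_ball, dist_eq_norm]
    have h1 := hle x hx
    have h2 : x - z = (x - e) - (z - e) := by ring
    have h3 := norm_sub_le (x - e) (z - e)
    rw [← h2] at h3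
    linarith
  refine (om_mono ψ hsub).trans ?_
  have hzM := hWM z hz
  have hz2 : ‖z‖ ≤ 2 := by
    have := (mem_multibrot_iff hd z).1 hzM 1
    rwa [P_one hd] at this
  have he : ‖e‖ ≤ 4 := by
    have h1 : e = z - (z - e) := by ring
    have h2 := norm_sub_le z (z - e)
    rw [← h1] at h2
    linarith [hW2 z hz]
  have h1 := mass_le (N := N) hd hψ hzM (R := 7 / 2 * ‖z - e‖) (B := B2) (by linarith)
    (by linarith [B2_ge]) (by
      intro x hx
      have hxe : ‖x - e‖ ≤ 8 * ‖z - e‖ := by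
        have h2 : x - e = (x - z) + (z - e) := by ring
        have h3 := norm_add_le (x - z) (z - e)
        rw [← h2] at h3
        linarith
      have hx3 : ‖x - e‖ ≤ Real.exp 3 * ‖z - e‖ :=
        hxe.trans (by gcongr; exact exp_three_gt.le)
      constructor
      · have h2 : x = e + (x - e) := by ring
        have h3 := norm_add_le e (x - e)
        rw [← h2] at h3
        linarith [B2_ge, hW2 z hz]
      · have h2 := free_annulus hd rfl hz0 (hno z hz) (show (1 : ℝ) ≤ 16 by norm_num)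
          (ratio' hd hzM N) hx3
        refine h2.trans ?_
        have h3 := SH_iter (show (1 : ℝ) ≤ 16 by norm_num) 20
        have h4 : Real.exp 3 * ‖z - e‖ ≤ 21 * 2 :=
          mul_le_mul exp_three_lt.le (hW2 z hz) (norm_nonneg _) (by norm_num)
        unfold B2
        gcongr
        linarith)
  refine h1.trans (le_of_eq ?_)
  unfold K2
  ring

/-- the constant -/
noncomputable def KK : ℝ := (1922 ^ 2 + 169 * 34946 ^ 2) * K1 + K2

theorem KK_pos : 0 < KK := by
  have := K1_pos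
  have := K2_pos
  unfold KK; positivity

theorem Zs_finite (hd : 2 ≤ d) (N : ℕ) (c : ℂ) (r : ℝ) : (Zs d N c r).Finite := by
  have h0 : PP d (N + 1) ≠ 0 := by
    intro h
    have h1 := natDegree_PP hd N
    rw [h, Polynomial.natDegree_zero] at h1
    have : 0 < d ^ N := pow_pos (by omega) N
    omega
  refine ((PP d (N + 1)).roots.toFinset.finite_toSet).subset ?_
  rintro x ⟨-, hx⟩
  rw [Finset.mem_coe, Multiset.mem_toFinset, Polynomial.mem_roots h0, Polynomial.IsRoot.def,
    eval_PP]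
  exact hx

/-- **Main inequality.** -/
theorem main (hd : 2 ≤ d) (hψ : IsExteriorMap (multibrotSet d) ψ) (N : ℕ) (c : ℂ) {r : ℝ}
    (hr : 0 < r) : (d : ℝ) ^ N * om ψ (ball c r) ≤ KK * ((Zs d N c r).ncard + 1) := by
  classical
  have hd0 : (0 : ℝ) < d := by exact_mod_cast (by omega : 0 < d)
  have hdN : (0 : ℝ) < (d : ℝ) ^ N := by positivity
  have hfin := Zs_finite hd N c r
  obtain ⟨E, hE⟩ : ∃ E : Finset ℂ, E = hfin.toFinset := ⟨_, rfl⟩
  have hEm : ∀ x, x ∈ E ↔ (x ∈ ball c (2 * r) ∧ P d (N + 1) x = 0) := by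
    intro x
    rw [hE, Set.Finite.mem_toFinset]
    rfl
  have hEc : E.card = (Zs d N c r).ncard := by
    rw [hE, Set.ncard_eq_toFinset_card _ hfin]
  obtain ⟨p, hp⟩ : ∃ p : ℂ, p = c + (4 * r : ℝ) := ⟨_, rfl⟩
  obtain ⟨F, hF⟩ : ∃ F : Finset ℂ, F = insert p E := ⟨_, rfl⟩
  have hpF : p ∈ F := by rw [hF]; exact Finset.mem_insert_self _ _
  have hEF : E ⊆ F := by rw [hF]; exact Finset.subset_insert _ _
  have hFne : F.Nonempty := ⟨p, hpF⟩
  have hFc : (F.card : ℝ) ≤ (Zs d N c r).ncard + 1 := by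
    rw [← hEc, hF]
    exact_mod_cast Finset.card_insert_le p E
  obtain ⟨T, hT1, hT2, hT3⟩ := scales F
  -- the points to be covered
  obtain ⟨X, hX⟩ : ∃ X : Set ℂ, X = {z | z ∈ ball c r ∧ z ∈ Land ψ ∧ z ∉ E} := ⟨_, rfl⟩
  have hXM : ∀ z ∈ X, z ∈ multibrotSet d := by
    intro z hz
    rw [hX] at hz
    obtain ⟨θ, hθ⟩ := hz.2.1
    exact land_mem hd hψ hθ
  have hX2 : ∀ z ∈ X, ‖z‖ ≤ 2 := by
    intro z hz
    have := (mem_multibrot_iff hd z).1 (hXM z hz) 1
    rwa [P_one hd] at this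
  have hXr : ∀ z ∈ X, ‖z - c‖ < r := by
    intro z hz
    rw [hX] at hz
    have := hz.1
    rwa [mem_ball, dist_eq_norm] at this
  have hpz : ∀ z ∈ X, 3 * r < ‖p - z‖ := by
    intro z hz
    have h1 : (4 * r : ℝ) = ‖p - c‖ := by
      rw [hp, add_sub_cancel_left, Complex.norm_real, Real.norm_eq_abs, abs_of_pos (by linarith)]
    have h2 : p - c = (p - z) + (z - c) := by ring
    have h3 := norm_add_le (p - z) (z - c)
    rw [← h2, ← h1] at h3
    linarith [hXr z hz]
  have hXF : ∀ z ∈ X, z ∉ F := by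
    intro z hz h
    rw [hF, Finset.mem_insert] at h
    rcases h with h | h
    · have := hpz z hz
      rw [h, sub_self, norm_zero] at this
      linarith
    · rw [hX] at hz
      exact hz.2.2 h
  have hδ0 : ∀ z ∈ X, 0 < dF F z := by
    intro z hz
    obtain ⟨y, hy, h⟩ := exists_dF hFne z
    rw [h]
    apply norm_pos_iff.2
    intro h1
    rw [sub_eq_zero] at h1
    rw [← h1] at hy
    exact hXF z hz hy
  have hmin : ∀ z ∈ X, dF F z ≤ 2 ∨ r ≤ 2 := by
    intro z hz
    by_cases h : (0 : ℂ) ∈ ball c (2 * r)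
    · left
      have h1 : (0 : ℂ) ∈ E := (hEm 0).2 ⟨h, P_at_zero hd _⟩
      have h2 := dF_le (hEF h1) (x := z)
      rw [sub_zero] at h2
      exact h2.trans (hX2 z hz)
    · right
      rw [mem_ball, dist_eq_norm, zero_sub, norm_neg, not_lt] at h
      have h1 : c = z - (z - c) := by ring
      have h2 := norm_sub_le z (z - c)
      rw [← h1] at h2
      linarith [hXr z hz, hX2 z hz]
  have hfree : ∀ z ∈ X, ∀ x : ℂ, ‖x - z‖ < dF F z → ‖x - z‖ < r → P d (N + 1) x ≠ 0 := by
    intro z hz x h1 h2 h3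
    have h4 : x ∈ E := (hEm x).2 ⟨by
      rw [mem_ball, dist_eq_norm]
      have h5 : x - c = (x - z) + (z - c) := by ring
      have h6 := norm_add_le (x - z) (z - c)
      rw [← h5] at h6
      linarith [hXr z hz], h3⟩
    have h5 := dF_le (hEF h4) (x := z)
    rw [norm_sub_rev] at h5
    linarith
  -- mass of free discs at the points of `X`
  have hmass : ∀ z ∈ X, ∀ s : ℝ, 0 < s → s ≤ dF F z → s ≤ r →
      om ψ (ball z (s / 8)) ≤ K1 / (d : ℝ) ^ N := by
    intro z hz s hs0 hs1 hs2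
    refine disc_mass hd hψ (hXM z hz) hs0 ?_ fun x hx =>
      hfree z hz x (hx.trans_le hs1) (hx.trans_le hs2)
    rcases hmin z hz with h | h <;> linarith
  have hKd : 0 ≤ K1 / (d : ℝ) ^ N := by
    have := K1_pos
    positivity
  -- case 0
  obtain ⟨Z0, hZ0⟩ : ∃ Z0 : Set ℂ, Z0 = {z | z ∈ X ∧ r / 60 ≤ dF F z} := ⟨_, rfl⟩
  have hc0 : om ψ Z0 ≤ 1922 ^ 2 * (K1 / (d : ℝ) ^ N) := by
    have h1 := om_cover ψ (Z := Z0) (u := c) (ρ := r / 960) (κ := 960) (by linarith) hKd
      (by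
        intro z hz
        rw [hZ0] at hz
        have := hXr z hz.1
        push_cast
        linarith)
      (by
        intro z hz
        rw [hZ0] at hz
        have h2 := hmass z hz.1 (r / 60) (by linarith) hz.2 (by linarith)
        rwa [show 2 * (r / 960) = r / 60 / 8 by ring])
    refine h1.trans (le_of_eq ?_)
    norm_num
  -- case 1
  obtain ⟨Z1, hZ1⟩ : ∃ Z1 : ℂ × ℝ → Set ℂ, Z1 = fun q => {z | z ∈ X ∧ ‖z - q.1‖ ≤ 13 * q.2 ∧
      q.2 / 84 ≤ dF F z ∧ dF F z < r / 60} := ⟨_, rfl⟩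
  have hc1 : ∀ q ∈ T, om ψ (Z1 q) ≤ 34946 ^ 2 * (K1 / (d : ℝ) ^ N) := by
    intro q hq
    have hq2 := (hT2 q hq).2
    have h1 := om_cover ψ (Z := Z1 q) (u := q.1) (ρ := q.2 / 1344) (κ := 17472) (by linarith) hKd
      (by
        intro z hz
        rw [hZ1] at hz
        have := hz.2.1
        push_cast
        linarith)
      (by
        intro z hz
        rw [hZ1] at hz
        have h2 := hmass z hz.1 (q.2 / 84) (by linarith) hz.2.2.1 (by
          have := hz.2.2.1.trans hz.2.2.2.le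
          linarith)
        rwa [show 2 * (q.2 / 1344) = q.2 / 84 / 8 by ring])
    refine h1.trans (le_of_eq ?_)
    norm_num
  -- case 2
  obtain ⟨Z2, hZ2⟩ : ∃ Z2 : ℂ → Set ℂ, Z2 = fun e => {z | z ∈ X ∧ dF F z = ‖z - e‖ ∧
      dF F z < r / 60 ∧ ∀ f ∈ F, f ≠ e → ¬ (Real.exp (-1) * ‖z - e‖ < ‖f - e‖ ∧
        ‖f - e‖ < Real.exp 4 * ‖z - e‖)} := ⟨_, rfl⟩
  have hc2 : ∀ e ∈ F, om ψ (Z2 e) ≤ K2 / (d : ℝ) ^ N := by
    intro e he
    apply annulus_mass hd hψ (e := e) (S := r / 60)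
    · intro z hz
      rw [hZ2] at hz
      exact hXM z hz.1
    · intro z hz
      rw [hZ2] at hz
      rw [← hz.2.1]
      exact hδ0 z hz.1
    · intro z hz
      rw [hZ2] at hz
      rw [← hz.2.1]
      exact hz.2.2.1.le
    · intro z hz
      rw [hZ2] at hz
      rw [← hz.2.1]
      rcases hmin z hz.1 with h | h
      · exact h
      · have := hz.2.2.1
        linarith
    · intro z hz x h1 h2 h3
      rw [hZ2] at hz
      obtain ⟨hz1, hz2, hz3, hz4⟩ := hz
      have h0 := hδ0 z hz1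
      rw [hz2] at h0 hz3
      have hxE : x ∈ E := (hEm x).2 ⟨by
        rw [mem_ball, dist_eq_norm]
        have h5 : x - c = (x - e) + (z - c) - (z - e) := by ring
        have h6 := norm_sub_le ((x - e) + (z - c)) (z - e)
        have h7 := norm_add_le (x - e) (z - c)
        rw [← h5] at h6
        have h8 : Real.exp 4 * ‖z - e‖ ≤ 55 * ‖z - e‖ := by
          gcongr
          exact exp_four_lt.le
        linarith [hXr z hz1], h3⟩
      refine hz4 x (hEF hxE) ?_ ⟨h1, h2⟩
      intro h4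
      rw [h4, sub_self, norm_zero] at h1
      have := Real.exp_pos (-1)
      nlinarith
  -- covering
  have hcov : X ⊆ Z0 ∪ ((⋃ q ∈ T, Z1 q) ∪ ⋃ e ∈ F, Z2 e) := by
    intro z hz
    by_cases h0 : r / 60 ≤ dF F z
    · left
      rw [hZ0]
      exact ⟨hz, h0⟩
    right
    push Not at h0
    obtain ⟨e, he, hde⟩ := exists_dF hFne z
    have hd0 := hδ0 z hz
    by_cases h1 : ∀ f ∈ F, f ≠ e → ¬ (Real.exp (-1) * ‖z - e‖ < ‖f - e‖ ∧
        ‖f - e‖ < Real.exp 4 * ‖z - e‖)
    · right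
      simp only [mem_iUnion]
      refine ⟨e, he, ?_⟩
      rw [hZ2]
      exact ⟨hz, hde, h0, h1⟩
    · left
      push Not at h1
      obtain ⟨f, hf, hfe, h2, h3⟩ := h1
      obtain ⟨q, hq, hq1, hq2, hq3⟩ := hT3 e he f hf (Ne.symm hfe)
      simp only [mem_iUnion]
      refine ⟨q, hq, ?_⟩
      rw [hZ1]
      rw [norm_sub_rev] at hq1 hq2 hq3
      rw [← hde] at h2 h3
      have h4 : 1 / 3 * dF F z ≤ ‖f - e‖ := by
        have := exp_neg_one_gt
        nlinarith
      have h5 : ‖f - e‖ ≤ 55 * dF F z := by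
        have := exp_four_lt
        nlinarith
      rw [norm_sub_rev e f] at hq1
      refine ⟨hz, ?_, ?_, h0⟩
      · have h6 : z - q.1 = (z - e) - (q.1 - e) := by ring
        have h7 := norm_sub_le (z - e) (q.1 - e)
        rw [← h6, ← hde] at h7
        linarith
      · linarith
  have hXom : om ψ X ≤ 1922 ^ 2 * (K1 / (d : ℝ) ^ N) + (T.card * (34946 ^ 2 * (K1 / (d : ℝ) ^ N)) +
      F.card * (K2 / (d : ℝ) ^ N)) := by
    refine (om_mono ψ hcov).trans ((om_union ψ _ _).trans ?_)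
    refine add_le_add hc0 ((om_union ψ _ _).trans (add_le_add ?_ ?_))
    · refine (om_biUnion ψ T Z1 subset_rfl).trans ((Finset.sum_le_sum hc1).trans ?_)
      rw [Finset.sum_const, nsmul_eq_mul]
    · refine (om_biUnion ψ F Z2 subset_rfl).trans ((Finset.sum_le_sum hc2).trans ?_)
      rw [Finset.sum_const, nsmul_eq_mul]
  have hEom : om ψ (E : Set ℂ) ≤ 0 := by
    refine (om_biUnion ψ E (fun e => {e}) (Y := (E : Set ℂ)) ?_).trans ?_
    · intro x hx
      simp only [mem_iUnion]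
      exact ⟨x, by exact_mod_cast hx, rfl⟩
    · rw [Finset.sum_eq_zero]
      intro x _
      exact om_singleton' hd hψ x
  have htot : om ψ (ball c r) ≤ om ψ X := by
    rw [om_inter]
    have h1 : ball c r ∩ Land ψ ⊆ X ∪ (E : Set ℂ) := by
      rintro z ⟨h1, h2⟩
      by_cases h3 : z ∈ E
      · right; exact_mod_cast h3
      · left
        rw [hX]
        exact ⟨h1, h2, h3⟩
    refine (om_mono ψ h1).trans ((om_union ψ _ _).trans ?_)
    linarith
  have hTc : (T.card : ℝ) ≤ 169 * F.card := by exact_mod_cast hT1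
  have hF1 : (1 : ℝ) ≤ F.card := by
    have := hFne.card_pos
    exact_mod_cast this
  have hK1 := K1_pos
  have hK2 := K2_pos
  have hfin2 : (d : ℝ) ^ N * om ψ (ball c r) ≤ 1922 ^ 2 * K1 + (T.card * (34946 ^ 2 * K1) +
      F.card * K2) := by
    have h1 := htot.trans hXom
    have h2 := mul_le_mul_of_nonneg_left h1 hdN.le
    refine h2.trans (le_of_eq ?_)
    field_simp
  refine hfin2.trans ?_
  have h3 : 1922 ^ 2 * K1 + (T.card * (34946 ^ 2 * K1) + F.card * K2) ≤ KK * F.card := by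
    unfold KK
    have e1 : 1922 ^ 2 * K1 ≤ 1922 ^ 2 * K1 * F.card := by
      have : 0 < 1922 ^ 2 * K1 := by positivity
      nlinarith
    have e2 : (T.card : ℝ) * (34946 ^ 2 * K1) ≤ 169 * F.card * (34946 ^ 2 * K1) := by gcongr
    linarith
  refine h3.trans ?_
  have := KK_pos
  gcongr

end Pool.Agent.R240
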