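import Pool.Agent.R240.Alm2
import Pool.Agent.H462R2.CD1

set_option autoImplicit false

/-! # A criterion for an attracting cycle, in all degrees and all orders -/

namespace Pool.Agent.R240.Crit

open Complex Metric Set Filter Topology N62a1eb23
open Pool.Agent.H712R2 Pool.Agent.H713R2
open Pool.Agent.H462R2.AD (hyp)
open Pool.Agent.H462R2.CD (F F_diff F_deriv pow_le_two pow15)

theorem pow15' {n : ℕ} (hn : 2 ≤ n) {x : ℝ} (hx0 : 0 ≤ x) (hx : x ^ (n - 1) ≤ 2) :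
    (x + 1 / n) ^ (n - 1) ≤ 15 := by
  rcases Nat.lt_or_ge n 4 with h | h
  · interval_cases n
    · norm_num at hx ⊢
      linarith
    · norm_num at hx ⊢
      have h1 : x ≤ 3 / 2 := by nlinarith
      nlinarith
  · exact pow15 h hx0 hx

/-- One step along the critical orbit. -/
theorem step {n : ℕ} (hn : 2 ≤ n) {c w z : ℂ} {ρ : ℝ} (hw : ‖w‖ ^ (n - 1) ≤ 2)
    (hz : ‖z - w‖ ≤ ρ) (hρ : ρ ≤ 1 / n) :
    ‖F n c z - F n c w‖ ≤ 15 * n * ρ ∧ ‖deriv (F n c) z‖ ≤ 15 * n := by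
  have hn0 : (0:ℝ) < n := by exact_mod_cast (by omega : 0 < n)
  have hz1 : ‖z‖ ≤ ‖w‖ + 1 / n := by
    have := norm_sub_norm_le z w
    linarith
  have hw1 : ‖w‖ ≤ ‖w‖ + 1 / n := by
    have : 0 ≤ 1 / (n:ℝ) := by positivity
    linarith
  have h15 := pow15' hn (norm_nonneg w) hw
  constructor
  · have h1 : F n c z - F n c w = z ^ n - w ^ n := by unfold F; ring
    rw [h1]
    refine (Pool.Agent.H762R2.Rt.pow_lip hz1 hw1 n).trans ?_
    calc (n:ℝ) * (‖w‖ + 1 / n) ^ (n - 1) * ‖z - w‖ ≤ n * 15 * ρ := by gcongr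
      _ = _ := by ring
  · rw [F_deriv, norm_mul, norm_pow, Complex.norm_natCast]
    calc (n:ℝ) * ‖z‖ ^ (n - 1) ≤ n * (‖w‖ + 1 / n) ^ (n - 1) := by gcongr
      _ ≤ n * 15 := by gcongr
      _ = _ := by ring

/-- A small disc about the critical value follows the critical orbit for `k` steps. -/
theorem follow {n : ℕ} (hn : 2 ≤ n) {c : ℂ} (hc : c ∈ multibrotSet n) {k : ℕ} {ε : ℝ}
    (hε : (15 * (n:ℝ)) ^ k * ε ≤ 1 / n) (hε0 : 0 ≤ ε) {z : ℂ} (hz : ‖z - c‖ ≤ ε) :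
    ∀ j ≤ k, ‖(F n c)^[j] z - P n (j + 1) c‖ ≤ (15 * n) ^ j * ε ∧
      ‖deriv (F n c)^[j] z‖ ≤ (15 * n) ^ j := by
  have hn1 : (1:ℝ) ≤ 15 * n := by
    have : (2:ℝ) ≤ n := by exact_mod_cast hn
    linarith
  intro j
  induction j with
  | zero =>
    intro _
    rw [Function.iterate_zero, zero_add, P_one (by omega), pow_zero, one_mul]
    exact ⟨hz, by simp⟩
  | succ j ih =>
    intro hj
    obtain ⟨h1, h2⟩ := ih (by omega)
    have h3 : (15 * (n:ℝ)) ^ j * ε ≤ 1 / n := by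
      refine le_trans ?_ hε
      gcongr
      omega
    obtain ⟨h4, h5⟩ := step hn (c := c) (pow_le_two (by omega) hc (j + 1)) h1 h3
    constructor
    · rw [Function.iterate_succ_apply', P_succ]
      calc ‖F n c ((F n c)^[j] z) - (P n (j + 1) c ^ n + c)‖ ≤ 15 * n * ((15 * n) ^ j * ε) := h4
        _ = _ := by ring
    · rw [Function.iterate_succ', deriv_comp _ (F_diff n c _) (((F_diff n c).iterate j) z),
        norm_mul, pow_succ, mul_comm ((15 * (n:ℝ)) ^ j)]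
      gcongr

/-- **Criterion.** -/
theorem att {n : ℕ} (hn : 2 ≤ n) {c : ℂ} (hc : c ∈ multibrotSet n) {k : ℕ}
    (h : ‖P n (k + 1) c‖ ^ (n - 1) ≤ 1 / (4 * n * (15 * n) ^ k)) : c ∈ hyp n := by
  have hn' : (2:ℝ) ≤ n := by exact_mod_cast hn
  have hn0 : (0:ℝ) < n := by linarith
  have hn1 : n - 1 ≠ 0 := by omega
  obtain ⟨L, hL⟩ : ∃ L : ℝ, L = (15 * n) ^ k := ⟨_, rfl⟩
  have hL0 : 0 < L := by rw [hL]; positivity
  have hL1 : 1 ≤ L := by rw [hL]; exact one_le_pow₀ (by linarith)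
  obtain ⟨ρ, hρ⟩ : ∃ ρ : ℝ, ρ = (1 / (2 * n * L)) ^ ((((n - 1 : ℕ) : ℝ))⁻¹) := ⟨_, rfl⟩
  have hρ0 : 0 < ρ := by rw [hρ]; positivity
  have hρpow : ρ ^ (n - 1) = 1 / (2 * n * L) := by
    rw [hρ]
    exact Real.rpow_inv_natCast_pow (by positivity) hn1
  have hρ1 : ρ ≤ 1 := by
    by_contra hcon
    push Not at hcon
    have h1 := one_le_pow₀ (n := n - 1) hcon.le
    rw [hρpow, le_div_iff₀ (by positivity)] at h1
    nlinarith
  have hρn : ρ ^ n = ρ / (2 * n * L) := by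
    have : ρ ^ n = ρ ^ (n - 1) * ρ := by rw [← pow_succ]; congr 1; omega
    rw [this, hρpow]
    ring
  have hLρ : L * ρ ^ n = ρ / (2 * n) := by
    rw [hρn]
    field_simp
  have hsmall : (15 * (n:ℝ)) ^ k * ρ ^ n ≤ 1 / n := by
    rw [← hL, hLρ, div_le_div_iff₀ (by positivity) hn0]
    nlinarith
  -- the size of `P`
  have hP : ‖P n (k + 1) c‖ ≤ ρ * (1 - 1 / (2 * n)) := by
    by_contra hcon
    push Not at hcon
    have h5 : 1 / (2 * (n:ℝ)) ≤ 1 / 2 := by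
      rw [div_le_div_iff₀ (by positivity) (by norm_num)]
      linarith
    have h0 : 0 ≤ ρ * (1 - 1 / (2 * n)) := by
      apply mul_nonneg hρ0.le
      linarith
    have h1 : (ρ * (1 - 1 / (2 * n))) ^ (n - 1) < ‖P n (k + 1) c‖ ^ (n - 1) :=
      pow_lt_pow_left₀ hcon h0 hn1
    rw [mul_pow, hρpow] at h1
    have h2 : (1:ℝ) / 2 ≤ (1 - 1 / (2 * n)) ^ (n - 1) := by
      have h3 := one_add_mul_le_pow (a := -(1 / (2 * (n:ℝ)))) (by linarith) (n - 1)
      have h4 : ((n - 1 : ℕ) : ℝ) = n - 1 := by rw [Nat.cast_sub (by omega)]; simp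
      rw [h4] at h3
      have h6 : 1 + ((n:ℝ) - 1) * -(1 / (2 * n)) = 1 / 2 + 1 / (2 * n) := by
        field_simp
        ring
      rw [h6] at h3
      have h7 : 0 < 1 / (2 * (n : ℝ)) := by positivity
      have h8 : 1 + -(1 / (2 * (n:ℝ))) = 1 - 1 / (2 * n) := by ring
      rw [h8] at h3
      linarith
    have h3 : 1 / (4 * (n:ℝ) * (15 * n) ^ k) = 1 / (2 * n * L) * (1 / 2) := by
      rw [hL]
      field_simp
      norm_num
    rw [h3] at h
    have h4 : 1 / (2 * (n:ℝ) * L) * (1 / 2) ≤ 1 / (2 * n * L) * (1 - 1 / (2 * n)) ^ (n - 1) := by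
      gcongr
    linarith
  -- the return map
  have hfd : Differentiable ℂ (F n c) := F_diff n c
  have hz : ∀ z ∈ closedBall (0 : ℂ) ρ, ‖F n c z - c‖ ≤ ρ ^ n := by
    intro z hz
    rw [mem_closedBall_zero_iff] at hz
    have : F n c z - c = z ^ n := by unfold F; ring
    rw [this, norm_pow]
    exact pow_le_pow_left₀ (norm_nonneg _) hz n
  have hit : ∀ z, (F n c)^[k + 1] z = (F n c)^[k] (F n c z) := fun z =>
    Function.iterate_succ_apply _ _ _
  have hmaps : MapsTo (F n c)^[k + 1] (closedBall 0 ρ) (closedBall 0 ρ) := by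
    intro z hz'
    have h1 := (follow hn hc hsmall (by positivity) (hz z hz') k le_rfl).1
    rw [mem_closedBall_zero_iff, hit]
    have h2 := norm_le_norm_add_norm_sub' ((F n c)^[k] (F n c z)) (P n (k + 1) c)
    rw [← hL, hLρ] at h1
    have h3 : ρ * (1 - 1 / (2 * n)) + ρ / (2 * n) = ρ := by ring
    linarith
  have hder : ∀ z ∈ closedBall (0 : ℂ) ρ, ‖deriv (F n c)^[k + 1] z‖ ≤ 1 / 2 := by
    intro z hz'
    have h1 := (follow hn hc hsmall (by positivity) (hz z hz') k le_rfl).2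
    have h2 : (F n c)^[k + 1] = (F n c)^[k] ∘ F n c := Function.iterate_succ _ _
    rw [h2, deriv_comp _ ((hfd.iterate k) _) (hfd z), norm_mul, F_deriv, norm_mul, norm_pow,
      Complex.norm_natCast]
    rw [mem_closedBall_zero_iff] at hz'
    calc ‖deriv (F n c)^[k] (F n c z)‖ * (n * ‖z‖ ^ (n - 1)) ≤ L * (n * ρ ^ (n - 1)) := by
          rw [hL]; gcongr
      _ = 1 / 2 := by rw [hρpow]; field_simp
  obtain ⟨z, -, h1, h2⟩ := Pool.Agent.H749R2.Hyp.fixed_of_contr (q := 1 / 2) hρ0.le (by norm_num)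
    (by norm_num) (hfd.iterate (k + 1)) hmaps hder
  exact ⟨k + 1, z, Nat.succ_pos k, h1, (hfd.iterate (k + 1)) z, h2⟩

/-- lower bound on the boundary -/
theorem low {n : ℕ} (hn : 2 ≤ n) {c : ℂ} (hc : c ∈ frontier (multibrotSet n)) (k : ℕ) :
    1 / (4 * n * (15 * n) ^ k) ≤ ‖P n (k + 1) c‖ ^ (n - 1) := by
  by_contra hcon
  push Not at hcon
  have hM : c ∈ multibrotSet n := (isCompact_multibrot hn).isClosed.frontier_subset hc
  exact hc.2 (Pool.Agent.R240.Alm.att_interior hn (att hn hM hcon.le))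

theorem up {n : ℕ} (hn : 2 ≤ n) {c : ℂ} (hc : c ∈ frontier (multibrotSet n)) (k : ℕ) :
    ‖P n k c‖ ^ (n - 1) ≤ 2 :=
  pow_le_two hn ((isCompact_multibrot hn).isClosed.frontier_subset hc) k

end Pool.Agent.R240.Crit
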