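import Pool.Agent.R240.Crit

set_option autoImplicit false

/-! # The product of the distances of the critical orbit to the critical point -/

namespace Pool.Agent.R240.Dpu

open Complex Metric Set Filter Topology N62a1eb23
open Pool.Agent.H712R2 Pool.Agent.H713R2
open Pool.Agent.H462R2.CD (F F_diff F_deriv pow_le_two)

variable {d : ℕ} {c : ℂ}

theorem one_add_pow (hd : 2 ≤ d) {k : ℕ} (hk : k ≤ d) : (1 + 1 / (d:ℝ)) ^ k ≤ 3 := by
  have hd0 : (0:ℝ) < d := by exact_mod_cast (by omega : 0 < d)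
  have h1 : (1 + 1 / (d:ℝ)) ^ k ≤ (1 + 1 / (d:ℝ)) ^ d :=
    pow_le_pow_right₀ (by have : 0 < 1 / (d:ℝ) := by positivity
                          linarith) hk
  have h2 : 1 + 1 / (d:ℝ) ≤ Real.exp (1 / d) := by
    have := Real.add_one_le_exp (1 / (d:ℝ))
    linarith
  have h3 : (1 + 1 / (d:ℝ)) ^ d ≤ Real.exp 1 := by
    calc (1 + 1 / (d:ℝ)) ^ d ≤ Real.exp (1 / d) ^ d := by gcongr
      _ = Real.exp 1 := by
          rw [← Real.exp_nat_mul]
          congr 1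
          field_simp
  have := Real.exp_one_lt_d9
  linarith

theorem pow_sub_le (hd : 2 ≤ d) {u v : ℂ} (h : ‖u - v‖ ≤ ‖v‖ / d) :
    ‖u ^ d - v ^ d‖ ≤ 3 * d * ‖v‖ ^ (d - 1) * ‖u - v‖ := by
  have hd0 : (0:ℝ) < d := by exact_mod_cast (by omega : 0 < d)
  have hu : ‖u‖ ≤ (1 + 1 / d) * ‖v‖ := by
    have h1 : ‖u‖ ≤ ‖u - v‖ + ‖v‖ := by
      have := norm_add_le (u - v) v
      rwa [sub_add_cancel] at this
    have : (1 + 1 / (d:ℝ)) * ‖v‖ = ‖v‖ / d + ‖v‖ := by ring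
    linarith
  have hv : ‖v‖ ≤ (1 + 1 / d) * ‖v‖ := by
    have : 0 ≤ 1 / (d:ℝ) * ‖v‖ := by positivity
    linarith
  refine (Pool.Agent.H762R2.Rt.pow_lip hu hv d).trans ?_
  rw [mul_pow]
  have h3 := one_add_pow hd (k := d - 1) (by omega)
  calc (d:ℝ) * ((1 + 1 / d) ^ (d - 1) * ‖v‖ ^ (d - 1)) * ‖u - v‖
      ≤ d * (3 * ‖v‖ ^ (d - 1)) * ‖u - v‖ := by gcongr
    _ = _ := by ring

/-- the size of the image of the disc of radius `(1 + 1 / d) ρ` -/
noncomputable def RR (d : ℕ) (c : ℂ) (a : ℕ) (ρ : ℝ) (j : ℕ) : ℝ :=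
  4 * ρ ^ d * ∏ i ∈ Finset.range (j - 1), (3 * d * ‖P d (a + 1 + i) c‖ ^ (d - 1))

theorem RR_succ (a : ℕ) (ρ : ℝ) {j : ℕ} (hj : 1 ≤ j) :
    RR d c a ρ (j + 1) = 3 * d * ‖P d (a + j) c‖ ^ (d - 1) * RR d c a ρ j := by
  unfold RR
  obtain ⟨i, rfl⟩ : ∃ i, j = i + 1 := ⟨j - 1, by omega⟩
  rw [Nat.add_sub_cancel, Nat.add_sub_cancel, Finset.prod_range_succ,
    show a + 1 + i = a + (i + 1) by ring]
  ring

theorem RR_nonneg (a : ℕ) {ρ : ℝ} (hρ : 0 ≤ ρ) (j : ℕ) : 0 ≤ RR d c a ρ j := by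
  unfold RR
  positivity

/-- the disc follows the orbit as long as its image is small -/
theorem track (hd : 2 ≤ d) {a : ℕ} {ρ : ℝ} (hρ : 0 < ρ) (ha : ‖P d a c‖ ≤ ρ) {j : ℕ}
    (hj : 1 ≤ j) (h : ∀ i, 1 ≤ i → i < j → RR d c a ρ i ≤ ‖P d (a + i) c‖ / d) :
    ∀ x : ℂ, ‖x‖ ≤ (1 + 1 / d) * ρ → ‖(fc d c)^[j] x - P d (a + j) c‖ ≤ RR d c a ρ j := by
  induction j with
  | zero => omega
  | succ j ih =>
    intro x hx
    rcases Nat.eq_zero_or_pos j with rfl | hj0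
    · rw [zero_add, Function.iterate_one, P_succ]
      have h1 : fc d c x - (P d a c ^ d + c) = x ^ d - P d a c ^ d := by
        unfold fc
        ring
      rw [h1]
      have h2 : ‖x‖ ^ d ≤ 3 * ρ ^ d := by
        calc ‖x‖ ^ d ≤ ((1 + 1 / d) * ρ) ^ d := by gcongr
          _ = (1 + 1 / (d:ℝ)) ^ d * ρ ^ d := mul_pow _ _ _
          _ ≤ 3 * ρ ^ d := by
              have := one_add_pow hd (le_refl d)
              gcongr
      have h3 : ‖P d a c‖ ^ d ≤ ρ ^ d := pow_le_pow_left₀ (norm_nonneg _) ha d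
      have h4 : RR d c a ρ 1 = 4 * ρ ^ d := by
        unfold RR
        simp
      rw [h4]
      calc ‖x ^ d - P d a c ^ d‖ ≤ ‖x ^ d‖ + ‖P d a c ^ d‖ := norm_sub_le _ _
        _ = ‖x‖ ^ d + ‖P d a c‖ ^ d := by rw [norm_pow, norm_pow]
        _ ≤ _ := by linarith
    · have h1 := ih hj0 (fun i hi hi' => h i hi (by omega)) x hx
      have h2 := h j hj0 (by omega)
      rw [Function.iterate_succ_apply', ← add_assoc, P_succ, RR_succ a ρ hj0]
      have h3 : fc d c ((fc d c)^[j] x) - (P d (a + j) c ^ d + c) =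
          ((fc d c)^[j] x) ^ d - P d (a + j) c ^ d := by
        unfold fc
        ring
      rw [h3]
      refine (pow_sub_le hd (h1.trans h2)).trans ?_
      gcongr

/-- `f ^ i` does not map the disc of radius `(1 + 1 / d) ρ` into a small disc near `0` -/
def NT (d : ℕ) (c : ℂ) (i : ℕ) (ρ : ℝ) : Prop :=
  ∀ y : ℂ, ‖y‖ ≤ ρ → ¬ ∀ x : ℂ, ‖x‖ ≤ (1 + 1 / d) * ρ → ‖(fc d c)^[i] x - y‖ ≤ ρ / (100 * d)

theorem block (hd : 2 ≤ d) {a b : ℕ} (hab : a < b) {ρ : ℝ} (hρ : 0 < ρ) (ha : ‖P d a c‖ ≤ ρ)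
    (hb : ‖P d b c‖ ≤ ρ) (hm : ∀ m, a < m → m < b → ρ ≤ ‖P d m c‖) (hnt : NT d c (b - a) ρ) :
    ∃ j, 1 ≤ j ∧ j ≤ b - a ∧
      1 ≤ (400 * (d:ℝ)) ^ j * (ρ ^ (d - 1) * ∏ m ∈ Finset.Ico (a + 1) (a + j), ‖P d m c‖ ^ (d - 1)) := by
  have hd0 : (0:ℝ) < d := by exact_mod_cast (by omega : 0 < d)
  have hd1 : (1:ℝ) ≤ d := by exact_mod_cast (by omega : 1 ≤ d)
  -- it is enough to bound `RR` from below
  have key : ∀ j, 1 ≤ j → ρ / (100 * d) ≤ RR d c a ρ j →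
      1 ≤ (400 * (d:ℝ)) ^ j *
        (ρ ^ (d - 1) * ∏ m ∈ Finset.Ico (a + 1) (a + j), ‖P d m c‖ ^ (d - 1)) := by
    intro j hj h1
    obtain ⟨i, rfl⟩ : ∃ i, j = i + 1 := ⟨j - 1, by omega⟩
    obtain ⟨W, hW⟩ : ∃ W, W = ∏ m ∈ Finset.Ico (a + 1) (a + (i + 1)), ‖P d m c‖ ^ (d - 1) := ⟨_, rfl⟩
    have hW0 : 0 ≤ W := by rw [hW]; positivity
    have h2 : RR d c a ρ (i + 1) = 4 * ρ ^ d * ((3 * d) ^ i * W) := by
      unfold RR
      rw [Nat.add_sub_cancel, hW, Finset.prod_Ico_eq_prod_range,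
        show a + (i + 1) - (a + 1) = i by omega, Finset.prod_mul_distrib]
      rw [Finset.prod_const, Finset.card_range]
    rw [h2] at h1
    rw [← hW]
    have h3 : ρ ^ d = ρ ^ (d - 1) * ρ := by rw [← pow_succ, Nat.sub_add_cancel (by omega)]
    rw [h3, div_le_iff₀ (by positivity)] at h1
    have h4 : 1 ≤ 400 * d * ((3 * d) ^ i * (ρ ^ (d - 1) * W)) := by
      have h5 : ρ * 1 ≤ ρ * (400 * d * ((3 * d) ^ i * (ρ ^ (d - 1) * W))) := by nlinarith
      exact le_of_mul_le_mul_left h5 hρ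
    refine h4.trans ?_
    rw [pow_succ]
    have h6 : (3 * (d:ℝ)) ^ i ≤ (400 * d) ^ i := by gcongr; norm_num
    calc 400 * (d:ℝ) * ((3 * d) ^ i * (ρ ^ (d - 1) * W))
        ≤ 400 * d * ((400 * d) ^ i * (ρ ^ (d - 1) * W)) := by gcongr
      _ = _ := by ring
  by_cases hev : ∃ j, 1 ≤ j ∧ j < b - a ∧ ‖P d (a + j) c‖ / d < RR d c a ρ j
  · obtain ⟨j, hj1, hj2, hj3⟩ := hev
    refine ⟨j, hj1, hj2.le, key j hj1 ?_⟩
    refine le_trans ?_ hj3.le
    have h1 := hm (a + j) (by omega) (by omega)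
    rw [div_le_div_iff₀ (by positivity) hd0]
    nlinarith
  · push Not at hev
    refine ⟨b - a, by omega, le_rfl, key (b - a) (by omega) ?_⟩
    by_contra hcon
    push Not at hcon
    apply hnt (P d b c) hb
    intro x hx
    have h1 := track hd hρ ha (j := b - a) (by omega) hev x hx
    rw [Nat.add_sub_cancel' hab.le] at h1
    exact h1.trans hcon.le

/-- the product over `[a, b)` -/
noncomputable def WW (d : ℕ) (c : ℂ) (a b : ℕ) : ℝ := ∏ m ∈ Finset.Ico a b, ‖P d m c‖ ^ (d - 1)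

theorem WW_mul {a b e : ℕ} (h1 : a ≤ b) (h2 : b ≤ e) : WW d c a b * WW d c b e = WW d c a e :=
  Finset.prod_Ico_consecutive _ h1 h2

theorem WW_self (a : ℕ) : WW d c a a = 1 := by simp [WW]

theorem WW_nonneg (a b : ℕ) : 0 ≤ WW d c a b := by
  unfold WW
  positivity

theorem WW_left {a b : ℕ} (h : a < b) : ‖P d a c‖ ^ (d - 1) * WW d c (a + 1) b = WW d c a b := by
  unfold WW
  rw [Finset.prod_eq_prod_Ico_succ_bot h]

theorem WW_right {a b : ℕ} (h : a ≤ b) : WW d c a b * ‖P d b c‖ ^ (d - 1) = WW d c a (b + 1) := by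
  unfold WW
  rw [Finset.prod_Ico_succ_top h]

/-- the closest point is at the end -/
theorem claimL (hd : 2 ≤ d) {B : ℕ} (hne : ∀ m, 1 ≤ m → m ≤ B → P d m c ≠ 0)
    (hnt : ∀ i, 1 ≤ i → i ≤ B → ∀ ρ, 0 < ρ → NT d c i ρ) (n : ℕ) :
    ∀ a b, b - a = n → 1 ≤ a → a ≤ b → b ≤ B → (∀ m, a ≤ m → m < b → ‖P d b c‖ ≤ ‖P d m c‖) →
      1 ≤ (400 * (d:ℝ)) ^ n * WW d c a b := by
  have hd0 : (0:ℝ) < d := by exact_mod_cast (by omega : 0 < d)
  induction n using Nat.strong_induction_on with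
  | _ n ih =>
    intro a b hn ha hab hbB hmin
    rcases Nat.eq_or_lt_of_le hab with rfl | hlt
    · have : n = 0 := by omega
      rw [this, pow_zero, WW_self, mul_one]
    · have hρ : 0 < ‖P d a c‖ := norm_pos_iff.2 (hne a ha (by omega))
      have hex : ∃ m, a < m ∧ ‖P d m c‖ ≤ ‖P d a c‖ := ⟨b, hlt, hmin a le_rfl hlt⟩
      classical
      obtain ⟨b', hb', hb1, hb2⟩ : ∃ b', b' = Nat.find hex ∧ a < b' ∧ ‖P d b' c‖ ≤ ‖P d a c‖ :=
        ⟨_, rfl, (Nat.find_spec hex).1, (Nat.find_spec hex).2⟩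
      have hb3 : b' ≤ b := by
        rw [hb']
        exact Nat.find_min' hex ⟨hlt, hmin a le_rfl hlt⟩
      have hb4 : ∀ m, a < m → m < b' → ‖P d a c‖ ≤ ‖P d m c‖ := by
        intro m hm1 hm2
        rw [hb'] at hm2
        have := Nat.find_min hex hm2
        push Not at this
        exact (this hm1).le
      obtain ⟨j, hj1, hj2, hj3⟩ := block hd hb1 hρ le_rfl hb2 hb4
        (hnt (b' - a) (by omega) (by omega) _ hρ)
      have h1 : ‖P d a c‖ ^ (d - 1) * ∏ m ∈ Finset.Ico (a + 1) (a + j), ‖P d m c‖ ^ (d - 1) =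
          WW d c a (a + j) := WW_left (by omega)
      rw [h1] at hj3
      have h2 := ih (n - j) (by omega) (a + j) b (by omega) (by omega) (by omega) hbB
        (fun m hm hm' => hmin m (by omega) hm')
      rw [← WW_mul (b := a + j) (by omega) (by omega)]
      have h3 : (400 * (d:ℝ)) ^ n = (400 * d) ^ j * (400 * d) ^ (n - j) := by
        rw [← pow_add]
        congr 1
        omega
      calc (1:ℝ) = 1 * 1 := by norm_num
        _ ≤ ((400 * (d:ℝ)) ^ j * WW d c a (a + j)) * ((400 * d) ^ (n - j) * WW d c (a + j) b) := by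
            have := WW_nonneg (d := d) (c := c) a (a + j)
            gcongr
        _ = _ := by rw [h3]; ring

/-- from a closer point to the closest point of the rest -/
theorem claimV (hd : 2 ≤ d) {B : ℕ} (hne : ∀ m, 1 ≤ m → m ≤ B → P d m c ≠ 0)
    (hnt : ∀ i, 1 ≤ i → i ≤ B → ∀ ρ, 0 < ρ → NT d c i ρ) {a b : ℕ} (hab : a < b) (hbB : b ≤ B)
    (ha : ‖P d a c‖ ≤ ‖P d b c‖) (hm : ∀ m, a < m → m < b → ‖P d b c‖ ≤ ‖P d m c‖) :
    1 ≤ (400 * (d:ℝ)) ^ (b - a) * WW d c (a + 1) (b + 1) := by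
  have hd0 : (0:ℝ) < d := by exact_mod_cast (by omega : 0 < d)
  have hρ : 0 < ‖P d b c‖ := norm_pos_iff.2 (hne b (by omega) hbB)
  obtain ⟨j, hj1, hj2, hj3⟩ := block hd hab hρ ha le_rfl hm (hnt (b - a) (by omega) (by omega) _ hρ)
  have h2 := claimL hd hne hnt (b - (a + j)) (a + j) b rfl (by omega) (by omega) hbB
    (fun m hm1 hm2 => hm m (by omega) hm2)
  rw [← WW_right (by omega), ← WW_mul (a := a + 1) (b := a + j) (by omega) (by omega)]
  have h3 : (400 * (d:ℝ)) ^ (b - a) = (400 * d) ^ j * (400 * d) ^ (b - (a + j)) := by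
    rw [← pow_add]
    congr 1
    omega
  have h4 : 0 ≤ ‖P d b c‖ ^ (d - 1) * WW d c (a + 1) (a + j) := by
    have := WW_nonneg (d := d) (c := c) (a + 1) (a + j)
    positivity
  calc (1:ℝ) = 1 * 1 := by norm_num
    _ ≤ ((400 * (d:ℝ)) ^ j * (‖P d b c‖ ^ (d - 1) * WW d c (a + 1) (a + j))) *
        ((400 * d) ^ (b - (a + j)) * WW d c (a + j) b) := mul_le_mul hj3 h2 (by norm_num)
          (mul_nonneg (by positivity) h4)
    _ = _ := by rw [h3]; ring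

/-- the closest point is at the beginning -/
theorem claimR (hd : 2 ≤ d) {B : ℕ} (hne : ∀ m, 1 ≤ m → m ≤ B → P d m c ≠ 0)
    (hnt : ∀ i, 1 ≤ i → i ≤ B → ∀ ρ, 0 < ρ → NT d c i ρ) (n : ℕ) :
    ∀ a b, b - a = n → a ≤ b → b ≤ B → (∀ m, a < m → m ≤ b → ‖P d a c‖ ≤ ‖P d m c‖) →
      1 ≤ (400 * (d:ℝ)) ^ n * WW d c (a + 1) (b + 1) := by
  have hd0 : (0:ℝ) < d := by exact_mod_cast (by omega : 0 < d)
  induction n using Nat.strong_induction_on with
  | _ n ih =>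
    intro a b hn hab hbB hmin
    rcases Nat.eq_or_lt_of_le hab with rfl | hlt
    · have : n = 0 := by omega
      rw [this, pow_zero, WW_self, mul_one]
    · obtain ⟨j, hj, hjmin⟩ := Finset.exists_min_image (Finset.Ioc a b) (fun m => ‖P d m c‖)
        ⟨b, Finset.mem_Ioc.2 ⟨hlt, le_rfl⟩⟩
      rw [Finset.mem_Ioc] at hj
      have h1 := claimV hd hne hnt hj.1 (by omega) (hmin j hj.1 hj.2)
        (fun m hm1 hm2 => hjmin m (Finset.mem_Ioc.2 ⟨hm1, by omega⟩))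
      have h2 := ih (b - j) (by omega) j b rfl hj.2 hbB
        (fun m hm1 hm2 => hjmin m (Finset.mem_Ioc.2 ⟨by omega, hm2⟩))
      rw [← WW_mul (a := a + 1) (b := j + 1) (by omega) (by omega)]
      have h3 : (400 * (d:ℝ)) ^ n = (400 * d) ^ (j - a) * (400 * d) ^ (b - j) := by
        rw [← pow_add]
        congr 1
        omega
      have h4 := WW_nonneg (d := d) (c := c) (a + 1) (j + 1)
      calc (1:ℝ) = 1 * 1 := by norm_num
        _ ≤ ((400 * (d:ℝ)) ^ (j - a) * WW d c (a + 1) (j + 1)) *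
            ((400 * d) ^ (b - j) * WW d c (j + 1) (b + 1)) := mul_le_mul h1 h2 (by norm_num)
              (mul_nonneg (by positivity) h4)
        _ = _ := by rw [h3]; ring

/-- **The product of the distances of the critical orbit to the critical point.** -/
theorem prod_lower (hd : 2 ≤ d) {N : ℕ} (hne : ∀ m, 1 ≤ m → m ≤ N → P d m c ≠ 0)
    (hnt : ∀ i, 1 ≤ i → i ≤ N → ∀ ρ, 0 < ρ → NT d c i ρ) :
    1 ≤ (400 * (d:ℝ)) ^ N * ∏ i ∈ Finset.range N, ‖P d (i + 1) c‖ ^ (d - 1) := by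
  have h1 := claimR hd hne hnt N 0 N (by omega) (by omega) le_rfl (fun m _ _ => by
    rw [P_zero, norm_zero]
    exact norm_nonneg _)
  unfold WW at h1
  rw [Finset.prod_Ico_eq_prod_range] at h1
  have h2 : N + 1 - (0 + 1) = N := by omega
  rw [h2] at h1
  have h3 : ∀ i, 0 + 1 + i = i + 1 := fun i => by omega
  simpa only [h3] using h1

end Pool.Agent.R240.Dpu
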