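import Pool.Agent.R240.Polar

set_option autoImplicit false

/-! # The norms of the kernels -/

namespace Pool.Agent.R240.Push

open Complex Metric Set Filter Topology MeasureTheory ENNReal

theorem radial (F : ℝ → ℝ≥0∞) (hF : Measurable F) (a : ℂ) :
    ∫⁻ x : ℂ, F ‖x - a‖ = ENNReal.ofReal (2 * Real.pi) *
      ∫⁻ r in Ioi (0:ℝ), ENNReal.ofReal r * F r := by
  have h0 : ∫⁻ x : ℂ, F ‖x - a‖ = ∫⁻ x : ℂ, F ‖x‖ :=
    lintegral_sub_right_eq_self (fun x : ℂ => F ‖x‖) a
  rw [h0, polar _ (by fun_prop), ← lintegral_const_mul' _ _ ENNReal.ofReal_ne_top]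
  apply setLIntegral_congr_fun measurableSet_Ioi
  intro r hr
  rw [mem_Ioi] at hr
  have h2 : ∀ θ : ℝ, ‖(r:ℂ) * exp (θ * I)‖ = r := by
    intro θ
    rw [norm_mul, Complex.norm_exp_ofReal_mul_I, mul_one, Complex.norm_real, Real.norm_of_nonneg hr.le]
  simp only [h2]
  rw [setLIntegral_const, Real.volume_Ioc, show Real.pi - -Real.pi = 2 * Real.pi by ring]
  ring

theorem kern_one (a : ℂ) {R : ℝ} :
    ∫⁻ x in ball a R, ENNReal.ofReal (‖x - a‖⁻¹) ≤ ENNReal.ofReal (2 * Real.pi * R) := by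
  obtain ⟨F, hF⟩ : ∃ F : ℝ → ℝ≥0∞, F = (Iio R).indicator fun r => ENNReal.ofReal (r⁻¹) := ⟨_, rfl⟩
  have hFm : Measurable F := by
    rw [hF]
    exact (by fun_prop : Measurable fun r : ℝ => ENNReal.ofReal (r⁻¹)).indicator measurableSet_Iio
  have h1 : ∫⁻ x in ball a R, ENNReal.ofReal (‖x - a‖⁻¹) = ∫⁻ x, F ‖x - a‖ := by
    rw [← lintegral_indicator isOpen_ball.measurableSet, hF]
    apply lintegral_congr
    intro x
    by_cases h : x ∈ ball a R
    · rw [indicator_of_mem h, indicator_of_mem (by rwa [mem_Iio, ← mem_ball_iff_norm])]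
    · rw [indicator_of_notMem h, indicator_of_notMem (by rwa [mem_Iio, ← mem_ball_iff_norm])]
  rw [h1, radial F hFm, ENNReal.ofReal_mul (p := 2 * Real.pi) (by positivity)]
  gcongr
  calc ∫⁻ r in Ioi (0:ℝ), ENNReal.ofReal r * F r ≤ ∫⁻ r in Ioi (0:ℝ), (Iio R).indicator 1 r := by
        apply setLIntegral_mono' measurableSet_Ioi
        intro r hr
        rw [mem_Ioi] at hr
        rw [hF]
        by_cases h : r ∈ Iio R
        · rw [indicator_of_mem h, indicator_of_mem h, ← ENNReal.ofReal_mul hr.le,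
            mul_inv_cancel₀ hr.ne', ENNReal.ofReal_one]
          exact le_rfl
        · rw [indicator_of_notMem h, indicator_of_notMem h, mul_zero]
    _ = volume (Iio R ∩ Ioi 0) := by
        rw [lintegral_indicator_one measurableSet_Iio, Measure.restrict_apply measurableSet_Iio]
    _ = ENNReal.ofReal R := by
        rw [inter_comm, Ioi_inter_Iio, Real.volume_Ioo, sub_zero]

theorem lint_inv {s R : ℝ} (hs : 0 < s) (hR : s ≤ R) :
    ∫⁻ r in Ioc s R, ENNReal.ofReal (r⁻¹) = ENNReal.ofReal (Real.log (R / s)) := by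
  rw [← ofReal_integral_eq_lintegral_ofReal]
  · congr 1
    rw [← intervalIntegral.integral_of_le hR, integral_inv_of_pos hs (hs.trans_le hR)]
  · rw [← IntegrableOn, ← intervalIntegrable_iff_integrableOn_Ioc_of_le hR]
    apply intervalIntegral.intervalIntegrable_inv
    · intro x hx
      rw [uIcc_of_le hR] at hx
      exact (hs.trans_le hx.1).ne'
    · exact continuousOn_id
  · filter_upwards [ae_restrict_mem measurableSet_Ioc] with x hx
    exact inv_nonneg.2 (hs.trans hx.1).le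

theorem kern_sq (a : ℂ) {s R : ℝ} (hs : 0 < s) (hR : s ≤ R) :
    ∫⁻ x in {x : ℂ | ‖x - a‖ ∈ Ioc s R}, ENNReal.ofReal (‖x - a‖⁻¹ ^ 2) =
      ENNReal.ofReal (2 * Real.pi * Real.log (R / s)) := by
  obtain ⟨F, hF⟩ : ∃ F : ℝ → ℝ≥0∞, F = (Ioc s R).indicator fun r => ENNReal.ofReal (r⁻¹ ^ 2) :=
    ⟨_, rfl⟩
  have hFm : Measurable F := by
    rw [hF]
    exact (by fun_prop : Measurable fun r : ℝ => ENNReal.ofReal (r⁻¹ ^ 2)).indicator measurableSet_Ioc
  have hm : MeasurableSet {x : ℂ | ‖x - a‖ ∈ Ioc s R} :=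
    measurableSet_Ioc.preimage (by fun_prop)
  have h1 : ∫⁻ x in {x : ℂ | ‖x - a‖ ∈ Ioc s R}, ENNReal.ofReal (‖x - a‖⁻¹ ^ 2) =
      ∫⁻ x, F ‖x - a‖ := by
    rw [← lintegral_indicator hm, hF]
    apply lintegral_congr
    intro x
    by_cases h : ‖x - a‖ ∈ Ioc s R
    · rw [indicator_of_mem h, indicator_of_mem (show x ∈ {x : ℂ | ‖x - a‖ ∈ Ioc s R} from h)]
    · rw [indicator_of_notMem h, indicator_of_notMem (show x ∉ {x : ℂ | ‖x - a‖ ∈ Ioc s R} from h)]
  rw [h1, radial F hFm, ENNReal.ofReal_mul (p := 2 * Real.pi) (by positivity), ← lint_inv hs hR]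
  congr 1
  have h2 : ∀ r ∈ Ioi (0:ℝ), ENNReal.ofReal r * F r =
      (Ioc s R).indicator (fun r => ENNReal.ofReal (r⁻¹)) r := by
    intro r hr
    rw [mem_Ioi] at hr
    rw [hF]
    by_cases h : r ∈ Ioc s R
    · rw [indicator_of_mem h, indicator_of_mem h, ← ENNReal.ofReal_mul hr.le]
      congr 1
      field_simp
    · rw [indicator_of_notMem h, indicator_of_notMem h, mul_zero]
  rw [setLIntegral_congr_fun measurableSet_Ioi h2, lintegral_indicator measurableSet_Ioc,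
    Measure.restrict_restrict measurableSet_Ioc]
  congr 2
  rw [inter_eq_left]
  intro r hr
  exact hs.trans hr.1

/-- The norm of the difference of two simple poles. -/
theorem kern_two {a b : ℂ} (ha : ‖a‖ ≤ 2) (hb : ‖b‖ ≤ 2) (hab : a ≠ b) :
    ∫⁻ x in ball (0:ℂ) 4, ENNReal.ofReal (‖x - a‖⁻¹ * ‖x - b‖⁻¹) ≤
      ENNReal.ofReal (4 * Real.pi + 2 * Real.pi * Real.log (24 / ‖a - b‖)) := by
  obtain ⟨δ, hδ⟩ : ∃ δ, δ = ‖a - b‖ := ⟨_, rfl⟩
  have hδ0 : 0 < δ := by rw [hδ]; exact norm_pos_iff.2 (sub_ne_zero.2 hab)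
  have hδ4 : δ ≤ 4 := by
    rw [hδ]
    have := norm_sub_le a b
    linarith
  rw [← hδ]
  obtain ⟨A, hA⟩ : ∃ A : ℂ → ℂ → ℝ≥0∞, A = fun e x =>
      (ball e (δ / 2)).indicator (fun x => ENNReal.ofReal (2 / δ) * ENNReal.ofReal (‖x - e‖⁻¹)) x +
      {x : ℂ | ‖x - e‖ ∈ Ioc (δ / 4) 6}.indicator
        (fun x => ENNReal.ofReal (1 / 2) * ENNReal.ofReal (‖x - e‖⁻¹ ^ 2)) x := ⟨_, rfl⟩
  have hm : ∀ e : ℂ, MeasurableSet {x : ℂ | ‖x - e‖ ∈ Ioc (δ / 4) 6} := fun e =>
    measurableSet_Ioc.preimage (by fun_prop)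
  have hA1 : ∀ e, Measurable (A e) := by
    intro e
    rw [hA]
    apply Measurable.add
    · exact Measurable.indicator (by fun_prop) isOpen_ball.measurableSet
    · exact Measurable.indicator (by fun_prop) (hm e)
  have hA2 : ∀ e, ∫⁻ x, A e x ≤
      ENNReal.ofReal (2 * Real.pi + Real.pi * Real.log (24 / δ)) := by
    intro e
    have hlog : 0 ≤ Real.log (24 / δ) := Real.log_nonneg (by rw [le_div_iff₀ hδ0]; linarith)
    rw [hA]
    rw [lintegral_add_left (Measurable.indicator (by fun_prop) isOpen_ball.measurableSet),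
      lintegral_indicator isOpen_ball.measurableSet, lintegral_indicator (hm e),
      lintegral_const_mul' _ _ ENNReal.ofReal_ne_top, lintegral_const_mul' _ _ ENNReal.ofReal_ne_top,
      kern_sq e (by positivity) (by linarith)]
    have h1 := kern_one e (R := δ / 2)
    calc _ ≤ ENNReal.ofReal (2 / δ) * ENNReal.ofReal (2 * Real.pi * (δ / 2)) +
          ENNReal.ofReal (1 / 2) * ENNReal.ofReal (2 * Real.pi * Real.log (6 / (δ / 4))) := by gcongr
      _ = _ := by
          rw [← ENNReal.ofReal_mul (by positivity), ← ENNReal.ofReal_mul (by positivity),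
            ← ENNReal.ofReal_add (by positivity)]
          · congr 1
            have : 6 / (δ / 4) = 24 / δ := by field_simp; norm_num
            rw [this]
            field_simp
          · have : 6 / (δ / 4) = 24 / δ := by field_simp; norm_num
            rw [this]
            positivity
  have hpt : ∀ e u x : ℂ, ‖e - u‖ = δ → ‖x - e‖ < δ / 2 → ENNReal.ofReal (‖x - e‖⁻¹ * ‖x - u‖⁻¹) ≤
      ENNReal.ofReal (2 / δ) * ENNReal.ofReal (‖x - e‖⁻¹) := by
    intro e u x heu hx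
    rw [← ENNReal.ofReal_mul (by positivity)]
    apply ENNReal.ofReal_le_ofReal
    have h1 : δ / 2 ≤ ‖x - u‖ := by
      have h2 : ‖e - u‖ ≤ ‖x - u‖ + ‖x - e‖ := by
        calc ‖e - u‖ = ‖(x - u) - (x - e)‖ := by congr 1; ring
          _ ≤ _ := norm_sub_le _ _
      linarith
    have h2 : ‖x - u‖⁻¹ ≤ 2 / δ := by
      rw [inv_le_comm₀ (by linarith) (by positivity)]
      rw [inv_div]
      exact h1
    calc ‖x - e‖⁻¹ * ‖x - u‖⁻¹ ≤ ‖x - e‖⁻¹ * (2 / δ) := by gcongr
      _ = _ := by ring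
  have hall : ∀ x ∈ ball (0:ℂ) 4, ENNReal.ofReal (‖x - a‖⁻¹ * ‖x - b‖⁻¹) ≤ A a x + A b x := by
    intro x hx
    rw [mem_ball_zero_iff] at hx
    have hxa : ‖x - a‖ ≤ 6 := by
      have := norm_sub_le x a
      linarith
    have hxb : ‖x - b‖ ≤ 6 := by
      have := norm_sub_le x b
      linarith
    rw [hA]
    simp only
    by_cases h1 : ‖x - a‖ < δ / 2
    · have h2 : x ∈ ball a (δ / 2) := by rwa [mem_ball_iff_norm]
      rw [indicator_of_mem h2]
      refine (hpt a b x hδ.symm h1).trans ?_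
      rw [add_assoc]
      exact le_self_add
    by_cases h2 : ‖x - b‖ < δ / 2
    · have h3 : x ∈ ball b (δ / 2) := by rwa [mem_ball_iff_norm]
      rw [indicator_of_mem h3]
      have h4 := hpt b a x (by rw [norm_sub_rev, hδ]) h2
      rw [mul_comm (‖x - a‖⁻¹)]
      refine h4.trans ?_
      rw [← add_assoc, add_assoc, add_comm _ (ENNReal.ofReal (2 / δ) * _ + _), add_assoc]
      exact le_self_add
    · push Not at h1 h2
      have h3 : x ∈ {x : ℂ | ‖x - a‖ ∈ Ioc (δ / 4) 6} := ⟨by linarith, hxa⟩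
      have h4 : x ∈ {x : ℂ | ‖x - b‖ ∈ Ioc (δ / 4) 6} := ⟨by linarith, hxb⟩
      rw [indicator_of_mem h3, indicator_of_mem h4]
      have h5 : ENNReal.ofReal (‖x - a‖⁻¹ * ‖x - b‖⁻¹) ≤
          ENNReal.ofReal (1 / 2) * ENNReal.ofReal (‖x - a‖⁻¹ ^ 2) +
            ENNReal.ofReal (1 / 2) * ENNReal.ofReal (‖x - b‖⁻¹ ^ 2) := by
        rw [← ENNReal.ofReal_mul (by norm_num), ← ENNReal.ofReal_mul (by norm_num),
          ← ENNReal.ofReal_add (by positivity) (by positivity)]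
        apply ENNReal.ofReal_le_ofReal
        nlinarith [sq_nonneg (‖x - a‖⁻¹ - ‖x - b‖⁻¹)]
      refine h5.trans ?_
      gcongr
      · exact le_add_self
      · exact le_add_self
  calc ∫⁻ x in ball (0:ℂ) 4, ENNReal.ofReal (‖x - a‖⁻¹ * ‖x - b‖⁻¹)
      ≤ ∫⁻ x in ball (0:ℂ) 4, (A a x + A b x) := setLIntegral_mono' isOpen_ball.measurableSet hall
    _ ≤ ∫⁻ x, (A a x + A b x) := setLIntegral_le_lintegral _ _
    _ = (∫⁻ x, A a x) + ∫⁻ x, A b x := lintegral_add_left (hA1 a) _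
    _ ≤ ENNReal.ofReal (2 * Real.pi + Real.pi * Real.log (24 / δ)) +
        ENNReal.ofReal (2 * Real.pi + Real.pi * Real.log (24 / δ)) := add_le_add (hA2 a) (hA2 b)
    _ = _ := by
        have hlog : 0 ≤ Real.log (24 / δ) := Real.log_nonneg (by rw [le_div_iff₀ hδ0]; linarith)
        rw [← ENNReal.ofReal_add (by positivity) (by positivity)]
        congr 1
        ring

end Pool.Agent.R240.Push
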