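import Pool.Agent.R240.Polar

set_option autoImplicit false

/-! # Residues against the norm on an annulus -/

namespace Pool.Agent.R240.Push

open Complex Metric Set Filter Topology MeasureTheory ENNReal

theorem circle_shift (h : ℂ → ℝ≥0∞) (s : ℝ) :
    ∫⁻ θ in Ioc 0 (2 * Real.pi), h (s * exp (θ * I)) =
      ∫⁻ θ in Ioc (-Real.pi) Real.pi, h (s * exp (θ * I)) := by
  have : Fact (0 < 2 * Real.pi) := ⟨by positivity⟩
  obtain ⟨H, hH⟩ : ∃ H : AddCircle (2 * Real.pi) → ℝ≥0∞, H = fun y =>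
    h (s * (AddCircle.toCircle y : ℂ)) := ⟨_, rfl⟩
  have h0 : ∀ θ : ℝ, ((AddCircle.toCircle (θ : AddCircle (2 * Real.pi)) : Circle) : ℂ) =
      exp (θ * I) := by
    intro θ
    rw [AddCircle.toCircle_apply_mk, Circle.coe_exp]
    congr 2
    rw [div_self (by positivity), one_mul]
  have e1 : ∀ θ : ℝ, H (θ : AddCircle (2 * Real.pi)) = h (s * exp (θ * I)) := by
    intro θ
    rw [hH]
    simp only [h0]
  have h1 := AddCircle.lintegral_preimage (2 * Real.pi) 0 H
  have h2 := AddCircle.lintegral_preimage (2 * Real.pi) (-Real.pi) H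
  simp only [e1] at h1 h2
  rw [zero_add] at h1
  rw [show -Real.pi + 2 * Real.pi = Real.pi by ring] at h2
  rw [h1, h2]

/-- The sum of simple poles at the points `z k`, `k < n`, with residues `ρ k`. -/
noncomputable def qq (n : ℕ) (ρ z : ℕ → ℂ) (x : ℂ) : ℂ := ∑ k ∈ Finset.range n, ρ k / (x - z k)

theorem qq_meas (n : ℕ) (ρ z : ℕ → ℂ) : Measurable (qq n ρ z) := by
  unfold qq
  fun_prop

theorem circle_bound {n : ℕ} {ρ z : ℕ → ℂ} {Φ : ℂ → ℂ} {M s : ℝ}
    (hz : ∀ k < n, ‖z k‖ ≤ 2) (hΦ : DifferentiableOn ℂ Φ (ball 0 4))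
    (hM : ∀ x ∈ ball (0:ℂ) 4, ‖Φ x‖ ≤ M) (hs : 2 < s) (hs4 : s < 4) :
    ENNReal.ofReal (2 * Real.pi * ‖∑ k ∈ Finset.range n, ρ k * Φ (z k)‖) ≤
      ENNReal.ofReal M * (ENNReal.ofReal s *
        ∫⁻ θ in Ioc (-Real.pi) Real.pi, ‖qq n ρ z (s * exp (θ * I))‖ₑ) := by
  have hs0 : 0 < s := by linarith
  have hM0 : 0 ≤ M := (norm_nonneg _).trans (hM 0 (mem_ball_self (by norm_num)))
  have hcl : closedBall (0:ℂ) s ⊆ ball 0 4 := closedBall_subset_ball hs4
  have hD : DiffContOnCl ℂ Φ (ball 0 s) := hΦ.diffContOnCl_ball hcl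
  have hint : ∀ k ∈ Finset.range n, CircleIntegrable (fun x => ρ k * ((x - z k)⁻¹ • Φ x)) 0 s := by
    intro k hk
    apply ContinuousOn.circleIntegrable hs0.le
    apply ContinuousOn.mul continuousOn_const
    apply ContinuousOn.fun_smul
    · apply ContinuousOn.inv₀ (by fun_prop)
      intro x hx
      rw [mem_sphere_zero_iff_norm] at hx
      have := hz k (Finset.mem_range.1 hk)
      intro h
      rw [sub_eq_zero] at h
      rw [h] at hx
      linarith
    · exact hΦ.continuousOn.mono (sphere_subset_closedBall.trans hcl)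
  have h1 : (∮ x in C(0, s), qq n ρ z x * Φ x) =
      2 * Real.pi * I * ∑ k ∈ Finset.range n, ρ k * Φ (z k) := by
    have h2 : ∀ x, qq n ρ z x * Φ x = ∑ k ∈ Finset.range n, ρ k * ((x - z k)⁻¹ • Φ x) := by
      intro x
      unfold qq
      rw [Finset.sum_mul]
      apply Finset.sum_congr rfl
      intro k _
      rw [smul_eq_mul, div_eq_mul_inv, mul_assoc]
    simp only [h2]
    rw [circleIntegral.integral_fun_sum hint, Finset.mul_sum]
    apply Finset.sum_congr rfl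
    intro k hk
    rw [circleIntegral.integral_const_mul, hD.circleIntegral_sub_inv_smul (by
      rw [mem_ball_zero_iff]
      have := hz k (Finset.mem_range.1 hk)
      linarith), smul_eq_mul]
    ring
  have h2 : ENNReal.ofReal (2 * Real.pi * ‖∑ k ∈ Finset.range n, ρ k * Φ (z k)‖) =
      ‖∮ x in C(0, s), qq n ρ z x * Φ x‖ₑ := by
    rw [h1, ← ofReal_norm]
    congr 1
    rw [norm_mul, norm_mul, norm_mul, norm_I, mul_one, Complex.norm_real,
      Real.norm_of_nonneg Real.pi_pos.le]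
    norm_num
  rw [h2, circleIntegral, intervalIntegral.integral_of_le (by positivity)]
  refine (enorm_integral_le_lintegral_enorm _).trans ?_
  have h3 : ∀ θ : ℝ, ‖deriv (circleMap 0 s) θ • (qq n ρ z (circleMap 0 s θ) * Φ (circleMap 0 s θ))‖ₑ ≤
      ENNReal.ofReal M * (ENNReal.ofReal s * ‖qq n ρ z (s * exp (θ * I))‖ₑ) := by
    intro θ
    have h4 : circleMap 0 s θ = s * exp (θ * I) := circleMap_zero s θ
    rw [smul_eq_mul, enorm_mul, enorm_mul, deriv_circleMap, h4]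
    have h5 : ‖(s:ℂ) * exp (θ * I)‖ = s := by
      rw [norm_mul, Complex.norm_exp_ofReal_mul_I, mul_one, Complex.norm_real,
        Real.norm_of_nonneg hs0.le]
    have h6 : ‖(s:ℂ) * exp (θ * I) * I‖ₑ = ENNReal.ofReal s := by
      rw [← ofReal_norm, norm_mul, h5, norm_I, mul_one]
    have h7 : ‖Φ ((s:ℂ) * exp (θ * I))‖ₑ ≤ ENNReal.ofReal M := by
      rw [← ofReal_norm]
      apply ENNReal.ofReal_le_ofReal
      apply hM
      rw [mem_ball_zero_iff, h5]
      exact hs4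
    rw [h6]
    calc ENNReal.ofReal s * (‖qq n ρ z (s * exp (θ * I))‖ₑ * ‖Φ ((s:ℂ) * exp (θ * I))‖ₑ)
        ≤ ENNReal.ofReal s * (‖qq n ρ z (s * exp (θ * I))‖ₑ * ENNReal.ofReal M) := by gcongr
      _ = _ := by ring
  refine (lintegral_mono h3).trans ?_
  rw [lintegral_const_mul' _ _ ENNReal.ofReal_ne_top, lintegral_const_mul' _ _ ENNReal.ofReal_ne_top,
    circle_shift (fun x => ‖qq n ρ z x‖ₑ) s]

/-- the annulus -/
def Ann : Set ℂ := {x | 5 / 2 < ‖x‖ ∧ ‖x‖ < 4}

theorem Ann_meas : MeasurableSet Ann := by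
  apply MeasurableSet.inter
  · exact measurableSet_lt measurable_const measurable_norm
  · exact measurableSet_lt measurable_norm measurable_const

/-- **Residues against the norm on the annulus.** -/
theorem resid {n : ℕ} {ρ z : ℕ → ℂ} {Φ : ℂ → ℂ} {M : ℝ}
    (hz : ∀ k < n, ‖z k‖ ≤ 2) (hΦ : DifferentiableOn ℂ Φ (ball 0 4))
    (hM : ∀ x ∈ ball (0:ℂ) 4, ‖Φ x‖ ≤ M) :
    ENNReal.ofReal (3 * Real.pi * ‖∑ k ∈ Finset.range n, ρ k * Φ (z k)‖) ≤
      ENNReal.ofReal M * ∫⁻ x in Ann, ‖qq n ρ z x‖ₑ := by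
  have hqm : Measurable (Ann.indicator fun x => ‖qq n ρ z x‖ₑ) :=
    (qq_meas n ρ z).enorm.indicator Ann_meas
  rw [← lintegral_indicator Ann_meas, polar _ hqm, ← lintegral_const_mul' _ _ ENNReal.ofReal_ne_top]
  have h1 : ∫⁻ s in Ioo (5 / 2 : ℝ) 4,
      ENNReal.ofReal (2 * Real.pi * ‖∑ k ∈ Finset.range n, ρ k * Φ (z k)‖) =
      ENNReal.ofReal (3 * Real.pi * ‖∑ k ∈ Finset.range n, ρ k * Φ (z k)‖) := by
    rw [setLIntegral_const, Real.volume_Ioo, ← ENNReal.ofReal_mul (by positivity)]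
    congr 1
    ring
  rw [← h1]
  calc ∫⁻ s in Ioo (5 / 2 : ℝ) 4,
      ENNReal.ofReal (2 * Real.pi * ‖∑ k ∈ Finset.range n, ρ k * Φ (z k)‖)
      ≤ ∫⁻ s in Ioo (5 / 2 : ℝ) 4, ENNReal.ofReal M * (ENNReal.ofReal s *
        ∫⁻ θ in Ioc (-Real.pi) Real.pi, Ann.indicator (fun x => ‖qq n ρ z x‖ₑ) (s * exp (θ * I))) := by
        apply setLIntegral_mono' measurableSet_Ioo
        intro s hs
        refine (circle_bound hz hΦ hM (by linarith [hs.1]) hs.2).trans ?_
        have h5 : ∀ θ : ℝ, ‖(s:ℂ) * exp (θ * I)‖ = s := by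
          intro θ
          rw [norm_mul, Complex.norm_exp_ofReal_mul_I, mul_one, Complex.norm_real,
            Real.norm_of_nonneg (by linarith [hs.1])]
        gcongr with θ
        rw [indicator_of_mem]
        exact ⟨by rw [h5]; exact hs.1, by rw [h5]; exact hs.2⟩
    _ ≤ _ := by
        apply lintegral_mono_set
        intro s hs
        exact lt_trans (by norm_num) hs.1

end Pool.Agent.R240.Push
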