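import Pool.Agent.R240.Push
import Pool.Agent.R240.Kern
import Pool.Agent.R240.Resid
import Pool.Agent.R240.Crit

set_option autoImplicit false

/-! # Universal transversality of the unicritical family -/

namespace Pool.Agent.R240.Univ

open Complex Metric Set Filter Topology MeasureTheory ENNReal N62a1eb23
open Pool.Agent.H712R2 Pool.Agent.H713R2 Pool.Agent.R240.Push

/-- the derivative of the `k`-th iterate at the critical value -/
noncomputable def DD (d : ℕ) (c : ℂ) (k : ℕ) : ℂ :=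
  ∏ j ∈ Finset.range k, ((d : ℂ) * P d (j + 1) c ^ (d - 1))

theorem DD_zero (d : ℕ) (c : ℂ) : DD d c 0 = 1 := by simp [DD]

theorem DD_succ (d : ℕ) (c : ℂ) (k : ℕ) : DD d c (k + 1) = DD d c k * (d * P d (k + 1) c ^ (d - 1)) := by
  unfold DD
  rw [Finset.prod_range_succ]

theorem DD_ne {d : ℕ} (hd : 2 ≤ d) {c : ℂ} {N : ℕ} (h : ∀ m, 1 ≤ m → m ≤ N → P d m c ≠ 0) {k : ℕ}
    (hk : k ≤ N) : DD d c k ≠ 0 := by
  unfold DD
  rw [Finset.prod_ne_zero_iff]
  intro j hj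
  rw [Finset.mem_range] at hj
  have h1 : (d : ℂ) ≠ 0 := by exact_mod_cast (by omega : d ≠ 0)
  exact mul_ne_zero h1 (pow_ne_zero _ (h (j + 1) (by omega) (by omega)))

/-- the poles -/
noncomputable def zz (d : ℕ) (c : ℂ) (k : ℕ) : ℂ := P d (k + 1) c

/-- the push-forward -/
noncomputable def GG (d : ℕ) (c : ℂ) (N : ℕ) (y : ℂ) : ℂ :=
  ∑ k ∈ Finset.range (N + 1), (DD d c k)⁻¹ * zz d c k / (d * (y - c) * (y - zz d c (k + 1)))

theorem GG_meas (d : ℕ) (c : ℂ) (N : ℕ) : Measurable (GG d c N) := by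
  unfold GG
  fun_prop

theorem zz_succ (d : ℕ) (c : ℂ) (k : ℕ) : zz d c (k + 1) = zz d c k ^ d + c := P_succ d (k + 1) c

theorem finite_pow {d : ℕ} (hd : 2 ≤ d) (w : ℂ) : {x : ℂ | x ^ d = w}.Finite := by
  refine Set.Finite.subset (Polynomial.nthRoots d w).toFinset.finite_toSet ?_
  intro x hx
  rw [Finset.mem_coe, Multiset.mem_toFinset, Polynomial.mem_nthRoots (by omega)]
  exact hx

theorem GG_push {d : ℕ} (hd : 2 ≤ d) {ζ : ℂ} (hζ : IsPrimitiveRoot ζ d) (c : ℂ) (N : ℕ) :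
    ∀ᵐ x : ℂ, (d * x ^ (d - 1)) ^ 2 * GG d c N (x ^ d + c) =
      ∑ i ∈ Finset.range d, (ζ ^ i) ^ 2 * qq (N + 1) (fun k => (DD d c k)⁻¹) (zz d c) (ζ ^ i * x) := by
  have hd0 : (d : ℂ) ≠ 0 := by exact_mod_cast (by omega : d ≠ 0)
  have hfin : ({0} ∪ ⋃ k ∈ Finset.range (N + 1), {x : ℂ | x ^ d = zz d c k ^ d}).Finite := by
    apply (finite_singleton _).union
    apply Set.Finite.biUnion (Finset.finite_toSet _)
    intro k _
    exact finite_pow hd _
  have h0 := hfin.measure_zero (volume : Measure ℂ)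
  rw [← compl_compl ({0} ∪ ⋃ k ∈ Finset.range (N + 1), {x : ℂ | x ^ d = zz d c k ^ d})] at h0
  have h0' : ({0} ∪ ⋃ k ∈ Finset.range (N + 1), {x : ℂ | x ^ d = zz d c k ^ d})ᶜ ∈ ae (volume : Measure ℂ) := h0
  filter_upwards [h0'] with x hx
  simp only [mem_compl_iff, mem_union, mem_singleton_iff, mem_iUnion, not_or, not_exists,
    Finset.mem_range, mem_ofPred_eq] at hx
  obtain ⟨hx0, hx1⟩ := hx
  unfold GG qq
  have h2 : ∀ i, (ζ ^ i) ^ 2 * ∑ k ∈ Finset.range (N + 1), (DD d c k)⁻¹ / (ζ ^ i * x - zz d c k) =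
      ∑ k ∈ Finset.range (N + 1), (DD d c k)⁻¹ * ((ζ ^ i) ^ 2 / (ζ ^ i * x - zz d c k)) := by
    intro i
    rw [Finset.mul_sum]
    apply Finset.sum_congr rfl
    intro k _
    ring
  simp only [h2]
  rw [Finset.sum_comm, Finset.mul_sum]
  apply Finset.sum_congr rfl
  intro k hk
  rw [Finset.mem_range] at hk
  have h3 := hx1 k hk
  rw [← Finset.mul_sum, root_sum hd hζ h3, zz_succ]
  have e1 : x ^ d + c - c = x ^ d := by ring
  have e2 : x ^ d + c - (zz d c k ^ d + c) = x ^ d - zz d c k ^ d := by ring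
  rw [e1, e2]
  have h4 : x ^ d - zz d c k ^ d ≠ 0 := sub_ne_zero.2 h3
  have h5 : x ^ d ≠ 0 := pow_ne_zero _ hx0
  obtain ⟨e, rfl⟩ : ∃ e, d = e + 2 := ⟨d - 2, by omega⟩
  have e3 : e + 2 - 1 = e + 1 := rfl
  have e4 : e + 2 - 2 = e := rfl
  rw [e3, e4]
  field_simp
  ring

/-- the push-forward and the differential itself -/
theorem GG_eq {d : ℕ} (hd : 2 ≤ d) {c : ℂ} {N : ℕ} (h : ∀ m, 1 ≤ m → m ≤ N → P d m c ≠ 0) {y : ℂ}
    (hyc : y ≠ c) (hy : ∀ k ≤ N + 1, y ≠ zz d c k) :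
    qq (N + 1) (fun k => (DD d c k)⁻¹) (zz d c) y = GG d c N y +
      (∑ k ∈ Finset.range (N + 1), (DD d c k)⁻¹) / (y - c) -
      (DD d c N)⁻¹ * zz d c N / (d * (y - c) * (y - zz d c (N + 1))) := by
  have hd0 : (d : ℂ) ≠ 0 := by exact_mod_cast (by omega : d ≠ 0)
  have hyc' : y - c ≠ 0 := sub_ne_zero.2 hyc
  have h1 : GG d c N y = (∑ k ∈ Finset.range N, ((DD d c (k + 1))⁻¹ / (y - zz d c (k + 1)) -
      (DD d c (k + 1))⁻¹ / (y - c))) +
      (DD d c N)⁻¹ * zz d c N / (d * (y - c) * (y - zz d c (N + 1))) := by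
    unfold GG
    rw [Finset.sum_range_succ]
    congr 1
    apply Finset.sum_congr rfl
    intro k hk
    rw [Finset.mem_range] at hk
    have h2 : zz d c k ≠ 0 := h (k + 1) (by omega) (by omega)
    have h3 := DD_ne hd h (k := k) (by omega)
    have h4 : y - zz d c (k + 1) ≠ 0 := sub_ne_zero.2 (hy (k + 1) (by omega))
    have h5 : (DD d c (k + 1))⁻¹ / (y - zz d c (k + 1)) - (DD d c (k + 1))⁻¹ / (y - c) =
        (DD d c (k + 1))⁻¹ * (zz d c (k + 1) - c) / ((y - c) * (y - zz d c (k + 1))) := by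
      field_simp
      ring
    rw [h5, zz_succ, DD_succ]
    have h6 : zz d c k ^ d + c - c = zz d c k ^ (d - 1) * zz d c k := by
      rw [← pow_succ, Nat.sub_add_cancel (by omega)]
      ring
    rw [h6]
    have h7 : P d (k + 1) c = zz d c k := rfl
    rw [h7, ← zz_succ]
    field_simp
  have h2 : qq (N + 1) (fun k => (DD d c k)⁻¹) (zz d c) y =
      (∑ k ∈ Finset.range N, (DD d c (k + 1))⁻¹ / (y - zz d c (k + 1))) + 1 / (y - c) := by
    unfold qq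
    rw [Finset.sum_range_succ' (fun k => (DD d c k)⁻¹ / (y - zz d c k)), DD_zero, inv_one]
    unfold zz
    rw [P_one hd]
  rw [h2, h1, Finset.sum_range_succ' (fun k => (DD d c k)⁻¹), DD_zero, inv_one,
    Finset.sum_sub_distrib, ← Finset.sum_div, add_div]
  ring

theorem norm_P_le {d : ℕ} (hd : 2 ≤ d) {c : ℂ} (hc : c ∈ multibrotSet d) (k : ℕ) : ‖P d k c‖ ≤ 2 :=
  (mem_multibrot_iff hd c).1 hc k

theorem norm_c_le {d : ℕ} (hd : 2 ≤ d) {c : ℂ} (hc : c ∈ multibrotSet d) : ‖c‖ ≤ 2 := by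
  have := norm_P_le hd hc 1
  rwa [P_one hd] at this

theorem inv_int {R : ℝ} (hR : R ≤ 6) {a : ℂ} (ha : ball (0:ℂ) 4 ⊆ ball a R) :
    ∫⁻ x in ball (0:ℂ) 4, ENNReal.ofReal (‖x - a‖⁻¹) ≤ ENNReal.ofReal (12 * Real.pi) := by
  refine (lintegral_mono_set ha).trans ((kern_one a (R := R)).trans ?_)
  apply ENNReal.ofReal_le_ofReal
  have := Real.pi_pos
  nlinarith

theorem sub_ball {a : ℂ} (ha : ‖a‖ ≤ 2) : ball (0:ℂ) 4 ⊆ ball a 6 := by
  apply ball_subset_ball'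
  rw [dist_zero_left]
  linarith

theorem q_fin {n : ℕ} {ρ z : ℕ → ℂ} (hz : ∀ k < n, ‖z k‖ ≤ 2) :
    ∫⁻ x in ball (0:ℂ) 4, ‖qq n ρ z x‖ₑ ≠ ⊤ := by
  have h1 : ∀ x, ‖qq n ρ z x‖ₑ ≤ ∑ k ∈ Finset.range n, ‖ρ k‖ₑ * ENNReal.ofReal (‖x - z k‖⁻¹) := by
    intro x
    unfold qq
    refine (enorm_sum_le _ _).trans ?_
    apply Finset.sum_le_sum
    intro k _
    rw [div_eq_mul_inv, enorm_mul, ← ofReal_norm ((x - z k)⁻¹), norm_inv]
  refine ne_top_of_le_ne_top ?_ (lintegral_mono h1)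
  rw [lintegral_finsetSum]
  · apply ENNReal.sum_ne_top.2
    intro k hk
    rw [Finset.mem_range] at hk
    rw [lintegral_const_mul' _ _ enorm_ne_top]
    apply ENNReal.mul_ne_top enorm_ne_top
    exact ne_top_of_le_ne_top ENNReal.ofReal_ne_top (inv_int le_rfl (sub_ball (hz k hk)))
  · intro k _
    fun_prop

/-- **The norm on the annulus.** -/
theorem ann_bound {d : ℕ} (hd : 2 ≤ d) {c : ℂ} (hc : c ∈ multibrotSet d) {N : ℕ}
    (h : ∀ m, 1 ≤ m → m ≤ N → P d m c ≠ 0) :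
    ∫⁻ x in Ann, ‖qq (N + 1) (fun k => (DD d c k)⁻¹) (zz d c) x‖ₑ ≤
      ENNReal.ofReal (12 * Real.pi * ‖∑ k ∈ Finset.range (N + 1), (DD d c k)⁻¹‖) +
      ENNReal.ofReal (‖(DD d c N)⁻¹ * zz d c N‖ / d *
        (4 * Real.pi + 2 * Real.pi * Real.log (24 / ‖zz d c N‖ ^ d))) := by
  have hd0 : (0:ℝ) < d := by exact_mod_cast (by omega : 0 < d)
  have hc2 := norm_c_le hd hc
  have hpi := Real.pi_pos
  obtain ⟨q, hq⟩ : ∃ q, q = qq (N + 1) (fun k => (DD d c k)⁻¹) (zz d c) := ⟨_, rfl⟩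
  obtain ⟨S, hS⟩ : ∃ S, S = ∑ k ∈ Finset.range (N + 1), (DD d c k)⁻¹ := ⟨_, rfl⟩
  obtain ⟨κ, hκ⟩ : ∃ κ : ℝ, κ = ‖(DD d c N)⁻¹ * zz d c N‖ / d := ⟨_, rfl⟩
  have hκ0 : 0 ≤ κ := by rw [hκ]; positivity
  rw [← hq, ← hS, ← hκ]
  have hqm : Measurable q := by rw [hq]; exact qq_meas _ _ _
  have hz2 : ∀ k, ‖zz d c k‖ ≤ 2 := fun k => norm_P_le hd hc (k + 1)
  obtain ⟨U, hU⟩ : ∃ U : Set ℂ, U = {x | x ^ d + c ∈ ball (0:ℂ) 4} := ⟨_, rfl⟩
  have hUm : MeasurableSet U := by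
    rw [hU]
    exact isOpen_ball.measurableSet.preimage (by fun_prop)
  have hU5 : ∀ x ∈ U, ‖x‖ ≤ 5 / 2 := by
    intro x hx
    rw [hU, mem_ofPred_eq, mem_ball_zero_iff] at hx
    by_contra hcon
    push Not at hcon
    have h1 : ‖x ^ d‖ ≤ ‖x ^ d + c‖ + ‖c‖ := by
      calc ‖x ^ d‖ = ‖(x ^ d + c) - c‖ := by congr 1; ring
        _ ≤ _ := norm_sub_le _ _
    rw [norm_pow] at h1
    have h2 : ‖x‖ ^ 2 ≤ ‖x‖ ^ d := pow_le_pow_right₀ (by linarith) hd
    nlinarith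
  have hUV : U ∪ Ann ⊆ ball (0:ℂ) 4 := by
    rintro x (hx | hx)
    · rw [mem_ball_zero_iff]
      have := hU5 x hx
      linarith
    · rw [mem_ball_zero_iff]
      exact hx.2
  have hdisj : Disjoint U Ann := by
    rw [Set.disjoint_left]
    intro x hx hx2
    have := hU5 x hx
    have := hx2.1
    linarith
  -- the set of exceptional points
  have hfin : ({c} ∪ ⋃ k ∈ Finset.range (N + 2), {zz d c k}).Finite := by
    apply (finite_singleton _).union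
    apply Set.Finite.biUnion (Finset.finite_toSet _)
    intro k _
    exact finite_singleton _
  have h0 := hfin.measure_zero (volume : Measure ℂ)
  rw [← compl_compl ({c} ∪ ⋃ k ∈ Finset.range (N + 2), {zz d c k})] at h0
  have h0' : ({c} ∪ ⋃ k ∈ Finset.range (N + 2), {zz d c k})ᶜ ∈ ae (volume : Measure ℂ) := h0
  have hpt : ∀ᵐ y : ℂ, ‖q y‖ₑ ≤ ‖GG d c N y‖ₑ + ENNReal.ofReal ‖S‖ * ENNReal.ofReal (‖y - c‖⁻¹) +
      ENNReal.ofReal κ * ENNReal.ofReal (‖y - c‖⁻¹ * ‖y - zz d c (N + 1)‖⁻¹) := by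
    filter_upwards [h0'] with y hy
    simp only [mem_compl_iff, mem_union, mem_singleton_iff, mem_iUnion, not_or, not_exists,
      Finset.mem_range] at hy
    have h1 := GG_eq hd h hy.1 (fun k hk => hy.2 k (by omega))
    rw [← hq, ← hS] at h1
    rw [h1]
    refine enorm_sub_le.trans ?_
    gcongr
    · refine (enorm_add_le _ _).trans ?_
      gcongr
      rw [div_eq_mul_inv, enorm_mul, ← ofReal_norm ((y - c)⁻¹), norm_inv, ← ofReal_norm S]
    · rw [← ENNReal.ofReal_mul hκ0, ← ofReal_norm]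
      apply ENNReal.ofReal_le_ofReal
      rw [hκ, norm_div, norm_mul (_ * _) (y - zz d c (N + 1)), norm_mul (d : ℂ), Complex.norm_natCast]
      apply le_of_eq
      rw [div_mul_eq_div_div, div_mul_eq_div_div]
      ring
  have hV : ∫⁻ y in ball (0:ℂ) 4, ‖q y‖ₑ ≤ (∫⁻ x in U, ‖q x‖ₑ) +
      (ENNReal.ofReal (12 * Real.pi * ‖S‖) +
        ENNReal.ofReal (κ * (4 * Real.pi + 2 * Real.pi * Real.log (24 / ‖zz d c N‖ ^ d)))) := by
    refine (lintegral_mono_ae (ae_restrict_of_ae hpt)).trans ?_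
    rw [lintegral_add_left (by
      apply Measurable.add (GG_meas d c N).enorm
      fun_prop), lintegral_add_left (GG_meas d c N).enorm, add_assoc]
    obtain ⟨ζ, hζ⟩ : ∃ ζ : ℂ, IsPrimitiveRoot ζ d := ⟨_, Complex.isPrimitiveRoot_exp d (by omega)⟩
    have hpush := GG_push hd hζ c N
    rw [← hq] at hpush
    have h1 := contraction hd hζ hqm (GG_meas d c N) hpush
      (V := ball (0:ℂ) 4) isOpen_ball.measurableSet
    rw [← hU] at h1
    gcongr
    · rw [lintegral_const_mul' _ _ ENNReal.ofReal_ne_top, mul_comm (12 * Real.pi),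
        ENNReal.ofReal_mul (norm_nonneg S)]
      gcongr
      exact inv_int le_rfl (sub_ball hc2)
    · rw [lintegral_const_mul' _ _ ENNReal.ofReal_ne_top, ENNReal.ofReal_mul hκ0]
      by_cases hz0 : zz d c N = 0
      · have : κ = 0 := by rw [hκ, hz0, mul_zero, norm_zero, zero_div]
        rw [this, ENNReal.ofReal_zero, zero_mul, zero_mul]
      · gcongr
        have h3 : c ≠ zz d c (N + 1) := by
          rw [zz_succ]
          intro h4
          have h5 : zz d c N ^ d = 0 := by linear_combination -h4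
          exact hz0 (pow_eq_zero_iff (by omega) |>.1 h5)
        have h4 := kern_two hc2 (hz2 (N + 1)) h3
        have h5 : ‖c - zz d c (N + 1)‖ = ‖zz d c N‖ ^ d := by
          rw [zz_succ, ← norm_pow, ← norm_neg]
          congr 1
          ring
        rwa [h5] at h4
  have hfinU : ∫⁻ x in U, ‖q x‖ₑ ≠ ⊤ := by
    refine ne_top_of_le_ne_top ?_ (lintegral_mono_set (subset_union_left.trans hUV))
    rw [hq]
    exact q_fin fun k _ => hz2 k
  have hsplit : (∫⁻ x in U, ‖q x‖ₑ) + (∫⁻ x in Ann, ‖q x‖ₑ) ≤ ∫⁻ y in ball (0:ℂ) 4, ‖q y‖ₑ := by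
    rw [← lintegral_union Ann_meas hdisj]
    exact lintegral_mono_set hUV
  exact (ENNReal.add_le_add_iff_left hfinU).1 (hsplit.trans hV)

end Pool.Agent.R240.Univ
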