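import Pool.Agent.R240.Dpu
import Pool.Agent.R240.Univ

set_option autoImplicit false

/-! # Near returns and traps -/

namespace Pool.Agent.R240.Dpu

open Complex Metric Set Filter Topology N62a1eb23
open Pool.Agent.H712R2 Pool.Agent.H713R2
open Pool.Agent.H462R2.CD (F F_diff F_deriv pow_le_two)

variable {d : ℕ} {c : ℂ}

theorem P_add (i j : ℕ) : P d (i + j) c = (fc d c)^[i] (P d j c) :=
  Function.iterate_add_apply _ _ _ _

/-- points near `0` follow the critical orbit -/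
theorem near0 (hd : 2 ≤ d) (hc : c ∈ multibrotSet d) {x : ℂ} {i : ℕ} (hi : 1 ≤ i)
    (h : (15 * (d:ℝ)) ^ (i - 1) * ‖x‖ ^ d ≤ 1 / d) :
    ‖(fc d c)^[i] x - P d i c‖ ≤ (15 * d) ^ (i - 1) * ‖x‖ ^ d := by
  obtain ⟨k, rfl⟩ : ∃ k, i = k + 1 := ⟨i - 1, by omega⟩
  rw [Nat.add_sub_cancel] at h ⊢
  have h1 : ‖F d c x - c‖ ≤ ‖x‖ ^ d := by
    have : F d c x - c = x ^ d := by unfold F; ring
    rw [this, norm_pow]
  have h2 := (Pool.Agent.R240.Crit.follow hd hc h (by positivity) h1 k le_rfl).1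
  rw [Function.iterate_succ_apply]
  exact h2

/-- the smallness condition -/
def Sm (d : ℕ) (p : ℕ) (ε : ℝ) : Prop := 3 * d * (15 * d) ^ p * ε ^ (d - 1) ≤ 1

theorem Sm.le_one (hd : 2 ≤ d) {p : ℕ} {ε : ℝ} (h : Sm d p ε) : ε ≤ 1 := by
  have hd0 : (2:ℝ) ≤ d := by exact_mod_cast hd
  by_contra hcon
  push Not at hcon
  have h1 : 1 ≤ ε ^ (d - 1) := one_le_pow₀ hcon.le
  have h2 : (1:ℝ) ≤ (15 * d) ^ p := one_le_pow₀ (by linarith)
  unfold Sm at h
  have h3 : (1:ℝ) * 1 ≤ (15 * d) ^ p * ε ^ (d - 1) := by gcongr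
  nlinarith

theorem Sm.near (hd : 2 ≤ d) (hc : c ∈ multibrotSet d) {p : ℕ} {ε : ℝ} (hε0 : 0 ≤ ε) (h : Sm d p ε)
    {x : ℂ} (hx : ‖x‖ ≤ (1 + 1 / d) * ε) {i : ℕ} (hi : 1 ≤ i) (hip : i ≤ p) :
    ‖(fc d c)^[i] x - P d i c‖ ≤ ε / d := by
  have hd0 : (2:ℝ) ≤ d := by exact_mod_cast hd
  have h1 := h.le_one hd
  have hxd : ‖x‖ ^ d ≤ 3 * ε ^ d := by
    calc ‖x‖ ^ d ≤ ((1 + 1 / d) * ε) ^ d := by gcongr
      _ = (1 + 1 / (d:ℝ)) ^ d * ε ^ d := mul_pow _ _ _
      _ ≤ 3 * ε ^ d := by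
          have := one_add_pow hd (le_refl d)
          gcongr
  have h3 : (15 * (d:ℝ)) ^ (i - 1) * ‖x‖ ^ d ≤ ε / d := by
    have h4 : ε ^ d = ε ^ (d - 1) * ε := by rw [← pow_succ, Nat.sub_add_cancel (by omega)]
    have h5 : (15 * (d:ℝ)) ^ (i - 1) ≤ (15 * d) ^ p :=
      pow_le_pow_right₀ (by linarith) (by omega)
    rw [le_div_iff₀ (by linarith)]
    unfold Sm at h
    calc (15 * (d:ℝ)) ^ (i - 1) * ‖x‖ ^ d * d ≤ (15 * d) ^ p * (3 * (ε ^ (d - 1) * ε)) * d := by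
          rw [← h4]
          gcongr
      _ = (3 * d * (15 * d) ^ p * ε ^ (d - 1)) * ε := by ring
      _ ≤ 1 * ε := by gcongr
      _ = ε := one_mul _
  refine (near0 hd hc hi (h3.trans ?_)).trans h3
  gcongr

/-- the near returns repeat -/
theorem Sm.ret (hd : 2 ≤ d) (hc : c ∈ multibrotSet d) {p : ℕ} (hp : 1 ≤ p) {ε : ℝ} (hε0 : 0 ≤ ε)
    (h : Sm d p ε) (hP : ‖P d p c‖ ≤ ε) (k : ℕ) : ‖P d (p * k) c‖ ≤ (1 + 1 / d) * ε := by
  have hd0 : (2:ℝ) ≤ d := by exact_mod_cast hd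
  induction k with
  | zero =>
    rw [mul_zero, P_zero, norm_zero]
    positivity
  | succ k ih =>
    rw [Nat.mul_succ, add_comm (p * k) p, P_add]
    have h1 := h.near hd hc hε0 ih hp le_rfl
    have h2 : ‖(fc d c)^[p] (P d (p * k) c)‖ ≤ ‖(fc d c)^[p] (P d (p * k) c) - P d p c‖ + ‖P d p c‖ := by
      have := norm_add_le ((fc d c)^[p] (P d (p * k) c) - P d p c) (P d p c)
      rwa [sub_add_cancel] at this
    have h3 : (1 + 1 / (d:ℝ)) * ε = ε / d + ε := by ring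
    linarith

/-- **No traps before the near return.** -/
theorem nt_of (hd : 2 ≤ d) (hc : c ∈ multibrotSet d) {p : ℕ} (hp : 1 ≤ p) {ε : ℝ} (hε0 : 0 ≤ ε)
    (h : Sm d p ε) (hP : ‖P d p c‖ ≤ ε) {i : ℕ} (hi : 1 ≤ i) (hip : i ≤ p)
    (hPi : 2 * ε < ‖P d i c‖) {ρ : ℝ} (hρ : 0 < ρ) : NT d c i ρ := by
  intro y hy hcon
  have hd0 : (2:ℝ) ≤ d := by exact_mod_cast hd
  have hdp : (0:ℝ) < d := by linarith
  obtain ⟨g, hg⟩ : ∃ g, g = (fc d c)^[i] := ⟨_, rfl⟩
  have hgd : Differentiable ℂ g := by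
    rw [hg]
    have : Differentiable ℂ (fc d c) := by unfold fc; fun_prop
    exact this.iterate i
  rw [← hg] at hcon
  obtain ⟨σ, hσ⟩ : ∃ σ, σ = ρ / (100 * d) := ⟨_, rfl⟩
  have hσ0 : 0 < σ := by rw [hσ]; positivity
  rw [← hσ] at hcon
  have hσ1 : ρ + σ ≤ (1 + 1 / d) * ρ - 99 * σ := by
    rw [hσ]
    have : (1 + 1 / (d:ℝ)) * ρ = ρ + 100 * (ρ / (100 * d)) := by field_simp
    rw [this]
    linarith
  -- the image is in the smaller disc
  have hmaps : ∀ x : ℂ, ‖x‖ ≤ (1 + 1 / d) * ρ → ‖g x‖ ≤ ρ + σ := by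
    intro x hx
    have h1 := hcon x hx
    have h2 := norm_add_le (g x - y) y
    rw [sub_add_cancel] at h2
    linarith
  -- the derivative
  have hder : ∀ x ∈ closedBall (0:ℂ) (ρ + σ), ‖deriv g x‖ ≤ 1 / 2 := by
    intro x hx
    rw [mem_closedBall_zero_iff] at hx
    have h1 : ‖deriv (fun z => g z - y) x‖ ≤ σ / (99 * σ) := by
      apply Complex.norm_deriv_le_of_forall_mem_sphere_norm_le (by positivity)
        (hgd.sub_const y).diffContOnCl
      intro z hz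
      apply hcon
      rw [mem_sphere, dist_eq_norm] at hz
      have h2 := norm_add_le (z - x) x
      rw [sub_add_cancel] at h2
      linarith
    rw [deriv_sub_const] at h1
    refine h1.trans ?_
    rw [div_le_iff₀ (by positivity)]
    linarith
  have hlip : ∀ u ∈ closedBall (0:ℂ) (ρ + σ), ∀ v ∈ closedBall (0:ℂ) (ρ + σ),
      ‖g u - g v‖ ≤ 1 / 2 * ‖u - v‖ := by
    intro u hu v hv
    exact (convex_closedBall (0:ℂ) (ρ + σ)).norm_image_sub_le_of_norm_deriv_le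
      (fun x _ => hgd x) hder hv hu
  -- the orbit
  have hin : ∀ k, P d (i * k) c ∈ closedBall (0:ℂ) (ρ + σ) := by
    intro k
    induction k with
    | zero =>
      rw [mul_zero, P_zero]
      exact mem_closedBall_self (by positivity)
    | succ k ih =>
      rw [Nat.mul_succ, add_comm (i * k) i, P_add, ← hg, mem_closedBall_zero_iff]
      apply hmaps
      rw [mem_closedBall_zero_iff] at ih
      linarith
  have hstep : ∀ k, ‖P d (i * (k + 1)) c - P d (i * k) c‖ ≤ (1 / 2) ^ k * (2 * (ρ + σ)) := by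
    intro k
    induction k with
    | zero =>
      rw [pow_zero, one_mul]
      have h1 := mem_closedBall_zero_iff.1 (hin 0)
      have h2 := mem_closedBall_zero_iff.1 (hin 1)
      rw [zero_add]
      have h3 := norm_sub_le (P d (i * 1) c) (P d (i * 0) c)
      linarith
    | succ k ih =>
      have h1 := hlip _ (hin (k + 1)) _ (hin k)
      have e1 : P d (i * (k + 1 + 1)) c = g (P d (i * (k + 1)) c) := by
        rw [Nat.mul_succ i (k + 1), add_comm (i * (k + 1)) i, P_add, ← hg]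
      have e2 : P d (i * (k + 1)) c = g (P d (i * k) c) := by
        rw [Nat.mul_succ, add_comm (i * k) i, P_add, ← hg]
      rw [e1]
      nth_rewrite 2 [e2]
      refine h1.trans ?_
      rw [pow_succ]
      linarith
  have hfin : ∀ j : ℕ, ‖P d i c‖ ≤ 2 * ε + (1 / 2) ^ j * (2 * (ρ + σ)) := by
    intro j
    have h1 := h.ret hd hc hp hε0 hP (i * j)
    have e0 : p * (i * j) = i * (p * j) := by ring
    rw [e0] at h1
    have h2 := h.near hd hc hε0 h1 hi hip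
    have e1 : (fc d c)^[i] (P d (i * (p * j)) c) = P d (i * (p * j + 1)) c := by
      rw [Nat.mul_succ, add_comm (i * (p * j)) i, P_add]
    rw [e1] at h2
    have h3 := hstep (p * j)
    have h4 : ((1:ℝ) / 2) ^ (p * j) ≤ (1 / 2) ^ j :=
      pow_le_pow_of_le_one (by norm_num) (by norm_num) (Nat.le_mul_of_pos_left j hp)
    have h5 : (1 / 2 : ℝ) ^ (p * j) * (2 * (ρ + σ)) ≤ (1 / 2) ^ j * (2 * (ρ + σ)) := by gcongr
    have h6 : ‖P d i c‖ ≤ ‖P d (i * (p * j + 1)) c - P d i c‖ + ‖P d (i * (p * j + 1)) c -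
        P d (i * (p * j)) c‖ + ‖P d (i * (p * j)) c‖ := by
      calc ‖P d i c‖ = ‖-(P d (i * (p * j + 1)) c - P d i c) + (P d (i * (p * j + 1)) c -
            P d (i * (p * j)) c) + P d (i * (p * j)) c‖ := by congr 1; ring
        _ ≤ ‖-(P d (i * (p * j + 1)) c - P d i c) + (P d (i * (p * j + 1)) c -
            P d (i * (p * j)) c)‖ + ‖P d (i * (p * j)) c‖ := norm_add_le _ _
        _ ≤ ‖-(P d (i * (p * j + 1)) c - P d i c)‖ + ‖P d (i * (p * j + 1)) c -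
            P d (i * (p * j)) c‖ + ‖P d (i * (p * j)) c‖ := by gcongr; exact norm_add_le _ _
        _ = _ := by rw [norm_neg]
    have h7 : ε / d + (1 + 1 / d) * ε ≤ 2 * ε := by
      have : ε / d ≤ ε / 2 := by gcongr
      have e2 : (1 + 1 / (d:ℝ)) * ε = ε + ε / d := by ring
      rw [e2]
      linarith
    linarith
  have hlim : Tendsto (fun j : ℕ => 2 * ε + (1 / 2 : ℝ) ^ j * (2 * (ρ + σ))) atTop
      (𝓝 (2 * ε + 0 * (2 * (ρ + σ)))) :=
    tendsto_const_nhds.add ((tendsto_pow_atTop_nhds_zero_of_lt_one (by norm_num) (by norm_num)).mul_const _)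
  have := ge_of_tendsto' hlim hfin
  linarith

end Pool.Agent.R240.Dpu
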