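import Mathlib

set_option autoImplicit false

/-! # Functionals on finite combinations: Hahn-Banach and the dual of `L¹` -/

namespace Pool.Agent.R240.Dual

open MeasureTheory Filter Topology Set Complex
open scoped ENNReal ComplexConjugate InnerProductSpace

/-- A bound for all finite combinations gives a functional. -/
theorem ext_of_bound {ι E : Type*} [AddCommGroup E] [Module ℂ E] (p : Seminorm ℂ E) (e : ι → E)
    (v : ι → ℂ) (h : ∀ (s : Finset ι) (a : ι → ℂ),
      ‖∑ n ∈ s, a n * v n‖ ≤ p (∑ n ∈ s, a n • e n)) :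
    ∃ g : E →ₗ[ℂ] ℂ, (∀ n, g (e n) = v n) ∧ ∀ x, ‖g x‖ ≤ p x := by
  obtain ⟨T, hT⟩ : ∃ T : (ι →₀ ℂ) →ₗ[ℂ] E, T = Finsupp.linearCombination ℂ e := ⟨_, rfl⟩
  obtain ⟨L, hL⟩ : ∃ L : (ι →₀ ℂ) →ₗ[ℂ] ℂ, L = Finsupp.linearCombination ℂ v := ⟨_, rfl⟩
  have hb : ∀ a, ‖L a‖ ≤ p (T a) := by
    intro a
    rw [hL, hT, Finsupp.linearCombination_apply, Finsupp.linearCombination_apply]
    exact h a.support a
  have hker : LinearMap.ker T ≤ LinearMap.ker L := by
    intro a ha
    rw [LinearMap.mem_ker] at ha ⊢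
    have := hb a
    rw [ha, map_zero] at this
    exact norm_le_zero_iff.1 this
  obtain ⟨f, hf⟩ : ∃ f : (LinearMap.range T) →ₗ[ℂ] ℂ,
      f = ((LinearMap.ker T).liftQ L hker) ∘ₗ
        (T.quotKerEquivRange.symm : LinearMap.range T →ₗ[ℂ] ((ι →₀ ℂ) ⧸ LinearMap.ker T)) := ⟨_, rfl⟩
  have hfT : ∀ a, f ⟨T a, LinearMap.mem_range_self T a⟩ = L a := by
    intro a
    rw [hf, LinearMap.comp_apply]
    have h1 : (T.quotKerEquivRange.symm : LinearMap.range T →ₗ[ℂ] ((ι →₀ ℂ) ⧸ LinearMap.ker T))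
        ⟨T a, LinearMap.mem_range_self T a⟩ =
        (LinearMap.ker T).mkQ a := T.quotKerEquivRange_symm_apply_image a _
    rw [h1]
    exact Submodule.liftQ_apply _ _ _
  obtain ⟨g, hg1, hg2⟩ := Module.Dual.exists_extension_of_le_seminorm (𝕜 := ℂ) (LinearMap.range T) f
    (p := p) (by
      rintro ⟨x, a, rfl⟩
      rw [hfT]
      exact hb a)
  refine ⟨g, fun n => ?_, hg2⟩
  have h2 := hg1 ⟨T (Finsupp.single n 1), LinearMap.mem_range_self T _⟩
  rw [hfT] at h2
  simpa [hT, hL, Finsupp.linearCombination_single] using h2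

variable {α : Type*} [MeasurableSpace α] {ν : Measure α} [IsFiniteMeasure ν]

/-- Bounded functionals on `L¹` of a finite measure. -/
theorem repr (Λ : Lp ℂ 1 ν →ₗ[ℂ] ℂ) {C : ℝ} (hC0 : 0 ≤ C) (hC : ∀ g, ‖Λ g‖ ≤ C * ‖g‖) :
    ∃ μ : α → ℂ, Measurable μ ∧ (∀ x, ‖μ x‖ ≤ C) ∧
      ∀ g : Lp ℂ 1 ν, Λ g = ∫ x, μ x * g x ∂ν := by
  obtain ⟨ΛL, hΛL⟩ : ∃ ΛL : Lp ℂ 1 ν →L[ℂ] ℂ, ∀ g, ΛL g = Λ g := ⟨Λ.mkContinuous C hC, fun g => rfl⟩
  obtain ⟨one2, hone⟩ : ∃ u : Lp ℂ 2 ν, u = (memLp_const (1:ℂ)).toLp (fun _ : α => (1:ℂ)) :=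
    ⟨_, rfl⟩
  obtain ⟨J, hJ⟩ : ∃ J : Lp ℂ 2 ν →L[ℂ] Lp ℂ 1 ν, ∀ f, (J f : α → ℂ) =ᵐ[ν] f := by
    refine ⟨(ContinuousLinearMap.mul ℂ ℂ).holderL ν 2 2 1 one2, fun f => ?_⟩
    have h1 := (ContinuousLinearMap.mul ℂ ℂ).coeFn_holder (r := 1) one2 f
    have h2 : (one2 : α → ℂ) =ᵐ[ν] fun _ => (1:ℂ) := by
      rw [hone]
      exact MemLp.coeFn_toLp _
    filter_upwards [h1, h2] with x hx hx2
    rw [ContinuousLinearMap.holderL_apply_apply, hx, hx2]
    simp
  obtain ⟨v, hv⟩ : ∃ v : Lp ℂ 2 ν, ∀ f : Lp ℂ 2 ν, ⟪v, f⟫_ℂ = Λ (J f) := by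
    refine ⟨(InnerProductSpace.toDual ℂ (Lp ℂ 2 ν)).symm (ΛL.comp J), fun f => ?_⟩
    rw [InnerProductSpace.toDual_symm_apply, ContinuousLinearMap.comp_apply, hΛL]
  have hvm : Measurable v := (Lp.stronglyMeasurable v).measurable
  -- the bound
  have hbd : ∀ᵐ x ∂ν, ‖v x‖ ≤ C := by
    obtain ⟨A, hA⟩ : ∃ A : Set α, A = {x | C < ‖v x‖} := ⟨_, rfl⟩
    have hAm : MeasurableSet A := by
      rw [hA]
      exact measurableSet_lt measurable_const hvm.norm
    rw [ae_iff]
    have h0 : {x | ¬ ‖v x‖ ≤ C} = A := by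
      rw [hA]
      ext x
      simp
    rw [h0]
    by_contra hpos
    obtain ⟨f0, hf0⟩ : ∃ f0 : α → ℂ, f0 = A.indicator (fun x => v x / (‖v x‖ : ℂ)) := ⟨_, rfl⟩
    have hf0m : Measurable f0 := by
      rw [hf0]
      exact (hvm.div (Complex.measurable_ofReal.comp hvm.norm)).indicator hAm
    have hvA : ∀ x ∈ A, 0 < ‖v x‖ := by
      intro x hx
      rw [hA] at hx
      exact hC0.trans_lt hx
    have hf0n : ∀ x, ‖f0 x‖ = A.indicator (fun _ => (1:ℝ)) x := by
      intro x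
      rw [hf0]
      by_cases hx : x ∈ A
      · rw [indicator_of_mem hx, indicator_of_mem hx, norm_div, Complex.norm_real, norm_norm,
          div_self (hvA x hx).ne']
      · rw [indicator_of_notMem hx, indicator_of_notMem hx, norm_zero]
    have hf0p : MemLp f0 2 ν := by
      refine MemLp.of_bound hf0m.aestronglyMeasurable 1 (Eventually.of_forall fun x => ?_)
      rw [hf0n]
      by_cases hx : x ∈ A
      · rw [indicator_of_mem hx]
      · rw [indicator_of_notMem hx]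
        norm_num
    obtain ⟨F, hF⟩ : ∃ F : Lp ℂ 2 ν, F = hf0p.toLp f0 := ⟨_, rfl⟩
    have hFf : (F : α → ℂ) =ᵐ[ν] f0 := by
      rw [hF]
      exact MemLp.coeFn_toLp _
    have h1 : ‖Λ (J F)‖ ≤ C * ‖J F‖ := hC _
    have h2 : ‖J F‖ = (ν A).toReal := by
      rw [L1.norm_eq_integral_norm]
      have h3 : ∫ a, ‖(J F : α → ℂ) a‖ ∂ν = ∫ a, A.indicator (fun _ => (1:ℝ)) a ∂ν := by
        apply integral_congr_ae
        filter_upwards [hJ F, hFf] with x hx hx2
        rw [hx, hx2, hf0n]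
      rw [h3, integral_indicator hAm]
      simp [Measure.real]
    have h3 : Λ (J F) = ((∫ x in A, ‖v x‖ ∂ν : ℝ) : ℂ) := by
      rw [← hv, L2.inner_def, ← integral_indicator hAm, ← integral_complex_ofReal]
      apply integral_congr_ae
      filter_upwards [hFf] with x hx
      rw [hx, hf0]
      by_cases hxA : x ∈ A
      · rw [indicator_of_mem hxA, indicator_of_mem hxA]
        have h4 := (hvA x hxA).ne'
        have h5 : (‖v x‖ : ℂ) ≠ 0 := by exact_mod_cast h4
        have h6 : v x * conj (v x) = (‖v x‖ : ℂ) ^ 2 := Complex.mul_conj' (v x)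
        simp only [RCLike.inner_apply]
        rw [div_mul_eq_mul_div, h6]
        field_simp
      · rw [indicator_of_notMem hxA, indicator_of_notMem hxA]
        simp
    have hint : Integrable (fun x => ‖v x‖) ν :=
      ((Lp.memLp v).integrable (by norm_num)).norm
    have h4 : 0 < ∫ x in A, (‖v x‖ - C) ∂ν := by
      rw [setIntegral_pos_iff_support_of_nonneg_ae]
      · have h5 : (Function.support fun x => ‖v x‖ - C) ∩ A = A := by
          ext x
          simp only [mem_inter_iff, Function.mem_support, and_iff_right_iff_imp]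
          intro hx
          rw [hA] at hx
          exact (sub_pos.2 hx).ne'
        rw [h5]
        exact pos_iff_ne_zero.2 hpos
      · rw [EventuallyLE, ae_restrict_iff' hAm]
        refine Eventually.of_forall fun x hx => ?_
        rw [hA] at hx
        simp only [Pi.zero_apply]
        exact (sub_pos.2 hx).le
      · exact (hint.sub (integrable_const C)).integrableOn
    rw [integral_sub hint.integrableOn (integrable_const C).integrableOn, setIntegral_const,
      smul_eq_mul] at h4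
    rw [h2, h3, Complex.norm_real, Real.norm_eq_abs] at h1
    have h5 := le_abs_self (∫ x in A, ‖v x‖ ∂ν)
    have h6 : ν.real A = (ν A).toReal := rfl
    rw [h6] at h4
    linarith
  obtain ⟨μ, hμ⟩ : ∃ μ : α → ℂ, μ = {x | ‖v x‖ ≤ C}.indicator (fun x => conj (v x)) := ⟨_, rfl⟩
  have hμm : Measurable μ := by
    rw [hμ]
    exact (Complex.continuous_conj.measurable.comp hvm).indicator
      (measurableSet_le hvm.norm measurable_const)
  have hμb : ∀ x, ‖μ x‖ ≤ C := by
    intro x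
    rw [hμ]
    by_cases hx : ‖v x‖ ≤ C
    · rw [indicator_of_mem (by exact hx), Complex.norm_conj]
      exact hx
    · rw [indicator_of_notMem (by exact hx), norm_zero]
      exact hC0
  have hμv : μ =ᵐ[ν] fun x => conj (v x) := by
    filter_upwards [hbd] with x hx
    rw [hμ, indicator_of_mem (by exact hx)]
  refine ⟨μ, hμm, hμb, ?_⟩
  have hμp : MemLp μ ∞ ν :=
    memLp_top_of_bound hμm.aestronglyMeasurable C (Eventually.of_forall hμb)
  obtain ⟨RL, hRL⟩ : ∃ RL : Lp ℂ 1 ν →L[ℂ] ℂ, ∀ g : Lp ℂ 1 ν, RL g = ∫ x, μ x * g x ∂ν := by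
    refine ⟨(ContinuousLinearMap.mul ℂ ℂ).lpPairing ν ∞ 1 (hμp.toLp μ), fun g => ?_⟩
    rw [ContinuousLinearMap.lpPairing_eq_integral]
    apply integral_congr_ae
    filter_upwards [hμp.coeFn_toLp] with x hx
    rw [hx]
    rfl
  have hJR : ∀ f : Lp ℂ 2 ν, Λ (J f) = RL (J f) := by
    intro f
    rw [← hv, hRL, L2.inner_def]
    apply integral_congr_ae
    filter_upwards [hJ f, hμv] with x hx hx2
    rw [hx, hx2]
    simp only [RCLike.inner_apply]
    ring
  intro g
  rw [← hRL, ← hΛL]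
  induction g using Lp.induction with
  | hp_ne_top => exact ENNReal.one_ne_top
  | indicatorConst c hs hμs =>
    rename_i s
    have h1 : ((Lp.simpleFunc.indicatorConst 1 hs hμs.ne c : Lp.simpleFunc ℂ 1 ν) : Lp ℂ 1 ν) =
        J (indicatorConstLp 2 hs hμs.ne c) := by
      rw [Lp.simpleFunc.coe_indicatorConst]
      apply Lp.ext
      filter_upwards [hJ (indicatorConstLp 2 hs hμs.ne c),
        indicatorConstLp_coeFn (p := 1) (hs := hs) (hμs := hμs.ne) (c := c),
        indicatorConstLp_coeFn (p := 2) (hs := hs) (hμs := hμs.ne) (c := c)] with x h2 h3 h4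
      rw [h2, h3, h4]
    rw [h1, hΛL]
    exact hJR _
  | add hf hg _ h1 h2 =>
    rw [map_add, map_add, h1, h2]
  | isClosed => exact isClosed_eq ΛL.continuous RL.continuous

end Pool.Agent.R240.Dual
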