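import Pool.Agent.R240.ExtMax
import Pool.Agent.H712R2.MultiCoarse

set_option autoImplicit false

/-! # The symmetries of the exterior map and its argument -/

namespace Pool.Agent.R240.Ext

open Complex Metric Set Filter Topology Bornology N62a1eb23
open Pool.Agent.H712R2 Pool.Agent.H713R2 Pool.Agent.Helper202.Univ
open ComplexConjugate

variable {d : ℕ} {ψ : ℂ → ℂ}

theorem unique (hd : 2 ≤ d) (h1 : IsExteriorMap (multibrotSet d) ψ) {φ : ℂ → ℂ}
    (h2 : IsExteriorMap (multibrotSet d) φ) {w : ℂ} (hw : 1 < ‖w‖) : ψ w = φ w := by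
  obtain ⟨β, hβ⟩ := exists_beta (d := d) hd
  rw [exteriorMap_unique hβ h1 hw, exteriorMap_unique hβ h2 hw]

theorem P_conj (c : ℂ) (k : ℕ) : P d k (conj c) = conj (P d k c) := by
  induction k with
  | zero => simp [P_zero]
  | succ k ih => rw [P_succ, P_succ, ih, map_add, map_pow]

theorem mem_conj (hd : 2 ≤ d) {c : ℂ} : conj c ∈ multibrotSet d ↔ c ∈ multibrotSet d := by
  rw [mem_multibrot_iff hd, mem_multibrot_iff hd]
  simp only [P_conj, RCLike.norm_conj]

theorem mem_rot (hd : 2 ≤ d) {ω : ℂ} (hω : ω ^ (d - 1) = 1) {c : ℂ} :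
    ω * c ∈ multibrotSet d ↔ c ∈ multibrotSet d := by
  have hω1 : ‖ω‖ = 1 := by
    have : ‖ω‖ ^ (d - 1) = 1 := by rw [← norm_pow, hω, norm_one]
    exact (pow_eq_one_iff_of_nonneg (norm_nonneg _) (by omega)).mp this
  rw [mem_multibrot_iff hd, mem_multibrot_iff hd]
  simp only [P_rot hd hω, norm_mul, hω1, one_mul]

theorem conj_map (hd : 2 ≤ d) (hψ : IsExteriorMap (multibrotSet d) ψ) :
    IsExteriorMap (multibrotSet d) (fun w => conj (ψ (conj w))) := by
  have hS : ∀ w : ℂ, 1 < ‖w‖ → 1 < ‖conj w‖ := fun w hw => by rwa [RCLike.norm_conj]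
  refine ⟨?_, ?_, ?_, ?_⟩
  · intro w hw
    have h1 : DifferentiableAt ℂ ψ (conj w) :=
      (hψ.diff _ (hS w hw)).differentiableAt (isOpen_S.mem_nhds (hS w hw))
    have h2 := h1.star_star
    simp only [star_def, starRingEnd_self_apply] at h2
    exact h2.differentiableWithinAt
  · intro w hw v hv h
    have h1 : ψ (conj w) = ψ (conj v) := (starRingEnd ℂ).injective h
    exact (starRingEnd ℂ).injective (hψ.inj (hS w hw) (hS v hv) h1)
  · ext c
    constructor
    · rintro ⟨w, hw, rfl⟩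
      rw [mem_compl_iff, mem_conj hd]
      exact psi_notMem hψ (hS w hw)
    · intro hc
      rw [mem_compl_iff, ← mem_conj hd, ← mem_compl_iff, ← hψ.image] at hc
      obtain ⟨w, hw, h⟩ := hc
      refine ⟨conj w, hS w hw, ?_⟩
      simp only [starRingEnd_self_apply, h]
  · have h1 : Tendsto (fun w : ℂ => conj w) (cobounded ℂ) (cobounded ℂ) := by
      rw [← tendsto_norm_atTop_iff_cobounded]
      simp only [RCLike.norm_conj]
      exact tendsto_norm_cobounded_atTop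
    have h2 := (hψ.infinity.comp h1)
    have h3 := (continuous_conj.tendsto (1:ℂ)).comp h2
    rw [map_one] at h3
    refine h3.congr fun w => ?_
    simp only [Function.comp, map_div₀, starRingEnd_self_apply]

theorem rot_map (hd : 2 ≤ d) (hψ : IsExteriorMap (multibrotSet d) ψ) {ω : ℂ}
    (hω : ω ^ (d - 1) = 1) :
    IsExteriorMap (multibrotSet d) (fun w => ω⁻¹ * ψ (ω * w)) := by
  have hω1 : ‖ω‖ = 1 := by
    have : ‖ω‖ ^ (d - 1) = 1 := by rw [← norm_pow, hω, norm_one]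
    exact (pow_eq_one_iff_of_nonneg (norm_nonneg _) (by omega)).mp this
  have hω0 : ω ≠ 0 := by
    intro h
    rw [h, norm_zero] at hω1
    exact zero_ne_one hω1
  have hωi : ω⁻¹ ^ (d - 1) = 1 := by rw [inv_pow, hω, inv_one]
  have hS : ∀ w : ℂ, 1 < ‖w‖ → 1 < ‖ω * w‖ := fun w hw => by rwa [norm_mul, hω1, one_mul]
  refine ⟨?_, ?_, ?_, ?_⟩
  · have h1 : DifferentiableOn ℂ (fun w => ψ (ω * w)) {z | 1 < ‖z‖} :=
      hψ.diff.comp ((differentiable_id.const_mul ω).differentiableOn) hS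
    exact h1.const_mul _
  · intro w hw v hv h
    have h1 : ψ (ω * w) = ψ (ω * v) := mul_left_cancel₀ (inv_ne_zero hω0) h
    exact mul_left_cancel₀ hω0 (hψ.inj (hS w hw) (hS v hv) h1)
  · ext c
    constructor
    · rintro ⟨w, hw, rfl⟩
      rw [mem_compl_iff, mem_rot hd hωi]
      exact psi_notMem hψ (hS w hw)
    · intro hc
      rw [mem_compl_iff, ← mem_rot hd hω, ← mem_compl_iff, ← hψ.image] at hc
      obtain ⟨w, hw, h⟩ := hc
      refine ⟨ω⁻¹ * w, ?_, ?_⟩
      · show 1 < ‖ω⁻¹ * w‖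
        rw [norm_mul, norm_inv, hω1, inv_one, one_mul]
        exact hw
      · simp only
        rw [mul_inv_cancel_left₀ hω0, h, inv_mul_cancel_left₀ hω0]
  · have h1 : Tendsto (fun w : ℂ => ω * w) (cobounded ℂ) (cobounded ℂ) := by
      rw [← tendsto_norm_atTop_iff_cobounded]
      simp only [norm_mul, hω1, one_mul]
      exact tendsto_norm_cobounded_atTop
    have h2 := (hψ.infinity.comp h1)
    refine h2.congr fun w => ?_
    simp only [Function.comp]
    rw [div_eq_mul_inv, div_eq_mul_inv, mul_inv]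
    ring

theorem psi_conj (hd : 2 ≤ d) (hψ : IsExteriorMap (multibrotSet d) ψ) {w : ℂ} (hw : 1 < ‖w‖) :
    ψ (conj w) = conj (ψ w) := by
  have h1 : ψ w = conj (ψ (conj w)) := unique hd hψ (conj_map hd hψ) hw
  rw [h1, starRingEnd_self_apply]

theorem psi_rot (hd : 2 ≤ d) (hψ : IsExteriorMap (multibrotSet d) ψ) {ω : ℂ}
    (hω : ω ^ (d - 1) = 1) {w : ℂ} (hw : 1 < ‖w‖) : ψ (ω * w) = ω * ψ w := by
  have hω0 : ω ≠ 0 := by
    rintro rfl
    rw [zero_pow (by omega)] at hω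
    exact zero_ne_one hω
  have h1 : ψ w = ω⁻¹ * ψ (ω * w) := unique hd hψ (rot_map hd hψ hω) hw
  rw [h1, mul_inv_cancel_left₀ hω0]

theorem psi_ne (hd : 2 ≤ d) (hψ : IsExteriorMap (multibrotSet d) ψ) {w : ℂ} (hw : 1 < ‖w‖) :
    ψ w ≠ 0 := by
  have h := Pool.Agent.W677.MB.P_ne (psi_notMem hψ hw) le_rfl
  rwa [P_one (by omega)] at h

/-- `ψ(w)^(d-1)` is real if and only if `w^(d-1)` is. -/
theorem real_iff (hd : 2 ≤ d) (hψ : IsExteriorMap (multibrotSet d) ψ) {w : ℂ} (hw : 1 < ‖w‖) :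
    (ψ w ^ (d - 1)).im = 0 ↔ (w ^ (d - 1)).im = 0 := by
  have hw0 : w ≠ 0 := by
    intro h
    rw [h, norm_zero] at hw
    linarith
  have hp0 := psi_ne hd hψ hw
  have hcw : 1 < ‖conj w‖ := by rwa [RCLike.norm_conj]
  rw [← conj_eq_iff_im, ← conj_eq_iff_im, map_pow, map_pow]
  constructor
  · intro h
    obtain ⟨ω, hω⟩ : ∃ ω, ω = conj (ψ w) / ψ w := ⟨_, rfl⟩
    have hω1 : ω ^ (d - 1) = 1 := by
      rw [hω, div_pow, h, div_self (pow_ne_zero _ hp0)]
    have h1 : conj (ψ w) = ω * ψ w := by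
      rw [hω, div_mul_cancel₀ _ hp0]
    rw [← psi_conj hd hψ hw, ← psi_rot hd hψ hω1 hw] at h1
    have hrw : 1 < ‖ω * w‖ := by
      have : ‖ω‖ = 1 := by
        have : ‖ω‖ ^ (d - 1) = 1 := by rw [← norm_pow, hω1, norm_one]
        exact (pow_eq_one_iff_of_nonneg (norm_nonneg _) (by omega)).mp this
      rwa [norm_mul, this, one_mul]
    have h2 : conj w = ω * w := hψ.inj hcw hrw h1
    rw [h2, mul_pow, hω1, one_mul]
  · intro h
    obtain ⟨ω, hω⟩ : ∃ ω, ω = conj w / w := ⟨_, rfl⟩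
    have hω1 : ω ^ (d - 1) = 1 := by
      rw [hω, div_pow, h, div_self (pow_ne_zero _ hw0)]
    have h1 : conj w = ω * w := by
      rw [hω, div_mul_cancel₀ _ hw0]
    rw [← psi_conj hd hψ hw, h1, psi_rot hd hψ hω1 hw, mul_pow, hω1, one_mul]

end Pool.Agent.R240.Ext
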