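import Pool.Agent.R240.ExtOrd

set_option autoImplicit false

/-! # The shape of `M_n` at the scale `1 / n` -/

namespace Pool.Agent.R240.Ext

open Complex Metric Set Filter Topology Bornology N62a1eb23
open Pool.Agent.H712R2 Pool.Agent.H713R2 Pool.Agent.Helper202.Univ
open ComplexConjugate

variable {d : ℕ} {ψ : ℂ → ℂ}

/-- a logarithm of the exterior map -/
theorem log_psi (hd : 2 ≤ d) (hψ : IsExteriorMap (multibrotSet d) ψ) {w : ℂ} (hw : 1 < ‖w‖) :
    ∃ A : ℂ, ψ w = w * Complex.exp A ∧ ‖A‖ ≤ (Real.log d + 5) / (d - 1) := by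
  obtain ⟨β, hβ⟩ := exists_beta (d := d) hd
  obtain ⟨A, -, -, hA, hAi⟩ := exists_log_beta hd hβ hψ
  obtain ⟨hx, hx0⟩ := inv_mem_ball hw
  have hw0 : 0 < ‖w‖ := by linarith
  have hdr : (2 : ℝ) ≤ d := by exact_mod_cast hd
  have hd1 : (0 : ℝ) < (d : ℝ) - 1 := by linarith
  have hlogd : 0 ≤ Real.log d := Real.log_nonneg (by linarith)
  have hψw : ψ w = w * β w⁻¹ := exteriorMap_unique hβ hψ hw
  refine ⟨A w⁻¹, by rw [hA _ hx, hψw], ?_⟩
  have hre : (A w⁻¹).re = Real.log ‖ψ w‖ - Real.log ‖w‖ := by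
    rw [hψw, norm_mul, ← hA _ hx, Complex.norm_exp, Real.log_mul (by positivity) (by positivity),
      Real.log_exp]
    ring
  have hup := green_up hd hψ 0 hw
  have hlow := green_low hd hψ 0 hw
  rw [zero_add, P_one hd, pow_zero, one_mul] at hup
  rw [zero_add, P_one hd, pow_zero, pow_zero, one_mul, mul_one] at hlow
  rw [← hre] at hup hlow
  have him := hAi _ hx
  obtain ⟨u, hu⟩ : ∃ u, u = A w⁻¹ := ⟨_, rfl⟩
  rw [← hu] at hup hlow him ⊢
  have hπ := Real.pi_lt_d2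
  have hπ0 := Real.pi_pos
  have hl2 := Real.log_two_lt_d9
  have hl20 : 0 < Real.log 2 := Real.log_pos (by norm_num)
  have hnorm : ‖u‖ ≤ |u.re| + |u.im| := Complex.norm_le_abs_re_add_abs_im u
  have h4 : Real.log (4 * d) = 2 * Real.log 2 + Real.log d := by
    rw [Real.log_mul (by norm_num) (by positivity), show (4:ℝ) = 2 ^ 2 by norm_num, Real.log_pow]
    norm_num
  rw [h4] at hlow
  have h5 : Real.log 2 / ((d : ℝ) - 1) ≤ (2 * Real.log 2 + Real.log d) / (d - 1) :=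
    div_le_div_of_nonneg_right (by linarith) hd1.le
  have h6 : |u.re| ≤ (2 * Real.log 2 + Real.log d) / (d - 1) := by
    rw [abs_le]
    exact ⟨hlow, hup.trans h5⟩
  calc ‖u‖ ≤ (2 * Real.log 2 + Real.log d) / (d - 1) + Real.pi / (d - 1) := by linarith
    _ = (2 * Real.log 2 + Real.log d + Real.pi) / (d - 1) := by ring
    _ ≤ _ := div_le_div_of_nonneg_right (by linarith) hd1.le

theorem psi_pow_le (hd : 2 ≤ d) (hψ : IsExteriorMap (multibrotSet d) ψ) {w : ℂ} (hw : 1 < ‖w‖) :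
    ‖ψ w‖ ^ (d - 1) ≤ 2 * ‖w‖ ^ (d - 1) := by
  have h1 := upper hd hψ 0 (B := (2 : ℝ) ^ (((d - 1 : ℕ) : ℝ)⁻¹))
    (fun c hc => le_root (by omega) (by norm_num) (Crit.up hd hc 1)) hw
  rw [zero_add, P_one hd, pow_zero, pow_one] at h1
  have h2 := pow_le_pow_left₀ (norm_nonneg _) h1 (d - 1)
  rwa [mul_pow, root_pow (by omega) (by norm_num)] at h2

/-- **The shape at the scale `1 / n`.** -/
theorem blowup (hd : 2 ≤ d) (hψ : IsExteriorMap (multibrotSet d) ψ) {w : ℂ} (hw : 1 < ‖w‖) :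
    ‖ψ w ^ (d - 1) + 1 - w ^ (d - 1)‖ ≤ 3 * ((Real.log d + 5) / (d - 1)) *
      (1 + 3 * Real.log (‖w‖ ^ (d ^ 2 - 1) / (‖w‖ ^ (d ^ 2 - 1) - 1))) * ‖w‖ ^ (d - 1) := by
  have hdr : (2 : ℝ) ≤ d := by exact_mod_cast hd
  have hd1 : (0 : ℝ) < (d : ℝ) - 1 := by linarith
  have hlogd : 0 ≤ Real.log d := Real.log_nonneg (by linarith)
  have hw0 : w ≠ 0 := by
    intro h
    rw [h, norm_zero] at hw
    linarith
  have hw1 : 0 < ‖w‖ := by linarith
  obtain ⟨A, hA, hAn⟩ := log_psi hd hψ hw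
  obtain ⟨g, hg, -, -, hgn⟩ := orders hd hψ 1 hw
  obtain ⟨Λ, hΛ⟩ : ∃ Λ : ℝ, Λ = Real.log (‖w‖ ^ (d ^ 2 - 1) / (‖w‖ ^ (d ^ 2 - 1) - 1)) := ⟨_, rfl⟩
  have hN0 : d ^ 2 - 1 ≠ 0 := by
    have : 1 < d ^ 2 := Nat.one_lt_pow (by omega) (by omega)
    omega
  have hΛ0 : 0 ≤ Λ := by
    rw [hΛ]
    apply Real.log_nonneg
    have h1 : 1 < ‖w‖ ^ (d ^ 2 - 1) := one_lt_pow₀ hw hN0
    rw [le_div_iff₀ (by linarith)]
    linarith
  rw [show (1 + 1 : ℕ) = 2 by norm_num, ← hΛ] at hgn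
  rw [show (1 + 1 : ℕ) = 2 by norm_num, pow_one] at hg
  rw [← hΛ]
  have hP2 : P d 2 (ψ w) = ψ w * (ψ w ^ (d - 1) + 1) := by
    rw [show (2 : ℕ) = 1 + 1 by norm_num, P_succ, P_one hd, mul_add, mul_one, ← pow_succ']
    congr 2
    omega
  have hdd : w ^ d = w * w ^ (d - 1) := by
    rw [← pow_succ']
    congr 1
    omega
  have hkey : ψ w ^ (d - 1) + 1 = w ^ (d - 1) * Complex.exp (g - A) := by
    have h1 : (w * Complex.exp A) * (ψ w ^ (d - 1) + 1) =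
        (w * Complex.exp A) * (w ^ (d - 1) * Complex.exp (g - A)) := by
      have h2 : Complex.exp A * Complex.exp (g - A) = Complex.exp g := by
        rw [← Complex.exp_add]
        congr 1
        ring
      calc (w * Complex.exp A) * (ψ w ^ (d - 1) + 1) = P d 2 (ψ w) := by rw [hP2, ← hA]
        _ = w * w ^ (d - 1) * Complex.exp g := by rw [hg, hdd]
        _ = _ := by rw [← h2]; ring
    exact mul_left_cancel₀ (mul_ne_zero hw0 (Complex.exp_ne_zero _)) h1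
  have hexp3 : ‖Complex.exp (g - A)‖ ≤ 3 := by
    have h1 : ‖w ^ (d - 1)‖ * ‖Complex.exp (g - A)‖ ≤ ‖w‖ ^ (d - 1) * 3 := by
      rw [← norm_mul, ← hkey]
      refine (norm_add_le _ _).trans ?_
      rw [norm_pow, norm_one]
      have h2 := psi_pow_le hd hψ hw
      have h3 : 1 ≤ ‖w‖ ^ (d - 1) := one_le_pow₀ hw.le
      linarith
    rw [norm_pow] at h1
    exact le_of_mul_le_mul_left h1 (by positivity)
  have hre : (g - A).re ≤ Real.log 3 := by
    rw [Complex.norm_exp] at hexp3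
    exact (Real.le_log_iff_exp_le (by norm_num)).2 hexp3
  have h4 := norm_exp_sub_one (Real.log_nonneg (by norm_num)) hre
  rw [Real.exp_log (by norm_num)] at h4
  have h5 : ψ w ^ (d - 1) + 1 - w ^ (d - 1) = w ^ (d - 1) * (Complex.exp (g - A) - 1) := by
    rw [hkey]
    ring
  rw [h5, norm_mul, norm_pow, mul_comm]
  apply mul_le_mul_of_nonneg_right _ (by positivity)
  refine h4.trans ?_
  rw [mul_assoc]
  apply mul_le_mul_of_nonneg_left _ (by norm_num)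
  refine (norm_sub_le _ _).trans ?_
  obtain ⟨e, he⟩ : ∃ e : ℝ, e = (Real.log d + 5) / (d - 1) := ⟨_, rfl⟩
  have he0 : 0 ≤ e := by rw [he]; positivity
  have h6 : 4 / Real.pi * (((1 : ℕ) + 1) * (Real.log d + 5) / (d - 1)) * Λ ≤ 3 * e * Λ := by
    have h7 : (((1 : ℕ) : ℝ) + 1) * (Real.log d + 5) / (d - 1) = 2 * e := by
      rw [he]
      push_cast
      ring
    rw [h7]
    apply mul_le_mul_of_nonneg_right _ hΛ0
    have h8 : 4 / Real.pi ≤ 3 / 2 := by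
      rw [div_le_div_iff₀ Real.pi_pos (by norm_num)]
      linarith [Real.pi_gt_three]
    calc 4 / Real.pi * (2 * e) ≤ 3 / 2 * (2 * e) := by gcongr
      _ = 3 * e := by ring
  rw [← he] at hAn ⊢
  calc ‖g‖ + ‖A‖ ≤ 3 * e * Λ + e := add_le_add (hgn.trans h6) hAn
    _ = _ := by ring

end Pool.Agent.R240.Ext
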