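import Mathlib

set_option autoImplicit false

/-! # Conjugate functions: the Schwarz lemma for a strip, with a zero of high order -/

namespace Pool.Agent.R240.Strip

open Complex Metric Set Filter Topology

theorem norm_log_sub_le {z : ℂ} (hz : ‖z‖ < 1) : ‖Complex.log (1 - z)‖ ≤ -Real.log (1 - ‖z‖) := by
  have h1 := Complex.hasSum_taylorSeries_neg_log hz
  have h2 := (Real.hasSum_pow_div_log_of_abs_lt_one (x := ‖z‖) (by rwa [abs_norm]))
  have h3 : HasSum (fun n : ℕ => ‖z‖ ^ n / n) (-Real.log (1 - ‖z‖)) := by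
    rw [← hasSum_nat_add_iff' 1]
    simpa using h2
  rw [← norm_neg]
  refine h1.norm_le_of_bounded h3 fun n => ?_
  rw [norm_div, norm_pow, Complex.norm_natCast]

/-- maximum principle on the unit ball -/
theorem max_le {H : ℂ → ℂ} (hH : DifferentiableOn ℂ H (ball 0 1)) {B : ℝ}
    (h : ∀ ε : ℝ, 0 < ε → ∃ δ : ℝ, 0 < δ ∧ ∀ x : ℂ, ‖x‖ < 1 → 1 - δ < ‖x‖ → ‖H x‖ ≤ B + ε)
    {x : ℂ} (hx : x ∈ ball (0 : ℂ) 1) : ‖H x‖ ≤ B := by
  apply le_of_forall_pos_le_add
  intro ε hε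
  obtain ⟨δ, hδ, h⟩ := h ε hε
  rw [mem_ball_zero_iff] at hx
  obtain ⟨r, hr1, hr2⟩ := exists_between (max_lt hx (show 1 - δ < 1 by linarith))
  have hxr : ‖x‖ < r := (le_max_left _ _).trans_lt hr1
  have hδr : 1 - δ < r := (le_max_right _ _).trans_lt hr1
  have hr0 : 0 < r := (norm_nonneg _).trans_lt hxr
  refine Complex.norm_le_of_forall_mem_frontier_norm_le (U := ball 0 r) isBounded_ball ?_
    (fun y hy => ?_) (subset_closure (mem_ball_zero_iff.2 hxr))
  · apply DifferentiableOn.diffContOnCl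
    rw [closure_ball _ hr0.ne']
    exact hH.mono (closedBall_subset_ball hr2)
  · rw [frontier_ball _ hr0.ne', mem_sphere_zero_iff_norm] at hy
    exact h y (by rw [hy]; exact hr2) (by rw [hy]; exact hδr)

/-- Schwarz's lemma with a zero of order `N` -/
theorem schwarz {F : ℂ → ℂ} (hF : DifferentiableOn ℂ F (ball 0 1)) (h1 : ∀ x ∈ ball (0 : ℂ) 1, ‖F x‖ ≤ 1)
    {N : ℕ} {C δ : ℝ} (hδ : 0 < δ) (hN : ∀ x ∈ ball (0 : ℂ) δ, ‖F x‖ ≤ C * ‖x‖ ^ N) {x : ℂ}
    (hx : x ∈ ball (0 : ℂ) 1) : ‖F x‖ ≤ ‖x‖ ^ N := by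
  have hC : 0 ≤ C := by
    by_contra hcon
    push Not at hcon
    have h2 := hN ((δ / 2 : ℝ) : ℂ) (by
      rw [mem_ball_zero_iff, Complex.norm_real, Real.norm_eq_abs, abs_of_pos (by positivity)]
      linarith)
    rw [Complex.norm_real, Real.norm_eq_abs, abs_of_pos (by positivity : 0 < δ / 2)] at h2
    have h3 := norm_nonneg (F ((δ / 2 : ℝ) : ℂ))
    have h4 : 0 < (δ / 2) ^ N := by positivity
    nlinarith
  have hb : BddAbove (norm ∘ (fun x => F x / x ^ N) '' (ball (0 : ℂ) 1 \ {0})) := by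
    refine ⟨max C (1 / δ ^ N), ?_⟩
    rintro _ ⟨y, ⟨hy, hy0⟩, rfl⟩
    have hy0 : y ≠ 0 := hy0
    have hy1 : 0 < ‖y‖ := norm_pos_iff.2 hy0
    simp only [Function.comp, norm_div, norm_pow]
    rcases lt_or_ge ‖y‖ δ with h | h
    · refine le_trans ?_ (le_max_left _ _)
      rw [div_le_iff₀ (by positivity)]
      exact hN y (mem_ball_zero_iff.2 h)
    · refine le_trans ?_ (le_max_right _ _)
      rw [div_le_div_iff₀ (by positivity) (by positivity)]
      have h2 := h1 y hy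
      have h3 : δ ^ N ≤ ‖y‖ ^ N := pow_le_pow_left₀ hδ.le h _
      have h4 : 0 < δ ^ N := by positivity
      nlinarith [norm_nonneg (F y)]
  have hd := Complex.differentiableOn_update_limUnder_of_bddAbove (ball_mem_nhds (0 : ℂ) one_pos)
    (f := fun x => F x / x ^ N) (by
      apply (hF.mono sdiff_subset).div (by fun_prop)
      intro y hy
      exact pow_ne_zero _ hy.2) hb
  rcases eq_or_ne x 0 with rfl | hx0
  · have h2 := hN 0 (mem_ball_self hδ)
    rcases Nat.eq_zero_or_pos N with h3 | h3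
    · rw [h3, pow_zero]
      exact h1 0 hx
    · rw [norm_zero, zero_pow h3.ne'] at h2 ⊢
      linarith
  have h2 := max_le hd (B := 1) (by
    intro ε hε
    obtain ⟨t, ht0, ht1, ht⟩ : ∃ t : ℝ, 0 < t ∧ t < 1 ∧ ((1 - t) ^ N)⁻¹ ≤ 1 + ε := by
      have hc : ContinuousAt (fun t : ℝ => ((1 - t) ^ N)⁻¹) 0 := by
        apply ContinuousAt.inv₀ (by fun_prop)
        norm_num
      have h0 : (fun t : ℝ => ((1 - t) ^ N)⁻¹) 0 < 1 + ε := by
        simp only [sub_zero, one_pow, inv_one]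
        linarith
      obtain ⟨s, hs, h3⟩ := Metric.eventually_nhds_iff.1 (hc.eventually (gt_mem_nhds h0))
      refine ⟨min (s / 2) (1 / 2), by positivity, (min_le_right _ _).trans_lt (by norm_num),
        (h3 ?_).le⟩
      rw [Real.dist_eq, sub_zero, abs_of_pos (by positivity)]
      exact (min_le_left _ _).trans_lt (by linarith)
    refine ⟨t, ht0, fun y hy1 hy2 => ?_⟩
    have hy0 : y ≠ 0 := by
      rintro rfl
      rw [norm_zero] at hy2
      linarith
    rw [Function.update_of_ne hy0, norm_div, norm_pow]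
    have h3 := h1 y (mem_ball_zero_iff.2 hy1)
    have h4 : 0 < 1 - t := by linarith
    have h5 : (1 - t) ^ N ≤ ‖y‖ ^ N := pow_le_pow_left₀ h4.le hy2.le _
    calc ‖F y‖ / ‖y‖ ^ N ≤ 1 / (1 - t) ^ N := by gcongr
      _ = ((1 - t) ^ N)⁻¹ := one_div _
      _ ≤ 1 + ε := ht) hx
  rw [Function.update_of_ne hx0, norm_div, norm_pow, div_le_one (by
    have := norm_pos_iff.2 hx0
    positivity)] at h2
  exact h2

/-- **Schwarz's lemma for a strip.** -/
theorem strip {g : ℂ → ℂ} (hg : DifferentiableOn ℂ g (ball 0 1)) {ε : ℝ} (hε : 0 < ε)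
    (hre : ∀ x ∈ ball (0 : ℂ) 1, |(g x).re| < ε) {N : ℕ} (hN0 : N ≠ 0) {C δ : ℝ} (hδ : 0 < δ)
    (hN : ∀ x ∈ ball (0 : ℂ) δ, ‖g x‖ ≤ C * ‖x‖ ^ N) {x : ℂ} (hx : x ∈ ball (0 : ℂ) 1) :
    ‖g x‖ ≤ 4 * ε / Real.pi * -Real.log (1 - ‖x‖ ^ N) := by
  have hπ := Real.pi_pos
  -- the map onto the right half plane
  obtain ⟨a, ha⟩ : ∃ a : ℝ, a = Real.pi / (2 * ε) := ⟨_, rfl⟩
  have ha0 : 0 < a := by rw [ha]; positivity
  have haε : a * ε = Real.pi / 2 := by
    rw [ha]
    field_simp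
  obtain ⟨E, hE⟩ : ∃ E : ℂ → ℂ, E = fun x => Complex.exp (I * a * g x) := ⟨_, rfl⟩
  have him : ∀ y, (I * a * g y).im = a * (g y).re := by
    intro y
    simp
  have him2 : ∀ y ∈ ball (0 : ℂ) 1, |(I * a * g y).im| < Real.pi / 2 := by
    intro y hy
    rw [him, abs_mul, abs_of_pos ha0, ← haε]
    gcongr
    exact hre y hy
  have hEre : ∀ y ∈ ball (0 : ℂ) 1, 0 < (E y).re := by
    intro y hy
    have h1 := abs_lt.1 (him2 y hy)
    rw [hE]
    simp only
    rw [Complex.exp_re]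
    exact mul_pos (Real.exp_pos _) (Real.cos_pos_of_mem_Ioo ⟨h1.1, h1.2⟩)
  have hE1 : ∀ y ∈ ball (0 : ℂ) 1, 1 < ‖E y + 1‖ := by
    intro y hy
    have h1 := hEre y hy
    calc (1 : ℝ) < (E y + 1).re := by simp only [add_re, one_re]; linarith
      _ ≤ _ := Complex.re_le_norm _
  have hE1' : ∀ y ∈ ball (0 : ℂ) 1, E y + 1 ≠ 0 := fun y hy => by
    have := hE1 y hy
    exact norm_pos_iff.1 (by linarith)
  have hEd : DifferentiableOn ℂ E (ball 0 1) := by
    rw [hE]
    exact (hg.const_mul _).cexp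
  have hFd : DifferentiableOn ℂ (fun y => (E y - 1) / (E y + 1)) (ball 0 1) :=
    (hEd.sub_const _).div (hEd.add_const _) hE1'
  have hF1 : ∀ y ∈ ball (0 : ℂ) 1, ‖(E y - 1) / (E y + 1)‖ ≤ 1 := by
    intro y hy
    rw [norm_div, div_le_one (by have := hE1 y hy; linarith)]
    have h1 := hEre y hy
    rw [← sq_le_sq₀ (norm_nonneg _) (norm_nonneg _), Complex.sq_norm, Complex.sq_norm,
      normSq_apply, normSq_apply]
    simp only [sub_re, one_re, sub_im, one_im, add_re, add_im]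
    nlinarith
  -- the order of the zero
  have hgd0 : ContinuousAt g 0 :=
    (hg.differentiableAt (ball_mem_nhds _ one_pos)).continuousAt
  have hg0 : g 0 = 0 := by
    have h1 := hN 0 (mem_ball_self hδ)
    rw [norm_zero, zero_pow hN0, mul_zero] at h1
    exact norm_le_zero_iff.1 h1
  obtain ⟨δ', hδ', hsm⟩ : ∃ δ' : ℝ, 0 < δ' ∧ ∀ y ∈ ball (0 : ℂ) δ', ‖g y‖ < 1 / a := by
    have h1 : ∀ᶠ y in 𝓝 (0 : ℂ), ‖g y‖ < 1 / a := by
      have h2 := hgd0.norm
      apply h2.eventually (gt_mem_nhds _)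
      show ‖g 0‖ < 1 / a
      rw [hg0, norm_zero]
      positivity
    obtain ⟨s, hs, h3⟩ := Metric.eventually_nhds_iff.1 h1
    exact ⟨s, hs, fun y hy => h3 hy⟩
  have hFN : ∀ y ∈ ball (0 : ℂ) (min (min δ δ') 1),
      ‖(E y - 1) / (E y + 1)‖ ≤ (2 * a * C) * ‖y‖ ^ N := by
    intro y hy
    have hy1 : y ∈ ball (0 : ℂ) 1 := ball_subset_ball (min_le_right _ _) hy
    have hy2 : y ∈ ball (0 : ℂ) δ :=
      ball_subset_ball ((min_le_left _ _).trans (min_le_left _ _)) hy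
    have hy3 : y ∈ ball (0 : ℂ) δ' :=
      ball_subset_ball ((min_le_left _ _).trans (min_le_right _ _)) hy
    have h1 : ‖I * a * g y‖ = a * ‖g y‖ := by
      rw [norm_mul, norm_mul, norm_I, one_mul, Complex.norm_real, Real.norm_eq_abs, abs_of_pos ha0]
    have h2 : ‖I * a * g y‖ ≤ 1 := by
      rw [h1]
      have h3 := hsm y hy3
      rw [lt_div_iff₀ ha0] at h3
      linarith
    have h3 := Complex.norm_exp_sub_one_le h2
    rw [norm_div]
    have h4 := hE1 y hy1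
    calc ‖E y - 1‖ / ‖E y + 1‖ ≤ ‖E y - 1‖ / 1 := by gcongr
      _ = ‖Complex.exp (I * a * g y) - 1‖ := by rw [hE, div_one]
      _ ≤ 2 * (a * ‖g y‖) := by rw [← h1]; exact h3
      _ ≤ 2 * (a * (C * ‖y‖ ^ N)) := by gcongr; exact hN y hy2
      _ = _ := by ring
  have hF := schwarz hFd hF1 (by positivity) hFN hx
  obtain ⟨f, hf⟩ : ∃ f, f = (E x - 1) / (E x + 1) := ⟨_, rfl⟩
  rw [← hf] at hF
  have hr1 : ‖x‖ ^ N < 1 := pow_lt_one₀ (norm_nonneg _) (mem_ball_zero_iff.1 hx) hN0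
  have hf1 : ‖f‖ < 1 := hF.trans_lt hr1
  have hfE : (1 + f) = E x * (1 - f) := by
    rw [hf]
    have := hE1' x hx
    field_simp
    ring
  have h1f : 1 - f ≠ 0 := by
    intro h
    have : f = 1 := (sub_eq_zero.1 h).symm
    rw [this, norm_one] at hf1
    exact lt_irrefl _ hf1
  have h1f' : 1 + f ≠ 0 := by
    intro h
    have : f = -1 := by linear_combination h
    rw [this, norm_neg, norm_one] at hf1
    exact lt_irrefl _ hf1
  have hre1 : ∀ u : ℂ, ‖u‖ < 1 → |(Complex.log (1 + u)).im| < Real.pi / 2 := by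
    intro u hu
    rw [Complex.log_im, Complex.abs_arg_lt_pi_div_two_iff]
    left
    have := (abs_le.1 (abs_re_le_norm u)).1
    simp only [add_re, one_re]
    linarith
  have hkey : I * a * g x = Complex.log (1 + f) - Complex.log (1 - f) := by
    have h2 := abs_lt.1 (hre1 f hf1)
    have h3 := abs_lt.1 (hre1 (-f) (by rwa [norm_neg]))
    rw [← sub_eq_add_neg] at h3
    have h4 := abs_lt.1 (him2 x hx)
    have h5 : Complex.log (E x) = I * a * g x := by
      rw [hE]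
      exact Complex.log_exp (by linarith) (by linarith)
    have h6 : Complex.log (Complex.exp (Complex.log (1 + f) - Complex.log (1 - f))) =
        Complex.log (1 + f) - Complex.log (1 - f) := by
      apply Complex.log_exp
      · rw [sub_im]
        linarith
      · rw [sub_im]
        linarith
    rw [← h5, ← h6, Complex.exp_sub, Complex.exp_log h1f', Complex.exp_log h1f, hfE,
      mul_div_cancel_right₀ _ h1f]
  have h7 : a * ‖g x‖ ≤ 2 * -Real.log (1 - ‖x‖ ^ N) := by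
    have h1 : ‖I * a * g x‖ = a * ‖g x‖ := by
      rw [norm_mul, norm_mul, norm_I, one_mul, Complex.norm_real, Real.norm_eq_abs, abs_of_pos ha0]
    rw [← h1, hkey]
    have h8 : -Real.log (1 - ‖f‖) ≤ -Real.log (1 - ‖x‖ ^ N) := by
      apply neg_le_neg
      apply Real.log_le_log (by linarith)
      linarith
    have h9 := norm_log_sub_le hf1
    have h10 := norm_log_sub_le (z := -f) (by rwa [norm_neg])
    rw [sub_neg_eq_add, norm_neg] at h10
    calc ‖Complex.log (1 + f) - Complex.log (1 - f)‖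
        ≤ ‖Complex.log (1 + f)‖ + ‖Complex.log (1 - f)‖ := norm_sub_le _ _
      _ ≤ 2 * -Real.log (1 - ‖x‖ ^ N) := by linarith
  have h8 : 4 * ε / Real.pi * -Real.log (1 - ‖x‖ ^ N) = 2 * -Real.log (1 - ‖x‖ ^ N) / a := by
    rw [ha]
    field_simp
    ring
  rw [h8, le_div_iff₀ ha0, mul_comm]
  exact h7

end Pool.Agent.R240.Strip
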