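import Pool.Agent.R240.ExtAng
import Pool.Agent.R240.Strip

set_option autoImplicit false

/-! # The exterior map to all orders -/

namespace Pool.Agent.R240.Ext

open Complex Metric Set Filter Topology Bornology N62a1eb23
open Pool.Agent.H712R2 Pool.Agent.H713R2 Pool.Agent.Helper202.Univ
open ComplexConjugate

variable {d : ℕ} {ψ : ℂ → ℂ}

theorem root_pow {m : ℕ} (hm : m ≠ 0) {a : ℝ} (ha : 0 ≤ a) :
    (a ^ ((m : ℝ)⁻¹)) ^ m = a := Real.rpow_inv_natCast_pow ha hm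

theorem le_root {m : ℕ} (hm : m ≠ 0) {a x : ℝ} (ha : 0 ≤ a) (h : x ^ m ≤ a) :
    x ≤ a ^ ((m : ℝ)⁻¹) := by
  by_contra hcon
  push Not at hcon
  have h1 := pow_lt_pow_left₀ hcon (by positivity) hm
  rw [root_pow hm ha] at h1
  linarith

theorem root_le {m : ℕ} (hm : m ≠ 0) {a x : ℝ} (ha : 0 ≤ a) (hx : 0 ≤ x) (h : a ≤ x ^ m) :
    a ^ ((m : ℝ)⁻¹) ≤ x := by
  by_contra hcon
  push Not at hcon
  have h1 := pow_lt_pow_left₀ hcon hx hm
  rw [root_pow hm ha] at h1
  linarith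

theorem log_root {m : ℕ} {a : ℝ} (ha : 0 < a) :
    Real.log (a ^ ((m : ℝ)⁻¹)) = Real.log a / m := by
  rw [Real.log_rpow ha, inv_mul_eq_div]

theorem cast_pred (hd : 2 ≤ d) : ((d - 1 : ℕ) : ℝ) = (d : ℝ) - 1 := by
  rw [Nat.cast_sub (by omega)]
  simp

theorem green_up (hd : 2 ≤ d) (hψ : IsExteriorMap (multibrotSet d) ψ) (k : ℕ) {w : ℂ}
    (hw : 1 < ‖w‖) :
    Real.log ‖P d (k + 1) (ψ w)‖ - d ^ k * Real.log ‖w‖ ≤ Real.log 2 / (d - 1) := by
  have h1 := upper hd hψ k (B := (2 : ℝ) ^ (((d - 1 : ℕ) : ℝ)⁻¹))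
    (fun c hc => le_root (by omega) (by norm_num) (Crit.up hd hc (k + 1))) hw
  have hP : 0 < ‖P d (k + 1) (ψ w)‖ :=
    norm_pos_iff.2 (Pool.Agent.W677.MB.P_ne (psi_notMem hψ hw) (by omega))
  have hw0 : 0 < ‖w‖ := by linarith
  have h2 := Real.log_le_log hP h1
  rw [Real.log_mul (by positivity) (by positivity), log_root (by norm_num), Real.log_pow,
    cast_pred hd] at h2
  push_cast at h2
  linarith

theorem green_low (hd : 2 ≤ d) (hψ : IsExteriorMap (multibrotSet d) ψ) (k : ℕ) {w : ℂ}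
    (hw : 1 < ‖w‖) :
    -(Real.log (4 * d * (15 * d) ^ k) / (d - 1)) ≤
      Real.log ‖P d (k + 1) (ψ w)‖ - d ^ k * Real.log ‖w‖ := by
  have hd0 : (0 : ℝ) < d := by exact_mod_cast (by omega : 0 < d)
  have h1 := lower hd hψ k (b := (1 / (4 * d * (15 * d) ^ k) : ℝ) ^ (((d - 1 : ℕ) : ℝ)⁻¹))
    (by positivity)
    (fun c hc => root_le (by omega) (by positivity) (norm_nonneg _) (Crit.low hd hc k)) hw
  have hw0 : 0 < ‖w‖ := by linarith
  have h2 := Real.log_le_log (by positivity) h1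
  rw [Real.log_mul (by positivity) (by positivity), log_root (by positivity), Real.log_pow,
    cast_pred hd, one_div, Real.log_inv, neg_div] at h2
  push_cast at h2
  linarith

/-- intermediate values on the unit interval -/
theorem ivt0 {f : ℝ → ℝ} (hf : ContinuousOn f (Icc 0 1)) (h : f 0 * f 1 ≤ 0) :
    ∃ s ∈ Icc (0 : ℝ) 1, f s = 0 := by
  rcases le_or_gt (f 0) 0 with h0 | h0
  · rcases le_or_gt 0 (f 1) with h1 | h1
    · obtain ⟨s, hs, h2⟩ := intermediate_value_Icc zero_le_one hf ⟨h0, h1⟩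
      exact ⟨s, hs, h2⟩
    · refine ⟨0, ⟨le_rfl, zero_le_one⟩, ?_⟩
      nlinarith
  · have h1 : f 1 ≤ 0 := by
      by_contra hcon
      push Not at hcon
      nlinarith
    obtain ⟨s, hs, h2⟩ := intermediate_value_Icc' zero_le_one hf ⟨h1, h0.le⟩
    exact ⟨s, hs, h2⟩

theorem slit (hd : 2 ≤ d) {β : ℂ → ℂ} (hβ : IsBeta d β) (hψ : IsExteriorMap (multibrotSet d) ψ)
    {x : ℂ} (hx : x ∈ ball (0 : ℂ) 1) : β x ^ (d - 1) ∈ slitPlane := by
  rcases eq_or_ne x 0 with rfl | hx0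
  · rw [hβ.zero, one_pow]
    exact one_mem_slitPlane
  by_contra hcon
  rw [mem_slitPlane_iff, not_or, not_lt, not_not] at hcon
  obtain ⟨hre, him⟩ := hcon
  have hmem : ∀ s ∈ Icc (0 : ℝ) 1, (s : ℂ) * x ∈ ball (0 : ℂ) 1 := by
    intro s hs
    rw [mem_ball_zero_iff] at hx ⊢
    rw [norm_mul, Complex.norm_real, Real.norm_eq_abs, abs_of_nonneg hs.1]
    have := hs.2
    nlinarith [norm_nonneg x]
  obtain ⟨q, hq⟩ : ∃ q : ℝ → ℂ, q = fun s : ℝ => β ((s : ℂ) * x) ^ (d - 1) := ⟨_, rfl⟩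
  have hqc : ContinuousOn q (Icc 0 1) := by
    rw [hq]
    apply ContinuousOn.pow
    exact hβ.diff.continuousOn.comp (by fun_prop) hmem
  have hq0 : q 0 = 1 := by
    rw [hq]
    simp only [ofReal_zero, zero_mul, hβ.zero, one_pow]
  have hq1 : q 1 = β x ^ (d - 1) := by
    rw [hq]
    simp only [ofReal_one, one_mul]
  have hqne : ∀ s ∈ Icc (0 : ℝ) 1, q s ≠ 0 := by
    intro s hs
    rw [hq]
    have := Pool.Agent.W677.MB.BB_ne hd hβ 0 (hmem s hs)
    rw [BB_zero] at this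
    exact pow_ne_zero _ this
  obtain ⟨W, hW⟩ : ∃ W : ℂ, W = (x⁻¹) ^ (d - 1) := ⟨_, rfl⟩
  have hW0 : W ≠ 0 := by
    rw [hW]
    exact pow_ne_zero _ (inv_ne_zero hx0)
  -- the symmetry
  have hsym : ∀ s ∈ Icc (0 : ℝ) 1, s ≠ 0 → ((W * q s).im = 0 ↔ W.im = 0) := by
    intro s hs hs0
    have hspos : 0 < s := lt_of_le_of_ne hs.1 (Ne.symm hs0)
    have hsx0 : (s : ℂ) * x ≠ 0 := mul_ne_zero (by exact_mod_cast hs0) hx0
    have hw := one_lt_norm_inv (hmem s hs) hsx0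
    have h1 := real_iff hd hψ hw
    rw [exteriorMap_unique hβ hψ hw, inv_inv, mul_pow] at h1
    have h2 : ((s : ℂ) * x)⁻¹ ^ (d - 1) = (((s⁻¹) ^ (d - 1) : ℝ) : ℂ) * W := by
      rw [hW, mul_inv, mul_pow]
      push_cast
      ring
    have h3 : (s⁻¹) ^ (d - 1) ≠ 0 := pow_ne_zero _ (inv_ne_zero hs0)
    rw [h2, mul_assoc, Complex.im_ofReal_mul, Complex.im_ofReal_mul, mul_eq_zero, mul_eq_zero] at h1
    simp only [h3, false_or] at h1
    rw [hq]
    exact h1
  rcases eq_or_ne W.im 0 with hWi | hWi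
  · -- the real case
    have hWr : W.re ≠ 0 := by
      intro h
      exact hW0 (Complex.ext h hWi)
    have hqi : ∀ s ∈ Icc (0 : ℝ) 1, (q s).im = 0 := by
      intro s hs
      rcases eq_or_ne s 0 with rfl | hs0
      · rw [hq0, one_im]
      · have h1 := (hsym s hs hs0).2 hWi
        rw [mul_im, hWi, zero_mul, add_zero, mul_eq_zero] at h1
        exact h1.resolve_left hWr
    obtain ⟨s, hs, h1⟩ := ivt0 (f := fun s => (q s).re)
      (continuous_re.comp_continuousOn hqc) (by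
        simp only [hq0, hq1, one_re, one_mul]
        exact hre)
    exact hqne s hs (Complex.ext h1 (hqi s hs))
  · obtain ⟨s, hs, h1⟩ := ivt0 (f := fun s => (W * q s).im)
      (continuous_im.comp_continuousOn (continuousOn_const.mul hqc)) (by
        simp only [hq0, hq1, mul_one]
        rw [mul_im, him, mul_zero, zero_add]
        nlinarith [mul_nonneg (mul_self_nonneg W.im) (neg_nonneg.2 hre)])
    rcases eq_or_ne s 0 with rfl | hs0
    · simp only [hq0, mul_one] at h1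
      exact hWi h1
    · exact hWi ((hsym s hs hs0).1 h1)

/-- **The argument of the exterior map.** -/
theorem exists_log_beta (hd : 2 ≤ d) {β : ℂ → ℂ} (hβ : IsBeta d β)
    (hψ : IsExteriorMap (multibrotSet d) ψ) :
    ∃ A : ℂ → ℂ, DifferentiableOn ℂ A (ball 0 1) ∧ A 0 = 0 ∧
      (∀ x ∈ ball (0 : ℂ) 1, Complex.exp (A x) = β x) ∧
      ∀ x ∈ ball (0 : ℂ) 1, |(A x).im| < Real.pi / (d - 1) := by
  obtain ⟨g, hg, hge⟩ := H113G.J_schottky.exists_log (BB_diff hβ.diff 0 (d := d))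
    (fun z hz => Pool.Agent.W677.MB.BB_ne hd hβ 0 hz)
  have h0 : (0 : ℂ) ∈ ball (0 : ℂ) 1 := mem_ball_self one_pos
  have hg0 : Complex.exp (g 0) = 1 := by
    rw [hge 0 h0, BB_zero, hβ.zero]
  have hexp : ∀ z ∈ ball (0 : ℂ) 1, Complex.exp (g z - g 0) = β z := by
    intro z hz
    rw [Complex.exp_sub, hg0, div_one, hge z hz, BB_zero]
  refine ⟨fun z => g z - g 0, hg.sub_const _, sub_self _, hexp, fun x hx => ?_⟩
  have hd1 : (0 : ℝ) < (d : ℝ) - 1 := by
    have : (2 : ℝ) ≤ d := by exact_mod_cast hd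
    linarith
  by_contra hcon
  push Not at hcon
  have hmem : ∀ s ∈ Icc (0 : ℝ) 1, (s : ℂ) * x ∈ ball (0 : ℂ) 1 := by
    intro s hs
    rw [mem_ball_zero_iff] at hx ⊢
    rw [norm_mul, Complex.norm_real, Real.norm_eq_abs, abs_of_nonneg hs.1]
    have := hs.2
    nlinarith [norm_nonneg x]
  have hc : ContinuousOn (fun s : ℝ => (g ((s : ℂ) * x) - g 0).im ^ 2 - (Real.pi / (d - 1)) ^ 2)
      (Icc 0 1) := by
    apply ContinuousOn.sub _ continuousOn_const
    apply ContinuousOn.pow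
    apply continuous_im.comp_continuousOn
    exact (hg.continuousOn.comp (by fun_prop) hmem).sub continuousOn_const
  obtain ⟨s, hs, h1⟩ := ivt0 hc (by
    simp only [ofReal_zero, zero_mul, sub_self, zero_im, ofReal_one, one_mul]
    have h2 : (Real.pi / ((d : ℝ) - 1)) ^ 2 ≤ (g x - g 0).im ^ 2 := by
      rw [← sq_abs (g x - g 0).im]
      gcongr
    have h3 : 0 ≤ (Real.pi / ((d : ℝ) - 1)) ^ 2 := sq_nonneg _
    nlinarith)
  have h2 : (g ((s : ℂ) * x) - g 0).im ^ 2 = (Real.pi / (d - 1)) ^ 2 := by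
    have h2 : (g ((s : ℂ) * x) - g 0).im ^ 2 - (Real.pi / (d - 1)) ^ 2 = 0 := h1
    linarith
  have h3 := slit hd hβ hψ (hmem s hs)
  rw [← hexp _ (hmem s hs), ← Complex.exp_nat_mul, mem_slitPlane_iff] at h3
  obtain ⟨u, hu⟩ : ∃ u, u = g ((s : ℂ) * x) - g 0 := ⟨_, rfl⟩
  rw [← hu] at h2 h3
  have h4 : (((d - 1 : ℕ) : ℂ) * u).im = Real.pi ∨ (((d - 1 : ℕ) : ℂ) * u).im = -Real.pi := by
    have h5 : (((d - 1 : ℕ) : ℂ) * u).im = (d - 1) * u.im := by
      have : ((d - 1 : ℕ) : ℂ) = ((((d - 1 : ℕ) : ℝ)) : ℂ) := by push_cast; rfl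
      rw [this, Complex.im_ofReal_mul, cast_pred hd]
    rw [h5]
    rcases sq_eq_sq_iff_eq_or_eq_neg.1 h2 with h6 | h6
    · left
      rw [h6]
      field_simp
    · right
      rw [h6]
      field_simp
  rw [Complex.exp_re, Complex.exp_im] at h3
  rcases h4 with h5 | h5
  · rw [h5, Real.cos_pi, Real.sin_pi] at h3
    rcases h3 with h6 | h6
    · have := Real.exp_pos (((d - 1 : ℕ) : ℂ) * u).re
      linarith
    · exact h6 (mul_zero _)
  · rw [h5, Real.cos_neg, Real.sin_neg, Real.cos_pi, Real.sin_pi] at h3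
    rcases h3 with h6 | h6
    · have := Real.exp_pos (((d - 1 : ℕ) : ℂ) * u).re
      linarith
    · exact h6 (by ring)

/-- the exponential -/
theorem norm_exp_sub_one {z : ℂ} {M : ℝ} (hM : 0 ≤ M) (hz : z.re ≤ M) :
    ‖Complex.exp z - 1‖ ≤ Real.exp M * ‖z‖ := by
  have hconv : Convex ℝ {u : ℂ | u.re ≤ M} := convex_halfSpace_re_le M
  have h1 := hconv.norm_image_sub_le_of_norm_hasDerivWithin_le (𝕜 := ℂ) (f := Complex.exp)
    (f' := Complex.exp) (C := Real.exp M) (x := 0) (y := z)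
    (fun u _ => (Complex.hasDerivAt_exp u).hasDerivWithinAt)
    (fun u hu => by
      rw [Complex.norm_exp]
      exact Real.exp_le_exp.2 hu)
    (by simpa using hM) hz
  rwa [Complex.exp_zero, sub_zero] at h1

/-- **The exterior map is uniformly close to the identity.** -/
theorem near_id (hd : 2 ≤ d) (hψ : IsExteriorMap (multibrotSet d) ψ) {w : ℂ} (hw : 1 < ‖w‖) :
    ‖ψ w - w‖ ≤ (Real.log d + 8) / (d - 1) * ‖w‖ := by
  obtain ⟨β, hβ⟩ := exists_beta (d := d) hd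
  obtain ⟨A, -, -, hA, hAi⟩ := exists_log_beta hd hβ hψ
  obtain ⟨hx, hx0⟩ := inv_mem_ball hw
  have hw0 : 0 < ‖w‖ := by linarith
  have hdr : (2 : ℝ) ≤ d := by exact_mod_cast hd
  have hd1 : (0 : ℝ) < (d : ℝ) - 1 := by linarith
  have hlogd : 0 ≤ Real.log d := Real.log_nonneg (by linarith)
  have hψw : ψ w = w * β w⁻¹ := exteriorMap_unique hβ hψ hw
  have h1 : ψ w - w = w * (Complex.exp (A w⁻¹) - 1) := by
    rw [hψw, hA _ hx]
    ring
  rw [h1, norm_mul, mul_comm]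
  apply mul_le_mul_of_nonneg_right _ hw0.le
  -- the real part
  have hre : (A w⁻¹).re = Real.log ‖ψ w‖ - Real.log ‖w‖ := by
    rw [hψw, norm_mul, ← hA _ hx, Complex.norm_exp, Real.log_mul (by positivity) (by positivity),
      Real.log_exp]
    ring
  have hup := green_up hd hψ 0 hw
  have hlow := green_low hd hψ 0 hw
  rw [zero_add, P_one hd, pow_zero, one_mul] at hup
  rw [zero_add, P_one hd, pow_zero, pow_zero, one_mul, mul_one] at hlow
  rw [← hre] at hup hlow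
  have him := hAi _ hx
  obtain ⟨u, hu⟩ : ∃ u, u = A w⁻¹ := ⟨_, rfl⟩
  rw [← hu] at hup hlow him ⊢
  have hπ := Real.pi_lt_d2
  have hπ0 := Real.pi_pos
  have hl2 := Real.log_two_lt_d9
  have hnorm : ‖u‖ ≤ |u.re| + |u.im| := Complex.norm_le_abs_re_add_abs_im u
  rcases le_or_gt u.re 0 with h2 | h2
  · have h3 := norm_exp_sub_one le_rfl h2
    rw [Real.exp_zero, one_mul] at h3
    have h4 : Real.log (4 * d) = 2 * Real.log 2 + Real.log d := by
      rw [Real.log_mul (by norm_num) (by positivity), show (4:ℝ) = 2 ^ 2 by norm_num, Real.log_pow]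
      norm_num
    rw [abs_of_nonpos h2] at hnorm
    rw [h4] at hlow
    calc ‖Complex.exp u - 1‖ ≤ ‖u‖ := h3
      _ ≤ (2 * Real.log 2 + Real.log d) / (d - 1) + Real.pi / (d - 1) := by linarith
      _ = (2 * Real.log 2 + Real.log d + Real.pi) / (d - 1) := by ring
      _ ≤ _ := div_le_div_of_nonneg_right (by linarith) hd1.le
  · have h5 : Real.log 2 / ((d : ℝ) - 1) ≤ Real.log 2 := by
      apply div_le_self (by positivity)
      linarith
    have h3 := norm_exp_sub_one (z := u) (M := Real.log 2) (by positivity) (by linarith)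
    rw [Real.exp_log (by norm_num)] at h3
    rw [abs_of_pos h2] at hnorm
    calc ‖Complex.exp u - 1‖ ≤ 2 * ‖u‖ := h3
      _ ≤ 2 * (Real.log 2 / (d - 1) + Real.pi / (d - 1)) := by linarith
      _ = (2 * Real.log 2 + 2 * Real.pi) / (d - 1) := by ring
      _ ≤ _ := div_le_div_of_nonneg_right (by linarith) hd1.le

end Pool.Agent.R240.Ext
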