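import Pool.Agent.R240.Crit
import Pool.Agent.W677.MB4

set_option autoImplicit false

/-! # Exterior maps and the maximum principle -/

namespace Pool.Agent.R240.Ext

open Complex Metric Set Filter Topology Bornology N62a1eb23
open Pool.Agent.H712R2 Pool.Agent.H713R2 Pool.Agent.Helper202.Univ

variable {d : ℕ} {ψ : ℂ → ℂ}

theorem isOpen_S : IsOpen {z : ℂ | 1 < ‖z‖} := isOpen_lt continuous_const continuous_norm

theorem psi_notMem (hψ : IsExteriorMap (multibrotSet d) ψ) {w : ℂ} (hw : 1 < ‖w‖) :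
    ψ w ∉ multibrotSet d := by
  have h1 : ψ w ∈ ψ '' {z | 1 < ‖z‖} := ⟨w, hw, rfl⟩
  rw [hψ.image] at h1
  exact h1

theorem psi_le (hd : 2 ≤ d) (hψ : IsExteriorMap (multibrotSet d) ψ) {w : ℂ} (hw : 1 < ‖w‖) :
    ‖ψ w‖ ≤ 2 * ‖w‖ := by
  obtain ⟨β, hβ⟩ := exists_beta (d := d) hd
  rw [exteriorMap_unique hβ hψ hw, norm_mul, mul_comm]
  have := hβ.bound _ (inv_mem_ball hw).1
  gcongr

/-- near the boundary -/
theorem near_frontier (hd : 2 ≤ d) (hψ : IsExteriorMap (multibrotSet d) ψ) {f : ℂ → ℝ}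
    (hf : Continuous f) {B : ℝ} (hB : ∀ c ∈ frontier (multibrotSet d), f c ≤ B) {ε : ℝ}
    (hε : 0 < ε) : ∃ δ : ℝ, 0 < δ ∧ ∀ w : ℂ, 1 < ‖w‖ → ‖w‖ < 1 + δ → f (ψ w) < B + ε := by
  by_contra hcon
  push Not at hcon
  have hseq : ∀ j : ℕ, ∃ w : ℂ, 1 < ‖w‖ ∧ ‖w‖ < 1 + 1 / ((j : ℝ) + 1) ∧ B + ε ≤ f (ψ w) :=
    fun j => hcon (1 / ((j : ℝ) + 1)) (by positivity)
  choose w h1 h2 h3 using hseq
  have hwlim : Tendsto (fun j => ‖w j‖) atTop (𝓝 1) := by
    have h4 : Tendsto (fun j : ℕ => 1 + 1 / ((j : ℝ) + 1)) atTop (𝓝 (1 + 0)) :=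
      tendsto_const_nhds.add tendsto_one_div_add_atTop_nhds_zero_nat
    rw [add_zero] at h4
    exact tendsto_of_tendsto_of_tendsto_of_le_of_le tendsto_const_nhds h4
      (fun j => (h1 j).le) (fun j => (h2 j).le)
  have hbd : ∀ j, ψ (w j) ∈ closedBall (0 : ℂ) 4 := by
    intro j
    rw [mem_closedBall_zero_iff]
    have h4 := psi_le hd hψ (h1 j)
    have h5 : 1 / ((j : ℝ) + 1) ≤ 1 := by
      rw [div_le_one (by positivity)]
      have : (0 : ℝ) ≤ j := Nat.cast_nonneg j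
      linarith
    linarith [h2 j]
  obtain ⟨c, -, φ, hφ, hlim⟩ := (isCompact_closedBall (0 : ℂ) 4).tendsto_subseq hbd
  have hfc : B + ε ≤ f c := by
    have h4 : Tendsto (fun j => f (ψ (w (φ j)))) atTop (𝓝 (f c)) := (hf.tendsto c).comp hlim
    exact ge_of_tendsto' h4 fun j => h3 (φ j)
  have hcM : c ∈ multibrotSet d := by
    by_contra hcM
    have h4 : c ∈ ψ '' {z | 1 < ‖z‖} := by rw [hψ.image]; exact hcM
    have h5 : ContinuousAt (Function.invFunOn ψ {z | 1 < ‖z‖}) c :=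
      (differentiableAt_inv isOpen_S hψ.diff hψ.inj h4).continuousAt
    have h6 : ∀ j, Function.invFunOn ψ {z | 1 < ‖z‖} (ψ (w j)) = w j := by
      intro j
      have h7 : ψ (w j) ∈ ψ '' {z | 1 < ‖z‖} := ⟨w j, h1 j, rfl⟩
      exact hψ.inj (Function.invFunOn_mem h7) (h1 j) (Function.invFunOn_eq h7)
    have h7 : Tendsto (fun j => w (φ j)) atTop (𝓝 (Function.invFunOn ψ {z | 1 < ‖z‖} c)) := by
      refine (h5.tendsto.comp hlim).congr fun j => ?_
      simp only [Function.comp]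
      exact h6 (φ j)
    have h8 : ‖Function.invFunOn ψ {z | 1 < ‖z‖} c‖ = 1 :=
      tendsto_nhds_unique h7.norm (hwlim.comp hφ.tendsto_atTop)
    have h9 : 1 < ‖Function.invFunOn ψ {z | 1 < ‖z‖} c‖ := Function.invFunOn_mem h4
    linarith
  have hcf : c ∈ frontier (multibrotSet d) := by
    refine ⟨subset_closure hcM, fun hi => ?_⟩
    have h4 := hlim.eventually (isOpen_interior.mem_nhds hi)
    obtain ⟨j, hj⟩ := h4.exists
    exact psi_notMem hψ (h1 (φ j)) (interior_subset hj)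
  linarith [hB c hcf]

/-- maximum principle -/
theorem max_le {H : ℂ → ℂ} (hH : DifferentiableOn ℂ H (ball 0 1)) {B : ℝ}
    (h : ∀ ε : ℝ, 0 < ε → ∃ δ : ℝ, 0 < δ ∧ ∀ x : ℂ, ‖x‖ < 1 → 1 - δ < ‖x‖ → ‖H x‖ ≤ B + ε)
    {x : ℂ} (hx : x ∈ ball (0 : ℂ) 1) : ‖H x‖ ≤ B := by
  apply le_of_forall_pos_le_add
  intro ε hε
  obtain ⟨δ, hδ, h⟩ := h ε hε
  rw [mem_ball_zero_iff] at hx
  obtain ⟨r, hr1, hr2⟩ := exists_between (max_lt hx (show 1 - δ < 1 by linarith))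
  have hxr : ‖x‖ < r := (le_max_left _ _).trans_lt hr1
  have hδr : 1 - δ < r := (le_max_right _ _).trans_lt hr1
  have hr0 : 0 < r := (norm_nonneg _).trans_lt hxr
  refine Complex.norm_le_of_forall_mem_frontier_norm_le (U := ball 0 r) isBounded_ball ?_
    (fun y hy => ?_) (subset_closure (mem_ball_zero_iff.2 hxr))
  · apply DifferentiableOn.diffContOnCl
    rw [closure_ball _ hr0.ne']
    exact hH.mono (closedBall_subset_ball hr2)
  · rw [frontier_ball _ hr0.ne', mem_sphere_zero_iff_norm] at hy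
    exact h y (by rw [hy]; exact hr2) (by rw [hy]; exact hδr)

theorem inv_near {δ : ℝ} (hδ : 0 < δ) : ∃ η : ℝ, 0 < η ∧ η < 1 ∧ ∀ x : ℂ, ‖x‖ < 1 → 1 - η < ‖x‖ →
    x ≠ 0 ∧ 1 < ‖x⁻¹‖ ∧ ‖x⁻¹‖ < 1 + δ := by
  refine ⟨min (1 / 2) (δ / (1 + δ)), by positivity, ?_, ?_⟩
  · exact (min_le_left _ _).trans_lt (by norm_num)
  · intro x hx hx2
    have h1 : 1 - min (1 / 2) (δ / (1 + δ)) ≥ 1 / 2 := by
      have := min_le_left (1 / 2) (δ / (1 + δ))
      linarith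
    have hx0 : 0 < ‖x‖ := by linarith
    have hne : x ≠ 0 := norm_pos_iff.1 hx0
    refine ⟨hne, ?_, ?_⟩
    · rw [norm_inv]
      exact (one_lt_inv₀ hx0).2 hx
    · rw [norm_inv, inv_lt_iff_one_lt_mul₀ hx0]
      have h2 : 1 - δ / (1 + δ) < ‖x‖ := by
        have := min_le_right (1 / 2) (δ / (1 + δ))
        linarith
      have h3 : 1 - δ / (1 + δ) = 1 / (1 + δ) := by
        field_simp
        ring
      rw [h3, div_lt_iff₀ (by positivity)] at h2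
      linarith

theorem BB_psi (hd : 2 ≤ d) {β : ℂ → ℂ} (hβ : IsBeta d β) (hψ : IsExteriorMap (multibrotSet d) ψ)
    (k : ℕ) {x : ℂ} (hx : x ∈ ball (0 : ℂ) 1) (hx0 : x ≠ 0) :
    BB d β k x = x ^ (d ^ k) * P d (k + 1) (ψ x⁻¹) := by
  rw [BB_eq hd β k x hx0, exteriorMap_unique hβ hψ (one_lt_norm_inv hx hx0), inv_inv]

/-- **Upper bound.** -/
theorem upper (hd : 2 ≤ d) (hψ : IsExteriorMap (multibrotSet d) ψ) (k : ℕ) {B : ℝ}
    (hB : ∀ c ∈ frontier (multibrotSet d), ‖P d (k + 1) c‖ ≤ B) {w : ℂ} (hw : 1 < ‖w‖) :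
    ‖P d (k + 1) (ψ w)‖ ≤ B * ‖w‖ ^ (d ^ k) := by
  obtain ⟨β, hβ⟩ := exists_beta (d := d) hd
  obtain ⟨hx, hx0⟩ := inv_mem_ball hw
  have hw0 : 0 < ‖w‖ := by linarith
  have h1 := max_le (BB_diff hβ.diff k (d := d)) (B := B) (by
    intro ε hε
    obtain ⟨δ, hδ, h2⟩ := near_frontier hd hψ (f := fun c => ‖P d (k + 1) c‖)
      (continuous_P d (k + 1)).norm hB hε
    obtain ⟨η, hη, -, h3⟩ := inv_near hδ
    refine ⟨η, hη, fun x hx1 hx2 => ?_⟩
    obtain ⟨h4, h5, h6⟩ := h3 x hx1 hx2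
    rw [BB_psi hd hβ hψ k (mem_ball_zero_iff.2 hx1) h4, norm_mul, norm_pow]
    have h7 := (h2 x⁻¹ h5 h6).le
    have h8 : ‖x‖ ^ (d ^ k) ≤ 1 := pow_le_one₀ (norm_nonneg _) hx1.le
    calc ‖x‖ ^ (d ^ k) * ‖P d (k + 1) (ψ x⁻¹)‖ ≤ 1 * (B + ε) := by gcongr
      _ = _ := one_mul _) hx
  rw [BB_psi hd hβ hψ k hx hx0, norm_mul, norm_pow, norm_inv, inv_inv, inv_pow,
    inv_mul_le_iff₀ (by positivity)] at h1
  linarith

/-- **Lower bound.** -/
theorem lower (hd : 2 ≤ d) (hψ : IsExteriorMap (multibrotSet d) ψ) (k : ℕ) {b : ℝ} (hb : 0 < b)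
    (hB : ∀ c ∈ frontier (multibrotSet d), b ≤ ‖P d (k + 1) c‖) {w : ℂ} (hw : 1 < ‖w‖) :
    b * ‖w‖ ^ (d ^ k) ≤ ‖P d (k + 1) (ψ w)‖ := by
  obtain ⟨β, hβ⟩ := exists_beta (d := d) hd
  obtain ⟨hx, hx0⟩ := inv_mem_ball hw
  have hw0 : 0 < ‖w‖ := by linarith
  have hne : ∀ x ∈ ball (0 : ℂ) 1, BB d β k x ≠ 0 := by
    intro x hx
    by_cases hx0 : x = 0
    · rw [hx0, BB_at_zero hd, hβ.zero, one_pow]
      exact one_ne_zero
    · rw [BB_psi hd hβ hψ k hx hx0]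
      exact mul_ne_zero (pow_ne_zero _ hx0)
        (Pool.Agent.W677.MB.P_ne (psi_notMem hψ (one_lt_norm_inv hx hx0)) (by omega))
  have h1 := max_le (H := fun x => (BB d β k x)⁻¹)
    ((BB_diff hβ.diff k (d := d)).inv hne) (B := 1 / b) (by
    intro ε hε
    -- the choice of `t`
    obtain ⟨t, ht0, htb, ht1, ht⟩ : ∃ t : ℝ, 0 < t ∧ t < b ∧ t < 1 ∧
        ((1 - t) ^ (d ^ k))⁻¹ * (b - t)⁻¹ ≤ 1 / b + ε := by
      have hc : ContinuousAt (fun t : ℝ => ((1 - t) ^ (d ^ k))⁻¹ * (b - t)⁻¹) 0 := by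
        apply ContinuousAt.mul
        · apply ContinuousAt.inv₀ (by fun_prop)
          norm_num
        · apply ContinuousAt.inv₀ (by fun_prop)
          rw [sub_zero]
          exact hb.ne'
      have h0 : (fun t : ℝ => ((1 - t) ^ (d ^ k))⁻¹ * (b - t)⁻¹) 0 < 1 / b + ε := by
        simp only [sub_zero, one_pow, inv_one, one_mul]
        rw [one_div]
        linarith
      have h2 := hc.eventually (gt_mem_nhds h0)
      obtain ⟨s, hs, h3⟩ := Metric.eventually_nhds_iff.1 h2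
      refine ⟨min (s / 2) (min (b / 2) (1 / 2)), by positivity, ?_, ?_, ?_⟩
      · exact ((min_le_right _ _).trans (min_le_left _ _)).trans_lt (by linarith)
      · exact ((min_le_right _ _).trans (min_le_right _ _)).trans_lt (by norm_num)
      · apply (h3 _).le
        rw [Real.dist_eq, sub_zero, abs_of_pos (by positivity)]
        exact (min_le_left _ _).trans_lt (by linarith)
    obtain ⟨δ, hδ, h2⟩ := near_frontier hd hψ (f := fun c => -‖P d (k + 1) c‖)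
      (continuous_P d (k + 1)).norm.neg (B := -b) (fun c hc => neg_le_neg (hB c hc)) ht0
    obtain ⟨η, hη, -, h3⟩ := inv_near hδ
    refine ⟨min η t, by positivity, fun x hx1 hx2 => ?_⟩
    obtain ⟨h4, h5, h6⟩ := h3 x hx1 (by
      have := min_le_left η t
      linarith)
    have hxt : 1 - t ≤ ‖x‖ := by
      have := min_le_right η t
      linarith
    have h7 := h2 x⁻¹ h5 h6
    have h8 : b - t ≤ ‖P d (k + 1) (ψ x⁻¹)‖ := by linarith
    have h9 : (1 - t) ^ (d ^ k) ≤ ‖x‖ ^ (d ^ k) :=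
      pow_le_pow_left₀ (by linarith) hxt _
    rw [norm_inv, BB_psi hd hβ hψ k (mem_ball_zero_iff.2 hx1) h4, norm_mul, norm_pow, mul_inv]
    refine le_trans ?_ ht
    have h10 : 0 < (1 - t) ^ (d ^ k) := by
      have : 0 < 1 - t := by linarith
      positivity
    have h11 : 0 < b - t := by linarith
    exact mul_le_mul (inv_anti₀ h10 h9) (inv_anti₀ h11 h8) (by positivity) (by positivity)) hx
  rw [norm_inv, BB_psi hd hβ hψ k hx hx0, norm_mul, norm_pow, norm_inv, inv_inv, inv_pow] at h1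
  have hP : 0 < ‖P d (k + 1) (ψ w)‖ :=
    norm_pos_iff.2 (Pool.Agent.W677.MB.P_ne (psi_notMem hψ hw) (by omega))
  rw [mul_inv, inv_inv, mul_comm, inv_mul_le_iff₀ hP] at h1
  rw [mul_one_div, le_div_iff₀ hb] at h1
  linarith

end Pool.Agent.R240.Ext
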