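import Pool.Agent.R240.ExtLog

set_option autoImplicit false

/-! # The exterior map to all orders -/

namespace Pool.Agent.R240.Ext

open Complex Metric Set Filter Topology Bornology N62a1eb23
open Pool.Agent.H712R2 Pool.Agent.H713R2 Pool.Agent.Helper202.Univ
open ComplexConjugate

variable {d : ℕ} {ψ : ℂ → ℂ}

theorem eps_lt (hd : 2 ≤ d) (k : ℕ) : Real.log (4 * d * (15 * d) ^ k) / (d - 1) <
    (k + 1) * (Real.log d + 5) / (d - 1) := by
  have hdr : (2 : ℝ) ≤ d := by exact_mod_cast hd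
  have hd1 : (0 : ℝ) < (d : ℝ) - 1 := by linarith
  apply div_lt_div_of_pos_right _ hd1
  rw [Real.log_mul (by positivity) (by positivity), Real.log_pow,
    Real.log_mul (by norm_num) (by positivity), Real.log_mul (by norm_num) (by positivity)]
  have hl2 := Real.log_two_lt_d9
  have h4 : Real.log 4 = 2 * Real.log 2 := by
    rw [show (4:ℝ) = 2 ^ 2 by norm_num, Real.log_pow]
    norm_num
  have h15 : Real.log 15 < 4 * Real.log 2 := by
    have : (4:ℝ) * Real.log 2 = Real.log 16 := by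
      rw [show (16:ℝ) = 2 ^ 4 by norm_num, Real.log_pow]
      norm_num
    rw [this]
    exact Real.log_lt_log (by norm_num) (by norm_num)
  have hk : (0 : ℝ) ≤ k := Nat.cast_nonneg k
  nlinarith

theorem up_lt (hd : 2 ≤ d) (k : ℕ) : Real.log 2 / (d - 1) <
    (k + 1) * (Real.log d + 5) / (d - 1) := by
  have hdr : (2 : ℝ) ≤ d := by exact_mod_cast hd
  have hd1 : (0 : ℝ) < (d : ℝ) - 1 := by linarith
  apply div_lt_div_of_pos_right _ hd1
  have hl2 := Real.log_two_lt_d9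
  have hld : 0 ≤ Real.log d := Real.log_nonneg (by linarith)
  have hk : (0 : ℝ) ≤ k := Nat.cast_nonneg k
  nlinarith

/-- **The exterior map to all orders.** -/
theorem orders (hd : 2 ≤ d) (hψ : IsExteriorMap (multibrotSet d) ψ) (k : ℕ) {w : ℂ}
    (hw : 1 < ‖w‖) : ∃ g : ℂ, P d (k + 1) (ψ w) = w ^ (d ^ k) * Complex.exp g ∧
      -((k + 1) * (Real.log d + 5) / (d - 1)) ≤ g.re ∧ g.re ≤ Real.log 2 / (d - 1) ∧
      ‖g‖ ≤ 4 / Real.pi * ((k + 1) * (Real.log d + 5) / (d - 1)) *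
        Real.log (‖w‖ ^ (d ^ (k + 1) - 1) / (‖w‖ ^ (d ^ (k + 1) - 1) - 1)) := by
  have hdr : (2 : ℝ) ≤ d := by exact_mod_cast hd
  have hd1 : (0 : ℝ) < (d : ℝ) - 1 := by linarith
  obtain ⟨N, hNdef⟩ : ∃ N : ℕ, N = d ^ (k + 1) - 1 := ⟨_, rfl⟩
  have hN0 : N ≠ 0 := by
    have : 1 < d ^ (k + 1) := Nat.one_lt_pow (by omega) (by omega)
    omega
  obtain ⟨β, hβ⟩ := exists_beta (d := d) hd
  obtain ⟨g, hg, hge⟩ := H113G.J_schottky.exists_log (BB_diff hβ.diff k (d := d))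
    (fun z hz => Pool.Agent.W677.MB.BB_ne hd hβ k hz)
  have h0 : (0 : ℂ) ∈ ball (0 : ℂ) 1 := mem_ball_self one_pos
  have hg0 : Complex.exp (g 0) = 1 := by
    rw [hge 0 h0, BB_at_zero hd, hβ.zero, one_pow]
  obtain ⟨G, hG⟩ : ∃ G : ℂ → ℂ, G = fun z => g z - g 0 := ⟨_, rfl⟩
  have hexp : ∀ z ∈ ball (0 : ℂ) 1, Complex.exp (G z) = BB d β k z := by
    intro z hz
    rw [hG]
    simp only
    rw [Complex.exp_sub, hg0, div_one, hge z hz]
  have hGd : DifferentiableOn ℂ G (ball 0 1) := by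
    rw [hG]
    exact hg.sub_const _
  have hG0 : G 0 = 0 := by
    rw [hG]
    exact sub_self _
  obtain ⟨ε, hεdef⟩ : ∃ ε : ℝ, ε = (k + 1) * (Real.log d + 5) / (d - 1) := ⟨_, rfl⟩
  have h1ε := eps_lt hd k
  have h2ε := up_lt hd k
  rw [← hεdef] at h1ε h2ε ⊢
  have hε0 : 0 < ε := lt_of_le_of_lt (by positivity) h2ε
  -- the real part
  have hre : ∀ z ∈ ball (0 : ℂ) 1, -(Real.log (4 * d * (15 * d) ^ k) / (d - 1)) ≤ (G z).re ∧
      (G z).re ≤ Real.log 2 / (d - 1) := by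
    intro z hz
    rcases eq_or_ne z 0 with rfl | hz0
    · rw [hG0, zero_re]
      constructor
      · have : 0 ≤ Real.log (4 * d * (15 * d) ^ k) := by
          apply Real.log_nonneg
          have h1 : (1:ℝ) ≤ (15 * d) ^ k := one_le_pow₀ (by linarith)
          nlinarith
        have h2 : 0 ≤ Real.log (4 * d * (15 * d) ^ k) / (d - 1) := by positivity
        linarith
      · positivity
    · have hw' := one_lt_norm_inv hz hz0
      have h1 := green_up hd hψ k hw'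
      have h2 := green_low hd hψ k hw'
      have h3 : (G z).re = Real.log ‖P d (k + 1) (ψ z⁻¹)‖ - d ^ k * Real.log ‖z⁻¹‖ := by
        have hP : 0 < ‖P d (k + 1) (ψ z⁻¹)‖ :=
          norm_pos_iff.2 (Pool.Agent.W677.MB.P_ne (psi_notMem hψ hw') (by omega))
        have hz1 : 0 < ‖z‖ := norm_pos_iff.2 hz0
        have h4 : Real.exp (G z).re = ‖BB d β k z‖ := by rw [← Complex.norm_exp, hexp z hz]
        rw [← Real.log_exp (G z).re, h4, BB_psi hd hβ hψ k hz hz0, norm_mul, norm_pow,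
          Real.log_mul (by positivity) hP.ne', Real.log_pow, norm_inv, Real.log_inv]
        push_cast
        ring
      rw [h3]
      exact ⟨h2, h1⟩
  -- the order of the zero
  obtain ⟨C, hC⟩ := hβ.order k
  rw [← hNdef] at hC
  have hC0 : 0 ≤ C := by
    have h1 := hC ((1 / 4 : ℝ) : ℂ) (by
      rw [mem_ball_zero_iff, Complex.norm_real, Real.norm_eq_abs, abs_of_pos (by norm_num)]
      norm_num)
    by_contra hcon
    push Not at hcon
    rw [Complex.norm_real, Real.norm_eq_abs, abs_of_pos (by norm_num : (0:ℝ) < 1 / 4)] at h1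
    have h2 : (0:ℝ) < (1 / 4) ^ N := by positivity
    nlinarith [norm_nonneg (BB d β k ((1 / 4 : ℝ) : ℂ) - 1)]
  obtain ⟨δ, hδ, hsm⟩ : ∃ δ : ℝ, 0 < δ ∧ ∀ y ∈ ball (0 : ℂ) δ, ‖G y‖ < 1 := by
    have hc : ContinuousAt G 0 := (hGd.differentiableAt (ball_mem_nhds _ one_pos)).continuousAt
    have h1 : ∀ᶠ y in 𝓝 (0 : ℂ), ‖G y‖ < 1 := by
      apply hc.norm.eventually (gt_mem_nhds _)
      show ‖G 0‖ < 1
      rw [hG0, norm_zero]
      exact one_pos
    obtain ⟨s, hs, h3⟩ := Metric.eventually_nhds_iff.1 h1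
    exact ⟨s, hs, fun y hy => h3 hy⟩
  obtain ⟨δ', hδ', hsm'⟩ : ∃ δ : ℝ, 0 < δ ∧ ∀ y ∈ ball (0 : ℂ) δ, ‖BB d β k y - 1‖ ≤ 1 / 2 := by
    have hc : ContinuousAt (fun y => BB d β k y - 1) 0 :=
      (((BB_diff hβ.diff k (d := d)).differentiableAt
        (ball_mem_nhds _ one_pos)).continuousAt).sub continuousAt_const
    have h1 : ∀ᶠ y in 𝓝 (0 : ℂ), ‖BB d β k y - 1‖ < 1 / 2 := by
      apply hc.norm.eventually (gt_mem_nhds _)
      show ‖BB d β k 0 - 1‖ < 1 / 2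
      rw [BB_at_zero hd, hβ.zero, one_pow, sub_self, norm_zero]
      norm_num
    obtain ⟨s, hs, h3⟩ := Metric.eventually_nhds_iff.1 h1
    exact ⟨s, hs, fun y hy => (h3 hy).le⟩
  have hord : ∀ y ∈ ball (0 : ℂ) (min (min δ δ') (1 / 2)), ‖G y‖ ≤ (3 / 2 * C) * ‖y‖ ^ N := by
    intro y hy
    have hy2 : y ∈ ball (0 : ℂ) (1 / 2) := ball_subset_ball (min_le_right _ _) hy
    have hy1 : y ∈ ball (0 : ℂ) 1 := ball_subset_ball (by norm_num) hy2
    have hy3 : y ∈ ball (0 : ℂ) δ :=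
      ball_subset_ball ((min_le_left _ _).trans (min_le_left _ _)) hy
    have hy4 : y ∈ ball (0 : ℂ) δ' :=
      ball_subset_ball ((min_le_left _ _).trans (min_le_right _ _)) hy
    have h1 := (abs_le.1 ((abs_im_le_norm (G y)).trans (hsm y hy3).le))
    have hπ := Real.pi_gt_three
    have h2 : Complex.log (BB d β k y) = G y := by
      rw [← hexp y hy1]
      exact Complex.log_exp (by linarith) (by linarith)
    have h3 := Complex.norm_log_one_add_half_le_self (hsm' y hy4)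
    rw [add_sub_cancel, h2] at h3
    calc ‖G y‖ ≤ 3 / 2 * ‖BB d β k y - 1‖ := h3
      _ ≤ 3 / 2 * (C * ‖y‖ ^ N) := by gcongr; exact hC y hy2
      _ = _ := by ring
  obtain ⟨hx, hx0⟩ := inv_mem_ball hw
  have hstrip := Strip.strip hGd hε0 (fun z hz => by
    obtain ⟨h1, h2⟩ := hre z hz
    rw [abs_lt]
    exact ⟨by linarith, by linarith⟩) hN0 (by positivity) hord hx
  obtain ⟨hre1, hre2⟩ := hre _ hx
  refine ⟨G w⁻¹, ?_, by linarith, hre2, ?_⟩
  · rw [hexp _ hx, BB_psi hd hβ hψ k hx hx0, inv_inv, inv_pow, mul_inv_cancel_left₀]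
    apply pow_ne_zero
    intro h
    rw [h, norm_zero] at hw
    linarith
  · refine hstrip.trans (le_of_eq ?_)
    have hw0 : 0 < ‖w‖ := by linarith
    have hwN : 1 < ‖w‖ ^ N := one_lt_pow₀ hw hN0
    rw [← hNdef, norm_inv, inv_pow, ← Real.log_inv]
    have h3 : (1 - (‖w‖ ^ N)⁻¹)⁻¹ = ‖w‖ ^ N / (‖w‖ ^ N - 1) := by
      have h4 : ‖w‖ ^ N ≠ 0 := by positivity
      have h5 : ‖w‖ ^ N - 1 ≠ 0 := by linarith
      have h6 : 1 - (‖w‖ ^ N)⁻¹ = (‖w‖ ^ N - 1) / ‖w‖ ^ N := by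
        field_simp
      rw [h6, inv_div]
    rw [h3]
    ring

/-- sharpness -/
theorem sharp (hd : 2 ≤ d) (hψ : IsExteriorMap (multibrotSet d) ψ) : ∃ w : ℂ, 1 < ‖w‖ ∧
    (Real.log d / (d - 1) - (Real.log d / (d - 1)) ^ 2 / 2) * ‖w‖ ≤ ‖ψ w - w‖ := by
  have hdr : (2 : ℝ) ≤ d := by exact_mod_cast hd
  have hrs : rr d < sr d := by
    rw [rr_eq hd]
    have h1 := sr_pos d
    have h2 : 0 < 1 / (d : ℝ) := by positivity
    nlinarith
  have h1 := real_escape hd hrs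
  rw [← mem_compl_iff, ← hψ.image] at h1
  obtain ⟨w, hw, h2⟩ := h1
  have hw : 1 < ‖w‖ := hw
  refine ⟨w, hw, ?_⟩
  have h3 : ‖w‖ - sr d ≤ ‖ψ w - w‖ := by
    rw [h2, norm_sub_rev]
    have := norm_sub_norm_le w (sr d : ℂ)
    rwa [Complex.norm_real, Real.norm_eq_abs, abs_of_pos (sr_pos d)] at this
  obtain ⟨L, hL⟩ : ∃ L : ℝ, L = Real.log d / (d - 1) := ⟨_, rfl⟩
  have hL0 : 0 ≤ L := by
    rw [hL]
    have : 0 ≤ Real.log d := Real.log_nonneg (by linarith)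
    have : (0:ℝ) < d - 1 := by linarith
    positivity
  rw [← hL]
  have h4 : sr d ≤ 1 - (L - L ^ 2 / 2) := by
    unfold sr
    rw [← hL]
    have h5 : 1 + L + L ^ 2 / 2 ≤ Real.exp L := Real.quadratic_le_exp_of_nonneg hL0
    rw [Real.exp_neg]
    have h6 : 0 < 1 + L + L ^ 2 / 2 := by positivity
    calc (Real.exp L)⁻¹ ≤ (1 + L + L ^ 2 / 2)⁻¹ := inv_anti₀ h6 h5
      _ ≤ 1 - (L - L ^ 2 / 2) := by
        rw [inv_le_iff_one_le_mul₀ h6]
        nlinarith [pow_nonneg hL0 3, pow_nonneg hL0 4]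
  have h5 := sr_pos d
  nlinarith

end Pool.Agent.R240.Ext
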