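import Pool.Agent.R240.Pair2

set_option autoImplicit false

/-! # Perturbations on the whole filled Julia set -/

namespace Pool.Agent.R240.Full

open Complex Metric Set Filter Topology MeasureTheory ENNReal N62a1eb23
open Pool.Agent.H712R2 Pool.Agent.H713R2 Pool.Agent.R240.Push Pool.Agent.R240.Univ
open Pool.Agent.R240.Pair

variable {ι : Type*}

/-- The sum of simple poles at the points `z k`, `k < n`, with residues `ρ k`. -/
noncomputable def qs (n : Finset ι) (ρ z : ι → ℂ) (x : ℂ) : ℂ := ∑ k ∈ n, ρ k / (x - z k)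

theorem qs_meas (n : Finset ι) (ρ z : ι → ℂ) : Measurable (qs n ρ z) := by
  unfold qs
  fun_prop

theorem circle_bound_s {n : Finset ι} {ρ z : ι → ℂ} {Φ : ℂ → ℂ} {M s : ℝ}
    (hz : ∀ k ∈ n, ‖z k‖ ≤ 2) (hΦ : DifferentiableOn ℂ Φ (ball 0 4))
    (hM : ∀ x ∈ ball (0:ℂ) 4, ‖Φ x‖ ≤ M) (hs : 2 < s) (hs4 : s < 4) :
    ENNReal.ofReal (2 * Real.pi * ‖∑ k ∈ n, ρ k * Φ (z k)‖) ≤
      ENNReal.ofReal M * (ENNReal.ofReal s *
        ∫⁻ θ in Ioc (-Real.pi) Real.pi, ‖qs n ρ z (s * exp (θ * I))‖ₑ) := by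
  have hs0 : 0 < s := by linarith
  have hM0 : 0 ≤ M := (norm_nonneg _).trans (hM 0 (mem_ball_self (by norm_num)))
  have hcl : closedBall (0:ℂ) s ⊆ ball 0 4 := closedBall_subset_ball hs4
  have hD : DiffContOnCl ℂ Φ (ball 0 s) := hΦ.diffContOnCl_ball hcl
  have hint : ∀ k ∈ n, CircleIntegrable (fun x => ρ k * ((x - z k)⁻¹ • Φ x)) 0 s := by
    intro k hk
    apply ContinuousOn.circleIntegrable hs0.le
    apply ContinuousOn.mul continuousOn_const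
    apply ContinuousOn.fun_smul
    · apply ContinuousOn.inv₀ (by fun_prop)
      intro x hx
      rw [mem_sphere_zero_iff_norm] at hx
      have := hz k hk
      intro h
      rw [sub_eq_zero] at h
      rw [h] at hx
      linarith
    · exact hΦ.continuousOn.mono (sphere_subset_closedBall.trans hcl)
  have h1 : (∮ x in C(0, s), qs n ρ z x * Φ x) =
      2 * Real.pi * I * ∑ k ∈ n, ρ k * Φ (z k) := by
    have h2 : ∀ x, qs n ρ z x * Φ x = ∑ k ∈ n, ρ k * ((x - z k)⁻¹ • Φ x) := by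
      intro x
      unfold qs
      rw [Finset.sum_mul]
      apply Finset.sum_congr rfl
      intro k _
      rw [smul_eq_mul, div_eq_mul_inv, mul_assoc]
    simp only [h2]
    rw [circleIntegral.integral_fun_sum hint, Finset.mul_sum]
    apply Finset.sum_congr rfl
    intro k hk
    rw [circleIntegral.integral_const_mul, hD.circleIntegral_sub_inv_smul (by
      rw [mem_ball_zero_iff]
      have := hz k hk
      linarith), smul_eq_mul]
    ring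
  have h2 : ENNReal.ofReal (2 * Real.pi * ‖∑ k ∈ n, ρ k * Φ (z k)‖) =
      ‖∮ x in C(0, s), qs n ρ z x * Φ x‖ₑ := by
    rw [h1, ← ofReal_norm]
    congr 1
    rw [norm_mul, norm_mul, norm_mul, norm_I, mul_one, Complex.norm_real,
      Real.norm_of_nonneg Real.pi_pos.le]
    norm_num
  rw [h2, circleIntegral, intervalIntegral.integral_of_le (by positivity)]
  refine (enorm_integral_le_lintegral_enorm _).trans ?_
  have h3 : ∀ θ : ℝ, ‖deriv (circleMap 0 s) θ • (qs n ρ z (circleMap 0 s θ) * Φ (circleMap 0 s θ))‖ₑ ≤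
      ENNReal.ofReal M * (ENNReal.ofReal s * ‖qs n ρ z (s * exp (θ * I))‖ₑ) := by
    intro θ
    have h4 : circleMap 0 s θ = s * exp (θ * I) := circleMap_zero s θ
    rw [smul_eq_mul, enorm_mul, enorm_mul, deriv_circleMap, h4]
    have h5 : ‖(s:ℂ) * exp (θ * I)‖ = s := by
      rw [norm_mul, Complex.norm_exp_ofReal_mul_I, mul_one, Complex.norm_real,
        Real.norm_of_nonneg hs0.le]
    have h6 : ‖(s:ℂ) * exp (θ * I) * I‖ₑ = ENNReal.ofReal s := by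
      rw [← ofReal_norm, norm_mul, h5, norm_I, mul_one]
    have h7 : ‖Φ ((s:ℂ) * exp (θ * I))‖ₑ ≤ ENNReal.ofReal M := by
      rw [← ofReal_norm]
      apply ENNReal.ofReal_le_ofReal
      apply hM
      rw [mem_ball_zero_iff, h5]
      exact hs4
    rw [h6]
    calc ENNReal.ofReal s * (‖qs n ρ z (s * exp (θ * I))‖ₑ * ‖Φ ((s:ℂ) * exp (θ * I))‖ₑ)
        ≤ ENNReal.ofReal s * (‖qs n ρ z (s * exp (θ * I))‖ₑ * ENNReal.ofReal M) := by gcongr
      _ = _ := by ring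
  refine (lintegral_mono h3).trans ?_
  rw [lintegral_const_mul' _ _ ENNReal.ofReal_ne_top, lintegral_const_mul' _ _ ENNReal.ofReal_ne_top,
    circle_shift (fun x => ‖qs n ρ z x‖ₑ) s]

/-- **Residues against the norm on the annulus.** -/
theorem resid_s {n : Finset ι} {ρ z : ι → ℂ} {Φ : ℂ → ℂ} {M : ℝ}
    (hz : ∀ k ∈ n, ‖z k‖ ≤ 2) (hΦ : DifferentiableOn ℂ Φ (ball 0 4))
    (hM : ∀ x ∈ ball (0:ℂ) 4, ‖Φ x‖ ≤ M) :
    ENNReal.ofReal (3 * Real.pi * ‖∑ k ∈ n, ρ k * Φ (z k)‖) ≤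
      ENNReal.ofReal M * ∫⁻ x in Ann, ‖qs n ρ z x‖ₑ := by
  have hqm : Measurable (Ann.indicator fun x => ‖qs n ρ z x‖ₑ) :=
    (qs_meas n ρ z).enorm.indicator Ann_meas
  rw [← lintegral_indicator Ann_meas, polar _ hqm, ← lintegral_const_mul' _ _ ENNReal.ofReal_ne_top]
  have h1 : ∫⁻ s in Ioo (5 / 2 : ℝ) 4,
      ENNReal.ofReal (2 * Real.pi * ‖∑ k ∈ n, ρ k * Φ (z k)‖) =
      ENNReal.ofReal (3 * Real.pi * ‖∑ k ∈ n, ρ k * Φ (z k)‖) := by
    rw [setLIntegral_const, Real.volume_Ioo, ← ENNReal.ofReal_mul (by positivity)]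
    congr 1
    ring
  rw [← h1]
  calc ∫⁻ s in Ioo (5 / 2 : ℝ) 4,
      ENNReal.ofReal (2 * Real.pi * ‖∑ k ∈ n, ρ k * Φ (z k)‖)
      ≤ ∫⁻ s in Ioo (5 / 2 : ℝ) 4, ENNReal.ofReal M * (ENNReal.ofReal s *
        ∫⁻ θ in Ioc (-Real.pi) Real.pi, Ann.indicator (fun x => ‖qs n ρ z x‖ₑ) (s * exp (θ * I))) := by
        apply setLIntegral_mono' measurableSet_Ioo
        intro s hs
        refine (circle_bound_s hz hΦ hM (by linarith [hs.1]) hs.2).trans ?_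
        have h5 : ∀ θ : ℝ, ‖(s:ℂ) * exp (θ * I)‖ = s := by
          intro θ
          rw [norm_mul, Complex.norm_exp_ofReal_mul_I, mul_one, Complex.norm_real,
            Real.norm_of_nonneg (by linarith [hs.1])]
        gcongr with θ
        rw [indicator_of_mem]
        exact ⟨by rw [h5]; exact hs.1, by rw [h5]; exact hs.2⟩
    _ ≤ _ := by
        apply lintegral_mono_set
        intro s hs
        exact lt_trans (by norm_num) hs.1

theorem root_zero {d : ℕ} (hd : 2 ≤ d) {ζ : ℂ} (hζ : IsPrimitiveRoot ζ d) {x : ℂ} (hx : x ≠ 0)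
    (b : ℂ) : ∑ i ∈ Finset.range d, (ζ ^ i) ^ 2 * (b / (ζ ^ i * x)) = 0 := by
  have h1 : ∀ i ∈ Finset.range d, (ζ ^ i) ^ 2 * (b / (ζ ^ i * x)) =
      b * ((ζ ^ i) ^ 2 / (ζ ^ i * x - 0)) := by
    intro i _
    rw [sub_zero]
    ring
  rw [Finset.sum_congr rfl h1, ← Finset.mul_sum, root_sum hd hζ (a := 0) (by
    rw [zero_pow (by omega)]
    exact pow_ne_zero _ hx)]
  simp

/-- the defect -/
noncomputable def EF (d : ℕ) (c : ℂ) (s : Finset ι) (z a : ι → ℂ) (b x : ℂ) : ℂ :=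
  ∑ i ∈ s, a i * (d * z i ^ (d - 1) * (1 / (x - z i)) - 1 / (x - (z i ^ d + c))) + b * (1 / x)

/-- **The inequality for arbitrary points.** -/
theorem master2 {d : ℕ} (hd : 2 ≤ d) {c : ℂ} (hc2 : ‖c‖ ≤ 2) (s : Finset ι) (z a : ι → ℂ) (b : ℂ)
    (hz : ∀ i ∈ s, ‖z i‖ ≤ 2 ∧ ‖z i ^ d + c‖ ≤ 2)
    {Φ : ℂ → ℂ} {M : ℝ} (hΦ : DifferentiableOn ℂ Φ (ball 0 4))
    (hM : ∀ x ∈ ball (0:ℂ) 4, ‖Φ x‖ ≤ M) :
    ENNReal.ofReal (3 * Real.pi * ‖∑ i ∈ s, a i * Φ (z i ^ d + c)‖) ≤ ENNReal.ofReal M *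
      (ENNReal.ofReal (12 * Real.pi * ‖∑ i ∈ s, a i‖) +
        ∫⁻ x in ball (0:ℂ) 4, ‖EF d c s z a b x‖ₑ) := by
  have hpi := Real.pi_pos
  obtain ⟨W, hW⟩ : ∃ W : ℂ → ℂ, W = qs s a (fun i => z i ^ d + c) := ⟨_, rfl⟩
  obtain ⟨Q, hQ⟩ : ∃ Q : ℂ → ℂ, Q = fun x =>
      ∑ i ∈ s, a i * (d * z i ^ (d - 1) * (1 / (x - z i))) + b * (1 / x) := ⟨_, rfl⟩
  obtain ⟨E, hE⟩ : ∃ E : ℂ → ℂ, E = EF d c s z a b := ⟨_, rfl⟩
  obtain ⟨S, hS⟩ : ∃ S, S = ∑ i ∈ s, a i := ⟨_, rfl⟩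
  rw [← hE, ← hS]
  have hWm : Measurable W := by rw [hW]; exact qs_meas _ _ _
  have hQm : Measurable Q := by rw [hQ]; fun_prop
  have hEm : Measurable E := by rw [hE]; unfold EF; fun_prop
  have hQW : ∀ x, Q x = W x + E x := by
    intro x
    rw [hQ, hW, hE]
    unfold qs EF
    simp only
    rw [← add_assoc, ← Finset.sum_add_distrib]
    congr 1
    apply Finset.sum_congr rfl
    intro i _
    ring
  obtain ⟨U, hU⟩ : ∃ U : Set ℂ, U = {x | x ^ d + c ∈ ball (0:ℂ) 4} := ⟨_, rfl⟩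
  have hU5 : ∀ x ∈ U, ‖x‖ ≤ 5 / 2 := by
    intro x hx
    rw [hU, mem_ofPred_eq, mem_ball_zero_iff] at hx
    by_contra hcon
    push Not at hcon
    have h1 : ‖x ^ d‖ ≤ ‖x ^ d + c‖ + ‖c‖ := by
      calc ‖x ^ d‖ = ‖(x ^ d + c) - c‖ := by congr 1; ring
        _ ≤ _ := norm_sub_le _ _
    rw [norm_pow] at h1
    have h2 : ‖x‖ ^ 2 ≤ ‖x‖ ^ d := pow_le_pow_right₀ (by linarith) hd
    nlinarith
  have hUV : U ∪ Ann ⊆ ball (0:ℂ) 4 := by
    rintro x (hx | hx)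
    · rw [mem_ball_zero_iff]
      have := hU5 x hx
      linarith
    · rw [mem_ball_zero_iff]
      exact hx.2
  have hdisj : Disjoint U Ann := by
    rw [Set.disjoint_left]
    intro x hx hx2
    have := hU5 x hx
    have := hx2.1
    linarith
  obtain ⟨G, hG⟩ : ∃ G : ℂ → ℂ, G = fun y => W y - S / (y - c) := ⟨_, rfl⟩
  have hGm : Measurable G := by
    rw [hG]
    exact hWm.sub (by fun_prop)
  obtain ⟨ζ, hζ⟩ : ∃ ζ : ℂ, IsPrimitiveRoot ζ d := ⟨_, Complex.isPrimitiveRoot_exp d (by omega)⟩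
  have hpush : ∀ᵐ x : ℂ, (d * x ^ (d - 1)) ^ 2 * G (x ^ d + c) =
      ∑ i ∈ Finset.range d, (ζ ^ i) ^ 2 * Q (ζ ^ i * x) := by
    have hfin : ({0} ∪ ⋃ i ∈ s, {x : ℂ | x ^ d = z i ^ d}).Finite := by
      apply (finite_singleton _).union
      apply Set.Finite.biUnion (Finset.finite_toSet _)
      intro k _
      exact finite_pow hd _
    have h0 := hfin.measure_zero (volume : Measure ℂ)
    rw [← compl_compl ({0} ∪ ⋃ i ∈ s, {x : ℂ | x ^ d = z i ^ d})] at h0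
    have h0' : ({0} ∪ ⋃ i ∈ s, {x : ℂ | x ^ d = z i ^ d})ᶜ ∈ ae (volume : Measure ℂ) := h0
    filter_upwards [h0'] with x hx
    simp only [mem_compl_iff, mem_union, mem_singleton_iff, mem_iUnion, not_or, not_exists,
      mem_ofPred_eq] at hx
    obtain ⟨hx0, hx1⟩ := hx
    have h1 : ∀ k ∈ Finset.range d, (ζ ^ k) ^ 2 * Q (ζ ^ k * x) =
        ∑ i ∈ s, a i * ((ζ ^ k) ^ 2 * (d * z i ^ (d - 1) * (1 / (ζ ^ k * x - z i)))) +
          (ζ ^ k) ^ 2 * (b / (ζ ^ k * x)) := by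
      intro k _
      rw [hQ]
      simp only
      rw [mul_add, Finset.mul_sum]
      congr 1
      · apply Finset.sum_congr rfl
        intro i _
        ring
      · ring
    rw [Finset.sum_congr rfl h1, Finset.sum_add_distrib, root_zero hd hζ hx0, add_zero,
      Finset.sum_comm]
    have h2 : ∀ i ∈ s, ∑ k ∈ Finset.range d,
        a i * ((ζ ^ k) ^ 2 * (d * z i ^ (d - 1) * (1 / (ζ ^ k * x - z i)))) =
        (d * x ^ (d - 1)) ^ 2 * (a i * (1 / (x ^ d + c - (z i ^ d + c))) -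
          a i * (1 / (x ^ d + c - c))) := by
      intro i hi
      rw [← Finset.mul_sum, pole hd hζ (c := c) hx0 (hx1 i hi)]
      ring
    rw [Finset.sum_congr rfl h2, ← Finset.mul_sum, Finset.sum_sub_distrib, ← Finset.sum_mul, ← hS,
      hG, hW]
    unfold qs
    simp only [mul_one_div]
  have hcon := contraction hd hζ hQm hGm hpush (V := ball (0:ℂ) 4) isOpen_ball.measurableSet
  rw [← hU] at hcon
  have hpt : ∀ y : ℂ, ‖W y‖ₑ ≤ ‖G y‖ₑ + ENNReal.ofReal ‖S‖ * ENNReal.ofReal (‖y - c‖⁻¹) := by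
    intro y
    have h1 : W y = G y + S / (y - c) := by rw [hG]; ring
    rw [h1]
    refine (enorm_add_le _ _).trans ?_
    gcongr
    rw [div_eq_mul_inv, enorm_mul, ← ofReal_norm ((y - c)⁻¹), norm_inv, ← ofReal_norm S]
  have hV : ∫⁻ y in ball (0:ℂ) 4, ‖W y‖ₑ ≤ (∫⁻ x in U, ‖W x‖ₑ) +
      (ENNReal.ofReal (12 * Real.pi * ‖S‖) + ∫⁻ x in ball (0:ℂ) 4, ‖E x‖ₑ) := by
    refine (lintegral_mono hpt).trans ?_
    rw [lintegral_add_left hGm.enorm]
    have h1 : ∫⁻ x in U, ‖Q x‖ₑ ≤ (∫⁻ x in U, ‖W x‖ₑ) + ∫⁻ x in ball (0:ℂ) 4, ‖E x‖ₑ := by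
      calc ∫⁻ x in U, ‖Q x‖ₑ ≤ ∫⁻ x in U, (‖W x‖ₑ + ‖E x‖ₑ) :=
            lintegral_mono fun x => by rw [hQW]; exact enorm_add_le _ _
        _ = (∫⁻ x in U, ‖W x‖ₑ) + ∫⁻ x in U, ‖E x‖ₑ := lintegral_add_left hWm.enorm _
        _ ≤ _ := by
            gcongr
            exact subset_union_left.trans hUV
    have h2 : ∫⁻ y in ball (0:ℂ) 4, ENNReal.ofReal ‖S‖ * ENNReal.ofReal (‖y - c‖⁻¹) ≤
        ENNReal.ofReal (12 * Real.pi * ‖S‖) := by
      rw [lintegral_const_mul' _ _ ENNReal.ofReal_ne_top, mul_comm (12 * Real.pi),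
        ENNReal.ofReal_mul (norm_nonneg S)]
      gcongr
      exact inv_int le_rfl (sub_ball hc2)
    calc (∫⁻ y in ball (0:ℂ) 4, ‖G y‖ₑ) +
          ∫⁻ y in ball (0:ℂ) 4, ENNReal.ofReal ‖S‖ * ENNReal.ofReal (‖y - c‖⁻¹)
        ≤ ((∫⁻ x in U, ‖W x‖ₑ) + ∫⁻ x in ball (0:ℂ) 4, ‖E x‖ₑ) +
          ENNReal.ofReal (12 * Real.pi * ‖S‖) := add_le_add (hcon.trans h1) h2
      _ = _ := by ring
  have hfinU : ∫⁻ x in U, ‖W x‖ₑ ≠ ⊤ := by
    refine ne_top_of_le_ne_top ?_ (lintegral_mono_set (subset_union_left.trans hUV))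
    have h1 : Integrable W (volume.restrict (ball (0:ℂ) 4)) := by
      rw [hW]
      unfold qs
      apply integrable_finsetSum
      intro i hi
      have h2 := (inv_integrable (hz i hi).2).const_mul (a i)
      refine h2.congr (Eventually.of_forall fun x => ?_)
      simp only
      ring
    exact h1.2.ne
  have hsplit : (∫⁻ x in U, ‖W x‖ₑ) + (∫⁻ x in Ann, ‖W x‖ₑ) ≤ ∫⁻ y in ball (0:ℂ) 4, ‖W y‖ₑ := by
    rw [← lintegral_union Ann_meas hdisj]
    exact lintegral_mono_set hUV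
  have hann := (ENNReal.add_le_add_iff_left hfinU).1 (hsplit.trans hV)
  have hres := resid_s (n := s) (ρ := a) (z := fun i => z i ^ d + c) (fun i hi => (hz i hi).2) hΦ hM
  rw [← hW] at hres
  exact hres.trans (by gcongr)

end Pool.Agent.R240.Full
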