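import Pool.Agent.R240.Full1

set_option autoImplicit false

/-! # Decomposition of the perturbations on the whole filled Julia set -/

namespace Pool.Agent.R240.Full

open Complex Metric Set Filter Topology MeasureTheory ENNReal N62a1eb23
open Pool.Agent.H712R2 Pool.Agent.H713R2 Pool.Agent.R240.Push Pool.Agent.R240.Univ
open Pool.Agent.R240.Pair

/-- the potential -/
noncomputable def pot (μ : ℂ → ℂ) (w : ℂ) : ℂ := ∫ x in ball (0:ℂ) 4, μ x * (1 / (x - w))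

/-- **Decomposition of the perturbations.** -/
theorem decomp2 {d : ℕ} (hd : 2 ≤ d) {c : ℂ} (hc2 : ‖c‖ ≤ 2) {Φ : ℂ → ℂ} {M : ℝ}
    (hΦ : DifferentiableOn ℂ Φ (ball 0 4)) (hM : ∀ x ∈ ball (0:ℂ) 4, ‖Φ x‖ ≤ M) :
    ∃ (R : ℂ) (μ : ℂ → ℂ), ‖R‖ ≤ 4 * M ∧ Measurable μ ∧ (∀ x, ‖μ x‖ ≤ M / (3 * Real.pi)) ∧
      pot μ 0 = 0 ∧ ∀ z : ℂ, ‖z‖ ≤ 2 → ‖z ^ d + c‖ ≤ 2 →
        pot μ (z ^ d + c) = d * z ^ (d - 1) * pot μ z + Φ (z ^ d + c) - R := by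
  have hM0 : 0 ≤ M := (norm_nonneg _).trans (hM 0 (mem_ball_self (by norm_num)))
  have hpi := Real.pi_pos
  obtain ⟨ν, hν⟩ : ∃ ν : Measure ℂ, ν = volume.restrict (ball (0:ℂ) 4) := ⟨_, rfl⟩
  have : IsFiniteMeasure ν := by
    rw [hν]
    exact ⟨by rw [Measure.restrict_apply_univ]; exact measure_ball_lt_top⟩
  have hint : ∀ w : ℂ, ‖w‖ ≤ 2 → Integrable (fun x : ℂ => 1 / (x - w)) ν := by
    intro w hw
    rw [hν]
    exact inv_integrable hw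
  obtain ⟨ι, hι⟩ : ∃ ι : Type, ι = ({z : ℂ // ‖z‖ ≤ 2 ∧ ‖z ^ d + c‖ ≤ 2} × ℂ) := ⟨_, rfl⟩
  subst hι
  have hEint : ∀ i : {z : ℂ // ‖z‖ ≤ 2 ∧ ‖z ^ d + c‖ ≤ 2} × ℂ,
      Integrable (fun x : ℂ => d * (i.1 : ℂ) ^ (d - 1) * (1 / (x - i.1)) -
        1 / (x - ((i.1 : ℂ) ^ d + c)) + i.2 * (1 / (x - 0))) ν := by
    intro i
    exact (((hint _ i.1.2.1).const_mul _).sub (hint _ i.1.2.2)).add
      ((hint 0 (by rw [norm_zero]; norm_num)).const_mul _)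
  obtain ⟨G, hG⟩ : ∃ G : {z : ℂ // ‖z‖ ≤ 2 ∧ ‖z ^ d + c‖ ≤ 2} × ℂ → Lp ℂ 1 ν,
      ∀ i, (G i : ℂ → ℂ) =ᵐ[ν] fun x => d * (i.1 : ℂ) ^ (d - 1) * (1 / (x - i.1)) -
        1 / (x - ((i.1 : ℂ) ^ d + c)) + i.2 * (1 / (x - 0)) :=
    ⟨fun i => (memLp_one_iff_integrable.2 (hEint i)).toLp _,
      fun i => (memLp_one_iff_integrable.2 (hEint i)).coeFn_toLp⟩
  have hsum : ∀ (s : Finset ({z : ℂ // ‖z‖ ≤ 2 ∧ ‖z ^ d + c‖ ≤ 2} × ℂ))
      (a : {z : ℂ // ‖z‖ ≤ 2 ∧ ‖z ^ d + c‖ ≤ 2} × ℂ → ℂ),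
      ((∑ n ∈ s, a n • G n : Lp ℂ 1 ν) : ℂ → ℂ) =ᵐ[ν]
        EF d c s (fun i => (i.1 : ℂ)) a (∑ i ∈ s, a i * i.2) := by
    intro s a
    classical
    induction s using Finset.induction_on with
    | empty =>
      rw [Finset.sum_empty]
      filter_upwards [Lp.coeFn_zero ℂ 1 ν] with x hx
      rw [hx]
      simp [EF]
    | insert k s hk ih =>
      rw [Finset.sum_insert hk]
      filter_upwards [Lp.coeFn_add (a k • G k) (∑ n ∈ s, a n • G n), ih, Lp.coeFn_smul (a k) (G k),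
        hG k] with x h1 h2 h3 h4
      rw [h1, Pi.add_apply, h2, h3, Pi.smul_apply, h4, smul_eq_mul]
      unfold EF
      rw [Finset.sum_insert hk, Finset.sum_insert hk, sub_zero]
      ring
  have hnorm : ∀ (s : Finset ({z : ℂ // ‖z‖ ≤ 2 ∧ ‖z ^ d + c‖ ≤ 2} × ℂ))
      (a : {z : ℂ // ‖z‖ ≤ 2 ∧ ‖z ^ d + c‖ ≤ 2} × ℂ → ℂ),
      ∫⁻ x in ball (0:ℂ) 4, ‖EF d c s (fun i => (i.1 : ℂ)) a (∑ i ∈ s, a i * i.2) x‖ₑ =
        ENNReal.ofReal ‖(∑ n ∈ s, a n • G n : Lp ℂ 1 ν)‖ := by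
    intro s a
    rw [ofReal_norm, Lp.enorm_def, eLpNorm_one_eq_lintegral_enorm, ← hν]
    apply lintegral_congr_ae
    filter_upwards [hsum s a] with x hx
    rw [hx]
  -- the seminorm
  obtain ⟨p, hp⟩ : ∃ p : Seminorm ℂ (ℂ × Lp ℂ 1 ν),
      ∀ x, p x = 4 * M * ‖x.1‖ + M / (3 * Real.pi) * ‖x.2‖ := by
    refine ⟨Seminorm.of (fun x => 4 * M * ‖x.1‖ + M / (3 * Real.pi) * ‖x.2‖) ?_ ?_, fun x => rfl⟩
    · intro x y
      have h1 := norm_add_le x.1 y.1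
      have h2 := norm_add_le x.2 y.2
      have h3 : 4 * M * ‖(x + y).1‖ ≤ 4 * M * (‖x.1‖ + ‖y.1‖) := by
        rw [Prod.fst_add]
        gcongr
      have h4 : M / (3 * Real.pi) * ‖(x + y).2‖ ≤ M / (3 * Real.pi) * (‖x.2‖ + ‖y.2‖) := by
        rw [Prod.snd_add]
        gcongr
      linarith
    · intro a x
      rw [Prod.smul_fst, Prod.smul_snd, norm_smul, norm_smul]
      ring
  obtain ⟨g, hg1, hg2⟩ := Dual.ext_of_bound p
    (fun i : {z : ℂ // ‖z‖ ≤ 2 ∧ ‖z ^ d + c‖ ≤ 2} × ℂ => ((1 : ℂ), G i))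
    (fun i => Φ ((i.1 : ℂ) ^ d + c)) (by
      intro s a
      have h1 := master2 hd hc2 s (fun i => (i.1 : ℂ)) a (∑ i ∈ s, a i * i.2)
        (fun i _ => i.1.2) hΦ hM
      rw [hnorm, ← ENNReal.ofReal_add (by positivity) (norm_nonneg _),
        ← ENNReal.ofReal_mul hM0, ENNReal.ofReal_le_ofReal_iff (by positivity)] at h1
      rw [hp]
      have h2 : (∑ n ∈ s, a n • (((1 : ℂ), G n) : ℂ × Lp ℂ 1 ν)).1 = ∑ n ∈ s, a n := by
        rw [Prod.fst_sum]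
        simp
      have h3 : (∑ n ∈ s, a n • (((1 : ℂ), G n) : ℂ × Lp ℂ 1 ν)).2 = ∑ n ∈ s, a n • G n := by
        rw [Prod.snd_sum]
        rfl
      rw [h2, h3]
      have h4 : 4 * M * ‖∑ n ∈ s, a n‖ + M / (3 * Real.pi) * ‖∑ n ∈ s, a n • G n‖ =
          M * (12 * Real.pi * ‖∑ n ∈ s, a n‖ + ‖∑ n ∈ s, a n • G n‖) / (3 * Real.pi) := by
        field_simp
        ring
      rw [h4, le_div_iff₀ (by positivity)]
      linarith)
  obtain ⟨μ, hμ1, hμ2, hμ3⟩ := Dual.repr (g.comp (LinearMap.inr ℂ ℂ (Lp ℂ 1 ν)))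
    (C := M / (3 * Real.pi)) (by positivity) (by
      intro h
      rw [LinearMap.comp_apply, LinearMap.inr_apply]
      refine (hg2 _).trans ?_
      rw [hp]
      simp)
  have hI : ∀ w : ℂ, ‖w‖ ≤ 2 → Integrable (fun x => μ x * (1 / (x - w))) ν := by
    intro w hw
    exact (hint w hw).bdd_mul hμ1.aestronglyMeasurable (Eventually.of_forall hμ2)
  -- the identity for one generator
  have hid : ∀ i : {z : ℂ // ‖z‖ ≤ 2 ∧ ‖z ^ d + c‖ ≤ 2} × ℂ,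
      Φ ((i.1 : ℂ) ^ d + c) = g (1, 0) + (d * (i.1 : ℂ) ^ (d - 1) * pot μ i.1 -
        pot μ ((i.1 : ℂ) ^ d + c) + i.2 * pot μ 0) := by
    intro i
    have h1 : (((1 : ℂ), G i) : ℂ × Lp ℂ 1 ν) = ((1, 0) : ℂ × Lp ℂ 1 ν) + (0, G i) := by
      ext1
      · simp
      · simp
    have h2 := hg1 i
    rw [h1, map_add] at h2
    have h3 := hμ3 (G i)
    rw [LinearMap.comp_apply, LinearMap.inr_apply] at h3
    rw [← h2, h3]
    congr 1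
    have h4 : ∫ x, μ x * (G i : ℂ → ℂ) x ∂ν = ∫ x, (d * (i.1 : ℂ) ^ (d - 1) *
        (μ x * (1 / (x - i.1))) - μ x * (1 / (x - ((i.1 : ℂ) ^ d + c))) +
        i.2 * (μ x * (1 / (x - 0)))) ∂ν := by
      apply integral_congr_ae
      filter_upwards [hG i] with x hx
      rw [hx]
      ring
    have h0 : ‖(0:ℂ)‖ ≤ 2 := by rw [norm_zero]; norm_num
    have e1 : Integrable (fun x => d * (i.1 : ℂ) ^ (d - 1) * (μ x * (1 / (x - i.1)))) ν :=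
      (hI _ i.1.2.1).const_mul _
    have e2 : Integrable (fun x => d * (i.1 : ℂ) ^ (d - 1) * (μ x * (1 / (x - i.1))) -
        μ x * (1 / (x - ((i.1 : ℂ) ^ d + c)))) ν := e1.sub (hI _ i.1.2.2)
    have e3 : Integrable (fun x => i.2 * (μ x * (1 / (x - 0)))) ν := (hI 0 h0).const_mul _
    rw [h4, integral_add e2 e3, integral_sub e1 (hI _ i.1.2.2), integral_const_mul,
      integral_const_mul, hν]
    rfl
  have hK : ∀ z : ℂ, ‖z‖ ≤ 2 → ‖z ^ d + c‖ ≤ 2 → ∀ β : ℂ,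
      Φ (z ^ d + c) = g (1, 0) + (d * z ^ (d - 1) * pot μ z - pot μ (z ^ d + c) +
        β * pot μ 0) := fun z h1 h2 β => hid (⟨z, h1, h2⟩, β)
  have h0c : ‖(0:ℂ) ^ d + c‖ ≤ 2 := by
    rw [zero_pow (by omega), zero_add]
    exact hc2
  have hpot0 : pot μ 0 = 0 := by
    have h1 := hK 0 (by rw [norm_zero]; norm_num) h0c 0
    have h2 := hK 0 (by rw [norm_zero]; norm_num) h0c 1
    rw [h1] at h2
    linear_combination -h2
  refine ⟨g (1, 0), fun x => - μ x, ?_, hμ1.neg, fun x => by rw [norm_neg]; exact hμ2 x, ?_, ?_⟩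
  · refine (hg2 _).trans ?_
    rw [hp]
    simp
  · have h1 : pot (fun x => - μ x) 0 = - pot μ 0 := by
      unfold pot
      simp only [neg_mul, integral_neg]
    rw [h1, hpot0, neg_zero]
  · intro z hz1 hz2
    have h1 : ∀ w, pot (fun x => - μ x) w = - pot μ w := by
      intro w
      unfold pot
      simp only [neg_mul, integral_neg]
    rw [h1, h1, hK z hz1 hz2 0]
    ring

end Pool.Agent.R240.Full
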