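import Pool.Agent.R240.Pair2
import Pool.Agent.TH363.QI.Pre
import Pool.Agent.H713R2.AR.HB
import Pool.Agent.H548R3.MB.Eff2

set_option autoImplicit false

/-! # The velocities if there are no attracting cycles nearby -/

namespace Pool.Agent.R240.Pair

open Complex Metric Set Filter Topology MeasureTheory ENNReal N62a1eb23
open Pool.Agent.H712R2 Pool.Agent.H713R2 Pool.Agent.R240.Push Pool.Agent.R240.Univ

theorem orb_eq {d : ℕ} (hd : 2 ≤ d) (t : ℂ) (k : ℕ) :
    Pool.Agent.W746.LD.orb d t t k = P d (k + 1) t := by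
  induction k with
  | zero => rw [Pool.Agent.W746.LD.orb_zero, zero_add, P_one hd]
  | succ k ih => rw [Pool.Agent.W746.LD.orb_succ, ih, P_succ d (k + 1)]

/-- The points of the critical orbit stay apart in a ball without attracting cycles. -/
theorem nocoin {d : ℕ} (hd : 2 ≤ d) {c : ℂ} {r : ℝ} (hr : 0 < r) (hc : c ∈ multibrotSet d)
    (hno : ∀ t ∈ ball c r, ¬ ∃ m z, IsAttractingCycle (fun z => z ^ d + t) m z)
    {t : ℂ} (ht : t ∈ ball c r) {n m : ℕ} (hnm : m < n) : P d n t ≠ P d m t := by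
  have hsub := Pool.Agent.H713R2.AR.ball_subset hd hr hc hno
  rcases Nat.eq_zero_or_pos m with rfl | hm
  · intro h
    rw [P_zero] at h
    exact hno t ht ⟨n, 0, Pool.Agent.H548R3.MB.att_of_centre hd (by omega) h⟩
  · obtain ⟨l, rfl⟩ : ∃ l, m = l + 1 := ⟨m - 1, by omega⟩
    obtain ⟨p, hp, rfl⟩ : ∃ p, 1 ≤ p ∧ n = l + p + 1 := ⟨n - l - 1, by omega, by omega⟩
    have h1 := Pool.Agent.TH363.QI.nopre hd hno hsub ht (l := l) hp
    rw [orb_eq hd, orb_eq hd] at h1
    exact h1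

/-- Schwarz's lemma for the differences. -/
theorem queer_pair {d : ℕ} (hd : 2 ≤ d) {c : ℂ} {r : ℝ} (hr : 0 < r) (hc : c ∈ multibrotSet d)
    (hno : ∀ t ∈ ball c r, ¬ ∃ m z, IsAttractingCycle (fun z => z ^ d + t) m z) (n m : ℕ) :
    r * ‖deriv (P d n) c - deriv (P d m) c‖ ≤
      4 * ‖P d n c - P d m c‖ * (1 + |Real.log ‖P d n c - P d m c‖|) := by
  by_cases hnm : n = m
  · subst hnm
    simp
  have hsub := Pool.Agent.H713R2.AR.ball_subset hd hr hc hno
  have h0 : ∀ t ∈ ball c r, P d n t - P d m t ≠ 0 := by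
    intro t ht
    rcases lt_or_gt_of_ne hnm with h | h
    · exact sub_ne_zero.2 (nocoin hd hr hc hno ht h).symm
    · exact sub_ne_zero.2 (nocoin hd hr hc hno ht h)
  have hB : ∀ t ∈ ball c r, ‖P d n t - P d m t‖ < 5 := by
    intro t ht
    have h1 := norm_sub_le (P d n t) (P d m t)
    have h2 := norm_P_le hd (hsub ht) n
    have h3 := norm_P_le hd (hsub ht) m
    linarith
  have h1 := Pool.Agent.W746.LD.schwarz_log (F := fun x => P d n x - P d m x) hr
    ((differentiable_P d n).sub (differentiable_P d m)).differentiableOn h0 hB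
  rw [deriv_fun_sub (differentiable_P d n c) (differentiable_P d m c)] at h1
  have hpos : 0 < ‖P d n c - P d m c‖ := norm_pos_iff.2 (h0 c (mem_ball_self hr))
  have h2 : Real.log (5 / ‖P d n c - P d m c‖) ≤ 2 + |Real.log ‖P d n c - P d m c‖| := by
    rw [Real.log_div (by norm_num) hpos.ne']
    have h3 : Real.log 5 ≤ 2 := by
      rw [Real.log_le_iff_le_exp (by norm_num)]
      have h4 := Real.exp_one_gt_d9
      have h5 : Real.exp 2 = Real.exp 1 * Real.exp 1 := by rw [← Real.exp_add]; norm_num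
      rw [h5]
      nlinarith
    have := neg_abs_le (Real.log ‖P d n c - P d m c‖)
    linarith
  have h3 := abs_nonneg (Real.log ‖P d n c - P d m c‖)
  calc r * ‖deriv (P d n) c - deriv (P d m) c‖ = ‖deriv (P d n) c - deriv (P d m) c‖ * r :=
        mul_comm _ _
    _ ≤ 2 * ‖P d n c - P d m c‖ * Real.log (5 / ‖P d n c - P d m c‖) := h1
    _ ≤ 2 * ‖P d n c - P d m c‖ * (2 + |Real.log ‖P d n c - P d m c‖|) := by gcongr
    _ ≤ 2 * ‖P d n c - P d m c‖ * (2 * (1 + |Real.log ‖P d n c - P d m c‖|)) := by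
        gcongr
        linarith
    _ = _ := by ring

theorem deriv_P {d : ℕ} (c : ℂ) (n : ℕ) : deriv (P d n) c = vel d c (fun _ => 1) n :=
  (vel_one c n).deriv

/-- The velocities in all directions if there are no attracting cycles nearby. -/
theorem queer_vel {d : ℕ} (hd : 2 ≤ d) {c : ℂ} {r : ℝ} (hr : 0 < r) (hc : c ∈ multibrotSet d)
    (hno : ∀ t ∈ ball c r, ¬ ∃ m z, IsAttractingCycle (fun z => z ^ d + t) m z)
    {Φ : ℂ → ℂ} {M : ℝ} (hΦ : DifferentiableOn ℂ Φ (ball 0 4))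
    (hM : ∀ x ∈ ball (0:ℂ) 4, ‖Φ x‖ ≤ M) (n m : ℕ) :
    r * ‖vel d c Φ n - vel d c Φ m‖ ≤
      24 * M * ‖P d n c - P d m c‖ * (1 + |Real.log ‖P d n c - P d m c‖|) := by
  have hM0 : 0 ≤ M := (norm_nonneg _).trans (hM 0 (mem_ball_self (by norm_num)))
  have h1 := pair_bound hd hc hΦ hM n m
  have h2 := queer_pair hd hr hc hno n m
  rw [deriv_P, deriv_P] at h2
  obtain ⟨L, hL⟩ : ∃ L, L = |Real.log ‖P d n c - P d m c‖| := ⟨_, rfl⟩
  have hL0 : 0 ≤ L := by rw [hL]; exact abs_nonneg _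
  rw [← hL] at h1 h2 ⊢
  have hc2 := norm_c_le hd hc
  have hr2 : r ≤ 2 := by
    by_contra hcon
    push Not at hcon
    have h0 : (fun z : ℂ => z ^ d + 0)^[1] 0 = 0 := by
      simp only [Function.iterate_one, add_zero]
      exact zero_pow (by omega)
    refine hno 0 ?_ ⟨1, 0, Pool.Agent.H548R3.MB.att_of_centre hd (by omega) h0⟩
    rw [mem_ball, dist_eq_norm, zero_sub, norm_neg]
    linarith
  have hP0 := norm_nonneg (P d n c - P d m c)
  calc r * ‖vel d c Φ n - vel d c Φ m‖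
      ≤ r * (M * (4 * ‖vel d c (fun _ => 1) n - vel d c (fun _ => 1) m‖ +
        ‖P d n c - P d m c‖ * (4 + L))) := by gcongr
    _ = M * (4 * (r * ‖vel d c (fun _ => 1) n - vel d c (fun _ => 1) m‖) +
        r * (‖P d n c - P d m c‖ * (4 + L))) := by ring
    _ ≤ M * (4 * (4 * ‖P d n c - P d m c‖ * (1 + L)) + 2 * (‖P d n c - P d m c‖ * (4 + L))) := by
        gcongr
    _ ≤ M * (4 * (4 * ‖P d n c - P d m c‖ * (1 + L)) +
        2 * (‖P d n c - P d m c‖ * (4 + 4 * L))) := by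
        gcongr
        linarith
    _ = _ := by ring

end Pool.Agent.R240.Pair
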