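import Pool.Agent.R240.Full2
import Pool.Agent.R240.Pair3

set_option autoImplicit false

/-! # Points with bounded orbits, and the velocities of the critical orbit -/

namespace Pool.Agent.R240.Full

open Complex Metric Set Filter Topology MeasureTheory ENNReal N62a1eb23
open Pool.Agent.H712R2 Pool.Agent.H713R2 Pool.Agent.R240.Push Pool.Agent.R240.Univ
open Pool.Agent.R240.Pair

/-- points with bounded orbits have modulus at most two -/
theorem norm_le_of_bdd {d : ℕ} (hd : 2 ≤ d) {c : ℂ} (hc : ‖c‖ ≤ 2) {z : ℂ} {B : ℝ}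
    (h : ∀ n : ℕ, ‖(fun z : ℂ => z ^ d + c)^[n] z‖ ≤ B) : ‖z‖ ≤ 2 := by
  by_contra hcon
  push Not at hcon
  obtain ⟨ε, hε⟩ : ∃ ε, ε = ‖z‖ - 2 := ⟨_, rfl⟩
  have hε0 : 0 < ε := by rw [hε]; linarith
  have h1 : ∀ n : ℕ, 2 + 4 ^ n * ε ≤ ‖(fun z : ℂ => z ^ d + c)^[n] z‖ := by
    intro n
    induction n with
    | zero =>
      simp only [pow_zero, one_mul, Function.iterate_zero, id]
      linarith
    | succ n ih =>
      rw [Function.iterate_succ_apply']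
      obtain ⟨y, hy⟩ : ∃ y, y = (fun z : ℂ => z ^ d + c)^[n] z := ⟨_, rfl⟩
      rw [← hy] at ih ⊢
      have h4 : 0 < (4:ℝ) ^ n * ε := by positivity
      have h2 : ‖y ^ d‖ ≤ ‖y ^ d + c‖ + ‖c‖ := by
        calc ‖y ^ d‖ = ‖(y ^ d + c) - c‖ := by congr 1; ring
          _ ≤ _ := norm_sub_le _ _
      rw [norm_pow] at h2
      have h3 : ‖y‖ ^ 2 ≤ ‖y‖ ^ d := pow_le_pow_right₀ (by linarith) hd
      have h5 : (2 + 4 ^ n * ε) ^ 2 ≤ ‖y‖ ^ 2 := by gcongr
      rw [pow_succ]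
      nlinarith
  have h2 : Tendsto (fun n : ℕ => (4:ℝ) ^ n * ε) atTop atTop :=
    (tendsto_pow_atTop_atTop_of_one_lt (by norm_num : (1:ℝ) < 4)).atTop_mul_const hε0
  obtain ⟨n, hn⟩ := (h2.eventually (eventually_gt_atTop B)).exists
  have := h1 n
  have := h n
  linarith

/-- the velocities of the critical orbit -/
theorem vel_pot {d : ℕ} (hd : 2 ≤ d) {c : ℂ} (hc : c ∈ multibrotSet d) {Φ : ℂ → ℂ} {R : ℂ}
    {μ : ℂ → ℂ} (h0 : pot μ 0 = 0) (h : ∀ z : ℂ, ‖z‖ ≤ 2 → ‖z ^ d + c‖ ≤ 2 →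
        pot μ (z ^ d + c) = d * z ^ (d - 1) * pot μ z + Φ (z ^ d + c) - R) (n : ℕ) :
    vel d c Φ n = R * vel d c (fun _ => 1) n + pot μ (P d n c) := by
  induction n with
  | zero =>
    rw [P_zero, h0]
    simp [vel]
  | succ n ih =>
    have h1 := h (P d n c) (norm_P_le hd hc n) (by rw [← P_succ]; exact norm_P_le hd hc (n + 1))
    rw [← P_succ] at h1
    rw [h1]
    have h2 : vel d c Φ (n + 1) = d * P d n c ^ (d - 1) * vel d c Φ n + Φ (P d (n + 1) c) := rfl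
    have h3 : vel d c (fun _ => (1:ℂ)) (n + 1) =
        d * P d n c ^ (d - 1) * vel d c (fun _ => 1) n + 1 := rfl
    rw [h2, h3, ih]
    ring

end Pool.Agent.R240.Full
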