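import Pool.Agent.Y736.HG9
import Pool.Agent.R240.Count

set_option autoImplicit false

/-! # The number of centres near a parameter with a Lyapunov exponent -/

namespace Pool.Agent.R240

open Complex Metric Set Filter Topology MeasureTheory Pool.Agent.H712R2 Pool.Agent.H713R2
open N62a1eb23 Pool.Agent.Y736.HD Polynomial

variable {d N : ℕ} {ψ : ℂ → ℂ}

/-- an upper bound of the number of zeros -/
theorem zeros_le (hd : 2 ≤ d) {Z : Finset ℂ} {a : ℂ} {R M : ℝ} (hR : 0 < R)
    (hZ : ∀ z ∈ Z, P d (N + 1) z = 0 ∧ ‖z - a‖ ≤ R) (ha : 1 ≤ ‖P d (N + 1) a‖)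
    (hM : ∀ x : ℂ, ‖x - a‖ = 3 * R → ‖P d (N + 1) x‖ ≤ M) : (2 : ℝ) ^ Z.card ≤ M := by
  have h0 : PP d (N + 1) ≠ 0 := by
    intro h
    have h1 := natDegree_PP hd N
    rw [h, Polynomial.natDegree_zero] at h1
    have : 0 < d ^ N := pow_pos (by omega) N
    omega
  have hdvd : (∏ z ∈ Z, (X - C z)) ∣ PP d (N + 1) := by
    have h1 : Z.val ≤ (PP d (N + 1)).roots := by
      rw [Multiset.le_iff_subset Z.nodup]
      intro z hz
      rw [Polynomial.mem_roots h0, Polynomial.IsRoot.def, eval_PP]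
      exact (hZ z (by exact_mod_cast hz)).1
    have h2 : (Z.val.map fun z => X - C z).prod ∣
        ((PP d (N + 1)).roots.map fun z => X - C z).prod :=
      Multiset.prod_dvd_prod_of_le (Multiset.map_le_map h1)
    exact h2.trans (Polynomial.prod_multiset_X_sub_C_dvd _)
  obtain ⟨q, hq⟩ := hdvd
  have heval : ∀ x, P d (N + 1) x = (∏ z ∈ Z, (x - z)) * q.eval x := by
    intro x
    rw [← eval_PP, hq, Polynomial.eval_mul, Polynomial.eval_prod]
    simp
  have hnorm : ∀ x, ‖P d (N + 1) x‖ = (∏ z ∈ Z, ‖x - z‖) * ‖q.eval x‖ := by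
    intro x
    rw [heval, norm_mul, norm_prod]
  have hM0 : 0 ≤ M := by
    have h1 : ‖(a + (3 * R : ℝ)) - a‖ = 3 * R := by
      rw [add_sub_cancel_left, Complex.norm_real, Real.norm_eq_abs, abs_of_pos (by linarith)]
    exact (norm_nonneg _).trans (hM _ h1)
  have hq1 : ∀ x : ℂ, ‖x - a‖ = 3 * R → ‖q.eval x‖ ≤ M / (2 * R) ^ Z.card := by
    intro x hx
    rw [le_div_iff₀ (by positivity)]
    refine le_trans ?_ (hM x hx)
    rw [hnorm, mul_comm]
    apply mul_le_mul_of_nonneg_right _ (norm_nonneg _)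
    rw [← Finset.prod_const]
    apply Finset.prod_le_prod
    · intro z _; positivity
    · intro z hz
      have h1 : x - a = (x - z) + (z - a) := by ring
      have h2 := norm_add_le (x - z) (z - a)
      rw [← h1, hx] at h2
      linarith [(hZ z hz).2]
  have hq2 : ‖q.eval a‖ ≤ M / (2 * R) ^ Z.card := by
    have h3R : (3 * R) ≠ 0 := by positivity
    refine Complex.norm_le_of_forall_mem_frontier_norm_le (U := ball a (3 * R))
      isBounded_ball ((Polynomial.differentiable q).diffContOnCl) (fun y hy => ?_) ?_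
    · rw [frontier_ball _ h3R, mem_sphere, dist_eq_norm] at hy
      exact hq1 y hy
    · rw [closure_ball _ h3R]
      exact mem_closedBall_self (by positivity)
  have h3 : ‖P d (N + 1) a‖ ≤ R ^ Z.card * (M / (2 * R) ^ Z.card) := by
    rw [hnorm]
    apply mul_le_mul _ hq2 (norm_nonneg _) (by positivity)
    rw [← Finset.prod_const]
    apply Finset.prod_le_prod
    · intro z _; exact norm_nonneg _
    · intro z hz
      rw [norm_sub_rev]
      exact (hZ z hz).2
  have h4 : R ^ Z.card * (M / (2 * R) ^ Z.card) = M / 2 ^ Z.card := by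
    rw [mul_pow]
    field_simp
  rw [h4] at h3
  have h5 : 1 ≤ M / 2 ^ Z.card := ha.trans h3
  rw [le_div_iff₀ (by positivity), one_mul] at h5
  exact h5

/-- the centres of period dividing `n` in a disc -/
def Cen (d n : ℕ) (c₀ : ℂ) (r : ℝ) : Set ℂ := {c | c ∈ ball c₀ r ∧ P d n c = 0}

theorem Zs_eq (d N : ℕ) (c : ℂ) (r : ℝ) : Zs d N c r = Cen d (N + 1) c (2 * r) := rfl

theorem Cen_finite (hd : 2 ≤ d) (N : ℕ) (c : ℂ) (r : ℝ) : (Cen d (N + 1) c r).Finite := by
  have := Zs_finite hd N c (r / 2)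
  rw [Zs_eq] at this
  rwa [show 2 * (r / 2) = r by ring] at this

theorem P_le_of_green (hd : 2 ≤ d) (hψ : IsExteriorMap (multibrotSet d) ψ) {x : ℂ} {S : ℝ}
    (hS0 : 0 ≤ S) (hS : ∀ w : ℂ, 1 < ‖w‖ → ψ w = x → Real.log ‖w‖ ≤ S) (N : ℕ) :
    ‖P d (N + 1) x‖ ≤ 2 * Real.exp ((d : ℝ) ^ N * S) := by
  by_cases hx : x ∈ multibrotSet d
  · have h1 := (mem_multibrot_iff hd x).1 hx (N + 1)
    have h2 : 1 ≤ Real.exp ((d : ℝ) ^ N * S) := Real.one_le_exp (by positivity)
    linarith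
  · have h1 : x ∈ ψ '' {z | 1 < ‖z‖} := by rw [hψ.image]; exact hx
    obtain ⟨w, hw, rfl⟩ := h1
    have hw' : 1 < ‖w‖ := hw
    have h2 := Pool.Agent.W677.MC.P_le_two hd hψ hw' N
    refine h2.trans ?_
    have h3 := hS w hw' rfl
    have hw0 : 0 < ‖w‖ := by linarith
    have h4 : ‖w‖ ^ (d ^ N) = Real.exp ((d : ℝ) ^ N * Real.log ‖w‖) := by
      have : (d : ℝ) ^ N * Real.log ‖w‖ = ((d ^ N : ℕ) : ℝ) * Real.log ‖w‖ := by push_cast; rfl
      rw [this, mul_comm, ← Real.rpow_natCast ‖w‖, Real.rpow_def_of_pos hw0]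
    rw [h4]
    gcongr

/-- the upper bound for the number of centres -/
theorem count_upper (hd : 2 ≤ d) (hψ : IsExteriorMap (multibrotSet d) ψ) {c₀ : ℂ}
    (hc₀ : c₀ ∈ multibrotSet d) {r S : ℝ} (hr : 0 < r) (hr1 : r ≤ 1) (hS0 : 0 ≤ S)
    (hS : ∀ w : ℂ, 1 < ‖w‖ → ‖ψ w - c₀‖ ≤ 8 * r → Real.log ‖w‖ ≤ S) {w₀ : ℂ} (hw₀ : 1 < ‖w₀‖)
    (hwr : ‖ψ w₀ - c₀‖ ≤ r) (hN : Real.log 4 < (d : ℝ) ^ N * Real.log ‖w₀‖) :
    ((Cen d (N + 1) c₀ r).ncard : ℝ) * Real.log 2 ≤ Real.log 2 + (d : ℝ) ^ N * S := by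
  have hfin := Cen_finite hd N c₀ r
  obtain ⟨Z, hZ⟩ : ∃ Z : Finset ℂ, Z = hfin.toFinset := ⟨_, rfl⟩
  have hZm : ∀ x, x ∈ Z ↔ (x ∈ ball c₀ r ∧ P d (N + 1) x = 0) := by
    intro x
    rw [hZ, Set.Finite.mem_toFinset]
    rfl
  have hZc : Z.card = (Cen d (N + 1) c₀ r).ncard := by
    rw [hZ, Set.ncard_eq_toFinset_card _ hfin]
  have hc2 : ‖c₀‖ ≤ 2 := by
    have := (mem_multibrot_iff hd c₀).1 hc₀ 1
    rwa [P_one hd] at this
  have hw0 : 0 < ‖w₀‖ := by linarith
  have ha : 1 ≤ ‖P d (N + 1) (ψ w₀)‖ := by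
    by_contra hcon
    push Not at hcon
    have h3 : ‖ψ w₀‖ ≤ 3 := by
      have h1 : ψ w₀ = (ψ w₀ - c₀) + c₀ := by ring
      have h2 := norm_add_le (ψ w₀ - c₀) c₀
      rw [← h1] at h2
      linarith
    have h4 := green_lower' hd hψ hw₀ (R := 3) (by norm_num) h3 (by linarith)
    have h5 := Real.log_le_log (by positivity) h4
    rw [Real.log_pow] at h5
    push_cast at h5
    norm_num at h5
    linarith
  have h1 := zeros_le (N := N) hd (Z := Z) (a := ψ w₀) (R := 2 * r)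
    (M := 2 * Real.exp ((d : ℝ) ^ N * S)) (by linarith) (by
      intro z hz
      rw [hZm] at hz
      refine ⟨hz.2, ?_⟩
      have h2 := hz.1
      rw [mem_ball, dist_eq_norm] at h2
      have h3 : z - ψ w₀ = (z - c₀) - (ψ w₀ - c₀) := by ring
      have h4 := norm_sub_le (z - c₀) (ψ w₀ - c₀)
      rw [← h3] at h4
      linarith) ha (by
      intro x hx
      apply P_le_of_green hd hψ hS0
      intro w hw hwx
      apply hS w hw
      rw [hwx]
      have h3 : x - c₀ = (x - ψ w₀) + (ψ w₀ - c₀) := by ring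
      have h4 := norm_add_le (x - ψ w₀) (ψ w₀ - c₀)
      rw [← h3] at h4
      linarith)
  have h2 := Real.log_le_log (by positivity) h1
  rw [Real.log_pow, Real.log_mul (by norm_num) (Real.exp_pos _).ne', Real.log_exp, hZc] at h2
  exact h2

theorem count_lower (hd : 2 ≤ d) (hψ : IsExteriorMap (multibrotSet d) ψ) (N : ℕ) (c : ℂ) {r : ℝ}
    (hr : 0 < r) :
    (d : ℝ) ^ N * (volume (Ang ψ c (r / 2))).toReal ≤ KK * ((Cen d (N + 1) c r).ncard + 1) := by
  have h := main hd hψ N c (r := r / 2) (by linarith)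
  rw [Zs_eq, show 2 * (r / 2) = r by ring] at h
  exact h

open Pool.Agent.Y736.HG Pool.Agent.Y298.CA

/-- **Growth of the number of centres in shrinking discs.** -/
theorem growth {χ : ℝ} {c₀ : ℂ} (hd : 2 ≤ d) (h : Lyap d χ c₀) {β : ℝ} (hβ0 : 0 < β)
    (hβ : β < χ) : Tendsto (fun n : ℕ =>
      Real.log (Cen d n c₀ (Real.exp (-(β * n)))).ncard / n) atTop
        (𝓝 ((1 - β / χ) * Real.log d)) := by
  obtain ⟨β', hβ'⟩ := exists_beta (d := d) hd
  obtain ⟨ψ, hψ⟩ : ∃ ψ, IsExteriorMap (multibrotSet d) ψ := ⟨_, exteriorMap_of_beta hβ'⟩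
  have hdR : (1 : ℝ) < d := by exact_mod_cast (by omega : 1 < d)
  have hd0 : (0 : ℝ) < d := by linarith
  have hc₀ := h.2.1
  have hχ := h.1
  obtain ⟨L, hL⟩ : ∃ L, L = Real.log d := ⟨_, rfl⟩
  have hL0 : 0 < L := by rw [hL]; exact Real.log_pos hdR
  obtain ⟨κ, hκ⟩ : ∃ κ, κ = Real.log d / χ := ⟨_, rfl⟩
  have hκ0 : 0 < κ := by rw [hκ, ← hL]; positivity
  have hβκ : β * κ < L := by
    rw [hκ, ← hL]
    have : β * (L / χ) = L * (β / χ) := by ring
    rw [this]
    have : β / χ < 1 := (div_lt_one hχ).2 hβ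
    nlinarith
  have htarget : (1 - β / χ) * Real.log d = L - β * κ := by
    rw [hκ, ← hL]; ring
  rw [htarget]
  -- the radii tend to zero
  have hrlim : Tendsto (fun n : ℕ => Real.exp (-(β * n))) atTop (𝓝[>] 0) := by
    rw [tendsto_nhdsWithin_iff]
    refine ⟨?_, Eventually.of_forall fun n => Real.exp_pos _⟩
    apply Real.tendsto_exp_atBot.comp
    apply tendsto_neg_atTop_atBot.comp
    exact (tendsto_natCast_atTop_atTop).const_mul_atTop hβ0
  have hsc : ∀ a : ℝ, 0 < a → Tendsto (fun r : ℝ => a * r) (𝓝[>] 0) (𝓝[>] 0) := by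
    intro a ha
    rw [tendsto_nhdsWithin_iff]
    constructor
    · have : Tendsto (fun r : ℝ => a * r) (𝓝 0) (𝓝 (a * 0)) :=
        (continuous_const.mul continuous_id).tendsto 0
      rw [mul_zero] at this
      exact this.mono_left nhdsWithin_le_nhds
    · filter_upwards [self_mem_nhdsWithin] with r hr
      exact mul_pos ha hr
  have hr8 := (hsc 8 (by norm_num)).comp hrlim
  have hr2 := (hsc (1 / 2) (by norm_num)).comp hrlim
  have hK := KK_pos
  rw [Metric.tendsto_atTop']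
  intro ε hε
  -- choice of the small exponent
  obtain ⟨η, hη0, hη1, hη2, hη3⟩ : ∃ η : ℝ, 0 < η ∧ η < κ ∧ β * η < ε / 2 ∧ β * (κ + η) < L := by
    refine ⟨min (min (κ / 2) (ε / (4 * β))) ((L - β * κ) / (2 * β)), ?_, ?_, ?_, ?_⟩
    · apply lt_min (lt_min (by linarith) (by positivity))
      apply div_pos <;> linarith
    · have : min (min (κ / 2) (ε / (4 * β))) ((L - β * κ) / (2 * β)) ≤ κ / 2 :=
        (min_le_left _ _).trans (min_le_left _ _)
      linarith
    · have h1 : min (min (κ / 2) (ε / (4 * β))) ((L - β * κ) / (2 * β)) ≤ ε / (4 * β) :=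
        (min_le_left _ _).trans (min_le_right _ _)
      have h2 : β * (ε / (4 * β)) = ε / 4 := by field_simp
      nlinarith
    · have h1 : min (min (κ / 2) (ε / (4 * β))) ((L - β * κ) / (2 * β)) ≤
          (L - β * κ) / (2 * β) := min_le_right _ _
      have h2 : β * ((L - β * κ) / (2 * β)) = (L - β * κ) / 2 := by field_simp
      nlinarith
  have ev1 := hr8.eventually (sup_upper hd h hψ hη0 (by rw [← hκ]; exact hη1))
  have ev1b := hr8.eventually (GS_bdd hd h hψ)
  have ev2 := hrlim.eventually (sup_lower hd h hψ hη0)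
  have ev2b := hrlim.eventually (GS_bdd hd h hψ)
  have ev3 := hr2.eventually (vol_lower hd h hψ hη0)
  have ev4 := hrlim.eventually (ev_lt (show (0 : ℝ) < 1 by norm_num))
  -- growth of exponentials
  have hexp : ∀ a C : ℝ, 0 < a → ∀ᶠ n : ℕ in atTop, C ≤ Real.exp (a * n) := by
    intro a C ha
    have : Tendsto (fun n : ℕ => Real.exp (a * n)) atTop atTop :=
      Real.tendsto_exp_atTop.comp ((tendsto_natCast_atTop_atTop).const_mul_atTop ha)
    exact this.eventually_ge_atTop C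
  have hlin : ∀ a C : ℝ, 0 < a → ∀ᶠ n : ℕ in atTop, C ≤ a * n := by
    intro a C ha
    exact ((tendsto_natCast_atTop_atTop).const_mul_atTop ha).eventually_ge_atTop C
  obtain ⟨A₁, hA₁⟩ : ∃ A₁ : ℝ, A₁ = d * (2 : ℝ) ^ (κ + η) * KK * 2 := ⟨_, rfl⟩
  obtain ⟨A₂, hA₂⟩ : ∃ A₂ : ℝ, A₂ = 1 + (8 : ℝ) ^ (κ - η) / Real.log 2 := ⟨_, rfl⟩
  have hlog2 : 0 < Real.log 2 := Real.log_pos (by norm_num)
  have hA₁0 : 0 < A₁ := by rw [hA₁]; positivity
  have hA₂0 : 0 < A₂ := by rw [hA₂]; positivity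
  have hgap : 0 < L - β * (κ + η) := by linarith
  have hmain : ∀ᶠ n : ℕ in atTop,
      |Real.log (Cen d n c₀ (Real.exp (-(β * n)))).ncard / n - (L - β * κ)| < ε := by
    filter_upwards [ev1, ev1b, ev2, ev2b, ev3, ev4, eventually_ge_atTop 1,
      hexp (L - β * (κ + η)) A₁ hgap, hexp (L - β * (κ + η)) (2 * d * Real.log 4 + 1) hgap,
      hlin (ε / 4) (Real.log A₁) (by linarith), hlin (ε / 4) (Real.log A₂) (by linarith)]
      with n e1 e1b e2 e2b e3 e4 e5 e6 e7 e8 e9
    obtain ⟨N, rfl⟩ : ∃ N, n = N + 1 := ⟨n - 1, by omega⟩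
    obtain ⟨r, hr⟩ : ∃ r, r = Real.exp (-(β * ((N + 1 : ℕ) : ℝ))) := ⟨_, rfl⟩
    obtain ⟨x, hx⟩ : ∃ x : ℝ, x = ((N + 1 : ℕ) : ℝ) := ⟨_, rfl⟩
    have hx0 : 0 < x := by rw [hx]; positivity
    simp only [Function.comp] at e1 e1b e2 e2b e3 e4
    rw [← hr] at e1 e1b e2 e2b e3 e4 ⊢
    rw [← hκ] at e1 e2 e3
    rw [← hx] at e6 e7 e8 e9 ⊢
    have hr0 : 0 < r := by rw [hr]; exact Real.exp_pos _
    have hrx : r = Real.exp (-(β * x)) := by rw [hr, hx]
    have hrpow : ∀ s : ℝ, r ^ s = Real.exp (-(β * s * x)) := by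
      intro s
      rw [hrx, ← Real.exp_mul]
      congr 1
      ring
    have hdN : (d : ℝ) ^ N * d = Real.exp (L * x) := by
      rw [← pow_succ, ← Real.rpow_natCast, Real.rpow_def_of_pos hd0, ← hL, hx]
    obtain ⟨m, hm⟩ : ∃ m : ℝ, m = ((Cen d (N + 1) c₀ r).ncard : ℝ) := ⟨_, rfl⟩
    rw [← hm]
    -- the lower bound
    have hlow : Real.exp ((L - β * (κ + η)) * x) / A₁ ≤ m := by
      have h1 := count_lower hd hψ N c₀ hr0
      rw [← hm] at h1
      have h2 : (1 / 2 * r) ^ (κ + η) ≤ (volume (Ang ψ c₀ (r / 2))).toReal := by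
        rw [show r / 2 = 1 / 2 * r by ring]
        exact e3
      rw [Real.mul_rpow (by norm_num) hr0.le, hrpow] at h2
      have h3 : (d : ℝ) ^ N * ((1 / 2 : ℝ) ^ (κ + η) * Real.exp (-(β * (κ + η) * x))) ≤
          KK * (m + 1) := (mul_le_mul_of_nonneg_left h2 (by positivity)).trans h1
      have h4 : (d : ℝ) ^ N * ((1 / 2 : ℝ) ^ (κ + η) * Real.exp (-(β * (κ + η) * x))) * A₁ =
          2 * KK * Real.exp ((L - β * (κ + η)) * x) := by
        have h5 : (1 / 2 : ℝ) ^ (κ + η) * (2 : ℝ) ^ (κ + η) = 1 := by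
          rw [← Real.mul_rpow (by norm_num) (by norm_num)]
          norm_num
        have h6 : Real.exp ((L - β * (κ + η)) * x) =
            Real.exp (L * x) * Real.exp (-(β * (κ + η) * x)) := by
          rw [← Real.exp_add]
          congr 1
          ring
        rw [h6, ← hdN, hA₁]
        calc _ = ((1 / 2 : ℝ) ^ (κ + η) * (2 : ℝ) ^ (κ + η)) * (2 * KK * ((d : ℝ) ^ N * d *
              Real.exp (-(β * (κ + η) * x)))) := by ring
          _ = _ := by rw [h5, one_mul]
      have h5 : 2 * Real.exp ((L - β * (κ + η)) * x) ≤ (m + 1) * A₁ := by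
        have h6 := mul_le_mul_of_nonneg_right h3 hA₁0.le
        rw [h4] at h6
        have h7 : KK * (2 * Real.exp ((L - β * (κ + η)) * x)) ≤ KK * ((m + 1) * A₁) := by
          linarith
        exact le_of_mul_le_mul_left h7 hK
      rw [div_le_iff₀ hA₁0]
      nlinarith
    have hm0 : 0 < m := lt_of_lt_of_le (by positivity) hlow
    -- the upper bound
    have hup : m ≤ A₂ * Real.exp ((L - β * (κ - η)) * x) := by
      have hsup : Real.exp (-(β * (κ + η) * x)) ≤ sSup (GS ψ c₀ r) := by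
        rw [← hrpow]; exact e2
      have hpos : 0 < Real.exp (-(β * (κ + η) * x)) := Real.exp_pos _
      have hne : (GS ψ c₀ r).Nonempty := by
        by_contra hcon
        rw [not_nonempty_iff_eq_empty] at hcon
        rw [hcon, Real.sSup_empty] at hsup
        linarith
      obtain ⟨_, ⟨w₀, hw1, hw2, rfl⟩, hw3⟩ := exists_lt_of_lt_csSup hne
        (show Real.exp (-(β * (κ + η) * x)) / 2 < sSup (GS ψ c₀ r) by linarith)
      have hN4 : Real.log 4 < (d : ℝ) ^ N * Real.log ‖w₀‖ := by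
        have h1 : (d : ℝ) ^ N * (Real.exp (-(β * (κ + η) * x)) / 2) <
            (d : ℝ) ^ N * Real.log ‖w₀‖ := mul_lt_mul_of_pos_left hw3 (by positivity)
        have h2 : (d : ℝ) ^ N * (Real.exp (-(β * (κ + η) * x)) / 2) =
            Real.exp ((L - β * (κ + η)) * x) / (2 * d) := by
          have h6 : Real.exp ((L - β * (κ + η)) * x) =
              Real.exp (L * x) * Real.exp (-(β * (κ + η) * x)) := by
            rw [← Real.exp_add]
            congr 1
            ring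
          rw [h6, ← hdN]
          field_simp
        have h3 : Real.log 4 < Real.exp ((L - β * (κ + η)) * x) / (2 * d) := by
          rw [lt_div_iff₀ (by positivity)]
          linarith
        rw [← h2] at h3
        linarith
      have hcu := count_upper (N := N) hd hψ hc₀ hr0 (by linarith) (S := (8 * r) ^ (κ - η))
        (by positivity) (by
          intro w hw hwr
          refine le_trans ?_ e1
          exact le_csSup e1b ⟨w, hw, hwr, rfl⟩) hw1 hw2 hN4
      rw [← hm, Real.mul_rpow (by norm_num) hr0.le, hrpow] at hcu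
      have h6 : Real.exp ((L - β * (κ - η)) * x) =
          Real.exp (L * x) * Real.exp (-(β * (κ - η) * x)) := by
        rw [← Real.exp_add]
        congr 1
        ring
      have h7 : (d : ℝ) ^ N * Real.exp (-(β * (κ - η) * x)) ≤
          Real.exp ((L - β * (κ - η)) * x) := by
        rw [h6]
        gcongr
        rw [← hdN]
        have : (0 : ℝ) < (d : ℝ) ^ N := by positivity
        nlinarith
      have h8 : 1 ≤ Real.exp ((L - β * (κ - η)) * x) := by
        apply Real.one_le_exp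
        apply mul_nonneg _ hx0.le
        nlinarith
      have h9 : m * Real.log 2 ≤ (Real.log 2 + (8 : ℝ) ^ (κ - η)) *
          Real.exp ((L - β * (κ - η)) * x) := by
        have h10 : (d : ℝ) ^ N * ((8 : ℝ) ^ (κ - η) * Real.exp (-(β * (κ - η) * x))) =
            (8 : ℝ) ^ (κ - η) * ((d : ℝ) ^ N * Real.exp (-(β * (κ - η) * x))) := by ring
        rw [h10] at hcu
        have h11 := mul_le_mul_of_nonneg_left h7 (show (0 : ℝ) ≤ (8 : ℝ) ^ (κ - η) by positivity)
        nlinarith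
      have h12 : A₂ * Real.log 2 = Real.log 2 + (8 : ℝ) ^ (κ - η) := by
        rw [hA₂]; field_simp
      rw [← h12] at h9
      have h13 : m * Real.log 2 ≤ (A₂ * Real.exp ((L - β * (κ - η)) * x)) * Real.log 2 := by
        linarith
      exact le_of_mul_le_mul_right h13 hlog2
    -- logarithms
    have hlog1 : (L - β * (κ + η)) * x - Real.log A₁ ≤ Real.log m := by
      have h1 := Real.log_le_log (by positivity) hlow
      rwa [Real.log_div (Real.exp_pos _).ne' hA₁0.ne', Real.log_exp] at h1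
    have hlog2' : Real.log m ≤ Real.log A₂ + (L - β * (κ - η)) * x := by
      have h1 := Real.log_le_log hm0 hup
      rwa [Real.log_mul hA₂0.ne' (Real.exp_pos _).ne', Real.log_exp] at h1
    rw [abs_lt]
    constructor
    · rw [lt_sub_iff_add_lt, lt_div_iff₀ hx0]
      nlinarith
    · rw [sub_lt_iff_lt_add, div_lt_iff₀ hx0]
      nlinarith
  obtain ⟨n₀, hn₀⟩ := eventually_atTop.1 hmain
  refine ⟨n₀, fun n hn => ?_⟩
  rw [Real.dist_eq]
  exact hn₀ n (le_of_lt hn)

end Pool.Agent.R240
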