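import Pool.Agent.R240.Growth
import Pool.Agent.Y736.HG8

set_option autoImplicit false

/-! # No centres beyond the critical rate -/

namespace Pool.Agent.R240

open Complex Metric Set Filter Topology MeasureTheory Pool.Agent.H712R2 Pool.Agent.H713R2
open N62a1eb23 Pool.Agent.Y736.HG Pool.Agent.Y298.CA

variable {d N : ℕ} {ψ : ℂ → ℂ}

theorem none_beyond {χ : ℝ} {c₀ : ℂ} (hd : 2 ≤ d) (h : Lyap d χ c₀) {β : ℝ} (hβ : χ < β) :
    ∀ᶠ n : ℕ in atTop, Cen d n c₀ (Real.exp (-(β * n))) = ∅ := by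
  obtain ⟨b', hb'⟩ := exists_beta (d := d) hd
  obtain ⟨ψ, hψ⟩ : ∃ ψ, IsExteriorMap (multibrotSet d) ψ := ⟨_, exteriorMap_of_beta hb'⟩
  have hdR : (1 : ℝ) < d := by exact_mod_cast (by omega : 1 < d)
  have hd0 : (0 : ℝ) < d := by linarith
  have hχ := h.1
  obtain ⟨L, hL⟩ : ∃ L, L = Real.log d := ⟨_, rfl⟩
  have hL0 : 0 < L := by rw [hL]; exact Real.log_pos hdR
  obtain ⟨β₁, hβ₁, hβ₁'⟩ := exists_between hβ
  obtain ⟨κ, hκ1, hκ2⟩ := exists_between (show L / β₁ < L / χ by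
    exact div_lt_div_of_pos_left hL0 hχ hβ₁)
  have hβ₁0 : 0 < β₁ := hχ.trans hβ₁
  have hκ0 : 0 < κ := lt_trans (by positivity) hκ1
  rw [div_lt_iff₀ hβ₁0] at hκ1
  obtain ⟨K, s₀, hK, hs₀, H⟩ := lyap_up hd h hκ0 (by rw [← hL]; exact hκ2)
  obtain ⟨_, hlya⟩ := Pool.Agent.Y674.CA.lya d χ c₀ hd h
  obtain ⟨C, hC, HC⟩ := hlya ((β - β₁) / 2) (by linarith)
  have hexp : ∀ a C : ℝ, 0 < a → ∀ᶠ n : ℕ in atTop, C ≤ Real.exp (a * n) := by
    intro a C ha
    have : Tendsto (fun n : ℕ => Real.exp (a * n)) atTop atTop :=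
      Real.tendsto_exp_atTop.comp ((tendsto_natCast_atTop_atTop).const_mul_atTop ha)
    exact this.eventually_ge_atTop C
  filter_upwards [hexp β₁ (1 / s₀) hβ₁0, hexp (κ * β₁ - L) (K / Real.log (3 / 2)) (by linarith),
    hexp ((β - β₁) / 2) (7 * C + 1) (by linarith), eventually_ge_atTop 1] with n e1 e2 e3 e4
  obtain ⟨N, rfl⟩ : ∃ N, n = N + 1 := ⟨n - 1, by omega⟩
  obtain ⟨x, hx⟩ : ∃ x : ℝ, x = ((N + 1 : ℕ) : ℝ) := ⟨_, rfl⟩
  rw [← hx] at e1 e2 e3 ⊢
  have hx0 : 0 < x := by rw [hx]; positivity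
  obtain ⟨r, hr⟩ : ∃ r, r = Real.exp (-(β₁ * x)) := ⟨_, rfl⟩
  have hr0 : 0 < r := by rw [hr]; exact Real.exp_pos _
  have hrs : r ≤ s₀ := by
    rw [hr, Real.exp_neg, inv_le_comm₀ (Real.exp_pos _) hs₀, ← one_div]
    exact e1
  have hlog32 : 0 < Real.log (3 / 2) := Real.log_pos (by norm_num)
  -- the bound on the disc
  have hbd : ∀ y : ℂ, ‖y - c₀‖ ≤ r → ‖P d (N + 1) y‖ ≤ 3 := by
    intro y hy
    have h1 := P_le_of_green hd hψ (x := y) (S := K * r ^ κ) (by positivity) (by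
      intro w hw hwy
      exact H ψ hψ r hr0 hrs w hw (by rw [hwy]; exact hy)) N
    have h2 : (d : ℝ) ^ N * (K * r ^ κ) ≤ Real.log (3 / 2) := by
      have h3 : r ^ κ = Real.exp (-(κ * β₁ * x)) := by
        rw [hr, ← Real.exp_mul]
        congr 1
        ring
      have h4 : (d : ℝ) ^ N ≤ Real.exp (L * x) := by
        have h5 : (d : ℝ) ^ N ≤ (d : ℝ) ^ (N + 1) := pow_le_pow_right₀ hdR.le (by omega)
        refine h5.trans (le_of_eq ?_)
        rw [← Real.rpow_natCast, Real.rpow_def_of_pos hd0, ← hL, hx]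
      rw [h3]
      calc (d : ℝ) ^ N * (K * Real.exp (-(κ * β₁ * x)))
          ≤ Real.exp (L * x) * (K * Real.exp (-(κ * β₁ * x))) := by gcongr
        _ = K / Real.exp ((κ * β₁ - L) * x) := by
          rw [mul_left_comm, ← Real.exp_add, div_eq_mul_inv, ← Real.exp_neg]
          congr 2
          ring
        _ ≤ Real.log (3 / 2) := by
          rw [div_le_iff₀ (Real.exp_pos _)]
          rw [div_le_iff₀ hlog32] at e2
          linarith
    refine h1.trans ?_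
    have h3 : Real.exp ((d : ℝ) ^ N * (K * r ^ κ)) ≤ 3 / 2 := by
      rw [← Real.exp_log (show (0 : ℝ) < 3 / 2 by norm_num)]
      exact Real.exp_le_exp.2 h2
    linarith
  have hlow : 1 ≤ C * Real.exp ((β - β₁) / 2 * x) * ‖P d (N + 1) c₀‖ := by
    have h1 := (HC N).2.2
    have h2 : Pool.Agent.Y298.SH.CD.zz d c₀ N = P d (N + 1) c₀ := by
      have h3 : fc d c₀ 0 = c₀ := by
        show (0 : ℂ) ^ d + c₀ = c₀
        rw [zero_pow (by omega), zero_add]
      show _ = (fc d c₀)^[N + 1] 0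
      rw [Function.iterate_succ_apply, h3]
      rfl
    rw [h2] at h1
    refine h1.trans ?_
    gcongr
    rw [hx]
    push_cast
    nlinarith
  rw [Set.eq_empty_iff_forall_notMem]
  rintro y ⟨hy1, hy2⟩
  rw [mem_ball, dist_eq_norm] at hy1
  have hyr : ‖y - c₀‖ < r := by
    refine hy1.trans_le ?_
    rw [hr]
    apply Real.exp_le_exp.2
    nlinarith
  have hmaps : MapsTo (P d (N + 1)) (ball c₀ r) (closedBall (P d (N + 1) c₀) 7) := by
    intro z hz
    rw [mem_ball, dist_eq_norm] at hz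
    rw [mem_closedBall, dist_eq_norm]
    have h1 := hbd z hz.le
    have h2 := hbd c₀ (by simpa using hr0.le)
    exact (norm_sub_le _ _).trans (by linarith)
  have h1 := Complex.dist_le_div_mul_dist_of_mapsTo_ball
    (differentiable_P d (N + 1)).differentiableOn hmaps (z := y) (by
      rw [mem_ball, dist_eq_norm]; exact hyr)
  rw [hy2, dist_zero_left, dist_eq_norm] at h1
  have hC0 : 0 < C := by linarith
  obtain ⟨E, hE⟩ : ∃ E, E = Real.exp ((β - β₁) / 2 * x) := ⟨_, rfl⟩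
  have hE0 : 0 < E := by rw [hE]; exact Real.exp_pos _
  rw [← hE] at e3 hlow
  have h2 : 7 / r * ‖y - c₀‖ ≤ 7 / E ^ 2 := by
    have h3 : Real.exp (-(β * x)) = r / E ^ 2 := by
      rw [hr, hE, ← Real.exp_nat_mul, ← Real.exp_sub]
      congr 1
      push_cast
      ring
    rw [h3] at hy1
    calc 7 / r * ‖y - c₀‖ ≤ 7 / r * (r / E ^ 2) := by gcongr
      _ = _ := by field_simp
  have h4 : 1 ≤ C * E * (7 / E ^ 2) := hlow.trans (by gcongr; exact h1.trans h2)
  have h5 : C * E * (7 / E ^ 2) = 7 * C / E := by field_simp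
  rw [h5, le_div_iff₀ hE0] at h4
  linarith

end Pool.Agent.R240
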