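import Pool.Agent.R240.Orbit
import Pool.Agent.R240.ExtLog
import Pool.Agent.Y736.HG5

set_option autoImplicit false

/-! # Local law, the potentials -/

namespace Pool.Agent.R240.LL

open Complex Metric Set Filter Topology MeasureTheory Pool.Agent.H712R2 Pool.Agent.H713R2
open N62a1eb23
open Real (posLog circleAverage)
open Pool.Agent.Y736.HD Pool.Agent.Y736.HG

variable {d : ℕ} {ψ β : ℂ → ℂ}

/-- upper bound of the mean of the truncated potential by the mean of a function -/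
theorem upper_l (hβ : IsBeta d β) {c₀ : ℂ} (hc₀ : c₀ ∈ multibrotSet d) {ρ s : ℝ} (hρ : 0 < ρ)
    (hs0 : 0 < s) (hs1 : s < 1) {l : ℂ → ℝ} (hl : CircleIntegrable l c₀ ρ)
    (hS : ∀ z, ‖z - c₀‖ = ρ → circleAverage (fun x => Real.log ‖β x - z * x‖) 0 s ≤ l z) :
    circleAverage (UU β c₀ ρ) 0 s ≤ circleAverage l c₀ ρ := by
  obtain ⟨h1, h2⟩ := fub hβ hc₀ hρ hs0 hs1
  have hm : ∀ φ, ‖circleMap c₀ ρ φ - c₀‖ = ρ := by
    intro φ
    have := circleMap_mem_sphere c₀ hρ.le φ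
    rwa [mem_sphere, dist_eq_norm] at this
  have hli := integrable_of hl
  have h3 : ENNReal.ofReal (CC c₀ ρ - circleAverage l c₀ ρ) ≤
      ENNReal.ofReal (CC c₀ ρ - circleAverage (UU β c₀ ρ) 0 s) := by
    rw [← h2, avg_eq l c₀ ρ]
    have h4 : Integrable (fun φ => CC c₀ ρ - l (circleMap c₀ ρ φ)) cm :=
      (integrable_const _).sub hli
    have h5 : ∫ φ, (CC c₀ ρ - l (circleMap c₀ ρ φ)) ∂cm =
        CC c₀ ρ - ∫ θ, l (circleMap c₀ ρ θ) ∂cm := by
      rw [integral_sub (integrable_const _) hli]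
      simp
    rw [← h5, integral_eq_lintegral_pos_part_sub_lintegral_neg_part h4]
    have h6 : ∫⁻ φ, ENNReal.ofReal (CC c₀ ρ - l (circleMap c₀ ρ φ)) ∂cm ≠ ⊤ :=
      h4.lintegral_lt_top.ne
    refine (ENNReal.ofReal_le_ofReal (sub_le_self _ ENNReal.toReal_nonneg)).trans ?_
    rw [ENNReal.ofReal_toReal h6]
    apply lintegral_mono
    intro φ
    apply ENNReal.ofReal_le_ofReal
    have := hS _ (hm φ)
    linarith
  rcases le_or_gt (CC c₀ ρ) (circleAverage l c₀ ρ) with h | h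
  · linarith
  · rw [ENNReal.ofReal_le_ofReal_iff (by linarith)] at h3
    linarith

theorem TT_eq (hβ : IsBeta d β) (hψ : IsExteriorMap (multibrotSet d) ψ) (c₀ : ℂ) (ρ : ℝ) (n : ℕ) :
    TT ψ c₀ ρ n = circleAverage (UU β c₀ ρ) 0 (sn n) :=
  (avg_psi hβ hψ c₀ ρ (sn_pos n) (sn_lt n)).symm

theorem ci_P (N : ℕ) (c₀ : ℂ) (ρ : ℝ) :
    CircleIntegrable (fun z => Real.log ‖P d (N + 1) z‖) c₀ ρ := by
  apply MeromorphicOn.circleIntegrable_log_norm
  intro z _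
  exact ((differentiable_P d (N + 1)).analyticAt z).meromorphicAt

theorem avg_aff {l : ℂ → ℝ} {c₀ : ℂ} {ρ : ℝ} (hl : CircleIntegrable l c₀ ρ) (a b : ℝ) :
    CircleIntegrable (fun z => a * l z + b) c₀ ρ ∧
    circleAverage (fun z => a * l z + b) c₀ ρ = a * circleAverage l c₀ ρ + b := by
  have h1 : CircleIntegrable (fun z => a * l z + b) c₀ ρ := by
    have h2 : CircleIntegrable (fun z => a * l z) c₀ ρ := by
      exact IntervalIntegrable.const_mul hl a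
    exact h2.add (circleIntegrable_const _ _ _)
  refine ⟨h1, ?_⟩
  rw [avg_eq, avg_eq]
  have hi := integrable_of hl
  rw [integral_add (hi.const_mul a) (integrable_const _), integral_const_mul]
  simp

/-- the mean of `log |P|` is at most the potential -/
theorem pot_low (hd : 2 ≤ d) (hψ : IsExteriorMap (multibrotSet d) ψ) {c₀ : ℂ}
    (hc₀ : c₀ ∈ multibrotSet d) {ρ : ℝ} (hρ : 0 < ρ) (N n : ℕ) :
    circleAverage (fun z => Real.log ‖P d (N + 1) z‖) c₀ ρ ≤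
      (d:ℝ) ^ N * TT ψ c₀ ρ n + Real.log 2 - (d:ℝ) ^ N * Real.log (sn n) := by
  obtain ⟨β, hβ⟩ := exists_beta (d := d) hd
  have hd0 : (2:ℝ) ≤ d := by exact_mod_cast hd
  have hD : (0:ℝ) < (d:ℝ) ^ N := by positivity
  have hl2 : 0 < Real.log 2 := Real.log_pos (by norm_num)
  have hs0 := sn_pos n
  have hs1 := sn_lt n
  have hlogs : Real.log (sn n) < 0 := Real.log_neg hs0 hs1
  obtain ⟨h1, h2⟩ := avg_aff (ci_P (d := d) N c₀ ρ) (1 / (d:ℝ) ^ N)
    (-(Real.log 2 / (d:ℝ) ^ N) + Real.log (sn n))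
  have h3 := lower_II hβ hc₀ hρ hs0 hs1 h1 (fun z hz => by
    by_cases hzM : z ∈ multibrotSet d
    · rw [avg_mem hβ hzM hs0 hs1]
      have h5 : ‖P d (N + 1) z‖ ≤ 2 := (mem_multibrot_iff hd z).1 hzM (N + 1)
      have h4 : Real.log ‖P d (N + 1) z‖ ≤ Real.log 2 := by
        rcases eq_or_lt_of_le (norm_nonneg (P d (N + 1) z)) with h6 | h6
        · rw [← h6, Real.log_zero]
          exact hl2.le
        · exact Real.log_le_log h6 h5
      have h6 : 1 / (d:ℝ) ^ N * Real.log ‖P d (N + 1) z‖ ≤ Real.log 2 / (d:ℝ) ^ N := by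
        rw [one_div, div_eq_inv_mul]
        gcongr
      linarith
    · have h4 : z ∈ (multibrotSet d)ᶜ := hzM
      rw [← hψ.image] at h4
      obtain ⟨w, hw, rfl⟩ := h4
      have hw' : 1 < ‖w‖ := hw
      have h5 := Pool.Agent.R240.Ext.green_up hd hψ N hw'
      have e1 := avg_ext hβ hw' hs0 hs1
      rw [← exteriorMap_unique hβ hψ hw] at e1
      rw [e1]
      have h9 : Real.log (sn n * ‖w‖) ≤ posLog (sn n * ‖w‖) := le_max_right _ _
      rw [Real.log_mul hs0.ne' (by linarith)] at h9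
      have h6 : Real.log 2 / (d - 1) ≤ Real.log 2 := div_le_self hl2.le (by linarith)
      have h7 : 1 / (d:ℝ) ^ N * Real.log ‖P d (N + 1) (ψ w)‖ ≤
          Real.log 2 / (d:ℝ) ^ N + Real.log ‖w‖ := by
        rw [one_div_mul_eq_div, div_le_iff₀ hD, add_mul, div_mul_cancel₀ _ hD.ne']
        linarith
      linarith)
  rw [h2, ← TT_eq hβ hψ c₀ ρ n] at h3
  have h4 : (d:ℝ) ^ N * (1 / (d:ℝ) ^ N * circleAverage (fun z => Real.log ‖P d (N + 1) z‖) c₀ ρ +
      (-(Real.log 2 / (d:ℝ) ^ N) + Real.log (sn n))) =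
      circleAverage (fun z => Real.log ‖P d (N + 1) z‖) c₀ ρ - Real.log 2 +
        (d:ℝ) ^ N * Real.log (sn n) := by
    field_simp
    ring
  have h5 := mul_le_mul_of_nonneg_left h3 hD.le
  rw [h4] at h5
  linarith

/-- the potential is at most the mean of `log |P|` if there are no zeros close to the circle -/
theorem pot_up (hd : 2 ≤ d) (hψ : IsExteriorMap (multibrotSet d) ψ) {c₀ : ℂ}
    (hc₀ : c₀ ∈ multibrotSet d) {ρ : ℝ} (hρ : 0 < ρ) (N n : ℕ) {E : ℝ}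
    (hE0 : Real.log (4 * d * (15 * d) ^ N) ≤ E)
    (hE : ∀ z ∈ multibrotSet d, ‖z - c₀‖ = ρ → -E ≤ Real.log ‖P d (N + 1) z‖) :
    (d:ℝ) ^ N * TT ψ c₀ ρ n ≤
      circleAverage (fun z => Real.log ‖P d (N + 1) z‖) c₀ ρ + E := by
  obtain ⟨β, hβ⟩ := exists_beta (d := d) hd
  have hd0 : (2:ℝ) ≤ d := by exact_mod_cast hd
  have hD : (0:ℝ) < (d:ℝ) ^ N := by positivity
  have hs0 := sn_pos n
  have hs1 := sn_lt n
  obtain ⟨h1, h2⟩ := avg_aff (ci_P (d := d) N c₀ ρ) (1 / (d:ℝ) ^ N) (E / (d:ℝ) ^ N)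
  have h3 := upper_l hβ hc₀ hρ hs0 hs1 h1 (fun z hz => by
    by_cases hzM : z ∈ multibrotSet d
    · rw [avg_mem hβ hzM hs0 hs1]
      have h4 := hE z hzM hz
      have h5 : 1 / (d:ℝ) ^ N * Real.log ‖P d (N + 1) z‖ + E / (d:ℝ) ^ N =
          (Real.log ‖P d (N + 1) z‖ + E) / (d:ℝ) ^ N := by ring
      rw [h5]
      apply div_nonneg _ hD.le
      linarith
    · have h4 : z ∈ (multibrotSet d)ᶜ := hzM
      rw [← hψ.image] at h4
      obtain ⟨w, hw, rfl⟩ := h4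
      have hw' : 1 < ‖w‖ := hw
      have h5 := Pool.Agent.R240.Ext.green_low hd hψ N hw'
      have e1 := avg_ext hβ hw' hs0 hs1
      rw [← exteriorMap_unique hβ hψ hw] at e1
      rw [e1]
      have h3 : posLog (sn n * ‖w‖) ≤ posLog ‖w‖ := by
        apply Real.posLog_le_posLog (by positivity)
        nlinarith
      rw [Real.posLog_eq_log (x := ‖w‖) (by rw [abs_of_pos (by linarith)]; exact hw'.le)] at h3
      have h6 : Real.log (4 * d * (15 * d) ^ N) / (d - 1) ≤ Real.log (4 * d * (15 * d) ^ N) := by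
        apply div_le_self _ (by linarith)
        apply Real.log_nonneg
        have : (1:ℝ) ≤ (15 * d) ^ N := one_le_pow₀ (by linarith)
        nlinarith
      have h7 : Real.log ‖w‖ ≤ 1 / (d:ℝ) ^ N * Real.log ‖P d (N + 1) (ψ w)‖ + E / (d:ℝ) ^ N := by
        have h8 : 1 / (d:ℝ) ^ N * Real.log ‖P d (N + 1) (ψ w)‖ + E / (d:ℝ) ^ N =
          (Real.log ‖P d (N + 1) (ψ w)‖ + E) / (d:ℝ) ^ N := by ring
        rw [h8, le_div_iff₀ hD]
        linarith
      linarith)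
  rw [h2, ← TT_eq hβ hψ c₀ ρ n] at h3
  calc (d:ℝ) ^ N * TT ψ c₀ ρ n ≤ (d:ℝ) ^ N * (1 / (d:ℝ) ^ N *
        circleAverage (fun z => Real.log ‖P d (N + 1) z‖) c₀ ρ + E / (d:ℝ) ^ N) := by gcongr
    _ = _ := by field_simp

/-- growth of the truncated potential, from below -/
theorem TT_low (hψ : IsExteriorMap (multibrotSet d) ψ) {c₀ : ℂ} (hc₀ : c₀ ∈ multibrotSet d)
    {ρ' ρ : ℝ} (hρ' : 0 < ρ') (hρ : ρ' < ρ) (n : ℕ) :
    Real.log (ρ / ρ') * cm.real (DD ψ c₀ ρ' n) + TT ψ c₀ ρ' n ≤ TT ψ c₀ ρ n := by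
  have hρ0 : 0 < ρ := hρ'.trans hρ
  have hDm := Pool.Agent.Y736.HG.DD_meas hψ c₀ ρ' n
  have h3 : Integrable ((DD ψ c₀ ρ' n).indicator fun _ => (1 : ℝ)) cm :=
    (integrable_const _).indicator hDm
  have h4 : cm.real (DD ψ c₀ ρ' n) = ∫ θ, (DD ψ c₀ ρ' n).indicator (fun _ => (1 : ℝ)) θ ∂cm := by
    rw [integral_indicator hDm, setIntegral_const, smul_eq_mul, mul_one]
  unfold TT
  rw [h4, ← integral_const_mul, ← integral_add (h3.const_mul _)
    (integrable_cont (Pool.Agent.Y736.HG.cont_U hψ hc₀ ρ' (sn_pos n) (sn_lt n)))]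
  apply integral_mono ((h3.const_mul _).add
    (integrable_cont (Pool.Agent.Y736.HG.cont_U hψ hc₀ ρ' (sn_pos n) (sn_lt n))))
    (integrable_cont (Pool.Agent.Y736.HG.cont_U hψ hc₀ ρ (sn_pos n) (sn_lt n)))
  intro θ
  show Real.log (ρ / ρ') * (DD ψ c₀ ρ' n).indicator (fun _ => (1 : ℝ)) θ +
      posLog (ρ' / ‖ψ (((sn n)⁻¹ : ℝ) * exp (θ * I)) - c₀‖) ≤
    posLog (ρ / ‖ψ (((sn n)⁻¹ : ℝ) * exp (θ * I)) - c₀‖)
  obtain ⟨t, ht⟩ : ∃ t, t = ‖ψ (((sn n)⁻¹ : ℝ) * exp (θ * I)) - c₀‖ := ⟨_, rfl⟩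
  have ht0 : 0 < t := by
    rw [ht]
    exact norm_pos_iff.2 (sub_ne_zero.2 (Pool.Agent.Y736.HG.psi_ne hψ hc₀
      (norm_pt (sn_pos n) (sn_lt n) θ)))
  by_cases hθ : θ ∈ DD ψ c₀ ρ' n
  · rw [indicator_of_mem hθ, mul_one, ← ht]
    have h5 : t < ρ' := by
      rw [ht]
      exact hθ
    have h6 : 1 ≤ |ρ' / t| := by
      rw [abs_of_pos (by positivity), le_div_iff₀ ht0]
      linarith
    rw [Real.posLog_eq_log h6]
    have h7 : Real.log (ρ / t) = Real.log (ρ / ρ') + Real.log (ρ' / t) := by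
      rw [← Real.log_mul (by positivity) (by positivity)]
      congr 1
      field_simp
    rw [← h7]
    exact le_max_right _ _
  · rw [indicator_of_notMem hθ, mul_zero, zero_add, ← ht]
    apply Real.posLog_le_posLog (by positivity)
    gcongr

/-- the level curves follow the landing rays -/
theorem DD_liminf (c₀ : ℂ) (r : ℝ) {ε : ℝ} (hε : 0 < ε)
    (hψ : IsExteriorMap (multibrotSet d) ψ) :
    ∀ᶠ n in atTop, (volume (Ang ψ c₀ r)).toReal / (2 * Real.pi) - ε ≤ cm.real (DD ψ c₀ r n) := by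
  have hpi := Real.pi_pos
  obtain ⟨E, hE⟩ : ∃ E : ℕ → Set ℝ, E = fun N => ⋂ n, DD ψ c₀ r (N + n) := ⟨_, rfl⟩
  have hEm : ∀ N, MeasurableSet (E N) := by
    intro N
    rw [hE]
    exact MeasurableSet.iInter fun n => Pool.Agent.Y736.HG.DD_meas hψ _ _ _
  have hmono : Monotone E := by
    intro N N' h
    rw [hE]
    apply subset_iInter
    intro n
    obtain ⟨k, rfl⟩ := Nat.exists_eq_add_of_le h
    rw [show N + k + n = N + (k + n) by ring]
    exact iInter_subset (fun n => DD ψ c₀ r (N + n)) (k + n)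
  have hsub : Ang ψ c₀ r ⊆ (⋃ N, E N) ∩ Ioc 0 (2 * Real.pi) := by
    rintro θ ⟨hθ2, ζ, hζ, hlim⟩
    refine ⟨?_, hθ2⟩
    have h4 : Tendsto (fun n => ‖ψ (((sn n)⁻¹ : ℝ) * exp (θ * I)) - c₀‖) atTop (𝓝 ‖ζ - c₀‖) :=
      ((hlim.comp sn_inv_lim).sub_const c₀).norm
    rw [mem_ball, dist_eq_norm] at hζ
    obtain ⟨N, hN⟩ := eventually_atTop.1 (h4.eventually (gt_mem_nhds hζ))
    rw [mem_iUnion]
    refine ⟨N, ?_⟩
    rw [hE]
    exact mem_iInter.2 fun n => hN (N + n) (Nat.le_add_right _ _)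
  have h1 : (volume (Ang ψ c₀ r)).toReal / (2 * Real.pi) ≤ cm.real (⋃ N, E N) := by
    unfold Measure.real
    rw [cm_eq, ENNReal.toReal_mul, ENNReal.toReal_ofReal (by positivity), div_eq_inv_mul]
    gcongr
    refine ne_top_of_le_ne_top ?_ (measure_mono inter_subset_right)
    rw [Real.volume_Ioc]
    exact ENNReal.ofReal_ne_top
  have h2 : Tendsto (fun N => cm (E N)) atTop (𝓝 (cm (⋃ N, E N))) :=
    tendsto_measure_iUnion_atTop hmono
  have h3 : Tendsto (fun N => cm.real (E N)) atTop (𝓝 (cm.real (⋃ N, E N))) :=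
    (ENNReal.tendsto_toReal (measure_ne_top _ _)).comp h2
  have h4 : (volume (Ang ψ c₀ r)).toReal / (2 * Real.pi) - ε < cm.real (⋃ N, E N) := by linarith
  filter_upwards [h3.eventually (lt_mem_nhds h4)] with N hN
  refine hN.le.trans ?_
  refine measureReal_mono ?_ (measure_ne_top _ _)
  rw [hE]
  exact iInter_subset (fun n => DD ψ c₀ r (N + n)) 0

end Pool.Agent.R240.LL
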