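import Pool.Agent.R240.LL1

set_option autoImplicit false

/-! # Local law, the zeros -/

namespace Pool.Agent.R240.LL

open Complex Metric Set Filter Topology MeasureTheory Pool.Agent.H712R2 Pool.Agent.H713R2
open N62a1eb23
open Real (posLog circleAverage)

variable {d : ℕ}

/-- the growth of the truncated logarithm -/
noncomputable def tau (ρ₁ ρ₂ t : ℝ) : ℝ :=
  (Real.log ρ₂ + posLog (ρ₂⁻¹ * t)) - (Real.log ρ₁ + posLog (ρ₁⁻¹ * t))

theorem tl {ρ t : ℝ} (hρ : 0 < ρ) (ht : 0 < t) :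
    Real.log ρ + posLog (ρ⁻¹ * t) = max (Real.log ρ) (Real.log t) := by
  have h0 : posLog (ρ⁻¹ * t) = max 0 (Real.log (ρ⁻¹ * t)) := rfl
  rw [h0, Real.log_mul (by positivity) ht.ne', Real.log_inv]
  rcases le_total (Real.log ρ) (Real.log t) with h | h
  · rw [max_eq_right h, max_eq_right (by linarith)]
    ring
  · rw [max_eq_left h, max_eq_left (by linarith)]
    ring

theorem tau_bd {ρ₁ ρ₂ t : ℝ} (h1 : 0 < ρ₁) (h2 : ρ₁ < ρ₂) (ht : 0 ≤ t) :
    0 ≤ tau ρ₁ ρ₂ t ∧ tau ρ₁ ρ₂ t ≤ Real.log (ρ₂ / ρ₁) ∧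
      (t ≤ ρ₁ → tau ρ₁ ρ₂ t = Real.log (ρ₂ / ρ₁)) ∧ (ρ₂ ≤ t → tau ρ₁ ρ₂ t = 0) := by
  have h3 : 0 < ρ₂ := h1.trans h2
  have h4 : Real.log ρ₁ < Real.log ρ₂ := Real.log_lt_log h1 h2
  rw [Real.log_div h3.ne' h1.ne']
  unfold tau
  rcases ht.eq_or_lt with rfl | ht0
  · have h5 : posLog (0:ℝ) = 0 := by simp [Real.posLog]
    rw [mul_zero, mul_zero, h5, add_zero, add_zero]
    refine ⟨by linarith, le_rfl, fun _ => rfl, fun h => ?_⟩
    linarith
  · rw [tl h3 ht0, tl h1 ht0]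
    refine ⟨?_, ?_, ?_, ?_⟩
    · have := max_le_max_right (Real.log t) h4.le
      linarith
    · rcases le_total (Real.log ρ₂) (Real.log t) with h | h
      · rw [max_eq_right h, max_eq_right (h4.le.trans h)]
        linarith
      · rw [max_eq_left h]
        have := le_max_left (Real.log ρ₁) (Real.log t)
        linarith
    · intro h
      have h5 := Real.log_le_log ht0 h
      rw [max_eq_left h5, max_eq_left (h5.trans h4.le)]
    · intro h
      have h5 := Real.log_le_log h3 h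
      rw [max_eq_right h5, max_eq_right (h4.le.trans h5), sub_self]

/-- the zeros -/
noncomputable def ZZ (d N : ℕ) : Finset ℂ := (PP d (N + 1)).roots.toFinset

theorem PP_ne (hd : 2 ≤ d) (N : ℕ) : PP d (N + 1) ≠ 0 := by
  intro h
  have h1 := natDegree_PP hd N
  rw [h, Polynomial.natDegree_zero] at h1
  have : 0 < d ^ N := pow_pos (by omega) N
  omega

theorem mem_ZZ (hd : 2 ≤ d) {N : ℕ} {a : ℂ} : a ∈ ZZ d N ↔ P d (N + 1) a = 0 := by
  unfold ZZ
  rw [Multiset.mem_toFinset, Polynomial.mem_roots (PP_ne hd N), Polynomial.IsRoot.def, eval_PP]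

theorem card_ZZ (hd : 2 ≤ d) (N : ℕ) : (ZZ d N).card ≤ d ^ N := by
  unfold ZZ
  rw [← natDegree_PP hd N]
  exact (Multiset.toFinset_card_le _).trans (Polynomial.card_roots' _)

theorem nodup (hd : 2 ≤ d) (N : ℕ) : (PP d (N + 1)).roots.Nodup := by
  rw [Multiset.nodup_iff_count_le_one]
  intro a
  rw [Polynomial.count_roots]
  by_contra hcon
  push Not at hcon
  have h1 := (Polynomial.one_lt_rootMultiplicity_iff_isRoot (PP_ne hd N)).1 hcon
  have h2 : P d (N + 1) a = 0 := by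
    rw [← eval_PP]
    exact h1.1
  have h3 := Pool.Agent.R240.Trans.der_centre hd (by omega : 1 ≤ N + 1) h2
  have h4 : P d (N + 1) = fun c => (PP d (N + 1)).eval c := by
    funext c
    rw [eval_PP]
  rw [h4, Polynomial.deriv, h1.2.eq_zero, norm_zero, mul_zero] at h3
  linarith

theorem P_prod (hd : 2 ≤ d) (N : ℕ) (z : ℂ) :
    P d (N + 1) z = (PP d (N + 1)).leadingCoeff * ∏ a ∈ ZZ d N, (z - a) := by
  rw [← eval_PP, (IsAlgClosed.splits (PP d (N + 1))).eval_eq_prod_roots]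
  congr 1
  unfold ZZ
  rw [Finset.prod_multiset_map_count]
  apply Finset.prod_congr rfl
  intro a ha
  rw [Multiset.count_eq_one_of_mem (nodup hd N) (Multiset.mem_toFinset.1 ha), pow_one]

/-- **Jensen's formula.** -/
theorem jensen (hd : 2 ≤ d) (N : ℕ) {c₀ : ℂ} {ρ : ℝ} (hρ : 0 < ρ)
    (hne : ∀ a ∈ ZZ d N, ‖a - c₀‖ ≠ ρ) :
    circleAverage (fun z => Real.log ‖P d (N + 1) z‖) c₀ ρ =
      Real.log ‖(PP d (N + 1)).leadingCoeff‖ +
        ∑ a ∈ ZZ d N, (Real.log ρ + posLog (ρ⁻¹ * ‖a - c₀‖)) := by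
  have h1 : circleAverage (fun z => Real.log ‖P d (N + 1) z‖) c₀ ρ =
      circleAverage ((fun _ : ℂ => Real.log ‖(PP d (N + 1)).leadingCoeff‖) +
        ∑ a ∈ ZZ d N, fun z : ℂ => Real.log ‖z - a‖) c₀ ρ := by
    apply Real.circleAverage_congr_sphere
    intro z hz
    rw [abs_of_pos hρ, mem_sphere, dist_eq_norm] at hz
    have h2 : ∀ a ∈ ZZ d N, ‖z - a‖ ≠ 0 := by
      intro a ha h
      rw [norm_eq_zero, sub_eq_zero] at h
      rw [h] at hz
      exact hne a ha hz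
    have h3 : ‖(PP d (N + 1)).leadingCoeff‖ ≠ 0 := by
      rw [norm_ne_zero_iff, Polynomial.leadingCoeff_ne_zero]
      exact PP_ne hd N
    simp only [Pi.add_apply, Finset.sum_apply]
    rw [P_prod hd, norm_mul, norm_prod, Real.log_mul h3 (Finset.prod_ne_zero_iff.2 h2),
      Real.log_prod h2]
  have hci : ∀ a ∈ ZZ d N, CircleIntegrable (fun z : ℂ => Real.log ‖z - a‖) c₀ ρ := by
    intro a _
    exact MeromorphicOn.circleIntegrable_log_norm (fun _ _ => by fun_prop)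
  rw [h1, Real.circleAverage_add (circleIntegrable_const _ _ _) (CircleIntegrable.sum _ hci),
    Real.circleAverage_const, Real.circleAverage_sum hci]
  congr 1
  apply Finset.sum_congr rfl
  intro a _
  rw [circleAverage_log_norm_sub_const_eq_log_radius_add_posLog hρ.ne', norm_sub_rev]

/-- the growth of the means of `log |P|` -/
theorem jen_diff (hd : 2 ≤ d) (N : ℕ) {c₀ : ℂ} {ρ₁ ρ₂ : ℝ} (h1 : 0 < ρ₁) (h2 : ρ₁ < ρ₂)
    (hne1 : ∀ a ∈ ZZ d N, ‖a - c₀‖ ≠ ρ₁) (hne2 : ∀ a ∈ ZZ d N, ‖a - c₀‖ ≠ ρ₂) :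
    ((ZZ d N).filter (fun a => ‖a - c₀‖ < ρ₁)).card * Real.log (ρ₂ / ρ₁) ≤
      circleAverage (fun z => Real.log ‖P d (N + 1) z‖) c₀ ρ₂ -
        circleAverage (fun z => Real.log ‖P d (N + 1) z‖) c₀ ρ₁ ∧
    circleAverage (fun z => Real.log ‖P d (N + 1) z‖) c₀ ρ₂ -
        circleAverage (fun z => Real.log ‖P d (N + 1) z‖) c₀ ρ₁ ≤
      ((ZZ d N).filter (fun a => ‖a - c₀‖ < ρ₂)).card * Real.log (ρ₂ / ρ₁) := by
  have h3 : circleAverage (fun z => Real.log ‖P d (N + 1) z‖) c₀ ρ₂ -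
        circleAverage (fun z => Real.log ‖P d (N + 1) z‖) c₀ ρ₁ =
      ∑ a ∈ ZZ d N, tau ρ₁ ρ₂ ‖a - c₀‖ := by
    rw [jensen hd N (h1.trans h2) hne2, jensen hd N h1 hne1]
    unfold tau
    rw [Finset.sum_sub_distrib]
    ring
  rw [h3]
  constructor
  · calc ((ZZ d N).filter (fun a => ‖a - c₀‖ < ρ₁)).card * Real.log (ρ₂ / ρ₁)
        = ∑ a ∈ (ZZ d N).filter (fun a => ‖a - c₀‖ < ρ₁), tau ρ₁ ρ₂ ‖a - c₀‖ := by
          rw [Finset.sum_congr rfl (fun a ha => (tau_bd h1 h2 (norm_nonneg _)).2.2.1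
            (Finset.mem_filter.1 ha).2.le), Finset.sum_const, nsmul_eq_mul]
      _ ≤ ∑ a ∈ ZZ d N, tau ρ₁ ρ₂ ‖a - c₀‖ :=
          Finset.sum_le_sum_of_subset_of_nonneg (Finset.filter_subset _ _)
            (fun a _ _ => (tau_bd h1 h2 (norm_nonneg _)).1)
  · calc ∑ a ∈ ZZ d N, tau ρ₁ ρ₂ ‖a - c₀‖
        = ∑ a ∈ (ZZ d N).filter (fun a => ‖a - c₀‖ < ρ₂), tau ρ₁ ρ₂ ‖a - c₀‖ := by
          rw [Finset.sum_filter]
          apply Finset.sum_congr rfl
          intro a _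
          split_ifs with h
          · rfl
          · exact (tau_bd h1 h2 (norm_nonneg _)).2.2.2 (not_lt.1 h)
      _ ≤ ∑ _a ∈ (ZZ d N).filter (fun a => ‖a - c₀‖ < ρ₂), Real.log (ρ₂ / ρ₁) :=
          Finset.sum_le_sum (fun a _ => (tau_bd h1 h2 (norm_nonneg _)).2.1)
      _ = _ := by rw [Finset.sum_const, nsmul_eq_mul]

/-- **Good radii.** -/
theorem good (Z : Finset ℂ) (c₀ : ℂ) {α l : ℝ} (hl : 0 < l) :
    ∃ ρ, α < ρ ∧ ρ < α + l ∧ ∀ a ∈ Z, l / (2 * (Z.card + 1)) ≤ |‖a - c₀‖ - ρ| := by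
  obtain ⟨h, hh⟩ : ∃ h : ℝ, h = l / (2 * (Z.card + 1)) := ⟨_, rfl⟩
  have hh0 : 0 < h := by rw [hh]; positivity
  have hl2 : l = 2 * h * (Z.card + 1) := by rw [hh]; field_simp
  rw [← hh]
  by_contra hcon
  push Not at hcon
  have hx : ∀ j ∈ Finset.range (Z.card + 1), ∃ a ∈ Z, |‖a - c₀‖ - (α + (2 * j + 1) * h)| < h := by
    intro j hj
    have hj' : (j:ℝ) + 1 ≤ Z.card + 1 := by
      have := Finset.mem_range.1 hj
      exact_mod_cast this
    have hj0 : (0:ℝ) ≤ j := by positivity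
    apply hcon
    · nlinarith
    · nlinarith
  choose! g hg1 hg2 using hx
  have hinj : Set.InjOn g (Finset.range (Z.card + 1) : Set ℕ) := by
    intro j hj k hk hjk
    have h1 := hg2 j hj
    have h2 := hg2 k hk
    rw [hjk] at h1
    rw [abs_lt] at h1 h2
    by_contra hne
    rcases Nat.lt_or_gt_of_ne hne with hlt | hlt
    · have : (j:ℝ) + 1 ≤ k := by exact_mod_cast hlt
      nlinarith [h1.1, h1.2, h2.1, h2.2]
    · have : (k:ℝ) + 1 ≤ j := by exact_mod_cast hlt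
      nlinarith [h1.1, h1.2, h2.1, h2.2]
  have h3 := Finset.card_le_card_of_injOn g hg1 hinj
  rw [Finset.card_range] at h3
  omega

end Pool.Agent.R240.LL
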