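import Pool.Agent.R240.LL2
import Pool.Agent.Y736.HG7

set_option autoImplicit false

/-! # Local law for the centres -/

namespace Pool.Agent.R240.LL

open Complex Metric Set Filter Topology MeasureTheory Pool.Agent.H712R2 Pool.Agent.H713R2
open N62a1eb23
open Real (posLog circleAverage)
open Pool.Agent.Y736.HD Pool.Agent.Y736.HG
open Pool.Agent.R240.Trans

variable {d : ℕ} {ψ : ℂ → ℂ}

/-- the closing constant -/
noncomputable def Qn (d n : ℕ) : ℝ := (16 * KN + 2) * (48 * Trans.AA d ^ 2) ^ n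

theorem Qn_ge (hd : 2 ≤ d) (n : ℕ) : 2 * (48 * Trans.AA d ^ 2) ^ n ≤ Qn d n := by
  have hK := KN_pos
  have hA := AA_one hd
  unfold Qn
  gcongr
  linarith

/-- **Lower bound of the critical orbit away from the centres.** -/
theorem low_near (hd : 2 ≤ d) {z : ℂ} (hz : z ∈ multibrotSet d) {n : ℕ} (hn : 1 ≤ n) {η : ℝ}
    (hη0 : 0 < η) (hη4 : η ≤ 4) (h : ∀ a, P d n a = 0 → η ≤ ‖a - z‖) :
    -(2 * Real.log (2 * Qn d n / η)) ≤ Real.log ‖P d n z‖ := by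
  obtain ⟨a, ha, hac⟩ := closing hd hz hn
  have h1 := (h a ha).trans hac
  have hA := AA_one hd
  have hK := KN_pos
  obtain ⟨x, hx⟩ : ∃ x, x = ‖P d n z‖ := ⟨_, rfl⟩
  have hx0 : 0 ≤ x := by rw [hx]; exact norm_nonneg _
  rw [← hx] at h1 ⊢
  have h2 : η ≤ Qn d n * (x * (1 + |Real.log x|)) := h1
  have hQ : 2 ≤ Qn d n := by
    have := Qn_ge hd n
    have h3 : (1:ℝ) ≤ (48 * Trans.AA d ^ 2) ^ n := one_le_pow₀ (by nlinarith)
    linarith
  have hxpos : 0 < x := by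
    rcases hx0.eq_or_lt with h3 | h3
    · rw [← h3, zero_mul, mul_zero] at h2
      linarith
    · exact h3
  have h4 : 1 ≤ 2 * Qn d n / η := by
    rw [le_div_iff₀ hη0]
    linarith
  rcases le_or_gt 1 x with h5 | h5
  · have := Real.log_nonneg h5
    have := Real.log_nonneg h4
    linarith
  · have h6 : η ≤ 2 * Qn d n * √x := by
      calc η ≤ Qn d n * (x * (1 + |Real.log x|)) := h2
        _ ≤ Qn d n * (x * (2 + |Real.log x|)) := by gcongr; norm_num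
        _ ≤ Qn d n * (2 * √x) := by
            have := xlog_le hx0 h5.le
            gcongr
        _ = _ := by ring
    have hs : 0 < √x := Real.sqrt_pos.2 hxpos
    have h7 := Real.log_le_log hη0 h6
    rw [Real.log_mul (by positivity) hs.ne', Real.log_sqrt hx0] at h7
    rw [Real.log_div (by positivity) hη0.ne']
    linarith

/-- the base of the error -/
noncomputable def KB : ℝ := 24 * 48 * 48 * 256 * (16 * KN + 2) * 384000000 ^ 3

noncomputable def BB (d : ℕ) : ℝ := KB * (d:ℝ) ^ 10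

theorem KB_one : 1 ≤ KB := by
  have hK := KN_pos
  unfold KB
  nlinarith

theorem BB_one (hd : 2 ≤ d) : 1 ≤ BB d := by
  have hd0 : (2:ℝ) ≤ d := by exact_mod_cast hd
  have h1 : (1:ℝ) ≤ (d:ℝ) ^ 10 := one_le_pow₀ (by linarith)
  unfold BB
  exact one_le_mul_of_one_le_of_one_le KB_one h1

theorem BB_pow (hd : 2 ≤ d) (N : ℕ) : 24 * Qn d (N + 1) * ((d:ℝ) ^ N) ^ 2 *
    (48 * (256 * d ^ 2 * Trans.AA d) ^ (N + 1)) ≤ BB d ^ (N + 1) := by
  have hd0 : (2:ℝ) ≤ d := by exact_mod_cast hd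
  have hK := KN_pos
  have hA := AA_one hd
  have h1 : (d:ℝ) ^ N ≤ d ^ (N + 1) := pow_le_pow_right₀ (by linarith) (by omega)
  have h2 : (24 * 48 * (16 * KN + 2) : ℝ) ≤ (24 * 48 * (16 * KN + 2)) ^ (N + 1) := by
    calc (24 * 48 * (16 * KN + 2) : ℝ) = (24 * 48 * (16 * KN + 2)) ^ 1 := (pow_one _).symm
      _ ≤ _ := pow_le_pow_right₀ (by linarith) (by omega)
  unfold Qn
  calc 24 * ((16 * KN + 2) * (48 * Trans.AA d ^ 2) ^ (N + 1)) * ((d:ℝ) ^ N) ^ 2 *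
        (48 * (256 * d ^ 2 * Trans.AA d) ^ (N + 1))
      ≤ 24 * ((16 * KN + 2) * (48 * Trans.AA d ^ 2) ^ (N + 1)) * ((d:ℝ) ^ (N + 1)) ^ 2 *
        (48 * (256 * d ^ 2 * Trans.AA d) ^ (N + 1)) := by gcongr
    _ = (24 * 48 * (16 * KN + 2)) * ((48 * Trans.AA d ^ 2) ^ (N + 1) * ((d:ℝ) ^ 2) ^ (N + 1) *
        (256 * d ^ 2 * Trans.AA d) ^ (N + 1)) := by
        rw [← pow_mul, ← pow_mul]
        ring
    _ ≤ (24 * 48 * (16 * KN + 2)) ^ (N + 1) * ((48 * Trans.AA d ^ 2) ^ (N + 1) * ((d:ℝ) ^ 2) ^ (N + 1) *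
        (256 * d ^ 2 * Trans.AA d) ^ (N + 1)) := by gcongr
    _ = BB d ^ (N + 1) := by
        rw [← mul_pow, ← mul_pow, ← mul_pow]
        congr 1
        unfold BB KB Trans.AA
        ring

/-- the error at the good radii -/
noncomputable def EE (d N : ℕ) : ℝ := 2 * ((N + 1 : ℕ) * Real.log (BB d))

theorem EE_ge (hd : 2 ≤ d) (N : ℕ) : Real.log (4 * d * (15 * d) ^ N) ≤ EE d N := by
  have hd0 : (2:ℝ) ≤ d := by exact_mod_cast hd
  have hK := KN_pos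
  have hKB := KB_one
  have h1 : 4 * (d:ℝ) * (15 * d) ^ N ≤ BB d ^ (N + 1) := by
    have h2 : 4 * (d:ℝ) ≤ 15 * d := by linarith
    calc 4 * (d:ℝ) * (15 * d) ^ N ≤ 15 * d * (15 * d) ^ N := by gcongr
      _ = (15 * d) ^ (N + 1) := by ring
      _ ≤ BB d ^ (N + 1) := by
          have h3 : 15 * (d:ℝ) ≤ BB d := by
            unfold BB
            have h4 : (d:ℝ) ≤ d ^ 10 := by
              calc (d:ℝ) = d ^ 1 := (pow_one _).symm
                _ ≤ d ^ 10 := pow_le_pow_right₀ (by linarith) (by norm_num)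
            have h5 : 15 ≤ KB := by unfold KB; nlinarith
            gcongr
          gcongr
  have h2 := Real.log_le_log (by positivity) h1
  rw [Real.log_pow] at h2
  have h3 : 0 ≤ ((N + 1 : ℕ) : ℝ) * Real.log (BB d) :=
    mul_nonneg (by positivity) (Real.log_nonneg (BB_one hd))
  unfold EE
  linarith

/-- the radii -/
theorem pot_good (hd : 2 ≤ d) (hψ : IsExteriorMap (multibrotSet d) ψ) {c₀ : ℂ}
    (hc₀ : c₀ ∈ multibrotSet d) {N : ℕ} {r δ ρ : ℝ} (hδ0 : 0 < δ) (hδ1 : δ ≤ 1)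
    (hδ : 1 ≤ δ * d ^ N) (hr0 : 0 < r) (hr : 1 ≤ 48 * (256 * d ^ 2 * Trans.AA d) ^ (N + 1) * r)
    (hρ : r < ρ) (hg : ∀ a ∈ ZZ d N, δ * r / 3 / (2 * ((ZZ d N).card + 1)) ≤ |‖a - c₀‖ - ρ|) (n : ℕ) :
    (d:ℝ) ^ N * TT ψ c₀ ρ n ≤
      circleAverage (fun z => Real.log ‖P d (N + 1) z‖) c₀ ρ + EE d N := by
  have hd0 : (2:ℝ) ≤ d := by exact_mod_cast hd
  have hK := KN_pos
  have hA := AA_one hd
  apply pot_up hd hψ hc₀ (hr0.trans hρ) N n (EE_ge hd N)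
  intro z hz hzρ
  have hz2 := Pool.Agent.R240.Univ.norm_c_le hd hz
  have hc2 := Pool.Agent.R240.Univ.norm_c_le hd hc₀
  have hρ4 : ρ ≤ 4 := by
    rw [← hzρ]
    have := norm_sub_le z c₀
    linarith
  obtain ⟨η, hη⟩ : ∃ η, η = δ * r / 3 / (2 * ((ZZ d N).card + 1)) := ⟨_, rfl⟩
  rw [← hη] at hg
  have hη0 : 0 < η := by rw [hη]; positivity
  have hcard : ((ZZ d N).card : ℝ) ≤ d ^ N := by exact_mod_cast card_ZZ hd N
  have hη4 : η ≤ 4 := by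
    rw [hη]
    have h1 : δ * r / 3 ≤ 4 := by nlinarith
    refine (div_le_self (by positivity) ?_).trans h1
    have : (0:ℝ) ≤ (ZZ d N).card := by positivity
    linarith
  have h1 := low_near hd hz (by omega : 1 ≤ N + 1) hη0 hη4 (fun a ha => by
    refine (hg a ((mem_ZZ hd).2 ha)).trans ?_
    rw [← hzρ]
    refine (abs_norm_sub_norm_le _ _).trans (le_of_eq ?_)
    congr 1
    ring)
  refine le_trans ?_ h1
  rw [neg_le_neg_iff]
  unfold EE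
  have hQ : 0 < Qn d (N + 1) := by unfold Qn; positivity
  have hDN : (1:ℝ) ≤ d ^ N := one_le_pow₀ (by linarith)
  have h2 : 2 * Qn d (N + 1) / η ≤ BB d ^ (N + 1) := by
    refine le_trans ?_ (BB_pow hd N)
    rw [div_le_iff₀ hη0]
    have h3 : 1 ≤ 12 * ((d:ℝ) ^ N) ^ 2 * (48 * (256 * d ^ 2 * Trans.AA d) ^ (N + 1)) * η := by
      rw [hη]
      have h4 : δ * r / 3 / (2 * (2 * (d:ℝ) ^ N)) ≤ δ * r / 3 / (2 * ((ZZ d N).card + 1)) := by
        gcongr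
        linarith
      calc (1:ℝ) ≤ (δ * d ^ N) * (48 * (256 * d ^ 2 * Trans.AA d) ^ (N + 1) * r) :=
            one_le_mul_of_one_le_of_one_le hδ hr
        _ = 12 * ((d:ℝ) ^ N) ^ 2 * (48 * (256 * d ^ 2 * Trans.AA d) ^ (N + 1)) *
            (δ * r / 3 / (2 * (2 * (d:ℝ) ^ N))) := by field_simp; ring
        _ ≤ _ := by gcongr
    calc 2 * Qn d (N + 1) = 2 * Qn d (N + 1) * 1 := (mul_one _).symm
      _ ≤ 2 * Qn d (N + 1) * (12 * ((d:ℝ) ^ N) ^ 2 * (48 * (256 * d ^ 2 * Trans.AA d) ^ (N + 1)) * η) := by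
          gcongr
      _ = _ := by ring
  have h3 := Real.log_le_log (by positivity) h2
  rw [Real.log_pow] at h3
  linarith

theorem log_low {δ : ℝ} (hδ0 : 0 < δ) (hδ1 : δ ≤ 1) {r ρ₁ ρ₂ : ℝ} (hr : 0 < r) (h0 : r < ρ₁)
    (h1 : ρ₁ < r + δ * r / 3) (h2 : r + 2 * (δ * r / 3) < ρ₂) : δ / 5 ≤ Real.log (ρ₂ / ρ₁) := by
  have hρ1 : 0 < ρ₁ := hr.trans h0
  have h3 : 1 + δ / 4 ≤ ρ₂ / ρ₁ := by
    rw [le_div_iff₀ hρ1]
    have h4 : (1 + δ / 4) * ρ₁ ≤ (1 + δ / 4) * (r + δ * r / 3) := by gcongr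
    have h5 : (1 + δ / 4) * (r + δ * r / 3) ≤ r + 2 * (δ * r / 3) := by
      nlinarith [mul_pos hδ0 hr, mul_le_mul_of_nonneg_left hδ1 (mul_pos hδ0 hr).le]
    linarith
  have h4 := Real.log_le_log (by positivity) h3
  have h5 := Real.one_sub_inv_le_log_of_pos (show 0 < 1 + δ / 4 by positivity)
  have h6 : δ / 5 ≤ 1 - (1 + δ / 4)⁻¹ := by
    have : 1 - (1 + δ / 4)⁻¹ = (δ / 4) / (1 + δ / 4) := by field_simp; ring
    rw [this, div_le_div_iff₀ (by norm_num) (by positivity)]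
    nlinarith
  linarith

/-- the number of zeros in the disc -/
noncomputable def nz (d N : ℕ) (c₀ : ℂ) (r : ℝ) : ℕ := ((ZZ d N).filter (fun a => ‖a - c₀‖ < r)).card

theorem nz_mono (N : ℕ) (c₀ : ℂ) {r r' : ℝ} (h : r ≤ r') : nz d N c₀ r ≤ nz d N c₀ r' := by
  unfold nz
  apply Finset.card_le_card
  intro a ha
  rw [Finset.mem_filter] at ha ⊢
  exact ⟨ha.1, ha.2.trans_le h⟩

theorem nz_le (hd : 2 ≤ d) (N : ℕ) (c₀ : ℂ) (r : ℝ) : nz d N c₀ r ≤ d ^ N := by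
  unfold nz
  exact (Finset.card_filter_le _ _).trans (card_ZZ hd N)

theorem vol_le_one (ψ : ℂ → ℂ) (c₀ : ℂ) (r : ℝ) :
    (volume (Ang ψ c₀ r)).toReal / (2 * Real.pi) ≤ 1 := by
  have hpi := Real.pi_pos
  rw [div_le_one (by positivity)]
  have h1 := measure_mono (μ := volume) (Ang_sub ψ c₀ r)
  rw [Real.volume_Ioc] at h1
  have h2 := ENNReal.toReal_mono ENNReal.ofReal_ne_top h1
  rw [ENNReal.toReal_ofReal (by linarith)] at h2
  linarith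

/-- **The core estimate.** -/
theorem core (hd : 2 ≤ d) (hψ : IsExteriorMap (multibrotSet d) ψ) {c₀ : ℂ}
    (hc₀ : c₀ ∈ multibrotSet d) {N : ℕ} {r δ : ℝ} (hδ0 : 0 < δ) (hδ1 : δ ≤ 1)
    (hδ : 1 ≤ δ * d ^ N) (hr0 : 0 < r) (hr : 1 ≤ 48 * (256 * d ^ 2 * Trans.AA d) ^ (N + 1) * r) :
    (nz d N c₀ r : ℝ) ≤ d ^ N * ((volume (Ang ψ c₀ ((1 + δ) * r))).toReal / (2 * Real.pi)) +
      5 * (Real.log 2 + EE d N) / δ ∧
    d ^ N * ((volume (Ang ψ c₀ r)).toReal / (2 * Real.pi)) ≤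
      nz d N c₀ ((1 + δ) * r) + 5 * (Real.log 2 + EE d N) / δ := by
  have hd0 : (2:ℝ) ≤ d := by exact_mod_cast hd
  have hDN : (1:ℝ) ≤ d ^ N := one_le_pow₀ (by linarith)
  have hl2 : 0 < Real.log 2 := Real.log_pos (by norm_num)
  have hE0 : 0 ≤ EE d N := by
    unfold EE
    have := Real.log_nonneg (BB_one hd)
    positivity
  have hl0 : 0 < δ * r / 3 := by positivity
  have hae := ae_land hd hψ
  obtain ⟨ρ₁, h11, h12, h13⟩ := good (ZZ d N) c₀ (α := r) hl0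
  obtain ⟨ρ₂, h21, h22, h23⟩ := good (ZZ d N) c₀ (α := r + 2 * (δ * r / 3)) hl0
  have hρ1 : 0 < ρ₁ := hr0.trans h11
  have h12' : ρ₁ < ρ₂ := by linarith
  have hlog := log_low hδ0 hδ1 hr0 h11 h12 h21
  have hlog0 : 0 < Real.log (ρ₂ / ρ₁) := lt_of_lt_of_le (by positivity) hlog
  have hη : 0 < δ * r / 3 / (2 * (((ZZ d N).card : ℝ) + 1)) := by positivity
  have hne1 : ∀ a ∈ ZZ d N, ‖a - c₀‖ ≠ ρ₁ := by
    intro a ha h
    have := h13 a ha
    rw [h, sub_self, abs_zero] at this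
    linarith
  have hne2 : ∀ a ∈ ZZ d N, ‖a - c₀‖ ≠ ρ₂ := by
    intro a ha h
    have := h23 a ha
    rw [h, sub_self, abs_zero] at this
    linarith
  obtain ⟨hj1, hj2⟩ := jen_diff hd N hρ1 h12' hne1 hne2
  obtain ⟨J1, hJ1⟩ : ∃ J1, J1 = circleAverage (fun z => Real.log ‖P d (N + 1) z‖) c₀ ρ₁ := ⟨_, rfl⟩
  obtain ⟨J2, hJ2⟩ : ∃ J2, J2 = circleAverage (fun z => Real.log ‖P d (N + 1) z‖) c₀ ρ₂ := ⟨_, rfl⟩
  rw [← hJ1, ← hJ2] at hj1 hj2
  obtain ⟨E, hE⟩ : ∃ E, E = Real.log 2 + EE d N := ⟨_, rfl⟩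
  have hEpos : 0 < E := by rw [hE]; linarith
  rw [← hE]
  have hlow : ∀ n, J1 ≤ (d:ℝ) ^ N * TT ψ c₀ ρ₁ n + Real.log 2 - (d:ℝ) ^ N * Real.log (sn n) ∧
      J2 ≤ (d:ℝ) ^ N * TT ψ c₀ ρ₂ n + Real.log 2 - (d:ℝ) ^ N * Real.log (sn n) := by
    intro n
    rw [hJ1, hJ2]
    exact ⟨pot_low hd hψ hc₀ hρ1 N n, pot_low hd hψ hc₀ (hρ1.trans h12') N n⟩
  have hup : ∀ n, (d:ℝ) ^ N * TT ψ c₀ ρ₁ n ≤ J1 + EE d N ∧
      (d:ℝ) ^ N * TT ψ c₀ ρ₂ n ≤ J2 + EE d N := by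
    intro n
    rw [hJ1, hJ2]
    exact ⟨pot_good hd hψ hc₀ hδ0 hδ1 hδ hr0 hr h11 h13 n,
      pot_good hd hψ hc₀ hδ0 hδ1 hδ hr0 hr (by linarith) h23 n⟩
  -- the logarithms tend to zero
  have hsn : Tendsto (fun n => (d:ℝ) ^ N * Real.log (sn n)) atTop (𝓝 0) := by
    have h1 : Tendsto (fun n => Real.log (sn n)) atTop (𝓝 (Real.log 1)) :=
      (Real.continuousAt_log one_ne_zero).tendsto.comp sn_lim
    rw [Real.log_one] at h1
    have := h1.const_mul ((d:ℝ) ^ N)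
    rwa [mul_zero] at this
  have hEl : E / Real.log (ρ₂ / ρ₁) ≤ 5 * E / δ := by
    rw [div_le_div_iff₀ hlog0 hδ0]
    nlinarith
  constructor
  · apply le_of_forall_pos_le_add
    intro ε hε
    obtain ⟨ε', hε'⟩ : ∃ ε', ε' = ε * (δ / 5) / (d ^ N + 1) := ⟨_, rfl⟩
    have hε'0 : 0 < ε' := by rw [hε']; positivity
    obtain ⟨n, hn1, hn2⟩ := ((DD_limsup hψ hae c₀ (show ρ₂ < (1 + δ) * r by linarith) hε'0).and
      (hsn.eventually (lt_mem_nhds (show -ε' < (0:ℝ) by linarith)))).exists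
    obtain ⟨ω, hω⟩ : ∃ ω, ω = (volume (Ang ψ c₀ ((1 + δ) * r))).toReal / (2 * Real.pi) := ⟨_, rfl⟩
    rw [← hω] at hn1 ⊢
    have h3 := TT_step hψ hc₀ hρ1 h12' n
    have h4 := (hlow n).2
    have h5 := (hup n).1
    have h6 : (nz d N c₀ r : ℝ) ≤ ((ZZ d N).filter (fun a => ‖a - c₀‖ < ρ₁)).card := by
      exact_mod_cast nz_mono N c₀ h11.le
    have h7 : (nz d N c₀ r : ℝ) * Real.log (ρ₂ / ρ₁) ≤
        d ^ N * (ω + ε') * Real.log (ρ₂ / ρ₁) + E + ε' := by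
      calc (nz d N c₀ r : ℝ) * Real.log (ρ₂ / ρ₁) ≤ J2 - J1 := by
            refine le_trans ?_ hj1
            gcongr
        _ ≤ (d:ℝ) ^ N * (TT ψ c₀ ρ₂ n - TT ψ c₀ ρ₁ n) + E + ε' := by
            rw [hE]
            linarith
        _ ≤ (d:ℝ) ^ N * (Real.log (ρ₂ / ρ₁) * cm.real (DD ψ c₀ ρ₂ n)) + E + ε' := by
            gcongr
            linarith
        _ ≤ (d:ℝ) ^ N * (Real.log (ρ₂ / ρ₁) * (ω + ε')) + E + ε' := by gcongr
        _ = _ := by ring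
    have h8 : (nz d N c₀ r : ℝ) ≤ d ^ N * (ω + ε') + (E + ε') / Real.log (ρ₂ / ρ₁) := by
      rw [← sub_le_iff_le_add', le_div_iff₀ hlog0]
      linarith
    have h9 : ε' / Real.log (ρ₂ / ρ₁) ≤ ε / (d ^ N + 1) := by
      rw [div_le_iff₀ hlog0, hε']
      calc ε * (δ / 5) / (d ^ N + 1) = ε / (d ^ N + 1) * (δ / 5) := by ring
        _ ≤ _ := by gcongr
    have h10 : (d:ℝ) ^ N * ε' ≤ d ^ N * (ε / (d ^ N + 1)) := by
      rw [hε']
      gcongr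
      nlinarith
    have h11' : (d:ℝ) ^ N * (ε / (d ^ N + 1)) + ε / (d ^ N + 1) = ε := by field_simp
    rw [add_div] at h8
    linarith
  · apply le_of_forall_pos_le_add
    intro ε hε
    obtain ⟨ε', hε'⟩ : ∃ ε', ε' = ε * (δ / 5) / (d ^ N + 1) := ⟨_, rfl⟩
    have hε'0 : 0 < ε' := by rw [hε']; positivity
    obtain ⟨n, hn1, hn2⟩ := ((DD_liminf c₀ r hε'0 hψ).and
      (hsn.eventually (lt_mem_nhds (show -ε' < (0:ℝ) by linarith)))).exists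
    obtain ⟨ω, hω⟩ : ∃ ω, ω = (volume (Ang ψ c₀ r)).toReal / (2 * Real.pi) := ⟨_, rfl⟩
    rw [← hω] at hn1 ⊢
    have h3 := TT_low hψ hc₀ hρ1 h12' n
    have h4 := (hlow n).1
    have h5 := (hup n).2
    have h6 : (((ZZ d N).filter (fun a => ‖a - c₀‖ < ρ₂)).card : ℝ) ≤ nz d N c₀ ((1 + δ) * r) := by
      exact_mod_cast nz_mono N c₀ (show ρ₂ ≤ (1 + δ) * r by linarith)
    have hmonoD : cm.real (DD ψ c₀ r n) ≤ cm.real (DD ψ c₀ ρ₁ n) := by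
      refine measureReal_mono ?_ (measure_ne_top _ _)
      intro θ hθ
      exact lt_trans hθ h11
    have h7 : d ^ N * (ω - ε') * Real.log (ρ₂ / ρ₁) ≤
        (nz d N c₀ ((1 + δ) * r) : ℝ) * Real.log (ρ₂ / ρ₁) + E + ε' := by
      calc d ^ N * (ω - ε') * Real.log (ρ₂ / ρ₁)
          ≤ (d:ℝ) ^ N * (Real.log (ρ₂ / ρ₁) * cm.real (DD ψ c₀ ρ₁ n)) := by
            rw [mul_assoc, mul_comm (ω - ε')]
            gcongr
            linarith
        _ ≤ (d:ℝ) ^ N * (TT ψ c₀ ρ₂ n - TT ψ c₀ ρ₁ n) := by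
            gcongr
            linarith
        _ ≤ J2 - J1 + E + ε' := by
            rw [hE]
            linarith
        _ ≤ (nz d N c₀ ((1 + δ) * r) : ℝ) * Real.log (ρ₂ / ρ₁) + E + ε' := by
            have := hj2.trans (mul_le_mul_of_nonneg_right h6 hlog0.le)
            linarith
    have h8 : d ^ N * (ω - ε') ≤ nz d N c₀ ((1 + δ) * r) + (E + ε') / Real.log (ρ₂ / ρ₁) := by
      rw [← sub_le_iff_le_add', le_div_iff₀ hlog0]
      linarith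
    have h9 : ε' / Real.log (ρ₂ / ρ₁) ≤ ε / (d ^ N + 1) := by
      rw [div_le_iff₀ hlog0, hε']
      calc ε * (δ / 5) / (d ^ N + 1) = ε / (d ^ N + 1) * (δ / 5) := by ring
        _ ≤ _ := by gcongr
    have h10 : (d:ℝ) ^ N * ε' ≤ d ^ N * (ε / (d ^ N + 1)) := by
      rw [hε']
      gcongr
      nlinarith
    have h11' : (d:ℝ) ^ N * (ε / (d ^ N + 1)) + ε / (d ^ N + 1) = ε := by field_simp
    rw [add_div] at h8
    linarith

end Pool.Agent.R240.LL
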