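import Pool.Agent.R240.LL3

set_option autoImplicit false

/-! # Local law for the centres, all scales -/

namespace Pool.Agent.R240.LL

open Complex Metric Set Filter Topology MeasureTheory Pool.Agent.H712R2 Pool.Agent.H713R2
open N62a1eb23
open Real (posLog circleAverage)
open Pool.Agent.Y736.HD Pool.Agent.Y736.HG
open Pool.Agent.R240.Trans

variable {d : ℕ} {ψ : ℂ → ℂ}

/-- the constant -/
noncomputable def KL : ℝ := 5 * (1 + 2 * (Real.log KB / Real.log 2 + 10)) + 1 / Real.log 2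

theorem KL_pos : 0 < KL := by
  have h1 := Real.log_nonneg KB_one
  have h2 : 0 < Real.log 2 := Real.log_pos (by norm_num)
  unfold KL
  positivity

theorem err_le (hd : 2 ≤ d) (N : ℕ) {δ : ℝ} (hδ0 : 0 < δ) (hδ1 : δ ≤ 1) :
    5 * (Real.log 2 + EE d N) / δ + 1 ≤ KL * (N + 1 : ℕ) * Real.log d / δ := by
  have hd0 : (2:ℝ) ≤ d := by exact_mod_cast hd
  have h1 := Real.log_nonneg KB_one
  have h2 : 0 < Real.log 2 := Real.log_pos (by norm_num)
  have h3 : Real.log 2 ≤ Real.log d := Real.log_le_log (by norm_num) hd0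
  have hN : (1:ℝ) ≤ (N + 1 : ℕ) := by
    push_cast
    linarith [(Nat.cast_nonneg N : (0:ℝ) ≤ N)]
  obtain ⟨n, hn⟩ : ∃ n : ℝ, n = (N + 1 : ℕ) := ⟨_, rfl⟩
  have hBB : Real.log (BB d) = Real.log KB + 10 * Real.log d := by
    unfold BB
    rw [Real.log_mul (by linarith [KB_one]) (by positivity), Real.log_pow]
    norm_num
  have h4 : Real.log KB ≤ Real.log KB / Real.log 2 * Real.log d := by
    rw [div_mul_eq_mul_div, le_div_iff₀ h2]
    gcongr
  have h5 : EE d N ≤ 2 * (Real.log KB / Real.log 2 + 10) * (n * Real.log d) := by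
    unfold EE
    rw [← hn, hBB]
    have h6 : n * (Real.log KB + 10 * Real.log d) ≤
        n * (Real.log KB / Real.log 2 * Real.log d + 10 * Real.log d) := by
      have : 0 ≤ n := by rw [hn]; positivity
      gcongr
    calc 2 * (n * (Real.log KB + 10 * Real.log d)) ≤
          2 * (n * (Real.log KB / Real.log 2 * Real.log d + 10 * Real.log d)) := by gcongr
      _ = _ := by ring
  have h6 : Real.log 2 ≤ n * Real.log d := by
    rw [← hn] at hN
    nlinarith
  have h7 : 1 ≤ 1 / Real.log 2 * (n * Real.log d) := by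
    rw [one_div_mul_eq_div, le_div_iff₀ h2, one_mul]
    exact h6
  rw [← hn, div_add' _ _ _ hδ0.ne', div_le_div_iff_of_pos_right hδ0]
  have h8 : 0 < 1 / Real.log 2 := by positivity
  unfold KL
  have h9 : 1 * δ ≤ 1 / Real.log 2 * (n * Real.log d) := by linarith
  calc 5 * (Real.log 2 + EE d N) + 1 * δ ≤ 5 * (n * Real.log d +
        2 * (Real.log KB / Real.log 2 + 10) * (n * Real.log d)) +
        1 / Real.log 2 * (n * Real.log d) := add_le_add (by gcongr) h9
    _ = _ := by ring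

/-- at most one centre in the small discs -/
theorem nz_small (hd : 2 ≤ d) (N : ℕ) (c₀ : ℂ) {r : ℝ}
    (hr : 24 * (256 * d ^ 2 * Trans.AA d) ^ (N + 1) * r ≤ 1) : nz d N c₀ r ≤ 1 := by
  have hA := AA_one hd
  unfold nz
  rw [Finset.card_le_one]
  intro a ha b hb
  rw [Finset.mem_filter, mem_ZZ hd] at ha hb
  by_contra hab
  have h1 := Pool.Agent.R240.Trans.sep hd (n := N + 1) (by omega) (by omega) le_rfl le_rfl ha.1 hb.1 hab
  have h2 : ‖a - b‖ < 2 * r := by
    have h3 : a - b = (a - c₀) - (b - c₀) := by ring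
    rw [h3]
    have := norm_sub_le (a - c₀) (b - c₀)
    linarith [ha.2, hb.2]
  have h3 : 0 < 12 * (256 * (d:ℝ) ^ 2 * Trans.AA d) ^ (N + 1) := by
    have : (0:ℝ) < d := by exact_mod_cast (by omega : 0 < d)
    positivity
  have h4 := mul_lt_mul_of_pos_left h2 h3
  linarith

/-- **Local law.** -/
theorem law (hd : 2 ≤ d) (hψ : IsExteriorMap (multibrotSet d) ψ) {c₀ : ℂ}
    (hc₀ : c₀ ∈ multibrotSet d) (N : ℕ) {r δ : ℝ} (hr0 : 0 < r) (hδ0 : 0 < δ) (hδ1 : δ ≤ 1) :
    (nz d N c₀ r : ℝ) ≤ d ^ N * ((volume (Ang ψ c₀ ((1 + δ) * r))).toReal / (2 * Real.pi)) +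
      KL * (N + 1 : ℕ) * Real.log d / δ ∧
    d ^ N * ((volume (Ang ψ c₀ r)).toReal / (2 * Real.pi)) ≤
      nz d N c₀ ((1 + δ) * r) + KL * (N + 1 : ℕ) * Real.log d / δ := by
  have hd0 : (2:ℝ) ≤ d := by exact_mod_cast hd
  have hpi := Real.pi_pos
  have herr := err_le hd N hδ0 hδ1
  have hl2 : 0 < Real.log 2 := Real.log_pos (by norm_num)
  have hE0 : 0 ≤ EE d N := by
    unfold EE
    have := Real.log_nonneg (BB_one hd)
    positivity
  have herr0 : 0 ≤ 5 * (Real.log 2 + EE d N) / δ := by positivity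
  have hω : ∀ s, 0 ≤ (d:ℝ) ^ N * ((volume (Ang ψ c₀ s)).toReal / (2 * Real.pi)) := by
    intro s
    positivity
  rcases lt_or_ge (δ * d ^ N) 1 with hδ | hδ
  · -- trivial case
    have h1 : (d:ℝ) ^ N ≤ KL * (N + 1 : ℕ) * Real.log d / δ := by
      rw [le_div_iff₀ hδ0]
      have h2 : 1 ≤ KL * (N + 1 : ℕ) * Real.log d := by
        have h3 : Real.log 2 ≤ Real.log d := Real.log_le_log (by norm_num) hd0
        have hN : (1:ℝ) ≤ (N + 1 : ℕ) := by
          push_cast
          linarith [(Nat.cast_nonneg N : (0:ℝ) ≤ N)]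
        have h4 : 1 / Real.log 2 ≤ KL := by
          have h1 := Real.log_nonneg KB_one
          unfold KL
          have : 0 ≤ 5 * (1 + 2 * (Real.log KB / Real.log 2 + 10)) := by positivity
          linarith
        have hKL := KL_pos
        calc (1:ℝ) = 1 / Real.log 2 * 1 * Real.log 2 := by field_simp
          _ ≤ KL * (N + 1 : ℕ) * Real.log d := by gcongr
      linarith
    constructor
    · have h2 : (nz d N c₀ r : ℝ) ≤ d ^ N := by exact_mod_cast nz_le hd N c₀ r
      linarith [hω ((1 + δ) * r)]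
    · have h2 := mul_le_mul_of_nonneg_left (vol_le_one ψ c₀ r) (by positivity : (0:ℝ) ≤ d ^ N)
      have h3 : (0:ℝ) ≤ nz d N c₀ ((1 + δ) * r) := by positivity
      linarith
  · rcases le_or_gt 1 (48 * (256 * d ^ 2 * Trans.AA d) ^ (N + 1) * r) with hr | hr
    · obtain ⟨h1, h2⟩ := core hd hψ hc₀ hδ0 hδ1 hδ hr0 hr
      constructor <;> linarith
    · -- small radii
      have hA := AA_one hd
      obtain ⟨X, hX⟩ : ∃ X : ℝ, X = (256 * d ^ 2 * Trans.AA d) ^ (N + 1) := ⟨_, rfl⟩
      have hX0 : 0 < X := by rw [hX]; positivity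
      obtain ⟨r₁, hr₁⟩ : ∃ r₁ : ℝ, r₁ = 1 / (48 * X) := ⟨_, rfl⟩
      have hr10 : 0 < r₁ := by rw [hr₁]; positivity
      have hrr : r ≤ r₁ := by
        rw [hr₁, le_div_iff₀ (by positivity)]
        rw [← hX] at hr
        linarith
      have h1 : nz d N c₀ (2 * r₁) ≤ 1 := by
        apply nz_small hd
        rw [← hX, hr₁]
        apply le_of_eq
        field_simp
        norm_num
      obtain ⟨-, h3⟩ := core hd hψ hc₀ (r := r₁) hδ0 hδ1 hδ hr10 (by
        rw [← hX, hr₁]
        apply le_of_eq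
        field_simp)
      constructor
      · have h2 : (nz d N c₀ r : ℝ) ≤ 1 := by
          have h4 := (nz_mono (d := d) N c₀ (show r ≤ 2 * r₁ by linarith)).trans h1
          exact_mod_cast h4
        linarith [hω ((1 + δ) * r)]
      · have h2 : (nz d N c₀ ((1 + δ) * r₁) : ℝ) ≤ 1 := by
          have h4 := (nz_mono (d := d) N c₀ (show (1 + δ) * r₁ ≤ 2 * r₁ by nlinarith)).trans h1
          exact_mod_cast h4
        have h4 : (volume (Ang ψ c₀ r)).toReal ≤ (volume (Ang ψ c₀ r₁)).toReal := by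
          apply ENNReal.toReal_mono (vol_Ang_ne ψ c₀ r₁)
          apply measure_mono
          rintro θ ⟨h5, ζ, h6, h7⟩
          exact ⟨h5, ζ, ball_subset_ball hrr h6, h7⟩
        have h5 : (d:ℝ) ^ N * ((volume (Ang ψ c₀ r)).toReal / (2 * Real.pi)) ≤
            d ^ N * ((volume (Ang ψ c₀ r₁)).toReal / (2 * Real.pi)) := by gcongr
        have h6 : (0:ℝ) ≤ nz d N c₀ ((1 + δ) * r) := by positivity
        linarith

end Pool.Agent.R240.LL
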