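import Mathlib

set_option autoImplicit false

/-! # Continua that are not locally connected -/

namespace Pool.Agent.R240.Loc

open Set Metric Filter Topology

/-- `K` is connected im kleinen at `p`. -/
def CIK (K : Set ℂ) (p : ℂ) : Prop :=
  ∀ ε : ℝ, 0 < ε → ∃ δ : ℝ, 0 < δ ∧ ∀ q ∈ K, dist q p < δ →
    ∃ C ⊆ K ∩ ball p ε, IsPreconnected C ∧ p ∈ C ∧ q ∈ C

/-- Boundary bumping. -/
theorem bump {K : Set ℂ} (hK : IsCompact K) (hc : IsPreconnected K) {p q k : ℂ} {ε : ℝ}
    (hq : q ∈ K) (hqp : dist q p < ε) (hk : k ∈ K) (hkp : ε < dist k p) :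
    ∃ y ∈ connectedComponentIn (K ∩ closedBall p ε) q, dist y p = ε := by
  obtain ⟨F, hF⟩ : ∃ F : Set ℂ, F = K ∩ closedBall p ε := ⟨_, rfl⟩
  rw [← hF]
  have hFc : IsCompact F := by rw [hF]; exact hK.inter_right isClosed_closedBall
  have hqF : q ∈ F := by rw [hF]; exact ⟨hq, mem_closedBall.2 hqp.le⟩
  rw [connectedComponentIn_eq_image hqF]
  have : CompactSpace F := isCompact_iff_compactSpace.1 hFc
  by_contra hcon
  push Not at hcon
  have hcon' : ∀ y ∈ connectedComponent (⟨q, hqF⟩ : F), dist (y : ℂ) p ≠ ε := by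
    intro y hy
    exact hcon y ⟨y, hy, rfl⟩
  rw [connectedComponent_eq_iInter_isClopen] at hcon'
  obtain ⟨S, hS⟩ : ∃ S : Set F, S = {y : F | dist (y : ℂ) p = ε} := ⟨_, rfl⟩
  have hSc : IsCompact S := by
    apply IsClosed.isCompact
    rw [hS]
    exact isClosed_eq (by fun_prop) continuous_const
  have hempty : S ∩ ⋂ s : { s : Set F // IsClopen s ∧ (⟨q, hqF⟩ : F) ∈ s }, (s : Set F) = ∅ := by
    rw [eq_empty_iff_forall_notMem]
    rintro y ⟨h1, h2⟩
    apply hcon' y h2
    rw [hS] at h1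
    exact h1
  obtain ⟨t, ht⟩ := hSc.elim_finite_subfamily_closed
    (fun s : { s : Set F // IsClopen s ∧ (⟨q, hqF⟩ : F) ∈ s } => (s : Set F))
    (fun s => s.2.1.1) hempty
  obtain ⟨A, hA⟩ : ∃ A : Set F, A = ⋂ s ∈ t, (s : Set F) := ⟨_, rfl⟩
  have hAclopen : IsClopen A := by
    rw [hA]
    exact isClopen_biInter_finset fun s _ => s.2.1
  have hqA : (⟨q, hqF⟩ : F) ∈ A := by
    rw [hA]
    simp only [mem_iInter]
    intro s _
    exact s.2.2
  have hAS : ∀ y ∈ A, dist (y : ℂ) p < ε := by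
    intro y hy
    have h1 : dist (y : ℂ) p ≤ ε := by
      have h0 : (y : ℂ) ∈ K ∩ closedBall p ε := hF ▸ y.2
      exact h0.2
    refine lt_of_le_of_ne h1 fun h2 => ?_
    have h3 : y ∈ S ∩ ⋂ i ∈ t, (i : Set F) := ⟨by rw [hS]; exact h2, by rw [← hA]; exact hy⟩
    rw [ht] at h3
    exact h3
  -- the image of `A`
  obtain ⟨A', hA'⟩ : ∃ A' : Set ℂ, A' = (fun y : F => (y : ℂ)) '' A := ⟨_, rfl⟩
  have hA'c : IsClosed A' := by
    rw [hA']
    exact (hAclopen.1.isCompact.image continuous_subtype_val).isClosed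
  obtain ⟨U, hU, hUA⟩ := isOpen_induced_iff.1 hAclopen.2
  have hA'e : ∀ y ∈ K, y ∈ U ∩ ball p ε → y ∈ A' := by
    intro y hy hyU
    have hyF : y ∈ F := by rw [hF]; exact ⟨hy, ball_subset_closedBall hyU.2⟩
    rw [hA']
    refine ⟨⟨y, hyF⟩, ?_, rfl⟩
    rw [← hUA]
    exact hyU.1
  have h1 := hc (U ∩ ball p ε) A'ᶜ (hU.inter isOpen_ball) hA'c.isOpen_compl (by
    intro y hy
    by_cases hyA : y ∈ A'
    · left
      rw [hA'] at hyA
      obtain ⟨z, hz, rfl⟩ := hyA
      refine ⟨?_, mem_ball.2 (hAS z hz)⟩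
      rw [← hUA] at hz
      exact hz
    · right; exact hyA) ⟨q, hq, by
        refine ⟨?_, mem_ball.2 hqp⟩
        rw [← hUA] at hqA
        exact hqA⟩ ⟨k, hk, by
        intro hkA
        rw [hA'] at hkA
        obtain ⟨z, hz, rfl⟩ := hkA
        exact absurd (hAS z hz) (not_lt.2 hkp.le)⟩
  obtain ⟨y, hy1, hy2, hy3⟩ := h1
  exact hy3 (hA'e y hy1 hy2)

/-- If a continuum is not connected im kleinen at a point then it has points of the same kind at
all small distances from this point. -/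
theorem spread {K : Set ℂ} (hK : IsCompact K) (hc : IsPreconnected K) {p : ℂ}
    (h : ¬ CIK K p) : ∃ ε : ℝ, 0 < ε ∧ ∀ s : ℝ, 0 < s → s < ε → ∃ z ∈ K, dist z p = s ∧
      ¬ CIK K z := by
  unfold CIK at h
  push Not at h
  obtain ⟨ε₀, hε₀, h⟩ := h
  obtain ⟨ε, hε⟩ : ∃ ε, ε = ε₀ / 2 := ⟨_, rfl⟩
  have hε0 : 0 < ε := by rw [hε]; linarith
  have hεε : ε < ε₀ := by rw [hε]; linarith
  obtain ⟨q, hq⟩ : ∃ q : ℕ → ℂ, ∀ n, q n ∈ K ∧ dist (q n) p < 1 / ((n : ℝ) + 1) ∧
      ∀ C ⊆ K ∩ ball p ε₀, IsPreconnected C → p ∈ C → q n ∉ C := by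
    have h1 : ∀ n : ℕ, ∃ y, y ∈ K ∧ dist y p < 1 / ((n : ℝ) + 1) ∧
      ∀ C ⊆ K ∩ ball p ε₀, IsPreconnected C → p ∈ C → y ∉ C := by
      intro n
      obtain ⟨y, h1, h2, h3⟩ := h (1 / ((n : ℝ) + 1)) (by positivity)
      exact ⟨y, h1, h2, h3⟩
    choose q hq using h1
    exact ⟨q, hq⟩
  have hqlim : Tendsto q atTop (𝓝 p) := by
    rw [tendsto_iff_dist_tendsto_zero]
    exact squeeze_zero (fun _ => dist_nonneg) (fun n => (hq n).2.1.le)
      tendsto_one_div_add_atTop_nhds_zero_nat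
  have hpK : p ∈ K := hK.isClosed.mem_of_tendsto hqlim (Eventually.of_forall fun n => (hq n).1)
  obtain ⟨k, hk, hkp⟩ : ∃ k ∈ K, ε < dist k p := by
    by_contra hcon
    push Not at hcon
    exact (hq 0).2.2 K (fun y hy => ⟨hy, mem_ball.2 ((hcon y hy).trans_lt hεε)⟩) hc hpK (hq 0).1
  obtain ⟨F, hF⟩ : ∃ F : Set ℂ, F = K ∩ closedBall p ε := ⟨_, rfl⟩
  have hFc : IsCompact F := by rw [hF]; exact hK.inter_right isClosed_closedBall
  have hFsub : F ⊆ K ∩ ball p ε₀ := by
    rw [hF]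
    exact fun y hy => ⟨hy.1, closedBall_subset_ball hεε hy.2⟩
  have hqε : ∀ᶠ n in atTop, q n ∈ F := by
    filter_upwards [hqlim (closedBall_mem_nhds p hε0)] with n hn
    rw [hF]
    exact ⟨(hq n).1, hn⟩
  -- `p` is not in the components
  have hpC : ∀ n, q n ∈ F → p ∉ connectedComponentIn F (q n) := by
    intro n hn hp
    exact (hq n).2.2 _ ((connectedComponentIn_subset F (q n)).trans hFsub)
      isPreconnected_connectedComponentIn hp (mem_connectedComponentIn hn)
  refine ⟨ε, hε0, fun s hs0 hsε => ?_⟩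
  -- points of the components on the circle
  have hz : ∀ᶠ n in atTop, ∃ z ∈ connectedComponentIn F (q n), dist z p = s := by
    filter_upwards [hqε, hqlim (ball_mem_nhds p hs0)] with n hn1 hn2
    rw [mem_preimage, mem_ball] at hn2
    obtain ⟨y, hy, hyp⟩ := bump hK hc (hq n).1 (hn2.trans hsε) hk hkp
    rw [← hF] at hy
    have h1 : IsPreconnected (connectedComponentIn F (q n)) := isPreconnected_connectedComponentIn
    have h2 := h1.intermediate_value (mem_connectedComponentIn hn1) hy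
      (f := fun x => dist x p) (by fun_prop)
    obtain ⟨z, hz1, hz2⟩ := h2 (show s ∈ Icc _ _ from ⟨hn2.le, by rw [hyp]; exact hsε.le⟩)
    exact ⟨z, hz1, hz2⟩
  obtain ⟨n₀, hn₀⟩ := eventually_atTop.1 (hz.and hqε)
  have hz' : ∀ n : ℕ, ∃ z ∈ connectedComponentIn F (q (n + n₀)), dist z p = s :=
    fun n => (hn₀ (n + n₀) (by omega)).1
  choose z hz1 hz2 using hz'
  have hzK : ∀ n, z n ∈ F := fun n => connectedComponentIn_subset _ _ (hz1 n)
  obtain ⟨w, hwF, φ, hφ, hlim⟩ := hFc.tendsto_subseq hzK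
  have hwp : dist w p = s := by
    have h1 : Tendsto (fun n => dist ((z ∘ φ) n) p) atTop (𝓝 (dist w p)) :=
      hlim.dist tendsto_const_nhds
    have h2 : Tendsto (fun n => dist ((z ∘ φ) n) p) atTop (𝓝 s) := by
      have : (fun n => dist ((z ∘ φ) n) p) = fun _ => s := by
        funext n
        exact hz2 _
      rw [this]
      exact tendsto_const_nhds
    exact tendsto_nhds_unique h1 h2
  refine ⟨w, by rw [hF] at hwF; exact hwF.1, hwp, ?_⟩
  intro hcik
  obtain ⟨δ, hδ, hcik⟩ := hcik (ε - s) (by linarith)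
  have hsubF : K ∩ ball w (ε - s) ⊆ F := by
    rintro y ⟨hy1, hy2⟩
    rw [hF]
    refine ⟨hy1, mem_closedBall.2 ?_⟩
    rw [mem_ball] at hy2
    have := dist_triangle y w p
    linarith
  have hev : ∀ᶠ n in atTop, connectedComponentIn F (q (φ n + n₀)) = connectedComponentIn F w := by
    filter_upwards [hlim (ball_mem_nhds w hδ)] with n hn
    rw [mem_preimage, mem_ball] at hn
    obtain ⟨C, hC1, hC2, hC3, hC4⟩ := hcik (z (φ n)) (by
      have := hzK (φ n)
      rw [hF] at this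
      exact this.1) hn
    have h1 : C ⊆ connectedComponentIn F w :=
      hC2.subset_connectedComponentIn hC3 (hC1.trans hsubF)
    rw [connectedComponentIn_eq (hz1 (φ n)), ← connectedComponentIn_eq (h1 hC4)]
  obtain ⟨n₁, hn₁⟩ := eventually_atTop.1 hev
  have hclosed : IsClosed (connectedComponentIn F w) := by
    rw [connectedComponentIn_eq_image hwF]
    have : CompactSpace F := isCompact_iff_compactSpace.1 hFc
    exact (isClosed_connectedComponent.isCompact.image continuous_subtype_val).isClosed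
  have hqlim2 : Tendsto (fun n => q (φ n + n₀)) atTop (𝓝 p) :=
    hqlim.comp (tendsto_atTop_mono (fun n => by
      have := hφ.id_le n
      show n ≤ φ n + n₀
      have h2 : n ≤ φ n := this
      omega) tendsto_id)
  have hpw : p ∈ connectedComponentIn F w := by
    apply hclosed.mem_of_tendsto hqlim2
    filter_upwards [eventually_ge_atTop n₁] with n hn
    rw [← hn₁ n hn]
    exact mem_connectedComponentIn (hn₀ (φ n + n₀) (by omega)).2
  rw [← hn₁ n₁ le_rfl] at hpw
  exact hpC _ (hn₀ (φ n₁ + n₀) (by omega)).2 hpw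

/-- Local connectedness in terms of connectedness im kleinen. -/
theorem lcs_iff {K : Set ℂ} : LocallyConnectedSpace K ↔ ∀ p ∈ K, CIK K p := by
  constructor
  · intro h p hp ε hε
    have hb := h.open_connected_basis ⟨p, hp⟩
    have hmem : (Subtype.val ⁻¹' ball p ε : Set K) ∈ 𝓝 (⟨p, hp⟩ : K) :=
      continuous_subtype_val.continuousAt.preimage_mem_nhds (ball_mem_nhds p hε)
    obtain ⟨V, ⟨hV1, hV2, hV3⟩, hV4⟩ := hb.mem_iff.1 hmem
    obtain ⟨U, hU, hUV⟩ := isOpen_induced_iff.1 hV1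
    have hpU : p ∈ U := by
      rw [← hUV] at hV2
      exact hV2
    obtain ⟨δ, hδ, hδU⟩ := Metric.isOpen_iff.1 hU p hpU
    refine ⟨δ, hδ, fun q hq hqp => ⟨Subtype.val '' V, ?_, ?_, ⟨_, hV2, rfl⟩, ?_⟩⟩
    · rintro _ ⟨y, hy, rfl⟩
      exact ⟨y.2, hV4 hy⟩
    · exact hV3.isPreconnected.image _ continuous_subtype_val.continuousOn
    · refine ⟨⟨q, hq⟩, ?_, rfl⟩
      rw [← hUV]
      exact hδU (mem_ball.2 hqp)
  · intro h
    have hb : ∀ x : K, (𝓝 x).HasBasis (fun ε : ℝ => 0 < ε) (fun ε =>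
        connectedComponentIn (Subtype.val ⁻¹' ball (x : ℂ) ε : Set K) x) := by
      intro x
      constructor
      intro t
      constructor
      · intro ht
        obtain ⟨ε, hε, hεt⟩ := Metric.mem_nhds_iff.1 ht
        refine ⟨ε, hε, (connectedComponentIn_subset _ _).trans ?_⟩
        intro y hy
        exact hεt hy
      · rintro ⟨ε, hε, hεt⟩
        refine mem_of_superset ?_ hεt
        obtain ⟨δ, hδ, h1⟩ := h x x.2 ε hε
        refine mem_of_superset (ball_mem_nhds x hδ) ?_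
        intro y hy
        obtain ⟨C, hC1, hC2, hC3, hC4⟩ := h1 y y.2 hy
        have h2 : IsPreconnected (Subtype.val ⁻¹' C : Set K) := by
          rw [← Topology.IsInducing.subtypeVal.isPreconnected_image, Subtype.image_preimage_coe,
            inter_eq_right.2 (hC1.trans inter_subset_left)]
          exact hC2
        exact h2.subset_connectedComponentIn hC3 (fun z hz => (hC1 hz).2) hC4
    exact locallyConnectedSpace_of_connected_bases _ _ hb
      fun x ε _ => isPreconnected_connectedComponentIn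

end Pool.Agent.R240.Loc
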