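import Mathlib

set_option autoImplicit false

/-! # A linear bound for the number of scales of a finite set in the plane -/

namespace Pool.Agent.R240

open Metric Set MeasureTheory

/-- packing -/
theorem packing {A : Finset ℂ} {v : ℂ} {l κ : ℝ} (hl : 0 < l) (hκ : 0 ≤ κ)
    (hsep : ∀ x ∈ A, ∀ y ∈ A, x ≠ y → l ≤ ‖x - y‖) (hin : ∀ x ∈ A, ‖x - v‖ ≤ κ * l) :
    (A.card : ℝ) ≤ (2 * κ + 1) ^ 2 := by
  have hdisj : (A : Set ℂ).PairwiseDisjoint (fun x => ball x (l / 2)) := by
    intro x hx y hy hxy
    rw [Function.onFun, Set.disjoint_left]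
    intro z hz1 hz2
    rw [mem_ball, dist_eq_norm] at hz1 hz2
    have h1 := hsep x hx y hy hxy
    have h2 : x - y = (z - y) - (z - x) := by ring
    have h3 := norm_sub_le (z - y) (z - x)
    rw [← h2] at h3
    linarith
  have hvol : volume (⋃ x ∈ A, ball x (l / 2)) = ∑ x ∈ A, volume (ball x (l / 2)) :=
    measure_biUnion_finset hdisj fun _ _ => measurableSet_ball
  have hsub : (⋃ x ∈ A, ball x (l / 2)) ⊆ ball v ((κ + 1 / 2) * l) := by
    intro z hz
    simp only [mem_iUnion] at hz
    obtain ⟨x, hx, hz⟩ := hz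
    rw [mem_ball, dist_eq_norm] at hz ⊢
    have h1 := hin x hx
    have h2 : z - v = (z - x) + (x - v) := by ring
    have h3 := norm_add_le (z - x) (x - v)
    rw [← h2] at h3
    nlinarith
  have h1 := measure_mono hsub (μ := volume)
  rw [hvol] at h1
  simp only [Complex.volume_ball, Finset.sum_const, nsmul_eq_mul] at h1
  have h2 := ENNReal.toReal_mono (by finiteness) h1
  rw [ENNReal.toReal_mul, ENNReal.toReal_mul, ENNReal.toReal_mul, ENNReal.toReal_pow,
    ENNReal.toReal_pow, ENNReal.toReal_ofReal (by positivity),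
    ENNReal.toReal_ofReal (by positivity), ENNReal.toReal_natCast] at h2
  have hpi : (0 : ℝ) < (NNReal.pi : ENNReal).toReal := by
    rw [ENNReal.coe_toReal, NNReal.coe_real_pi]
    exact Real.pi_pos
  have h3 : (A.card : ℝ) * (l / 2) ^ 2 ≤ ((κ + 1 / 2) * l) ^ 2 := by
    have h4 : ((A.card : ℝ) * (l / 2) ^ 2) * (NNReal.pi : ENNReal).toReal ≤
        ((κ + 1 / 2) * l) ^ 2 * (NNReal.pi : ENNReal).toReal := by
      linarith
    exact le_of_mul_le_mul_right h4 hpi
  have h5 : 0 < (l / 2) ^ 2 := by positivity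
  have h6 : ((κ + 1 / 2) * l) ^ 2 = (2 * κ + 1) ^ 2 * (l / 2) ^ 2 := by ring
  rw [h6] at h3
  exact le_of_mul_le_mul_right h3 h5

/-- the distance to a nonempty finite set -/
noncomputable def dF (F : Finset ℂ) (x : ℂ) : ℝ := infDist x (F : Set ℂ)

theorem dF_nonneg (F : Finset ℂ) (x : ℂ) : 0 ≤ dF F x := infDist_nonneg

theorem dF_le {F : Finset ℂ} {x y : ℂ} (hy : y ∈ F) : dF F x ≤ ‖x - y‖ := by
  rw [← dist_eq_norm]
  exact infDist_le_dist_of_mem (by exact_mod_cast hy)

theorem exists_dF {F : Finset ℂ} (hF : F.Nonempty) (x : ℂ) : ∃ y ∈ F, dF F x = ‖x - y‖ := by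
  obtain ⟨y, hy, h⟩ := F.finite_toSet.isCompact.exists_infDist_eq_dist
    (by exact_mod_cast hF) x
  exact ⟨y, by exact_mod_cast hy, by rw [← dist_eq_norm]; exact h⟩

theorem dF_anti {F G : Finset ℂ} (hF : F.Nonempty) (h : F ⊆ G) (x : ℂ) : dF G x ≤ dF F x :=
  infDist_le_infDist_of_subset (by exact_mod_cast h) (by exact_mod_cast hF)

/-- the point of `F` which is farthest from `S` -/
theorem exists_far {F : Finset ℂ} (hF : F.Nonempty) (S : Finset ℂ) :
    ∃ y ∈ F, ∀ x ∈ F, dF S x ≤ dF S y := F.exists_max_image (dF S) hF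

section greedy

variable {F : Finset ℂ} (hF : F.Nonempty)

/-- the farthest point -/
noncomputable def far (S : Finset ℂ) : ℂ := (exists_far hF S).choose

theorem far_mem (S : Finset ℂ) : far hF S ∈ F := (exists_far hF S).choose_spec.1

theorem far_le (S : Finset ℂ) {x : ℂ} (hx : x ∈ F) : dF S x ≤ dF S (far hF S) :=
  (exists_far hF S).choose_spec.2 x hx

/-- the greedy sequence of sets -/
noncomputable def SS : ℕ → Finset ℂ
  | 0 => {hF.choose}
  | n + 1 => insert (far hF (SS n)) (SS n)

/-- the greedy scales -/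
noncomputable def ls (n : ℕ) : ℝ := dF (SS hF n) (far hF (SS hF n))

theorem SS_ne (n : ℕ) : (SS hF n).Nonempty := by
  cases n with
  | zero => exact ⟨_, Finset.mem_singleton_self _⟩
  | succ n => exact ⟨_, Finset.mem_insert_self _ _⟩

theorem SS_sub (n : ℕ) : SS hF n ⊆ F := by
  induction n with
  | zero =>
    intro x hx
    rw [SS, Finset.mem_singleton] at hx
    rw [hx]; exact hF.choose_spec
  | succ n ih =>
    intro x hx
    rw [SS, Finset.mem_insert] at hx
    rcases hx with rfl | hx
    · exact far_mem hF _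
    · exact ih hx

theorem SS_mono {m n : ℕ} (h : m ≤ n) : SS hF m ⊆ SS hF n := by
  induction n, h using Nat.le_induction with
  | base => exact fun _ h => h
  | succ n _ ih => exact ih.trans (Finset.subset_insert _ _)

theorem ls_nonneg (n : ℕ) : 0 ≤ ls hF n := dF_nonneg _ _

theorem cover (n : ℕ) {x : ℂ} (hx : x ∈ F) : ∃ y ∈ SS hF n, ‖x - y‖ ≤ ls hF n := by
  obtain ⟨y, hy, h⟩ := exists_dF (SS_ne hF n) x
  exact ⟨y, hy, by rw [← h]; exact far_le hF _ hx⟩

theorem ls_anti {m n : ℕ} (h : m ≤ n) : ls hF n ≤ ls hF m :=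
  (dF_anti (SS_ne hF m) (SS_mono hF h) _).trans (far_le hF _ (far_mem hF _))

/-- the sets are separated -/
theorem sep (n : ℕ) : ∀ x ∈ SS hF (n + 1), ∀ y ∈ SS hF (n + 1), x ≠ y → ls hF n ≤ ‖x - y‖ := by
  induction n with
  | zero =>
    intro x hx y hy hxy
    rw [SS, Finset.mem_insert] at hx hy
    rcases hx with hx | hx <;> rcases hy with hy | hy
    · exact absurd (hx.trans hy.symm) hxy
    · rw [hx]; exact dF_le hy
    · rw [hy, norm_sub_rev]; exact dF_le hx
    · rw [SS, Finset.mem_singleton] at hx hy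
      exact absurd (hx.trans hy.symm) hxy
  | succ n ih =>
    intro x hx y hy hxy
    rw [SS, Finset.mem_insert] at hx hy
    rcases hx with hx | hx <;> rcases hy with hy | hy
    · exact absurd (hx.trans hy.symm) hxy
    · rw [hx]; exact dF_le hy
    · rw [hy, norm_sub_rev]; exact dF_le hx
    · exact (ls_anti hF (Nat.le_succ n)).trans (ih x hx y hy hxy)

/-- after `#F` steps everything is covered -/
theorem ls_end : ls hF (F.card - 1) = 0 := by
  have key : ∀ n, 0 < ls hF n → n + 2 ≤ F.card := by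
    intro n hn
    have h1 : ∀ m, 0 < ls hF m → (SS hF (m + 1)).card = m + 2 := by
      intro m
      induction m with
      | zero =>
        intro hm
        rw [SS, Finset.card_insert_of_notMem, SS, Finset.card_singleton]
        intro hmem
        have := dF_le hmem (x := far hF (SS hF 0))
        rw [sub_self, norm_zero] at this
        exact absurd hm (not_lt.2 this)
      | succ m ih =>
        intro hm
        have hm' : 0 < ls hF m := hm.trans_le (ls_anti hF (Nat.le_succ m))
        rw [SS, Finset.card_insert_of_notMem, ih hm']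
        intro hmem
        have := dF_le hmem (x := far hF (SS hF (m + 1)))
        rw [sub_self, norm_zero] at this
        exact absurd hm (not_lt.2 this)
    rw [← h1 n hn]
    exact Finset.card_le_card (SS_sub hF _)
  by_contra hne
  have hpos : 0 < ls hF (F.card - 1) := lt_of_le_of_ne (ls_nonneg hF _) (Ne.symm hne)
  have := key _ hpos
  omega

end greedy

/-- **The scales of a finite set.** For every finite set `F` in the plane there are at most
`169 * #F` pairs of a point of `F` and a scale, such that the distances between two points of `F`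
are comparable with one of the scales at a nearby point. -/
theorem scales (F : Finset ℂ) : ∃ T : Finset (ℂ × ℝ), T.card ≤ 169 * F.card ∧
    (∀ p ∈ T, p.1 ∈ F ∧ 0 < p.2) ∧
    ∀ x ∈ F, ∀ y ∈ F, x ≠ y → ∃ p ∈ T, ‖x - p.1‖ ≤ ‖x - y‖ / 4 ∧ ‖x - y‖ / 4 ≤ p.2 ∧
      p.2 ≤ 6 * (‖x - y‖ / 4) := by
  classical
  rcases F.eq_empty_or_nonempty with rfl | hF
  · exact ⟨∅, by simp, by simp, by simp⟩
  obtain ⟨Tn, hTn⟩ : ∃ Tn : ℕ → Finset (ℂ × ℝ), Tn = fun n =>
      ((SS hF (n + 1)).filter fun x => ‖x - far hF (SS hF n)‖ ≤ 6 * ls hF n).image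
        fun x => (x, ls hF n) := ⟨_, rfl⟩
  obtain ⟨I, hI⟩ : ∃ I : Finset ℕ, I = (Finset.range F.card).filter fun n => 0 < ls hF n :=
    ⟨_, rfl⟩
  refine ⟨I.biUnion Tn, ?_, ?_, ?_⟩
  · refine Finset.card_biUnion_le.trans ?_
    have h1 : ∀ n ∈ I, (Tn n).card ≤ 169 := by
      intro n hn
      rw [hI, Finset.mem_filter] at hn
      rw [hTn]
      refine Finset.card_image_le.trans ?_
      have h2 := packing (A := (SS hF (n + 1)).filter fun x => ‖x - far hF (SS hF n)‖ ≤
          6 * ls hF n) (v := far hF (SS hF n)) (κ := 6) hn.2 (by norm_num)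
        (fun x hx y hy hxy => sep hF n x (Finset.mem_filter.1 hx).1 y (Finset.mem_filter.1 hy).1
          hxy) (fun x hx => (Finset.mem_filter.1 hx).2)
      norm_num at h2
      exact_mod_cast h2
    have h2 : I.card ≤ F.card := by
      rw [hI]
      refine (Finset.card_filter_le _ _).trans ?_
      rw [Finset.card_range]
    calc ∑ n ∈ I, (Tn n).card ≤ ∑ n ∈ I, 169 := Finset.sum_le_sum h1
      _ = I.card * 169 := by rw [Finset.sum_const, smul_eq_mul]
      _ ≤ _ := by rw [mul_comm]; exact Nat.mul_le_mul_left _ h2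
  · intro p hp
    rw [Finset.mem_biUnion] at hp
    obtain ⟨n, hn, hp⟩ := hp
    rw [hTn, Finset.mem_image] at hp
    obtain ⟨x, hx, rfl⟩ := hp
    rw [hI, Finset.mem_filter] at hn
    exact ⟨SS_sub hF _ (Finset.mem_filter.1 hx).1, hn.2⟩
  · intro x hx y hy hxy
    obtain ⟨s, hs⟩ : ∃ s, s = ‖x - y‖ / 4 := ⟨_, rfl⟩
    have hs0 : 0 < s := by
      rw [hs]
      have : 0 < ‖x - y‖ := norm_pos_iff.2 (sub_ne_zero.2 hxy)
      linarith
    rw [← hs]
    have hex : ∃ n, ls hF n ≤ s := ⟨F.card - 1, by rw [ls_end]; exact hs0.le⟩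
    obtain ⟨n, hn, hmin⟩ : ∃ n, ls hF n ≤ s ∧ ∀ m, m < n → s < ls hF m :=
      ⟨Nat.find hex, Nat.find_spec hex, fun m hm => not_le.1 (Nat.find_min hex hm)⟩
    obtain ⟨x', hx', hxx⟩ := cover hF n hx
    obtain ⟨y', hy', hyy⟩ := cover hF n hy
    have hne : x' ≠ y' := by
      intro h
      rw [h] at hxx
      have h1 : x - y = (x - y') - (y - y') := by ring
      have h2 := norm_sub_le (x - y') (y - y')
      rw [← h1] at h2
      linarith
    have hd : ‖x' - y'‖ ≤ 6 * s := by
      have h1 : x' - y' = (x - y) - (x - x') + (y - y') := by ring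
      have h2 := norm_add_le ((x - y) - (x - x')) (y - y')
      have h3 := norm_sub_le (x - y) (x - x')
      rw [h1]
      linarith
    -- the first index at which both points are present
    have hex2 : ∃ m, x' ∈ SS hF m ∧ y' ∈ SS hF m := ⟨n, hx', hy'⟩
    obtain ⟨m, ⟨hm1, hm2⟩, hmin2⟩ : ∃ m, (x' ∈ SS hF m ∧ y' ∈ SS hF m) ∧
        ∀ k, k < m → ¬ (x' ∈ SS hF k ∧ y' ∈ SS hF k) :=
      ⟨Nat.find hex2, Nat.find_spec hex2, fun k hk => Nat.find_min hex2 hk⟩
    have hmn : m ≤ n := by
      by_contra hcon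
      exact hmin2 n (by omega) ⟨hx', hy'⟩
    cases m with
    | zero =>
      rw [SS, Finset.mem_singleton] at hm1 hm2
      exact absurd (hm1.trans hm2.symm) hne
    | succ m =>
      have hsm : s < ls hF m := hmin m (by omega)
      have hlm : ls hF m ≤ ‖x' - y'‖ := sep hF m x' hm1 y' hm2 hne
      have hmF : m < F.card := by
        by_contra hcon
        have h1 := ls_anti hF (show F.card - 1 ≤ m by omega)
        rw [ls_end] at h1
        linarith
      refine ⟨(x', ls hF m), ?_, ?_, hsm.le, hlm.trans hd⟩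
      · rw [Finset.mem_biUnion]
        refine ⟨m, ?_, ?_⟩
        · rw [hI, Finset.mem_filter, Finset.mem_range]
          exact ⟨hmF, by linarith⟩
        · rw [hTn, Finset.mem_image]
          refine ⟨x', ?_, rfl⟩
          rw [Finset.mem_filter]
          refine ⟨hm1, ?_⟩
          rw [SS, Finset.mem_insert] at hm1 hm2
          rcases hm1 with h1 | h1
          · rw [← h1, sub_self, norm_zero]
            have := ls_nonneg hF m
            linarith
          · rcases hm2 with h2 | h2
            · rw [← h2]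
              linarith
            · exact absurd ⟨h1, h2⟩ (hmin2 m (by omega))
      · exact hxx.trans hn

end Pool.Agent.R240
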