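import Pool.Agent.Y736.HG5
import Pool.Agent.R240.Chain
import Pool.Agent.R240.Net

set_option autoImplicit false

/-! # The harmonic measure of discs -/

namespace Pool.Agent.R240

open Complex Metric Set Filter Topology MeasureTheory Pool.Agent.H712R2 Pool.Agent.H713R2
open N62a1eb23 Pool.Agent.Y736.HD

/-- critical orbits in the Multibrot set -/
theorem pow_le_four {d : ℕ} (hd : 2 ≤ d) {c : ℂ} (hc : c ∈ multibrotSet d) (k : ℕ) :
    ‖P d k c‖ ^ d ≤ 4 := by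
  have hb := (mem_multibrot_iff hd c).1 hc
  obtain ⟨B, hB⟩ : ∃ B, B = ⨆ k, ‖P d k c‖ := ⟨_, rfl⟩
  have hbdd : BddAbove (range fun k => ‖P d k c‖) := ⟨2, by
    rintro _ ⟨k, rfl⟩
    exact hb k⟩
  have hle : ∀ k, ‖P d k c‖ ≤ B := fun k => by rw [hB]; exact le_ciSup hbdd k
  have hB2 : B ≤ 2 := by rw [hB]; exact ciSup_le hb
  have h1 := hle (k + 1)
  have h2 := hle 1
  rw [P_one hd] at h2
  have h3 : P d k c ^ d = P d (k + 1) c - c := by rw [P_succ]; ring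
  rw [← norm_pow, h3]
  have := norm_sub_le (P d (k + 1) c) c
  linarith

theorem ratio' {d : ℕ} (hd : 2 ≤ d) {c : ℂ} (hc : c ∈ multibrotSet d) (n : ℕ) :
    ‖P d n c‖ ^ d ≤ 16 * ‖c‖ := by
  have hc0 := norm_nonneg c
  by_cases h : 1 / 4 ≤ ‖c‖
  · have := pow_le_four hd hc n
    linarith
  · push Not at h
    have hP : ∀ n, ‖P d n c‖ ≤ 2 * ‖c‖ := by
      intro n
      induction n with
      | zero => rw [P_zero, norm_zero]; positivity
      | succ n ih =>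
        rw [P_succ]
        have h1 := norm_add_le (P d n c ^ d) c
        rw [norm_pow] at h1
        have h2 : ‖P d n c‖ ^ d ≤ (2 * ‖c‖) ^ d := pow_le_pow_left₀ (norm_nonneg _) ih d
        have h3 : (2 * ‖c‖) ^ d ≤ (2 * ‖c‖) ^ 2 :=
          pow_le_pow_of_le_one (by positivity) (by linarith) hd
        nlinarith
    have h1 : ‖P d n c‖ ^ d ≤ (2 * ‖c‖) ^ d := pow_le_pow_left₀ (norm_nonneg _) (hP n) d
    have h2 : (2 * ‖c‖) ^ d ≤ (2 * ‖c‖) ^ 2 :=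
      pow_le_pow_of_le_one (by positivity) (by linarith) hd
    nlinarith

/-- upper bound of the escape rate -/
theorem green_lower' {d : ℕ} (hd : 2 ≤ d) {ψ : ℂ → ℂ} (hψ : IsExteriorMap (multibrotSet d) ψ)
    {z : ℂ} (hz : 1 < ‖z‖) {R : ℝ} (hR : 2 ≤ R)
    {n : ℕ} (h1 : ‖ψ z‖ ≤ R) (h2 : ‖P d (n + 1) (ψ z)‖ ≤ R) : ‖z‖ ^ (d ^ n) ≤ R + 1 := by
  obtain ⟨β, hβ⟩ := exists_beta (d := d) hd
  rw [exteriorMap_unique hβ hψ hz] at h1 h2
  obtain ⟨hx, hx0⟩ := inv_mem_ball hz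
  obtain ⟨c, hc⟩ : ∃ c, c = z * β z⁻¹ := ⟨_, rfl⟩
  rw [← hc] at h1 h2
  have hgrow : ∀ j, ‖P d (n + 1 + j) c‖ ≤ (R + 1) ^ (d ^ j) - 1 :=
    fun j => up_growth hd hR h1 h2 j
  obtain ⟨κ, hκ⟩ : ∃ κ, κ = Real.exp (-(2 * Real.log 2 * ‖z⁻¹‖ / (1 - ‖z⁻¹‖))) := ⟨_, rfl⟩
  have hκ0 : 0 < κ := by rw [hκ]; exact Real.exp_pos _
  by_contra hcon
  push Not at hcon
  have hzpos : 0 < ‖z‖ := by linarith
  have key : ∀ j, κ ≤ ((R + 1) / ‖z‖ ^ (d ^ n)) ^ (d ^ j) := by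
    intro j
    have h3 := Pool.Agent.W677.MB.BB_lower hd hβ (n + j) hx
    rw [← hκ, BB_eq hd β (n + j) z⁻¹ hx0, inv_inv, ← hc, norm_mul, norm_pow, norm_inv] at h3
    have h4 := hgrow j
    rw [show n + 1 + j = n + j + 1 by ring] at h4
    have h5 : ‖z‖⁻¹ ^ d ^ (n + j) * ‖P d (n + j + 1) c‖ ≤
        ‖z‖⁻¹ ^ d ^ (n + j) * (R + 1) ^ (d ^ j) :=
      mul_le_mul_of_nonneg_left (by linarith) (by positivity)
    refine h3.trans (h5.trans (le_of_eq ?_))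
    rw [div_pow, ← pow_mul, ← pow_add, inv_pow]
    field_simp
  have hlt : (R + 1) / ‖z‖ ^ (d ^ n) < 1 := by
    rw [div_lt_one (by positivity)]
    exact hcon
  have hlim : Tendsto (fun j : ℕ => ((R + 1) / ‖z‖ ^ (d ^ n)) ^ (d ^ j)) atTop (𝓝 0) :=
    (tendsto_pow_atTop_nhds_zero_of_lt_one (by positivity) hlt).comp
      (tendsto_pow_atTop_atTop_of_one_lt (by omega : 1 < d))
  have := ge_of_tendsto' hlim key
  linarith

/-- the angles of the rays landing in `X` -/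
def AngS (ψ : ℂ → ℂ) (X : Set ℂ) : Set ℝ :=
  {θ | θ ∈ Ioc 0 (2 * Real.pi) ∧ ∃ ζ ∈ X,
    Tendsto (fun ρ : ℝ => ψ (ρ * exp (θ * I))) (𝓝[>] 1) (𝓝 ζ)}

theorem AngS_ball (ψ : ℂ → ℂ) (c : ℂ) (r : ℝ) : AngS ψ (ball c r) = Ang ψ c r := rfl

theorem AngS_ne (ψ : ℂ → ℂ) (X : Set ℂ) : volume (AngS ψ X) ≠ ⊤ := by
  refine ne_top_of_le_ne_top ?_ (measure_mono (show AngS ψ X ⊆ Ioc 0 (2 * Real.pi) from
    fun _ h => h.1))
  rw [Real.volume_Ioc]
  exact ENNReal.ofReal_ne_top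

/-- the harmonic measure (of total mass at most `2 π`) -/
noncomputable def om (ψ : ℂ → ℂ) (X : Set ℂ) : ℝ := (volume (AngS ψ X)).toReal

theorem om_nonneg (ψ : ℂ → ℂ) (X : Set ℂ) : 0 ≤ om ψ X := ENNReal.toReal_nonneg

theorem om_mono (ψ : ℂ → ℂ) {X Y : Set ℂ} (h : X ⊆ Y) : om ψ X ≤ om ψ Y := by
  apply ENNReal.toReal_mono (AngS_ne ψ Y)
  apply measure_mono
  rintro θ ⟨h1, ζ, h2, h3⟩
  exact ⟨h1, ζ, h h2, h3⟩

theorem om_biUnion (ψ : ℂ → ℂ) {ι : Type*} (s : Finset ι) (X : ι → Set ℂ) {Y : Set ℂ}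
    (h : Y ⊆ ⋃ i ∈ s, X i) : om ψ Y ≤ ∑ i ∈ s, om ψ (X i) := by
  have h1 : AngS ψ Y ⊆ ⋃ i ∈ s, AngS ψ (X i) := by
    rintro θ ⟨h1, ζ, h2, h3⟩
    have h4 := h h2
    simp only [mem_iUnion] at h4 ⊢
    obtain ⟨i, hi, h5⟩ := h4
    exact ⟨i, hi, h1, ζ, h5, h3⟩
  have h2 := (measure_mono (μ := (volume : Measure ℝ)) h1).trans (measure_biUnion_finset_le s fun i => AngS ψ (X i))
  have h3 := ENNReal.toReal_mono (ENNReal.sum_ne_top.2 fun i _ => AngS_ne ψ (X i)) h2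
  rw [ENNReal.toReal_sum fun i _ => AngS_ne ψ (X i)] at h3
  exact h3

theorem om_union (ψ : ℂ → ℂ) (X Y : Set ℂ) : om ψ (X ∪ Y) ≤ om ψ X + om ψ Y := by
  have := om_biUnion ψ (Finset.univ : Finset Bool) (fun b => cond b X Y) (Y := X ∪ Y) (by
    intro x hx
    simp only [Finset.mem_univ, iUnion_true, mem_iUnion, Bool.exists_bool, cond_false, cond_true]
    exact hx.symm)
  simpa [Fintype.sum_bool] using this

/-- only landing points in the Multibrot set -/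
theorem land_mem {d : ℕ} (hd : 2 ≤ d) {ψ : ℂ → ℂ} (hψ : IsExteriorMap (multibrotSet d) ψ)
    {θ : ℝ} {c : ℂ} (hlim : Tendsto (fun ρ : ℝ => ψ (ρ * exp (θ * I))) (𝓝[>] 1) (𝓝 c)) :
    c ∈ multibrotSet d := by
  obtain ⟨β, hβ⟩ := exists_beta hd
  have hn : ∀ r : ℝ, 0 ≤ r → ‖(r : ℂ) * exp (θ * I)‖ = r := by
    intro r hr
    rw [norm_mul, norm_exp_ofReal_mul_I, mul_one, Complex.norm_real, Real.norm_eq_abs,
      abs_of_nonneg hr]
  rw [mem_multibrot_iff hd]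
  intro k
  cases k with
  | zero =>
    have : P d 0 c = 0 := rfl
    rw [this, norm_zero]; norm_num
  | succ n =>
    have h1 : Tendsto (fun r : ℝ => ‖P d (n + 1) (ψ (r * exp (θ * I)))‖) (𝓝[>] 1)
        (𝓝 ‖P d (n + 1) c‖) :=
      ((continuous_P d (n + 1)).norm.tendsto c).comp hlim
    have h2 : Tendsto (fun r : ℝ => 2 * r ^ (d ^ n)) (𝓝[>] 1) (𝓝 (2 * 1 ^ (d ^ n))) := by
      apply Tendsto.mono_left _ nhdsWithin_le_nhds
      exact ((continuous_pow _).tendsto 1).const_mul 2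
    rw [one_pow, mul_one] at h2
    refine le_of_tendsto_of_tendsto h1 h2 ?_
    filter_upwards [self_mem_nhdsWithin] with r hr
    have hr1 : 1 < ‖(r : ℂ) * exp (θ * I)‖ := by
      rw [hn r (by linarith [mem_Ioi.1 hr])]; exact hr
    have h3 := Pool.Agent.W677.MC.P_le_two hd hψ hr1 (n := n)
    rw [hn r (by linarith [mem_Ioi.1 hr])] at h3
    exact h3

/-- the set of landing points -/
def Land (ψ : ℂ → ℂ) : Set ℂ :=
  {ζ | ∃ θ : ℝ, Tendsto (fun ρ : ℝ => ψ (ρ * exp (θ * I))) (𝓝[>] 1) (𝓝 ζ)}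

theorem om_inter (ψ : ℂ → ℂ) (X : Set ℂ) : om ψ X = om ψ (X ∩ Land ψ) := by
  apply le_antisymm _ (om_mono ψ inter_subset_left)
  apply ENNReal.toReal_mono (AngS_ne ψ _)
  apply measure_mono
  rintro θ ⟨h1, ζ, h2, h3⟩
  exact ⟨h1, ζ, ⟨h2, θ, h3⟩, h3⟩

/-- The mass of a disc. -/
theorem mass_le {d N : ℕ} (hd : 2 ≤ d) {ψ : ℂ → ℂ} (hψ : IsExteriorMap (multibrotSet d) ψ)
    {z : ℂ} (hz : z ∈ multibrotSet d) {R B : ℝ} (hR : 0 < R) (hB : 2 ≤ B)
    (h : ∀ x : ℂ, ‖x - z‖ ≤ 2 * R → ‖x‖ ≤ B ∧ ‖P d (N + 1) x‖ ≤ B) :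
    om ψ (ball z R) ≤ 2 * Real.pi * (Real.log (B + 1) / (d : ℝ) ^ N) / Real.log 2 := by
  have hlog : 0 < Real.log (B + 1) := Real.log_pos (by linarith)
  have hd0 : (0 : ℝ) < d := by exact_mod_cast (by omega : 0 < d)
  refine Pool.Agent.Y736.HG.vol_le hd hψ hz hR (by positivity) ?_
  intro w hw hwz
  obtain ⟨h1, h2⟩ := h _ hwz
  have h3 := green_lower' hd hψ hw hB h1 h2
  rw [le_div_iff₀ (by positivity)]
  have h4 := Real.log_le_log (by positivity) h3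
  rw [Real.log_pow] at h4
  push_cast at h4
  linarith

/-- points have mass zero -/
theorem om_singleton {d : ℕ} (hd : 2 ≤ d) {ψ : ℂ → ℂ} (hψ : IsExteriorMap (multibrotSet d) ψ)
    {z : ℂ} (hz : z ∈ multibrotSet d) : om ψ {z} = 0 := by
  apply le_antisymm _ (om_nonneg _ _)
  apply le_of_forall_pos_le_add
  intro ε hε
  rw [zero_add]
  have hlog2 : 0 < Real.log 2 := Real.log_pos (by norm_num)
  have hpi := Real.pi_pos
  obtain ⟨δ, hδ, h⟩ := Pool.Agent.Y736.HG.green_cont hd hz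
    (show 0 < ε * Real.log 2 / (2 * Real.pi) by positivity)
  have h1 := Pool.Agent.Y736.HG.vol_le hd hψ hz (r := δ / 2) (by linarith)
    (S := ε * Real.log 2 / (2 * Real.pi)) (by positivity) (fun w hw hwz =>
      h ψ hψ w hw (by linarith))
  have h2 : 2 * Real.pi * (ε * Real.log 2 / (2 * Real.pi)) / Real.log 2 = ε := by
    field_simp
  rw [h2] at h1
  refine (om_mono ψ (singleton_subset_iff.2 (mem_ball_self (by linarith : 0 < δ / 2)))).trans h1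

theorem om_singleton' {d : ℕ} (hd : 2 ≤ d) {ψ : ℂ → ℂ} (hψ : IsExteriorMap (multibrotSet d) ψ)
    (z : ℂ) : om ψ {z} = 0 := by
  by_cases hz : z ∈ multibrotSet d
  · exact om_singleton hd hψ hz
  · have : AngS ψ {z} = ∅ := by
      rw [eq_empty_iff_forall_notMem]
      rintro θ ⟨-, ζ, h1, h2⟩
      rw [mem_singleton_iff] at h1
      rw [h1] at h2
      exact hz (land_mem hd hψ h2)
    unfold om
    rw [this, measure_empty]
    rfl

/-- **Covering by squares.** -/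
theorem om_cover (ψ : ℂ → ℂ) {Z : Set ℂ} {u : ℂ} {ρ B : ℝ} {κ : ℕ} (hρ : 0 < ρ)
    (hB0 : 0 ≤ B) (hZ : ∀ z ∈ Z, ‖z - u‖ ≤ κ * ρ) (hB : ∀ z ∈ Z, om ψ (ball z (2 * ρ)) ≤ B) :
    om ψ Z ≤ (2 * κ + 2) ^ 2 * B := by
  classical
  obtain ⟨J, hJ⟩ : ∃ J : Finset (ℤ × ℤ),
      J = Finset.Icc (-(κ : ℤ) - 1) κ ×ˢ Finset.Icc (-(κ : ℤ) - 1) κ := ⟨_, rfl⟩
  obtain ⟨Sq, hSq⟩ : ∃ Sq : ℤ × ℤ → Set ℂ, Sq = fun j => {z | z ∈ Z ∧
      ⌊(z - u).re / ρ⌋ = j.1 ∧ ⌊(z - u).im / ρ⌋ = j.2} := ⟨_, rfl⟩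
  have hcov : Z ⊆ ⋃ j ∈ J, Sq j := by
    intro z hz
    simp only [mem_iUnion]
    refine ⟨(⌊(z - u).re / ρ⌋, ⌊(z - u).im / ρ⌋), ?_, ?_⟩
    · rw [hJ, Finset.mem_product, Finset.mem_Icc, Finset.mem_Icc]
      have key : ∀ x : ℝ, |x| ≤ κ * ρ → (-(κ : ℤ) - 1 ≤ ⌊x / ρ⌋ ∧ ⌊x / ρ⌋ ≤ κ) := by
        intro x hx
        rw [abs_le] at hx
        constructor
        · rw [Int.le_floor]
          push_cast
          rw [le_div_iff₀ hρ]
          nlinarith [hx.1]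
        · have h1 : x / ρ ≤ κ := by rw [div_le_iff₀ hρ]; exact hx.2
          have h2 := Int.floor_le (x / ρ)
          have h3 : (⌊x / ρ⌋ : ℝ) ≤ (κ : ℤ) := by push_cast; linarith
          exact_mod_cast h3
      exact ⟨key _ ((abs_re_le_norm _).trans (hZ z hz)), key _ ((abs_im_le_norm _).trans (hZ z hz))⟩
    · rw [hSq]
      exact ⟨hz, rfl, rfl⟩
  refine (om_biUnion ψ J Sq hcov).trans ?_
  have hone : ∀ j ∈ J, om ψ (Sq j) ≤ B := by
    intro j _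
    rcases (Sq j).eq_empty_or_nonempty with h | ⟨z, hz⟩
    · rw [h]
      have : AngS ψ ∅ = ∅ := by
        rw [eq_empty_iff_forall_notMem]
        rintro θ ⟨-, ζ, h1, -⟩
        exact h1
      unfold om
      rw [this, measure_empty]
      exact hB0
    · have hz' : z ∈ Z := by rw [hSq] at hz; exact hz.1
      refine (om_mono ψ ?_).trans (hB z hz')
      intro x hx
      rw [hSq] at hx hz
      rw [mem_ball, dist_eq_norm]
      have key : ∀ a b : ℝ, ⌊a / ρ⌋ = ⌊b / ρ⌋ → |a - b| ≤ ρ := by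
        intro a b hab
        have h1 := Int.abs_sub_lt_one_of_floor_eq_floor hab
        rw [← sub_div, abs_div, abs_of_pos hρ, div_lt_one hρ] at h1
        exact h1.le
      have h1 : |(x - z).re| ≤ ρ := by
        have h2 := key _ _ (hx.2.1.trans hz.2.1.symm)
        have h3 : (x - u).re - (z - u).re = (x - z).re := by simp
        rwa [h3] at h2
      have h2 : |(x - z).im| ≤ ρ := by
        have h2 := key _ _ (hx.2.2.trans hz.2.2.symm)
        have h3 : (x - u).im - (z - u).im = (x - z).im := by simp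
        rwa [h3] at h2
      have h3 : ‖x - z‖ ^ 2 ≤ 2 * ρ ^ 2 := by
        rw [← Complex.normSq_eq_norm_sq, Complex.normSq_apply]
        rw [abs_le] at h1 h2
        nlinarith [h1.1, h1.2, h2.1, h2.2]
      by_contra hcon
      push Not at hcon
      nlinarith [norm_nonneg (x - z)]
  refine (Finset.sum_le_sum hone).trans ?_
  rw [Finset.sum_const, nsmul_eq_mul]
  have hcard : (J.card : ℝ) = (2 * κ + 2) ^ 2 := by
    rw [hJ, Finset.card_product, Int.card_Icc]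
    have : ((κ : ℤ) + 1 - (-(κ : ℤ) - 1)).toNat = 2 * κ + 2 := by omega
    rw [this]
    push_cast
    ring
  rw [hcard]

end Pool.Agent.R240
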