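import Pool.Agent.R240.Univ3
import Pool.Agent.R240.Newton

set_option autoImplicit false

/-! # Universal transversality: perturbations in all directions -/

namespace Pool.Agent.R240.Univ

open Complex Metric Set Filter Topology MeasureTheory ENNReal N62a1eb23
open Pool.Agent.H712R2 Pool.Agent.H713R2 Pool.Agent.R240.Push

/-- the perturbed map -/
noncomputable def gg (d : ℕ) (c : ℂ) (Φ : ℂ → ℂ) (t : ℂ) : ℂ → ℂ :=
  fun z => (z ^ d + c) + t * Φ (z ^ d + c)

theorem gg_zero (d : ℕ) (c : ℂ) (Φ : ℂ → ℂ) (n : ℕ) : (gg d c Φ 0)^[n] 0 = P d n c := by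
  have h : gg d c Φ 0 = fc d c := by
    funext z
    unfold gg fc
    ring
  rw [h]
  rfl

theorem vel_deriv {d : ℕ} (hd : 2 ≤ d) {c : ℂ} (hc : c ∈ multibrotSet d) {Φ : ℂ → ℂ}
    (hΦ : DifferentiableOn ℂ Φ (ball 0 4)) (n : ℕ) :
    HasDerivAt (fun t : ℂ => (gg d c Φ t)^[n] 0) (vel d c Φ n) 0 := by
  induction n with
  | zero => exact hasDerivAt_const 0 0
  | succ n ih =>
    have h1 : (fun t : ℂ => (gg d c Φ t)^[n + 1] 0) = fun t : ℂ =>
        (((gg d c Φ t)^[n] 0) ^ d + c) + t * Φ (((gg d c Φ t)^[n] 0) ^ d + c) := by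
      funext t
      rw [Function.iterate_succ_apply']
      rfl
    rw [h1]
    have h2 : HasDerivAt (fun t : ℂ => ((gg d c Φ t)^[n] 0) ^ d + c)
        (d * P d n c ^ (d - 1) * vel d c Φ n) 0 := by
      have h3 := (ih.fun_pow d).add_const c
      rw [gg_zero] at h3
      exact h3
    have h4 : DifferentiableAt ℂ Φ (P d (n + 1) c) := by
      apply hΦ.differentiableAt
      apply isOpen_ball.mem_nhds
      rw [mem_ball_zero_iff]
      have := norm_P_le hd hc (n + 1)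
      linarith
    have h5 : DifferentiableAt ℂ Φ (((gg d c Φ 0)^[n] 0) ^ d + c) := by
      rw [gg_zero, ← P_succ]
      exact h4
    have h6 : HasDerivAt (fun t : ℂ => Φ (((gg d c Φ t)^[n] 0) ^ d + c))
        (deriv Φ (((gg d c Φ 0)^[n] 0) ^ d + c) * (d * P d n c ^ (d - 1) * vel d c Φ n)) 0 :=
      HasDerivAt.comp (0 : ℂ) (h₂ := Φ) h5.hasDerivAt h2
    have h7 := h2.fun_add ((hasDerivAt_id' (0:ℂ)).fun_mul h6)
    have h8 : d * P d n c ^ (d - 1) * vel d c Φ n + (1 * Φ (((gg d c Φ 0)^[n] 0) ^ d + c) +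
        0 * (deriv Φ (((gg d c Φ 0)^[n] 0) ^ d + c) * (d * P d n c ^ (d - 1) * vel d c Φ n))) =
        vel d c Φ (n + 1) := by
      have h9 : vel d c Φ (n + 1) = d * P d n c ^ (d - 1) * vel d c Φ n + Φ (P d (n + 1) c) := rfl
      rw [gg_zero, ← P_succ, h9]
      ring
    rw [h8] at h7
    exact h7

end Pool.Agent.R240.Univ
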