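import Pool.Agent.R240.Sep

set_option autoImplicit false

/-! # Closing the critical orbit from its expansion -/

namespace Pool.Agent.R240.Trans

open Complex Metric Set Filter Topology N62a1eb23
open Pool.Agent.H712R2 Pool.Agent.H713R2
open Pool.Agent.R240.Univ Pool.Agent.R240.Dpu
open Pool.Agent.H462R2.CD (F F_diff F_deriv pow_le_two)

variable {d : ℕ} {c : ℂ}

/-- non-hyperbolic parameters have no traps -/
theorem nt_nonhyp (hd : 2 ≤ d) (hH : c ∉ Pool.Agent.H462R2.AD.hyp d) {i : ℕ} (hi : 1 ≤ i) {ρ : ℝ}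
    (hρ : 0 < ρ) : NT d c i ρ := by
  intro y hy hcon
  have hd0 : (2:ℝ) ≤ d := by exact_mod_cast hd
  have hdp : (0:ℝ) < d := by linarith
  obtain ⟨g, hg⟩ : ∃ g, g = (fc d c)^[i] := ⟨_, rfl⟩
  have hgd : Differentiable ℂ g := by
    rw [hg]
    have : Differentiable ℂ (fc d c) := by unfold fc; fun_prop
    exact this.iterate i
  rw [← hg] at hcon
  obtain ⟨σ, hσ⟩ : ∃ σ, σ = ρ / (100 * d) := ⟨_, rfl⟩
  have hσ0 : 0 < σ := by rw [hσ]; positivity
  rw [← hσ] at hcon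
  have hσ1 : ρ + σ ≤ (1 + 1 / d) * ρ - 99 * σ := by
    rw [hσ]
    have : (1 + 1 / (d:ℝ)) * ρ = ρ + 100 * (ρ / (100 * d)) := by field_simp
    rw [this]
    linarith
  have hmaps : MapsTo g (closedBall 0 (ρ + σ)) (closedBall 0 (ρ + σ)) := by
    intro x hx
    rw [mem_closedBall_zero_iff] at hx ⊢
    have h1 := hcon x (by linarith)
    have h2 := norm_add_le (g x - y) y
    rw [sub_add_cancel] at h2
    linarith
  have hder : ∀ x ∈ closedBall (0:ℂ) (ρ + σ), ‖deriv g x‖ ≤ 1 / 2 := by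
    intro x hx
    rw [mem_closedBall_zero_iff] at hx
    have h1 : ‖deriv (fun z => g z - y) x‖ ≤ σ / (99 * σ) := by
      apply Complex.norm_deriv_le_of_forall_mem_sphere_norm_le (by positivity)
        (hgd.sub_const y).diffContOnCl
      intro z hz
      apply hcon
      rw [mem_sphere, dist_eq_norm] at hz
      have h2 := norm_add_le (z - x) x
      rw [sub_add_cancel] at h2
      linarith
    rw [deriv_sub_const] at h1
    refine h1.trans ?_
    rw [div_le_iff₀ (by positivity)]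
    linarith
  obtain ⟨z, -, h1, h2⟩ := Pool.Agent.H749R2.Hyp.fixed_of_contr (q := 1 / 2) (by positivity)
    (by norm_num) (by norm_num) hgd hmaps hder
  refine hH ⟨i, z, by omega, ?_, ?_, ?_⟩
  · rw [hg] at h1; exact h1
  · rw [hg] at hgd; exact hgd z
  · rw [hg] at h2; exact h2

theorem nonhyp_ne (hd : 2 ≤ d) (hH : c ∉ Pool.Agent.H462R2.AD.hyp d) {m : ℕ} (hm : 1 ≤ m) :
    P d m c ≠ 0 := by
  intro h
  exact hH ⟨m, 0, Pool.Agent.H548R3.MB.att_of_centre hd hm h⟩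

/-- **Lower bound of the critical orbit of non-hyperbolic parameters.** -/
theorem nonhyp_prod (hd : 2 ≤ d) (hH : c ∉ Pool.Agent.H462R2.AD.hyp d) (N : ℕ) :
    1 ≤ (400 * (d:ℝ)) ^ N * ∏ i ∈ Finset.range N, ‖P d (i + 1) c‖ ^ (d - 1) :=
  prod_lower hd (fun _ hm _ => nonhyp_ne hd hH hm) (fun _ hi _ _ hρ => nt_nonhyp hd hH hi hρ)

/-- the testing function for a set of indices -/
noncomputable def PB (d : ℕ) (c : ℂ) (B : Finset ℕ) (x : ℂ) : ℂ :=
  ∏ i ∈ B, (x - P d (i + 1) c) / (c - P d (i + 1) c)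

theorem c_sub' (d : ℕ) (c : ℂ) (i : ℕ) : c - P d (i + 1) c = -(P d i c ^ d) := by
  rw [P_succ]
  ring

theorem PB_diff (d : ℕ) (c : ℂ) (B : Finset ℕ) : Differentiable ℂ (PB d c B) := by
  unfold PB
  fun_prop

theorem PB_bound (hd : 2 ≤ d) (hc : c ∈ multibrotSet d) (B : Finset ℕ) {x : ℂ}
    (hx : x ∈ ball (0:ℂ) 4) : ‖PB d c B x‖ ≤ (∏ i ∈ B, ‖P d i c‖ ^ d / 6)⁻¹ := by
  unfold PB
  rw [norm_prod, ← Finset.prod_inv_distrib]
  apply Finset.prod_le_prod (fun _ _ => norm_nonneg _)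
  intro i _
  rw [norm_div, c_sub', norm_neg, norm_pow, inv_div]
  have h1 : ‖x - P d (i + 1) c‖ ≤ 6 := by
    have h2 := norm_sub_le x (P d (i + 1) c)
    have h3 : ‖P d (i + 1) c‖ ≤ 2 := norm_P_le hd hc _
    rw [mem_ball_zero_iff] at hx
    linarith
  gcongr

/-- **Closing from expansion.** -/
theorem clos1 (hd : 2 ≤ d) (hc : c ∈ multibrotSet d) (N : ℕ) {B : Finset ℕ}
    (hB : B ⊆ Finset.Icc 1 N)
    (ht : 2 * ∑ i ∈ Finset.Icc 1 N \ B, ‖DD d c i‖⁻¹ ≤ ∏ i ∈ B, ‖P d i c‖ ^ d / 6) :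
    ∃ a : ℂ, P d (N + 1) a = 0 ∧ ‖a - c‖ * ‖DD d c N‖ * ∏ i ∈ B, ‖P d i c‖ ^ d / 6 ≤
      (8 * KN + 16) * ‖P d (N + 1) c‖ * (1 + |Real.log ‖P d (N + 1) c‖|) := by
  have hd0 : (2:ℝ) ≤ d := by exact_mod_cast hd
  have hK := KN_pos
  have hc2 := norm_c_le hd hc
  by_cases hne : ∀ m, 1 ≤ m → m ≤ N → P d m c ≠ 0
  swap
  · push Not at hne
    obtain ⟨m, h1, h2, h3⟩ := hne
    refine ⟨0, P_at_zero hd _, ?_⟩
    have h4 : DD d c N = 0 := by
      unfold DD
      apply Finset.prod_eq_zero (i := m - 1) (by rw [Finset.mem_range]; omega)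
      rw [Nat.sub_add_cancel h1, h3, zero_pow (by omega), mul_zero]
    rw [h4, norm_zero, mul_zero, zero_mul]
    positivity
  obtain ⟨κ, hκ⟩ : ∃ κ, κ = ∏ i ∈ B, ‖P d i c‖ ^ d / 6 := ⟨_, rfl⟩
  rw [← hκ] at ht ⊢
  have hκ0 : 0 < κ := by
    rw [hκ]
    apply Finset.prod_pos
    intro i hi
    have h1 := Finset.mem_Icc.1 (hB hi)
    have h2 : 0 < ‖P d i c‖ := norm_pos_iff.2 (hne i h1.1 h1.2)
    positivity
  have hbd : ∀ x ∈ ball (0:ℂ) 4, ‖PB d c B x‖ ≤ κ⁻¹ := by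
    intro x hx
    rw [hκ]
    exact PB_bound hd hc B hx
  have h3 := univ_ne hd hc hne (Φ := PB d c B) (PB_diff d c B).differentiableOn hbd
  rw [(vel_one c (N + 1)).deriv.symm, vel_eq hd _ hne, norm_mul] at h3
  -- the sum
  have h4 : 1 / 2 ≤ ‖∑ k ∈ Finset.range (N + 1), (DD d c k)⁻¹ * PB d c B (zz d c k)‖ := by
    have e1 : Finset.range (N + 1) = insert 0 (Finset.Icc 1 N) := by
      ext k
      simp only [Finset.mem_range, Finset.mem_insert, Finset.mem_Icc]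
      omega
    rw [e1, Finset.sum_insert (by simp), ← Finset.sum_sdiff hB]
    have e2 : ∑ k ∈ B, (DD d c k)⁻¹ * PB d c B (zz d c k) = 0 := by
      apply Finset.sum_eq_zero
      intro k hk
      have : PB d c B (zz d c k) = 0 := by
        unfold PB
        apply Finset.prod_eq_zero hk
        unfold zz
        rw [sub_self, zero_div]
      rw [this, mul_zero]
    have e3 : (DD d c 0)⁻¹ * PB d c B (zz d c 0) = 1 := by
      have h5 : PB d c B (zz d c 0) = 1 := by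
        unfold PB
        apply Finset.prod_eq_one
        intro i hi
        have h1 := Finset.mem_Icc.1 (hB hi)
        have h7 : zz d c 0 = c := by
          unfold zz
          rw [zero_add, P_one (by omega)]
        rw [h7]
        apply div_self
        rw [c_sub', neg_ne_zero]
        exact pow_ne_zero _ (hne i h1.1 h1.2)
      rw [h5, DD_zero]
      simp
    rw [e2, e3, add_zero]
    have e4 : ‖∑ k ∈ Finset.Icc 1 N \ B, (DD d c k)⁻¹ * PB d c B (zz d c k)‖ ≤ 1 / 2 := by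
      refine (norm_sum_le _ _).trans ?_
      calc ∑ k ∈ Finset.Icc 1 N \ B, ‖(DD d c k)⁻¹ * PB d c B (zz d c k)‖
          ≤ ∑ k ∈ Finset.Icc 1 N \ B, ‖DD d c k‖⁻¹ * κ⁻¹ := by
            apply Finset.sum_le_sum
            intro k _
            rw [norm_mul, norm_inv]
            have : zz d c k ∈ ball (0:ℂ) 4 := by
              rw [mem_ball_zero_iff]
              have : ‖zz d c k‖ ≤ 2 := norm_P_le hd hc _
              linarith
            have := hbd _ this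
            gcongr
        _ = (∑ k ∈ Finset.Icc 1 N \ B, ‖DD d c k‖⁻¹) * κ⁻¹ := by rw [Finset.sum_mul]
        _ ≤ (κ / 2) * κ⁻¹ := by
            gcongr
            linarith
        _ = 1 / 2 := by field_simp
    have e5 := norm_sub_norm_le (1:ℂ) (-∑ k ∈ Finset.Icc 1 N \ B, (DD d c k)⁻¹ * PB d c B (zz d c k))
    rw [norm_neg, norm_one, sub_neg_eq_add] at e5
    linarith
  obtain ⟨a, ha, hac⟩ := newton hd (norm_P_le hd hc (N + 1)) hc2
  refine ⟨a, ha, ?_⟩
  have ha2 := norm_c_le hd (centre_mem hd (by omega : 1 ≤ N + 1) ha)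
  have hac4 : ‖a - c‖ ≤ 4 := by
    have := norm_sub_le a c
    linarith
  obtain ⟨x, hx⟩ : ∃ x, x = ‖P d (N + 1) c‖ := ⟨_, rfl⟩
  obtain ⟨l, hl⟩ : ∃ l, l = |Real.log x| := ⟨_, rfl⟩
  rw [← hx, ← hl] at h3 hac ⊢
  have hx0 : 0 ≤ x := by rw [hx]; exact norm_nonneg _
  have hl0 : 0 ≤ l := by rw [hl]; exact abs_nonneg _
  have h5 : ‖DD d c N‖ * (1 / 2) ≤ κ⁻¹ * (4 * ‖deriv (P d (N + 1)) c‖ + x * (2 + l)) := by
    refine le_trans ?_ h3
    gcongr
  have h6 : ‖DD d c N‖ * κ ≤ 8 * ‖deriv (P d (N + 1)) c‖ + 2 * (x * (2 + l)) := by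
    calc ‖DD d c N‖ * κ = 2 * κ * (‖DD d c N‖ * (1 / 2)) := by ring
      _ ≤ 2 * κ * (κ⁻¹ * (4 * ‖deriv (P d (N + 1)) c‖ + x * (2 + l))) := by gcongr
      _ = _ := by field_simp; ring
  calc ‖a - c‖ * ‖DD d c N‖ * κ = ‖a - c‖ * (‖DD d c N‖ * κ) := by ring
    _ ≤ ‖a - c‖ * (8 * ‖deriv (P d (N + 1)) c‖ + 2 * (x * (2 + l))) := by gcongr
    _ = 8 * (‖a - c‖ * ‖deriv (P d (N + 1)) c‖) + ‖a - c‖ * (2 * (x * (2 + l))) := by ring
    _ ≤ 8 * (KN * x * (1 + l)) + 4 * (2 * (x * (2 + 2 * l))) := by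
        gcongr
        linarith
    _ = _ := by ring

/-- the derivative of the iterates at the critical value -/
theorem DD_eq (hd : 2 ≤ d) (c : ℂ) (k : ℕ) : deriv (fc d c)^[k] c = DD d c k := by
  have hf : Differentiable ℂ (fc d c) := by unfold fc; fun_prop
  induction k with
  | zero => simp [DD_zero]
  | succ k ih =>
    have h1 : (fc d c)^[k] c = P d (k + 1) c := by
      rw [P_add, P_one hd]
    have h2 : ∀ z, deriv (fc d c) z = d * z ^ (d - 1) := fun z =>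
      ((hasDerivAt_pow d z).add_const c).deriv
    rw [Function.iterate_succ', deriv_comp _ (hf _) ((hf.iterate k) c), ih, DD_succ, h1, h2,
      mul_comm]

end Pool.Agent.R240.Trans
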