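import Pool.Agent.R240.Univ4

set_option autoImplicit false

/-! # Universal transversality for all finite combinations of points of the critical orbit -/

namespace Pool.Agent.R240.Pair

open Complex Metric Set Filter Topology MeasureTheory ENNReal N62a1eb23
open Pool.Agent.H712R2 Pool.Agent.H713R2 Pool.Agent.R240.Push Pool.Agent.R240.Univ

/-- the residues -/
noncomputable def rr (d : ℕ) (c : ℂ) : ℕ → ℕ → ℂ
  | 0, _ => 0
  | n + 1, k => d * P d n c ^ (d - 1) * rr d c n k + if k = n then 1 else 0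

theorem rr_ge {d : ℕ} {c : ℂ} {n k : ℕ} (h : n ≤ k) : rr d c n k = 0 := by
  induction n with
  | zero => rfl
  | succ n ih =>
    rw [rr, ih (by omega), if_neg (by omega)]
    ring

theorem vel_rr {d : ℕ} {c : ℂ} (Φ : ℂ → ℂ) {n N : ℕ} (h : n ≤ N) :
    vel d c Φ n = ∑ k ∈ Finset.range N, rr d c n k * Φ (zz d c k) := by
  induction n with
  | zero =>
    rw [Finset.sum_eq_zero]
    · rfl
    · intro k _
      rw [rr, zero_mul]
  | succ n ih =>
    rw [vel, ih (by omega), Finset.mul_sum]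
    have h1 : Φ (P d (n + 1) c) = ∑ k ∈ Finset.range N,
        (if k = n then 1 else 0) * Φ (zz d c k) := by
      rw [Finset.sum_eq_single n]
      · rw [if_pos rfl, one_mul]
        rfl
      · intro k _ hk
        rw [if_neg hk, zero_mul]
      · intro hn
        exact absurd (Finset.mem_range.2 h) hn
    rw [h1, ← Finset.sum_add_distrib]
    apply Finset.sum_congr rfl
    intro k _
    rw [rr]
    ring

theorem qq_succ {d : ℕ} {c : ℂ} {n N : ℕ} (h : n < N) (x : ℂ) :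
    qq N (rr d c (n + 1)) (zz d c) x =
      d * P d n c ^ (d - 1) * qq N (rr d c n) (zz d c) x + 1 / (x - P d (n + 1) c) := by
  unfold qq
  have h1 : 1 / (x - P d (n + 1) c) = ∑ k ∈ Finset.range N,
      (if k = n then 1 else 0) / (x - zz d c k) := by
    rw [Finset.sum_eq_single n]
    · rw [if_pos rfl]
      rfl
    · intro k _ hk
      rw [if_neg hk, zero_div]
    · intro hn
      exact absurd (Finset.mem_range.2 h) hn
  rw [h1, Finset.mul_sum, ← Finset.sum_add_distrib]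
  apply Finset.sum_congr rfl
  intro k _
  rw [rr]
  ring

theorem pole {d : ℕ} (hd : 2 ≤ d) {ζ : ℂ} (hζ : IsPrimitiveRoot ζ d) {c x a : ℂ} (hx : x ≠ 0)
    (hxa : x ^ d ≠ a ^ d) :
    ∑ i ∈ Finset.range d, (ζ ^ i) ^ 2 * (d * a ^ (d - 1) * (1 / (ζ ^ i * x - a))) =
      (d * x ^ (d - 1)) ^ 2 * (1 / (x ^ d + c - (a ^ d + c)) - 1 / (x ^ d + c - c)) := by
  have h1 : ∀ i, (ζ ^ i) ^ 2 * (d * a ^ (d - 1) * (1 / (ζ ^ i * x - a))) =
      d * a ^ (d - 1) * ((ζ ^ i) ^ 2 / (ζ ^ i * x - a)) := by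
    intro i
    ring
  rw [Finset.sum_congr rfl fun i _ => h1 i, ← Finset.mul_sum, root_sum hd hζ hxa]
  have e1 : x ^ d + c - c = x ^ d := by ring
  have e2 : x ^ d + c - (a ^ d + c) = x ^ d - a ^ d := by ring
  rw [e1, e2]
  have h4 : x ^ d - a ^ d ≠ 0 := sub_ne_zero.2 hxa
  have h5 : x ^ d ≠ 0 := pow_ne_zero _ hx
  obtain ⟨e, rfl⟩ : ∃ e, d = e + 2 := ⟨d - 2, by omega⟩
  have e3 : e + 2 - 1 = e + 1 := rfl
  have e4 : e + 2 - 2 = e := rfl
  rw [e3, e4]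
  field_simp
  ring

theorem push_one {d : ℕ} (hd : 2 ≤ d) {ζ : ℂ} (hζ : IsPrimitiveRoot ζ d) {c x : ℂ} (hx : x ≠ 0)
    {N : ℕ} (hxP : ∀ k ≤ N, x ^ d ≠ P d k c ^ d) {n : ℕ} (hn : n ≤ N) :
    ∑ i ∈ Finset.range d, (ζ ^ i) ^ 2 *
        (qq N (rr d c n) (zz d c) (ζ ^ i * x) - 1 / (ζ ^ i * x - P d n c)) =
      (d * x ^ (d - 1)) ^ 2 * (qq N (rr d c n) (zz d c) (x ^ d + c) -
        vel d c (fun _ => 1) n / (x ^ d + c - c)) := by
  induction n with
  | zero =>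
    have h0 : ∀ y, qq N (rr d c 0) (zz d c) y = 0 := by
      intro y
      unfold qq
      apply Finset.sum_eq_zero
      intro k _
      rw [rr, zero_div]
    have h1 : ∀ i ∈ Finset.range d, (ζ ^ i) ^ 2 *
        (qq N (rr d c 0) (zz d c) (ζ ^ i * x) - 1 / (ζ ^ i * x - P d 0 c)) =
        -((ζ ^ i) ^ 2 / (ζ ^ i * x - 0)) := by
      intro i _
      rw [h0, P_zero]
      ring
    rw [Finset.sum_congr rfl h1, Finset.sum_neg_distrib, root_sum hd hζ (a := 0) (by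
      rw [zero_pow (by omega)]
      exact pow_ne_zero _ hx), h0]
    simp [vel]
  | succ n ih =>
    have h1 : ∀ y, qq N (rr d c (n + 1)) (zz d c) y - 1 / (y - P d (n + 1) c) =
        d * P d n c ^ (d - 1) * (qq N (rr d c n) (zz d c) y - 1 / (y - P d n c)) +
          d * P d n c ^ (d - 1) * (1 / (y - P d n c)) := by
      intro y
      rw [qq_succ (by omega)]
      ring
    have h2 : ∀ i ∈ Finset.range d, (ζ ^ i) ^ 2 *
        (qq N (rr d c (n + 1)) (zz d c) (ζ ^ i * x) - 1 / (ζ ^ i * x - P d (n + 1) c)) =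
        d * P d n c ^ (d - 1) * ((ζ ^ i) ^ 2 *
          (qq N (rr d c n) (zz d c) (ζ ^ i * x) - 1 / (ζ ^ i * x - P d n c))) +
        (ζ ^ i) ^ 2 * (d * P d n c ^ (d - 1) * (1 / (ζ ^ i * x - P d n c))) := by
      intro i _
      rw [h1]
      ring
    rw [Finset.sum_congr rfl h2, Finset.sum_add_distrib, ← Finset.mul_sum, ih (by omega),
      pole hd hζ (c := c) hx (hxP n (by omega)), qq_succ (by omega), ← P_succ]
    have h3 : vel d c (fun _ => (1 : ℂ)) (n + 1) =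
        d * P d n c ^ (d - 1) * vel d c (fun _ => 1) n + 1 := rfl
    rw [h3]
    ring

/-- the combination of the simple poles -/
noncomputable def EE (d : ℕ) (c : ℂ) (s : Finset ℕ) (a : ℕ → ℂ) (x : ℂ) : ℂ :=
  ∑ n ∈ s, a n / (x - P d n c)

theorem EE_meas (d : ℕ) (c : ℂ) (s : Finset ℕ) (a : ℕ → ℂ) : Measurable (EE d c s a) := by
  unfold EE
  fun_prop

/-- **The norm on the annulus.** -/
theorem ann_bound {d : ℕ} (hd : 2 ≤ d) {c : ℂ} (hc : c ∈ multibrotSet d) {N : ℕ}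
    {s : Finset ℕ} (hs : ∀ n ∈ s, n ≤ N) (a : ℕ → ℂ) :
    ∫⁻ x in Ann, ‖qq N (fun k => ∑ n ∈ s, a n * rr d c n k) (zz d c) x‖ₑ ≤
      ENNReal.ofReal (12 * Real.pi * ‖∑ n ∈ s, a n * vel d c (fun _ => 1) n‖) +
      ∫⁻ x in ball (0:ℂ) 4, ‖EE d c s a x‖ₑ := by
  have hd0 : (0:ℝ) < d := by exact_mod_cast (by omega : 0 < d)
  have hc2 := norm_c_le hd hc
  have hpi := Real.pi_pos
  obtain ⟨q, hq⟩ : ∃ q, q = qq N (fun k => ∑ n ∈ s, a n * rr d c n k) (zz d c) := ⟨_, rfl⟩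
  obtain ⟨S, hS⟩ : ∃ S, S = ∑ n ∈ s, a n * vel d c (fun _ => 1) n := ⟨_, rfl⟩
  obtain ⟨E, hE⟩ : ∃ E, E = EE d c s a := ⟨_, rfl⟩
  have hEm : Measurable E := by rw [hE]; exact EE_meas _ _ _ _
  rw [← hq, ← hS, ← hE]
  have hqm : Measurable q := by rw [hq]; exact qq_meas _ _ _
  have hqs : ∀ x, q x = ∑ n ∈ s, a n * qq N (rr d c n) (zz d c) x := by
    intro x
    rw [hq]
    unfold qq
    simp only [Finset.mul_sum, Finset.sum_div]
    rw [Finset.sum_comm]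
    apply Finset.sum_congr rfl
    intro n _
    apply Finset.sum_congr rfl
    intro k _
    ring
  have hz2 : ∀ k, ‖zz d c k‖ ≤ 2 := fun k => norm_P_le hd hc (k + 1)
  obtain ⟨U, hU⟩ : ∃ U : Set ℂ, U = {x | x ^ d + c ∈ ball (0:ℂ) 4} := ⟨_, rfl⟩
  have hUm : MeasurableSet U := by
    rw [hU]
    exact isOpen_ball.measurableSet.preimage (by fun_prop)
  have hU5 : ∀ x ∈ U, ‖x‖ ≤ 5 / 2 := by
    intro x hx
    rw [hU, mem_ofPred_eq, mem_ball_zero_iff] at hx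
    by_contra hcon
    push Not at hcon
    have h1 : ‖x ^ d‖ ≤ ‖x ^ d + c‖ + ‖c‖ := by
      calc ‖x ^ d‖ = ‖(x ^ d + c) - c‖ := by congr 1; ring
        _ ≤ _ := norm_sub_le _ _
    rw [norm_pow] at h1
    have h2 : ‖x‖ ^ 2 ≤ ‖x‖ ^ d := pow_le_pow_right₀ (by linarith) hd
    nlinarith
  have hUV : U ∪ Ann ⊆ ball (0:ℂ) 4 := by
    rintro x (hx | hx)
    · rw [mem_ball_zero_iff]
      have := hU5 x hx
      linarith
    · rw [mem_ball_zero_iff]
      exact hx.2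
  have hdisj : Disjoint U Ann := by
    rw [Set.disjoint_left]
    intro x hx hx2
    have := hU5 x hx
    have := hx2.1
    linarith
  -- the push-forward
  obtain ⟨G, hG⟩ : ∃ G : ℂ → ℂ, G = fun y => q y - S / (y - c) := ⟨_, rfl⟩
  have hGm : Measurable G := by
    rw [hG]
    exact hqm.sub (by fun_prop)
  obtain ⟨ζ, hζ⟩ : ∃ ζ : ℂ, IsPrimitiveRoot ζ d := ⟨_, Complex.isPrimitiveRoot_exp d (by omega)⟩
  have hpush : ∀ᵐ x : ℂ, (d * x ^ (d - 1)) ^ 2 * G (x ^ d + c) =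
      ∑ i ∈ Finset.range d, (ζ ^ i) ^ 2 * (fun x => q x - E x) (ζ ^ i * x) := by
    have hfin : ({0} ∪ ⋃ k ∈ Finset.range (N + 1), {x : ℂ | x ^ d = P d k c ^ d}).Finite := by
      apply (finite_singleton _).union
      apply Set.Finite.biUnion (Finset.finite_toSet _)
      intro k _
      exact finite_pow hd _
    have h0 := hfin.measure_zero (volume : Measure ℂ)
    rw [← compl_compl ({0} ∪ ⋃ k ∈ Finset.range (N + 1), {x : ℂ | x ^ d = P d k c ^ d})] at h0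
    have h0' : ({0} ∪ ⋃ k ∈ Finset.range (N + 1), {x : ℂ | x ^ d = P d k c ^ d})ᶜ ∈
        ae (volume : Measure ℂ) := h0
    filter_upwards [h0'] with x hx
    simp only [mem_compl_iff, mem_union, mem_singleton_iff, mem_iUnion, not_or, not_exists,
      Finset.mem_range, mem_ofPred_eq] at hx
    obtain ⟨hx0, hx1⟩ := hx
    have h1 : ∀ i ∈ Finset.range d, (ζ ^ i) ^ 2 * (fun x => q x - E x) (ζ ^ i * x) =
        ∑ n ∈ s, a n * ((ζ ^ i) ^ 2 *
          (qq N (rr d c n) (zz d c) (ζ ^ i * x) - 1 / (ζ ^ i * x - P d n c))) := by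
      intro i _
      simp only [hqs, hE]
      unfold EE
      rw [← Finset.sum_sub_distrib, Finset.mul_sum]
      apply Finset.sum_congr rfl
      intro n _
      ring
    rw [Finset.sum_congr rfl h1, Finset.sum_comm]
    have h2 : ∀ n ∈ s, ∑ i ∈ Finset.range d, a n * ((ζ ^ i) ^ 2 *
          (qq N (rr d c n) (zz d c) (ζ ^ i * x) - 1 / (ζ ^ i * x - P d n c))) =
        a n * ((d * x ^ (d - 1)) ^ 2 * (qq N (rr d c n) (zz d c) (x ^ d + c) -
          vel d c (fun _ => 1) n / (x ^ d + c - c))) := by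
      intro n hn
      rw [← Finset.mul_sum, push_one hd hζ hx0 (fun k hk => hx1 k (by omega)) (hs n hn)]
    rw [Finset.sum_congr rfl h2, hG]
    simp only [hqs, hS]
    rw [Finset.sum_div, ← Finset.sum_sub_distrib, Finset.mul_sum]
    apply Finset.sum_congr rfl
    intro n _
    ring
  have hcon := contraction hd hζ (hqm.sub hEm) hGm hpush
    (V := ball (0:ℂ) 4) isOpen_ball.measurableSet
  rw [← hU] at hcon
  have hpt : ∀ y : ℂ, ‖q y‖ₑ ≤ ‖G y‖ₑ + ENNReal.ofReal ‖S‖ * ENNReal.ofReal (‖y - c‖⁻¹) := by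
    intro y
    have h1 : q y = G y + S / (y - c) := by rw [hG]; ring
    rw [h1]
    refine (enorm_add_le _ _).trans ?_
    gcongr
    rw [div_eq_mul_inv, enorm_mul, ← ofReal_norm ((y - c)⁻¹), norm_inv, ← ofReal_norm S]
  have hV : ∫⁻ y in ball (0:ℂ) 4, ‖q y‖ₑ ≤ (∫⁻ x in U, ‖q x‖ₑ) +
      (ENNReal.ofReal (12 * Real.pi * ‖S‖) + ∫⁻ x in ball (0:ℂ) 4, ‖E x‖ₑ) := by
    refine (lintegral_mono hpt).trans ?_
    rw [lintegral_add_left hGm.enorm]
    have h1 : ∫⁻ x in U, ‖(fun x => q x - E x) x‖ₑ ≤ (∫⁻ x in U, ‖q x‖ₑ) +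
        ∫⁻ x in ball (0:ℂ) 4, ‖E x‖ₑ := by
      calc ∫⁻ x in U, ‖(fun x => q x - E x) x‖ₑ ≤ ∫⁻ x in U, (‖q x‖ₑ + ‖E x‖ₑ) :=
            lintegral_mono fun x => enorm_sub_le
        _ = (∫⁻ x in U, ‖q x‖ₑ) + ∫⁻ x in U, ‖E x‖ₑ := lintegral_add_left hqm.enorm _
        _ ≤ _ := by
            gcongr
            exact subset_union_left.trans hUV
    have h2 : ∫⁻ y in ball (0:ℂ) 4, ENNReal.ofReal ‖S‖ * ENNReal.ofReal (‖y - c‖⁻¹) ≤
        ENNReal.ofReal (12 * Real.pi * ‖S‖) := by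
      rw [lintegral_const_mul' _ _ ENNReal.ofReal_ne_top, mul_comm (12 * Real.pi),
        ENNReal.ofReal_mul (norm_nonneg S)]
      gcongr
      exact inv_int le_rfl (sub_ball hc2)
    calc (∫⁻ y in ball (0:ℂ) 4, ‖G y‖ₑ) +
          ∫⁻ y in ball (0:ℂ) 4, ENNReal.ofReal ‖S‖ * ENNReal.ofReal (‖y - c‖⁻¹)
        ≤ ((∫⁻ x in U, ‖q x‖ₑ) + ∫⁻ x in ball (0:ℂ) 4, ‖E x‖ₑ) +
          ENNReal.ofReal (12 * Real.pi * ‖S‖) := add_le_add (hcon.trans h1) h2
      _ = _ := by ring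
  have hfinU : ∫⁻ x in U, ‖q x‖ₑ ≠ ⊤ := by
    refine ne_top_of_le_ne_top ?_ (lintegral_mono_set (subset_union_left.trans hUV))
    rw [hq]
    exact q_fin fun k _ => hz2 k
  have hsplit : (∫⁻ x in U, ‖q x‖ₑ) + (∫⁻ x in Ann, ‖q x‖ₑ) ≤ ∫⁻ y in ball (0:ℂ) 4, ‖q y‖ₑ := by
    rw [← lintegral_union Ann_meas hdisj]
    exact lintegral_mono_set hUV
  exact (ENNReal.add_le_add_iff_left hfinU).1 (hsplit.trans hV)

/-- **Universal transversality** for all finite combinations. -/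
theorem master {d : ℕ} (hd : 2 ≤ d) {c : ℂ} (hc : c ∈ multibrotSet d) (s : Finset ℕ) (a : ℕ → ℂ)
    {Φ : ℂ → ℂ} {M : ℝ} (hΦ : DifferentiableOn ℂ Φ (ball 0 4))
    (hM : ∀ x ∈ ball (0:ℂ) 4, ‖Φ x‖ ≤ M) :
    ENNReal.ofReal (3 * Real.pi * ‖∑ n ∈ s, a n * vel d c Φ n‖) ≤ ENNReal.ofReal M *
      (ENNReal.ofReal (12 * Real.pi * ‖∑ n ∈ s, a n * vel d c (fun _ => 1) n‖) +
        ∫⁻ x in ball (0:ℂ) 4, ‖EE d c s a x‖ₑ) := by
  obtain ⟨N, hN⟩ : ∃ N, ∀ n ∈ s, n ≤ N := ⟨s.sup id, fun n hn => Finset.le_sup (f := id) hn⟩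
  have h1 := resid (n := N) (ρ := fun k => ∑ n ∈ s, a n * rr d c n k) (z := zz d c)
    (fun k _ => norm_P_le hd hc (k + 1)) hΦ hM
  have h2 : ∑ k ∈ Finset.range N, (∑ n ∈ s, a n * rr d c n k) * Φ (zz d c k) =
      ∑ n ∈ s, a n * vel d c Φ n := by
    simp only [Finset.sum_mul]
    rw [Finset.sum_comm]
    apply Finset.sum_congr rfl
    intro n hn
    rw [vel_rr Φ (hN n hn), Finset.mul_sum]
    apply Finset.sum_congr rfl
    intro k _
    ring
  rw [h2] at h1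
  exact h1.trans (by gcongr; exact ann_bound hd hc hN a)

end Pool.Agent.R240.Pair
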