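import Pool.Agent.R240.Pair1
import Pool.Agent.R240.Dual1

set_option autoImplicit false

/-! # Every perturbation is a change of the parameter plus a quasiconformal one -/

namespace Pool.Agent.R240.Pair

open Complex Metric Set Filter Topology MeasureTheory ENNReal N62a1eb23
open Pool.Agent.H712R2 Pool.Agent.H713R2 Pool.Agent.R240.Push Pool.Agent.R240.Univ

theorem enorm_inv (a x : ℂ) : ‖1 / (x - a)‖ₑ = ENNReal.ofReal (‖x - a‖⁻¹) := by
  rw [← ofReal_norm, norm_div, norm_one, one_div]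

theorem inv_integrable {a : ℂ} (ha : ‖a‖ ≤ 2) :
    Integrable (fun x : ℂ => 1 / (x - a)) (volume.restrict (ball (0:ℂ) 4)) := by
  refine ⟨(by fun_prop : Measurable fun x : ℂ => 1 / (x - a)).aestronglyMeasurable, ?_⟩
  rw [HasFiniteIntegral]
  simp only [enorm_inv]
  exact (inv_int le_rfl (sub_ball ha)).trans_lt ENNReal.ofReal_lt_top

/-- **Decomposition of the perturbations.** -/
theorem decomp {d : ℕ} (hd : 2 ≤ d) {c : ℂ} (hc : c ∈ multibrotSet d) {Φ : ℂ → ℂ} {M : ℝ}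
    (hΦ : DifferentiableOn ℂ Φ (ball 0 4)) (hM : ∀ x ∈ ball (0:ℂ) 4, ‖Φ x‖ ≤ M) :
    ∃ (R : ℂ) (μ : ℂ → ℂ), ‖R‖ ≤ 4 * M ∧ Measurable μ ∧ (∀ x, ‖μ x‖ ≤ M / (3 * Real.pi)) ∧
      ∀ n, vel d c Φ n = R * vel d c (fun _ => 1) n +
        ∫ x in ball (0:ℂ) 4, μ x * (1 / (x - P d n c)) := by
  have hM0 : 0 ≤ M := (norm_nonneg _).trans (hM 0 (mem_ball_self (by norm_num)))
  have hpi := Real.pi_pos
  obtain ⟨ν, hν⟩ : ∃ ν : Measure ℂ, ν = volume.restrict (ball (0:ℂ) 4) := ⟨_, rfl⟩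
  have : IsFiniteMeasure ν := by
    rw [hν]
    exact ⟨by rw [Measure.restrict_apply_univ]; exact measure_ball_lt_top⟩
  have hint : ∀ n, Integrable (fun x : ℂ => 1 / (x - P d n c)) ν := by
    intro n
    rw [hν]
    exact inv_integrable (norm_P_le hd hc n)
  have hmem : ∀ n, MemLp (fun x : ℂ => 1 / (x - P d n c)) 1 ν := fun n =>
    memLp_one_iff_integrable.2 (hint n)
  obtain ⟨G, hG⟩ : ∃ G : ℕ → Lp ℂ 1 ν, ∀ n, (G n : ℂ → ℂ) =ᵐ[ν] fun x => 1 / (x - P d n c) :=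
    ⟨fun n => (hmem n).toLp _, fun n => (hmem n).coeFn_toLp⟩
  have hsum : ∀ (s : Finset ℕ) (a : ℕ → ℂ),
      ((∑ n ∈ s, a n • G n : Lp ℂ 1 ν) : ℂ → ℂ) =ᵐ[ν] EE d c s a := by
    intro s a
    induction s using Finset.induction_on with
    | empty =>
      rw [Finset.sum_empty]
      filter_upwards [Lp.coeFn_zero ℂ 1 ν] with x hx
      rw [hx]
      simp [EE]
    | insert k s hk ih =>
      rw [Finset.sum_insert hk]
      filter_upwards [Lp.coeFn_add (a k • G k) (∑ n ∈ s, a n • G n), ih, Lp.coeFn_smul (a k) (G k),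
        hG k] with x h1 h2 h3 h4
      rw [h1, Pi.add_apply, h2, h3, Pi.smul_apply, h4, smul_eq_mul]
      unfold EE
      rw [Finset.sum_insert hk]
      ring
  have hnorm : ∀ (s : Finset ℕ) (a : ℕ → ℂ),
      ∫⁻ x in ball (0:ℂ) 4, ‖EE d c s a x‖ₑ = ENNReal.ofReal ‖(∑ n ∈ s, a n • G n : Lp ℂ 1 ν)‖ := by
    intro s a
    rw [ofReal_norm, Lp.enorm_def, eLpNorm_one_eq_lintegral_enorm, ← hν]
    apply lintegral_congr_ae
    filter_upwards [hsum s a] with x hx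
    rw [hx]
  -- the seminorm
  obtain ⟨p, hp⟩ : ∃ p : Seminorm ℂ (ℂ × Lp ℂ 1 ν),
      ∀ x, p x = 4 * M * ‖x.1‖ + M / (3 * Real.pi) * ‖x.2‖ := by
    refine ⟨Seminorm.of (fun x => 4 * M * ‖x.1‖ + M / (3 * Real.pi) * ‖x.2‖) ?_ ?_, fun x => rfl⟩
    · intro x y
      have h1 := norm_add_le x.1 y.1
      have h2 := norm_add_le x.2 y.2
      have h3 : 4 * M * ‖(x + y).1‖ ≤ 4 * M * (‖x.1‖ + ‖y.1‖) := by
        rw [Prod.fst_add]
        gcongr
      have h4 : M / (3 * Real.pi) * ‖(x + y).2‖ ≤ M / (3 * Real.pi) * (‖x.2‖ + ‖y.2‖) := by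
        rw [Prod.snd_add]
        gcongr
      linarith
    · intro a x
      rw [Prod.smul_fst, Prod.smul_snd, norm_smul, norm_smul]
      ring
  obtain ⟨g, hg1, hg2⟩ := Dual.ext_of_bound p (fun n => (vel d c (fun _ => 1) n, G n))
    (vel d c Φ) (by
      intro s a
      have h1 := master hd hc s a hΦ hM
      rw [hnorm, ← ENNReal.ofReal_add (by positivity) (norm_nonneg _),
        ← ENNReal.ofReal_mul hM0, ENNReal.ofReal_le_ofReal_iff (by positivity)] at h1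
      rw [hp]
      have h2 : (∑ n ∈ s, a n • ((vel d c (fun _ => 1) n, G n) : ℂ × Lp ℂ 1 ν)).1 =
          ∑ n ∈ s, a n * vel d c (fun _ => 1) n := by
        rw [Prod.fst_sum]
        rfl
      have h3 : (∑ n ∈ s, a n • ((vel d c (fun _ => 1) n, G n) : ℂ × Lp ℂ 1 ν)).2 =
          ∑ n ∈ s, a n • G n := by
        rw [Prod.snd_sum]
        rfl
      rw [h2, h3]
      have h4 : 4 * M * ‖∑ n ∈ s, a n * vel d c (fun _ => 1) n‖ +
          M / (3 * Real.pi) * ‖∑ n ∈ s, a n • G n‖ =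
          M * (12 * Real.pi * ‖∑ n ∈ s, a n * vel d c (fun _ => 1) n‖ +
            ‖∑ n ∈ s, a n • G n‖) / (3 * Real.pi) := by
        field_simp
        ring
      rw [h4, le_div_iff₀ (by positivity)]
      linarith)
  obtain ⟨μ, hμ1, hμ2, hμ3⟩ := Dual.repr (g.comp (LinearMap.inr ℂ ℂ (Lp ℂ 1 ν)))
    (C := M / (3 * Real.pi)) (by positivity) (by
      intro h
      rw [LinearMap.comp_apply, LinearMap.inr_apply]
      refine (hg2 _).trans ?_
      rw [hp]
      simp)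
  refine ⟨g (1, 0), μ, ?_, hμ1, hμ2, fun n => ?_⟩
  · refine (hg2 _).trans ?_
    rw [hp]
    simp
  · have h1 : ((vel d c (fun _ => 1) n, G n) : ℂ × Lp ℂ 1 ν) =
        vel d c (fun _ => 1) n • ((1, 0) : ℂ × Lp ℂ 1 ν) + (0, G n) := by
      ext1
      · simp
      · simp
    have h2 := hg1 n
    rw [h1, map_add, map_smul, smul_eq_mul] at h2
    have h3 := hμ3 (G n)
    rw [LinearMap.comp_apply, LinearMap.inr_apply] at h3
    rw [← h2, h3, mul_comm (g (1, 0)), ← hν]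
    congr 1
    apply integral_congr_ae
    filter_upwards [hG n] with x hx
    rw [hx]

/-- The potential of a bounded function is log-Lipschitz. -/
theorem pot_bound {μ : ℂ → ℂ} {B : ℝ} (hμ : Measurable μ) (hB : ∀ x, ‖μ x‖ ≤ B) {a b : ℂ}
    (ha : ‖a‖ ≤ 2) (hb : ‖b‖ ≤ 2) :
    ‖(∫ x in ball (0:ℂ) 4, μ x * (1 / (x - a))) - ∫ x in ball (0:ℂ) 4, μ x * (1 / (x - b))‖ ≤
      B * Real.pi * ‖a - b‖ * (12 + 2 * |Real.log ‖a - b‖|) := by
  have hB0 : 0 ≤ B := (norm_nonneg _).trans (hB 0)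
  have hpi := Real.pi_pos
  by_cases hab : a = b
  · subst hab
    simp
  have hδ : 0 < ‖a - b‖ := norm_pos_iff.2 (sub_ne_zero.2 hab)
  have hI : ∀ y : ℂ, ‖y‖ ≤ 2 → Integrable (fun x => μ x * (1 / (x - y)))
      (volume.restrict (ball (0:ℂ) 4)) := by
    intro y hy
    exact (inv_integrable hy).bdd_mul hμ.aestronglyMeasurable (Eventually.of_forall hB)
  rw [← integral_sub (hI a ha) (hI b hb)]
  have h1 : ‖∫ x in ball (0:ℂ) 4, (μ x * (1 / (x - a)) - μ x * (1 / (x - b)))‖ₑ ≤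
      ENNReal.ofReal (B * ‖a - b‖ * (4 * Real.pi + 2 * Real.pi * Real.log (24 / ‖a - b‖))) := by
    refine (enorm_integral_le_lintegral_enorm _).trans ?_
    rw [ENNReal.ofReal_mul (by positivity)]
    refine le_trans ?_ (mul_le_mul_right (kern_two ha hb hab) _)
    rw [← lintegral_const_mul' _ _ ENNReal.ofReal_ne_top]
    have hae : ∀ᵐ x : ℂ ∂(volume.restrict (ball (0:ℂ) 4)), x ≠ a ∧ x ≠ b := by
      apply ae_restrict_of_ae
      have h0 : ({a, b} : Set ℂ).Finite := Set.toFinite _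
      have h2 := h0.measure_zero (volume : Measure ℂ)
      rw [← compl_compl ({a, b} : Set ℂ)] at h2
      have h3 : ({a, b} : Set ℂ)ᶜ ∈ ae (volume : Measure ℂ) := h2
      filter_upwards [h3] with x hx
      simp only [mem_compl_iff, mem_insert_iff, mem_singleton_iff, not_or] at hx
      exact hx
    refine lintegral_mono_ae ?_
    filter_upwards [hae] with x ⟨hxa, hxb⟩
    rw [← ENNReal.ofReal_mul (by positivity), ← ofReal_norm]
    apply ENNReal.ofReal_le_ofReal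
    have h4 : μ x * (1 / (x - a)) - μ x * (1 / (x - b)) =
        μ x * ((a - b) * ((x - a)⁻¹ * (x - b)⁻¹)) := by
      have h5 : x - a ≠ 0 := sub_ne_zero.2 hxa
      have h6 : x - b ≠ 0 := sub_ne_zero.2 hxb
      field_simp
      ring
    rw [h4, norm_mul, norm_mul, norm_mul, norm_inv, norm_inv, ← mul_assoc, ← mul_assoc]
    rw [mul_assoc (‖μ x‖ * ‖a - b‖)]
    gcongr
    exact hB x
  rw [← ofReal_norm] at h1
  have hlog : Real.log (24 / ‖a - b‖) ≤ 4 + |Real.log ‖a - b‖| := by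
    rw [Real.log_div (by norm_num) hδ.ne']
    have := log24
    have := neg_abs_le (Real.log ‖a - b‖)
    linarith
  have hδ4 : ‖a - b‖ ≤ 4 := by
    have := norm_sub_le a b
    linarith
  have hlog0 : 0 ≤ Real.log (24 / ‖a - b‖) := by
    apply Real.log_nonneg
    rw [le_div_iff₀ hδ]
    linarith
  have h2 := (ENNReal.ofReal_le_ofReal_iff (by positivity)).1 h1
  refine h2.trans ?_
  have h3 : B * ‖a - b‖ * (4 * Real.pi + 2 * Real.pi * Real.log (24 / ‖a - b‖)) ≤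
      B * ‖a - b‖ * (4 * Real.pi + 2 * Real.pi * (4 + |Real.log ‖a - b‖|)) := by gcongr
  refine h3.trans (le_of_eq ?_)
  ring

/-- **The velocities of two points of the critical orbit.** -/
theorem pair_bound {d : ℕ} (hd : 2 ≤ d) {c : ℂ} (hc : c ∈ multibrotSet d) {Φ : ℂ → ℂ} {M : ℝ}
    (hΦ : DifferentiableOn ℂ Φ (ball 0 4)) (hM : ∀ x ∈ ball (0:ℂ) 4, ‖Φ x‖ ≤ M) (n m : ℕ) :
    ‖vel d c Φ n - vel d c Φ m‖ ≤ M * (4 * ‖vel d c (fun _ => 1) n - vel d c (fun _ => 1) m‖ +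
      ‖P d n c - P d m c‖ * (4 + |Real.log ‖P d n c - P d m c‖|)) := by
  have hM0 : 0 ≤ M := (norm_nonneg _).trans (hM 0 (mem_ball_self (by norm_num)))
  have hpi := Real.pi_pos
  obtain ⟨R, μ, hR, hμ1, hμ2, h⟩ := decomp hd hc hΦ hM
  have h1 := pot_bound hμ1 hμ2 (norm_P_le hd hc n) (norm_P_le hd hc m)
  have h2 : vel d c Φ n - vel d c Φ m =
      R * (vel d c (fun _ => 1) n - vel d c (fun _ => 1) m) +
      ((∫ x in ball (0:ℂ) 4, μ x * (1 / (x - P d n c))) -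
        ∫ x in ball (0:ℂ) 4, μ x * (1 / (x - P d m c))) := by
    rw [h n, h m]
    ring
  rw [h2]
  refine (norm_add_le _ _).trans ?_
  rw [norm_mul]
  have h3 : M / (3 * Real.pi) * Real.pi * ‖P d n c - P d m c‖ *
      (12 + 2 * |Real.log ‖P d n c - P d m c‖|) =
      M * ‖P d n c - P d m c‖ * ((12 + 2 * |Real.log ‖P d n c - P d m c‖|) / 3) := by
    field_simp
  rw [h3] at h1
  have h4 := abs_nonneg (Real.log ‖P d n c - P d m c‖)
  calc ‖R‖ * ‖vel d c (fun _ => 1) n - vel d c (fun _ => 1) m‖ + _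
      ≤ 4 * M * ‖vel d c (fun _ => 1) n - vel d c (fun _ => 1) m‖ +
        M * ‖P d n c - P d m c‖ * ((12 + 2 * |Real.log ‖P d n c - P d m c‖|) / 3) := by
        gcongr
    _ ≤ 4 * M * ‖vel d c (fun _ => 1) n - vel d c (fun _ => 1) m‖ +
        M * ‖P d n c - P d m c‖ * (4 + |Real.log ‖P d n c - P d m c‖|) := by
        gcongr
        linarith
    _ = _ := by ring

end Pool.Agent.R240.Pair
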