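import Mathlib

set_option autoImplicit false

/-! # Polar coordinates and the change of variables for the map `x ↦ x ^ d` -/

namespace Pool.Agent.R240.Push

open Complex Metric Set Filter Topology MeasureTheory ENNReal

theorem polar (f : ℂ → ℝ≥0∞) (hf : Measurable f) :
    ∫⁻ z, f z = ∫⁻ r in Ioi (0:ℝ), ENNReal.ofReal r *
      ∫⁻ θ in Ioc (-Real.pi) Real.pi, f (r * exp (θ * I)) := by
  have hm : Measurable fun p : ℝ × ℝ => ENNReal.ofReal p.1 * f (p.1 * exp (p.2 * I)) := by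
    apply Measurable.mul (by fun_prop)
    exact hf.comp (by fun_prop)
  rw [← Complex.lintegral_comp_polarCoord_symm, show polarCoord.target = Ioi (0:ℝ) ×ˢ Ioo (-Real.pi) Real.pi from rfl,
    Measure.volume_eq_prod, ← Measure.prod_restrict]
  have h1 : ∀ p : ℝ × ℝ, ENNReal.ofReal p.1 • f (Complex.polarCoord.symm p) =
      ENNReal.ofReal p.1 * f (p.1 * exp (p.2 * I)) := by
    intro p
    rw [Complex.polarCoord_symm_apply, smul_eq_mul, Complex.exp_mul_I]
    push_cast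
    rfl
  simp only [h1]
  rw [lintegral_prod _ hm.aemeasurable]
  apply lintegral_congr
  intro r
  rw [Measure.restrict_congr_set Ioo_ae_eq_Ioc]
  have h2 : Measurable fun θ : ℝ => f ((r : ℂ) * exp (θ * I)) := hf.comp (by fun_prop)
  exact lintegral_const_mul (μ := volume.restrict (Ioc (-Real.pi) Real.pi)) (ENNReal.ofReal r) h2

theorem circle_pow {d : ℕ} (hd : 2 ≤ d) (h : ℂ → ℝ≥0∞) (hh : Measurable h) (s : ℝ) :
    ∫⁻ θ in Ioc (-Real.pi) Real.pi, h (s * exp (θ * I) ^ d) =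
      ∫⁻ θ in Ioc (-Real.pi) Real.pi, h (s * exp (θ * I)) := by
  have : Fact (0 < 2 * Real.pi) := ⟨by positivity⟩
  obtain ⟨H, hH⟩ : ∃ H : AddCircle (2 * Real.pi) → ℝ≥0∞, H = fun y =>
    h (s * (AddCircle.toCircle y : ℂ)) := ⟨_, rfl⟩
  have hHm : Measurable H := by
    rw [hH]
    apply hh.comp
    apply Measurable.const_mul
    exact (continuous_subtype_val.comp AddCircle.continuous_toCircle).measurable
  have h0 : ∀ θ : ℝ, ((AddCircle.toCircle (θ : AddCircle (2 * Real.pi)) : Circle) : ℂ) =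
      exp (θ * I) := by
    intro θ
    rw [AddCircle.toCircle_apply_mk, Circle.coe_exp]
    congr 2
    rw [div_self (by positivity), one_mul]
  have h1 : ∀ F : AddCircle (2 * Real.pi) → ℝ≥0∞, ∫⁻ θ in Ioc (-Real.pi) Real.pi, F θ =
      ∫⁻ y, F y := by
    intro F
    rw [← AddCircle.lintegral_preimage (2 * Real.pi) (-Real.pi) F]
    congr 3
    ring
  have h2 := (AddCircle.ergodic_nsmul (T := 2 * Real.pi) (n := d) (by omega)).toMeasurePreserving
  have h3 := h2.lintegral_comp hHm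
  rw [← h1, ← h1] at h3
  have e1 : ∀ θ : ℝ, H (θ : AddCircle (2 * Real.pi)) = h (s * exp (θ * I)) := by
    intro θ
    rw [hH]
    simp only [h0]
  have e2 : ∀ θ : ℝ, H (d • (θ : AddCircle (2 * Real.pi))) = h (s * exp (θ * I) ^ d) := by
    intro θ
    rw [hH]
    simp only [AddCircle.toCircle_nsmul, Circle.coe_pow, h0]
  simp only [e1, e2] at h3
  exact h3

theorem image_pow {d : ℕ} (hd : 2 ≤ d) : (fun r : ℝ => r ^ d) '' Ioi 0 = Ioi 0 := by
  ext y
  simp only [mem_image, mem_Ioi]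
  constructor
  · rintro ⟨r, hr, rfl⟩
    positivity
  · intro hy
    exact ⟨y ^ ((d : ℝ)⁻¹), Real.rpow_pos_of_pos hy _, Real.rpow_inv_natCast_pow hy.le (by omega)⟩

/-- **Change of variables** for `x ↦ x ^ d`. -/
theorem lintegral_pow_map {d : ℕ} (hd : 2 ≤ d) (g : ℂ → ℝ≥0∞) (hg : Measurable g) :
    ∫⁻ x : ℂ, ENNReal.ofReal ((d * ‖x‖ ^ (d - 1)) ^ 2) * g (x ^ d) = d * ∫⁻ y, g y := by
  have hd0 : (0:ℝ) < d := by exact_mod_cast (by omega : 0 < d)
  rw [polar _ (by fun_prop), polar g hg]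
  have h1 : ∀ r : ℝ, r ∈ Ioi (0:ℝ) → (ENNReal.ofReal r * ∫⁻ θ in Ioc (-Real.pi) Real.pi,
      ENNReal.ofReal ((d * ‖(r:ℂ) * exp (θ * I)‖ ^ (d - 1)) ^ 2) * g (((r:ℂ) * exp (θ * I)) ^ d)) =
      ENNReal.ofReal |d * r ^ (d - 1)| * (d * (ENNReal.ofReal (r ^ d) *
        ∫⁻ θ in Ioc (-Real.pi) Real.pi, g (((r ^ d : ℝ) : ℂ) * exp (θ * I)))) := by
    intro r hr
    rw [mem_Ioi] at hr
    have h2 : ∀ θ : ℝ, ‖(r:ℂ) * exp (θ * I)‖ = r := by
      intro θ
      rw [norm_mul, Complex.norm_exp_ofReal_mul_I, mul_one, Complex.norm_real, Real.norm_of_nonneg hr.le]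
    simp only [h2]
    rw [lintegral_const_mul _ (by fun_prop), ← circle_pow hd g hg (r ^ d)]
    have h3 : ∀ θ : ℝ, ((r:ℂ) * exp (θ * I)) ^ d = ((r ^ d : ℝ) : ℂ) * exp (θ * I) ^ d := by
      intro θ
      rw [mul_pow]
      push_cast
      rfl
    simp only [h3]
    rw [← mul_assoc, ← mul_assoc, ← mul_assoc]
    congr 1
    rw [← ENNReal.ofReal_mul hr.le, ← ENNReal.ofReal_natCast, ← ENNReal.ofReal_mul (by positivity),
      ← ENNReal.ofReal_mul (by positivity)]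
    congr 1
    rw [abs_of_pos (by positivity)]
    obtain ⟨e, rfl⟩ : ∃ e, d = e + 1 := ⟨d - 1, by omega⟩
    rw [Nat.add_sub_cancel]
    ring
  rw [setLIntegral_congr_fun measurableSet_Ioi h1]
  have h4 := lintegral_image_eq_lintegral_abs_deriv_mul (s := Ioi (0:ℝ)) (f := fun r : ℝ => r ^ d)
    (f' := fun r => d * r ^ (d - 1)) measurableSet_Ioi
    (fun x _ => (hasDerivAt_pow d x).hasDerivWithinAt)
    (fun x hx y hy hxy => by
      rw [mem_Ioi] at hx hy
      exact (pow_left_inj₀ hx.le hy.le (by omega)).1 hxy)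
    (fun s => (d:ℝ≥0∞) * (ENNReal.ofReal s *
      ∫⁻ θ in Ioc (-Real.pi) Real.pi, g ((s : ℂ) * exp (θ * I))))
  rw [← h4, image_pow hd]
  rw [lintegral_const_mul']
  exact ENNReal.natCast_ne_top d

end Pool.Agent.R240.Push
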