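import Pool.Agent.R240.Polar

set_option autoImplicit false

/-! # The push-forward of quadratic differentials by `x ↦ x ^ d + c` does not increase the norm -/

namespace Pool.Agent.R240.Push

open Complex Metric Set Filter Topology MeasureTheory ENNReal Finset

theorem sum_zeta {d : ℕ} (hd : 2 ≤ d) {ζ : ℂ} (hζ : IsPrimitiveRoot ζ d) {j : ℕ} (hj : j < d) :
    ∑ i ∈ range d, (ζ ^ i) ^ (j + 2) = if j + 2 = d then (d : ℂ) else 0 := by
  have h1 : ∀ i, (ζ ^ i) ^ (j + 2) = (ζ ^ (j + 2)) ^ i := fun i => by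
    rw [← pow_mul, ← pow_mul, mul_comm]
  simp only [h1]
  split_ifs with h
  · rw [h, hζ.pow_eq_one]
    simp
  · have h2 : ζ ^ (j + 2) ≠ 1 := by
      intro h3
      have h4 := (hζ.pow_eq_one_iff_dvd _).1 h3
      obtain ⟨m, hm⟩ := h4
      rcases Nat.lt_or_ge m 2 with h5 | h5
      · interval_cases m
        · omega
        · omega
      · have : d * 2 ≤ d * m := Nat.mul_le_mul_left d h5
        have h6 : j + 2 ≤ d + 1 := by omega
        have h7 : d + 1 < d * 2 := by omega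
        omega
    rw [geom_sum_eq h2, ← pow_mul, mul_comm, pow_mul, hζ.pow_eq_one, one_pow, sub_self, zero_div]

theorem root_sum {d : ℕ} (hd : 2 ≤ d) {ζ : ℂ} (hζ : IsPrimitiveRoot ζ d) {x a : ℂ}
    (hx : x ^ d ≠ a ^ d) :
    ∑ i ∈ range d, (ζ ^ i) ^ 2 / (ζ ^ i * x - a) = d * a * x ^ (d - 2) / (x ^ d - a ^ d) := by
  have h0 : x ^ d - a ^ d ≠ 0 := sub_ne_zero.2 hx
  have h1 : ∀ i, (ζ ^ i * x - a) * ∑ j ∈ range d, (ζ ^ i * x) ^ j * a ^ (d - 1 - j) =
      x ^ d - a ^ d := by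
    intro i
    rw [(Commute.all _ _).mul_geom_sum₂, mul_pow, ← pow_mul, mul_comm i d, pow_mul, hζ.pow_eq_one,
      one_pow, one_mul]
  have h2 : ∀ i, (ζ ^ i) ^ 2 / (ζ ^ i * x - a) =
      (∑ j ∈ range d, (ζ ^ i) ^ (j + 2) * (x ^ j * a ^ (d - 1 - j))) / (x ^ d - a ^ d) := by
    intro i
    have h3 : ζ ^ i * x - a ≠ 0 := by
      intro h
      have := h1 i
      rw [h, zero_mul] at this
      exact h0 this.symm
    rw [div_eq_div_iff h3 h0, ← h1 i]
    have h4 : ∑ j ∈ range d, (ζ ^ i) ^ (j + 2) * (x ^ j * a ^ (d - 1 - j)) =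
        (ζ ^ i) ^ 2 * ∑ j ∈ range d, (ζ ^ i * x) ^ j * a ^ (d - 1 - j) := by
      rw [Finset.mul_sum]
      apply Finset.sum_congr rfl
      intro j _
      ring
    rw [h4]
    ring
  rw [Finset.sum_congr rfl fun i _ => h2 i, ← Finset.sum_div, Finset.sum_comm]
  congr 1
  have h5 : ∀ j ∈ range d, ∑ i ∈ range d, (ζ ^ i) ^ (j + 2) * (x ^ j * a ^ (d - 1 - j)) =
      if j = d - 2 then (d : ℂ) * (x ^ j * a ^ (d - 1 - j)) else 0 := by
    intro j hj
    rw [Finset.mem_range] at hj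
    rw [← Finset.sum_mul, sum_zeta hd hζ hj]
    by_cases h : j = d - 2
    · rw [if_pos h, if_pos (by omega)]
    · rw [if_neg h, if_neg (by omega), zero_mul]
  rw [Finset.sum_congr rfl h5, Finset.sum_ite_eq', if_pos (Finset.mem_range.2 (by omega))]
  have h6 : d - 1 - (d - 2) = 1 := by omega
  rw [h6, pow_one]
  ring

/-- the measure is invariant under rotation -/
theorem rot {ω : ℂ} (hω : ‖ω‖ = 1) (g : ℂ → ℝ≥0∞) (hg : Measurable g) :
    ∫⁻ x : ℂ, g (ω * x) = ∫⁻ x : ℂ, g x := by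
  obtain ⟨w, hw⟩ : ∃ w : Circle, (w : ℂ) = ω := ⟨⟨ω, mem_sphere_zero_iff_norm.2 hω⟩, rfl⟩
  have h := (rotation w).measurePreserving.lintegral_comp hg
  simpa [rotation_apply, hw] using h

/-- **The push-forward does not increase the norm.** -/
theorem contraction {d : ℕ} (hd : 2 ≤ d) {ζ : ℂ} (hζ : IsPrimitiveRoot ζ d) {c : ℂ} {q G : ℂ → ℂ}
    (hq : Measurable q) (hG : Measurable G)
    (h : ∀ᵐ x : ℂ, (d * x ^ (d - 1)) ^ 2 * G (x ^ d + c) =
      ∑ i ∈ range d, (ζ ^ i) ^ 2 * q (ζ ^ i * x)) {V : Set ℂ} (hV : MeasurableSet V) :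
    ∫⁻ y in V, ‖G y‖ₑ ≤ ∫⁻ x in {x | x ^ d + c ∈ V}, ‖q x‖ₑ := by
  have hd0 : (d : ℝ≥0∞) ≠ 0 := by exact_mod_cast (by omega : d ≠ 0)
  have hdt : (d : ℝ≥0∞) ≠ ⊤ := ENNReal.natCast_ne_top d
  have hζ1 : ∀ i, ‖ζ ^ i‖ = 1 := by
    intro i
    rw [norm_pow, hζ.norm'_eq_one (by omega), one_pow]
  have hU : MeasurableSet {x : ℂ | x ^ d + c ∈ V} := by
    apply hV.preimage
    fun_prop
  rw [← ENNReal.mul_le_mul_iff_right hd0 hdt]
  obtain ⟨g, hg⟩ : ∃ g : ℂ → ℝ≥0∞, g = fun y => V.indicator (fun y => ‖G y‖ₑ) (y + c) := ⟨_, rfl⟩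
  have hgm : Measurable g := by
    rw [hg]
    exact (hG.enorm.indicator hV).comp (by fun_prop)
  have h1 : ∫⁻ y in V, ‖G y‖ₑ = ∫⁻ y, g y := by
    rw [← lintegral_indicator hV, hg]
    exact (lintegral_add_right_eq_self (fun y => V.indicator (fun y => ‖G y‖ₑ) y) c).symm
  rw [h1, ← lintegral_pow_map hd g hgm, ← lintegral_indicator hU]
  have h2 : ∀ᵐ x : ℂ, ENNReal.ofReal ((d * ‖x‖ ^ (d - 1)) ^ 2) * g (x ^ d) ≤
      ∑ i ∈ range d, {x : ℂ | x ^ d + c ∈ V}.indicator (fun x => ‖q x‖ₑ) (ζ ^ i * x) := by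
    filter_upwards [h] with x hx
    have h3 : ∀ i, (ζ ^ i * x) ^ d = x ^ d := by
      intro i
      rw [mul_pow, ← pow_mul, mul_comm i d, pow_mul, hζ.pow_eq_one, one_pow, one_mul]
    by_cases hxV : x ^ d + c ∈ V
    · rw [hg]
      simp only
      rw [indicator_of_mem hxV]
      have h4 : ENNReal.ofReal ((d * ‖x‖ ^ (d - 1)) ^ 2) = ‖((d:ℂ) * x ^ (d - 1)) ^ 2‖ₑ := by
        rw [← ofReal_norm]
        congr 1
        rw [norm_pow, norm_mul, norm_pow, Complex.norm_natCast]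
      rw [h4, ← enorm_mul, hx]
      refine (enorm_sum_le _ _).trans ?_
      apply Finset.sum_le_sum
      intro i _
      rw [indicator_of_mem (by rw [mem_ofPred_eq, h3 i]; exact hxV), enorm_mul]
      have h5 : ‖(ζ ^ i) ^ 2‖ₑ = 1 := by
        rw [← ofReal_norm, norm_pow, hζ1 i, one_pow, ENNReal.ofReal_one]
      rw [h5, one_mul]
    · rw [hg]
      simp only
      rw [indicator_of_notMem hxV, mul_zero]
      exact zero_le
  refine (lintegral_mono_ae h2).trans ?_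
  have hqm : Measurable ({x : ℂ | x ^ d + c ∈ V}.indicator fun x => ‖q x‖ₑ) :=
    hq.enorm.indicator hU
  rw [lintegral_finsetSum]
  · rw [Finset.sum_congr rfl fun i _ => rot (hζ1 i) _ hqm, Finset.sum_const, Finset.card_range,
      nsmul_eq_mul]
  · intro i _
    exact hqm.comp (by fun_prop)

end Pool.Agent.R240.Push
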