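import Pool.Agent.R240.Univ4
import Pool.Agent.R240.Alm2
import Pool.Agent.H548R3.MB.Eff2
import Pool.Agent.Y736.RN.K

set_option autoImplicit false

/-! # Parameters which are exponentially close to superattracting ones -/

namespace Pool.Agent.R240.Res

open Complex Filter Topology Set Metric MeasureTheory Pool.Agent.H713R2
open N62a1eb23
open Pool.Agent.H712R2 (P P_succ P_one P_zero fc continuous_P mem_multibrot_iff)
open Pool.Agent.Y736.RN

variable {d : ℕ}

/-- infinitely often exponentially close to a superattracting parameter -/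
def Near (d : ℕ) (X : ℝ) (c : ℂ) : Prop :=
  ∃ᶠ n : ℕ in atTop, ∃ a : ℂ, P d n a = 0 ∧ ‖a - c‖ ≤ Real.exp (-(X * n))

/-- renormalizable of period `p`, and `0` is the only critical point in the domain -/
def RenC (d : ℕ) (c : ℂ) (p : ℕ) : Prop :=
  ∃ U : Set ℂ, PolyLike d ((fc d c)^[p]) U ∧ (0 : ℂ) ∈ U ∧ (∀ n, 1 ≤ n → P d (n * p) c ∈ U) ∧
    ∀ z ∈ U, deriv ((fc d c)^[p]) z = 0 → z = 0

theorem RenC.ren {c : ℂ} {p : ℕ} (h : RenC d c p) : Ren d c p := by
  obtain ⟨U, h1, h2, h3, _⟩ := h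
  exact ⟨U, h1, h2, h3⟩

/-- boundary parameters are not superattracting -/
theorem frontier_ne (hd : 2 ≤ d) {c : ℂ} (hc : c ∈ frontier (multibrotSet d)) {m : ℕ}
    (hm : 1 ≤ m) : P d m c ≠ 0 := by
  intro h
  have h1 := Pool.Agent.H548R3.MB.att_of_centre hd hm h
  have h2 : c ∈ interior (multibrotSet d) := Pool.Agent.R240.Alm.att_interior hd ⟨m, 0, h1⟩
  exact hc.2 h2

theorem deriv_it_zero (hd : 2 ≤ d) (c : ℂ) {m : ℕ} (hm : 1 ≤ m) :
    deriv ((fc d c)^[m]) 0 = 0 := by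
  obtain ⟨k, rfl⟩ : ∃ k, m = k + 1 := ⟨m - 1, by omega⟩
  rw [Function.iterate_succ]
  have h1 : HasDerivAt (fc d c) ((d : ℂ) * 0 ^ (d - 1)) 0 := by
    have := (hasDerivAt_pow d (0 : ℂ)).add_const c
    exact this
  have h2 := ((diff_it_y d k c) (fc d c 0)).hasDerivAt.comp (0 : ℂ) h1
  rw [h2.deriv, zero_pow (by omega), mul_zero, mul_zero]

/-- no other return to the critical point -/
theorem no_return (hd : 2 ≤ d) {c : ℂ} {p : ℕ} {U : Set ℂ}
    (hU : ∀ z ∈ U, deriv ((fc d c)^[p]) z = 0 → z = 0) (hne : ∀ m, 1 ≤ m → P d m c ≠ 0)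
    {s : ℕ} (hs : 1 ≤ s) (hsp : s < p) {z : ℂ} (hz : z ∈ U) : (fc d c)^[s] z ≠ 0 := by
  intro h
  have h1 : deriv ((fc d c)^[p]) z = 0 := by
    have h2 : (fc d c)^[p] = (fc d c)^[p - s] ∘ (fc d c)^[s] := by
      rw [← Function.iterate_add, Nat.sub_add_cancel hsp.le]
    have h3 := ((diff_it_y d (p - s) c) ((fc d c)^[s] z)).hasDerivAt.comp z
      ((diff_it_y d s c) z).hasDerivAt
    rw [h2, h3.deriv, h, deriv_it_zero hd c (by omega), zero_mul]
  have h2 := hU z hz h1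
  rw [h2] at h
  exact hne s hs h

/-- a segment from a boundary parameter to an escaping one, free of superattracting parameters -/
theorem exists_seg (hd : 2 ≤ d) {c₁ : ℂ} (hc₁ : c₁ ∈ frontier (multibrotSet d)) {ε : ℝ}
    (hε : 0 < ε) : ∃ c' : ℂ, ‖c' - c₁‖ < ε ∧ c' ∉ multibrotSet d ∧
      ∀ c ∈ segment ℝ c₁ c', ∀ m, 1 ≤ m → P d m c ≠ 0 := by
  have hMc : IsClosed (multibrotSet d) := (Pool.Agent.H712R2.isCompact_multibrot hd).isClosed
  have h1 : c₁ ∈ closure (multibrotSet d)ᶜ := by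
    rw [frontier_eq_closure_inter_closure] at hc₁
    exact hc₁.2
  obtain ⟨c'', hc''M, hc''⟩ := Metric.mem_closure_iff.1 h1 (ε / 2) (half_pos hε)
  rw [dist_comm, dist_eq_norm] at hc''
  have hc₁M : c₁ ∈ multibrotSet d := hMc.frontier_subset hc₁
  obtain ⟨u, hu⟩ : ∃ u, u = c'' - c₁ := ⟨_, rfl⟩
  rw [← hu] at hc''
  have hu0 : u ≠ 0 := by
    rw [hu, sub_ne_zero]
    rintro rfl
    exact hc''M hc₁M
  have hun : 0 < ‖u‖ := norm_pos_iff.2 hu0
  -- the curve
  obtain ⟨g, hg⟩ : ∃ g : ℝ → ℂ, g = fun t : ℝ => c₁ + (1 + (t : ℂ) * I) * u := ⟨_, rfl⟩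
  have hgc : Continuous g := by rw [hg]; fun_prop
  have hg0 : g 0 = c'' := by rw [hg, hu]; simp
  have hev : ∀ᶠ t in 𝓝 (0 : ℝ), g t ∈ (multibrotSet d)ᶜ ∩ ball c₁ ε := by
    apply hgc.continuousAt.eventually
    rw [hg0]
    refine (hMc.isOpen_compl.inter isOpen_ball).mem_nhds ⟨hc''M, ?_⟩
    rw [mem_ball, dist_eq_norm, ← hu]
    linarith
  obtain ⟨η, hη, hball⟩ := Metric.eventually_nhds_iff.1 hev
  -- the centres are countable
  obtain ⟨Z, hZ⟩ : ∃ Z : Set ℂ, Z = {a | ∃ m, 1 ≤ m ∧ P d m a = 0} := ⟨_, rfl⟩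
  have hZc : Z.Countable := by
    have h2 : Z ⊆ ⋃ N : ℕ, {x : ℂ | P d (N + 1) x = 0} := by
      rw [hZ]
      rintro a ⟨m, hm, ha⟩
      rw [mem_iUnion]
      exact ⟨m - 1, by rw [mem_ofPred_eq, Nat.sub_add_cancel hm]; exact ha⟩
    exact (countable_iUnion fun N => (Pool.Agent.R240.Univ.zeros_finite hd N).countable).mono h2
  by_contra hcon
  push Not at hcon
  have h2 : ∀ t ∈ Ioo (0:ℝ) η, ∃ a ∈ Z, a ∈ segment ℝ c₁ (g t) := by
    intro t ht
    obtain ⟨h3, h4⟩ := hball (by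
      rw [dist_zero_right, Real.norm_eq_abs, abs_of_pos ht.1]; exact ht.2)
    rw [mem_ball, dist_eq_norm] at h4
    obtain ⟨c, hc, m, hm, hP⟩ := hcon (g t) h4 h3
    exact ⟨c, by rw [hZ]; exact ⟨m, hm, hP⟩, hc⟩
  choose! a haZ has using h2
  have hinj : InjOn a (Ioo (0:ℝ) η) := by
    intro s hs t ht hst
    have h3 := has s hs
    have h4 := has t ht
    rw [segment_eq_image'] at h3 h4
    obtain ⟨x, _, hx⟩ := h3
    obtain ⟨y, _, hy⟩ := h4
    have h5 : a s ≠ c₁ := by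
      intro h5
      have h6 := haZ s hs
      rw [hZ] at h6
      obtain ⟨m, hm, hP⟩ := h6
      rw [h5] at hP
      exact frontier_ne hd hc₁ hm hP
    have h6 : (x : ℂ) * ((1 + s * I) * u) = y * ((1 + t * I) * u) := by
      have h7 : a s = c₁ + x * ((1 + s * I) * u) := by
        rw [← hx, hg]
        simp only [Complex.real_smul]
        ring
      have h8 : a t = c₁ + y * ((1 + t * I) * u) := by
        rw [← hy, hg]
        simp only [Complex.real_smul]
        ring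
      rw [hst, h8] at h7
      linear_combination -h7
    have h7 : (x : ℂ) * (1 + s * I) = y * (1 + t * I) := by
      apply mul_right_cancel₀ hu0
      linear_combination h6
    have h8 := congrArg Complex.re h7
    have h9 := congrArg Complex.im h7
    simp at h8 h9
    have hx0 : x ≠ 0 := by
      intro h0
      apply h5
      rw [← hx, h0]
      simp
    rw [← h8] at h9
    exact mul_left_cancel₀ hx0 h9
  have hcount : (Ioo (0:ℝ) η).Countable :=
    (show MapsTo a (Ioo (0:ℝ) η) Z from haZ).countable_of_injOn hinj hZc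
  have h3 := hcount.measure_zero volume
  rw [Real.volume_Ioo, ENNReal.ofReal_eq_zero] at h3
  linarith

/-- an escaping parameter leaves every bounded set -/
theorem esc_of_not_mem {c : ℂ} (hc : c ∉ multibrotSet d) {p : ℕ} (hp : 1 ≤ p)
    {V : Set ℂ} (hV : Bornology.IsBounded V) : ∃ i, P d (p * i) c ∉ closure V := by
  have h1 : Tendsto (fun k => P d k c) atTop (Bornology.cobounded ℂ) := by
    by_contra h
    exact hc h
  have h2 : Tendsto (fun i : ℕ => p * i) atTop atTop :=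
    tendsto_atTop_mono (fun i => Nat.le_mul_of_pos_left i hp) tendsto_id
  have h3 : ∀ᶠ z in Bornology.cobounded ℂ, z ∉ closure V := hV.closure
  exact ((h1.comp h2).eventually h3).exists

end Pool.Agent.R240.Res
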