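import Pool.Agent.R240.Res1

set_option autoImplicit false

/-! # The dimension of the parameters which are exponentially close to superattracting ones -/

namespace Pool.Agent.R240.Res

open Complex Filter Topology Set Metric MeasureTheory Pool.Agent.H713R2
open N62a1eb23
open Pool.Agent.H712R2 (P P_succ P_one P_zero fc continuous_P mem_multibrot_iff)
open Pool.Agent.Y736.RN

variable {d : ℕ}

/-- the bound for one domain -/
theorem dim_V (hd : 2 ≤ d) {p : ℕ} (hp : 1 ≤ p) {V : Set ℂ} (hVo : IsOpen V)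
    (hVb : Bornology.IsBounded V) {X : ℝ} (hX : 0 < X) :
    dimH {c | c ∈ frontier (multibrotSet d) ∧ Good d p V c ∧
      (∀ s, 1 ≤ s → s < p → ∀ z ∈ closure V, (fc d c)^[s] z ≠ 0) ∧ Near d X c} ≤
      ENNReal.ofReal (Real.log d / (p * X)) := by
  have hp0 : (0:ℝ) < p := by exact_mod_cast hp
  have hpX : 0 < (p:ℝ) * X := by positivity
  have hdR : (1 : ℝ) < d := by exact_mod_cast (by omega : 1 < d)
  obtain ⟨A, hA⟩ : ∃ A : Set ℂ, A = {c | c ∈ frontier (multibrotSet d) ∧ Good d p V c ∧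
      (∀ s, 1 ≤ s → s < p → ∀ z ∈ closure V, (fc d c)^[s] z ≠ 0) ∧ Near d X c} := ⟨_, rfl⟩
  rw [← hA]
  apply le_of_forall_lt
  intro r hr
  obtain ⟨c₁, hc₁, h⟩ := exists_mem_nhdsWithin_lt_dimH_of_lt_dimH hr
  have hc₁' := hc₁
  rw [hA] at hc₁'
  obtain ⟨hfr₁, hg, _, _⟩ := hc₁'
  obtain ⟨δ, hδ, hfr⟩ := stab hVb hg.1
  obtain ⟨c', hc', hc'M, hseg⟩ := exists_seg hd hfr₁ (show 0 < δ / 16 by positivity)
  have h0V : (0:ℂ) ∈ V := by
    have := hg.2.2 0
    simpa [P_zero] using this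
  obtain ⟨C, J, hcount⟩ := count lp jz hd hp hVo hVb hδ hfr hg.2.1 hc'
    (esc_of_not_mem hc'M hp hVb) h0V hseg
  have h1 : ball c₁ (δ / 32) ∩ A ∈ 𝓝[A] c₁ :=
    inter_mem (mem_nhdsWithin_of_mem_nhds (ball_mem_nhds c₁ (by positivity))) self_mem_nhdsWithin
  refine (h _ h1).trans_le ?_
  obtain ⟨Z, hZ⟩ : ∃ Z : ℕ → Set ℂ, Z = fun j => {c | c ∈ ball c₁ (δ / 16) ∧
      (∀ i < j, P d (p * i) c ∈ V) ∧ P d (p * j) c = 0} := ⟨_, rfl⟩
  have hsub : ball c₁ (δ / 32) ∩ A ⊆ {c | Good d p V c ∧ Fast d p V (p * X) c} ∪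
      {c₀ | ∃ᶠ j : ℕ in atTop, ∃ z ∈ Z j, ‖c₀ - z‖ ≤ 1 * Real.exp (-(p * X * j))} := by
    rintro c₀ ⟨hc₀, hc₀A⟩
    rw [hA] at hc₀A
    obtain ⟨_, hg₀, hcrit, hnear⟩ := hc₀A
    by_cases hF : Fast d p V (p * X) c₀
    · exact Or.inl ⟨hg₀, hF⟩
    right
    unfold Fast at hF
    rw [not_frequently, eventually_atTop] at hF
    obtain ⟨N₀, hN₀⟩ := hF
    -- the tube
    obtain ⟨O, hO⟩ : ∃ O : Set (ℂ × ℂ), O = ⋂ s ∈ Finset.Ico 1 p,
        {q : ℂ × ℂ | (fc d q.1)^[s] q.2 ≠ 0} := ⟨_, rfl⟩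
    have hOo : IsOpen O := by
      rw [hO]
      refine isOpen_biInter_finset fun s _ => ?_
      exact isOpen_ne_fun (cont_it d s) continuous_const
    have hVc : IsCompact (closure V) :=
      Metric.isCompact_of_isClosed_isBounded isClosed_closure hVb.closure
    obtain ⟨u, v, hu, _, hsu, htv, huv⟩ := generalized_tube_lemma (isCompact_singleton (x := c₀))
      hVc hOo (by
        rintro ⟨a, b⟩ ⟨ha, hb⟩
        have ha' : a = c₀ := ha
        rw [hO, mem_iInter₂]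
        intro s hs
        rw [Finset.mem_Ico] at hs
        rw [ha']
        exact hcrit s hs.1 hs.2 b hb)
    obtain ⟨δ', hδ', hball⟩ := Metric.isOpen_iff.1 hu c₀ (hsu rfl)
    have htube : ∀ c ∈ ball c₀ δ', ∀ z ∈ closure V, ∀ s, 1 ≤ s → s < p → (fc d c)^[s] z ≠ 0 := by
      intro c hc z hz s hs1 hs2
      have h2 : (c, z) ∈ O := huv ⟨hball hc, htv hz⟩
      rw [hO, mem_iInter₂] at h2
      exact h2 s (Finset.mem_Ico.2 ⟨hs1, hs2⟩)
    have hlim : Tendsto (fun n : ℕ => Real.exp (-(X * n))) atTop (𝓝 0) := by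
      apply Real.tendsto_exp_neg_atTop_nhds_zero.comp
      exact Tendsto.const_mul_atTop hX tendsto_natCast_atTop_atTop
    have hsmall := hlim.eventually (gt_mem_nhds (show 0 < min δ' (δ / 32) by positivity))
    rw [mem_ofPred_eq, frequently_atTop]
    intro b
    obtain ⟨n, ⟨a, ha1, ha2⟩, hn1, hn2⟩ := (hnear.and_eventually
      (hsmall.and (eventually_ge_atTop (p * (b + N₀))))).exists
    have hdm := Nat.div_add_mod n p
    have hmod : n % p < p := Nat.mod_lt n hp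
    have hj : b + N₀ ≤ n / p := (Nat.le_div_iff_mul_le hp).2 (by rw [Nat.mul_comm]; exact hn2)
    obtain ⟨j, hjdef⟩ : ∃ j, j = n / p := ⟨_, rfl⟩
    obtain ⟨s, hsdef⟩ : ∃ s, s = n % p := ⟨_, rfl⟩
    rw [← hjdef] at hj hdm
    rw [← hsdef] at hdm hmod
    have hac : ‖a - c₀‖ < min δ' (δ / 32) := ha2.trans_lt hn1
    have hexp : Real.exp (-(X * n)) ≤ Real.exp (-(p * X * j)) := by
      apply Real.exp_le_exp.2
      have h2 : (p : ℝ) * j ≤ n := by
        have : p * j ≤ n := by omega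
        exact_mod_cast this
      nlinarith
    have htrap : ∀ i ≤ j, P d (p * i) a ∈ V := by
      intro i hi
      by_contra hcon
      apply hN₀ j (by omega)
      refine ⟨a, ?_, i, hi, hcon⟩
      rw [mem_closedBall, dist_eq_norm]
      exact ha2.trans hexp
    have hs0 : s = 0 := by
      by_contra hs0
      have h2 : P d n a = (fc d a)^[s] (P d (p * j) a) := by
        rw [iter_P, ← hdm, Nat.add_comm]
      rw [h2] at ha1
      refine htube a ?_ _ (subset_closure (htrap j le_rfl)) s (by omega) hmod ha1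
      rw [mem_ball, dist_eq_norm]
      exact hac.trans_le (min_le_left _ _)
    have hn : n = p * j := by omega
    refine ⟨j, by omega, a, ?_, ?_⟩
    · rw [hZ]
      refine ⟨?_, fun i hi => htrap i hi.le, ?_⟩
      · rw [mem_ball, dist_eq_norm] at hc₀ ⊢
        have h2 : a - c₁ = (a - c₀) + (c₀ - c₁) := by ring
        rw [h2]
        have := norm_add_le (a - c₀) (c₀ - c₁)
        have := hac.trans_le (min_le_right _ _)
        linarith
      · rw [← hn]
        exact ha1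
    · rw [one_mul, norm_sub_rev]
      exact ha2.trans hexp
  refine (dimH_mono hsub).trans ?_
  rw [dimH_union]
  refine max_le ?_ ?_
  · exact dim_good lp jz qs dc seq hd hp hVo hVb hpX
  · refine dc d (p * X) 1 C J Z _ hdR hpX ?_ fun a ha => ha
    rw [hZ]
    exact hcount

/-- a renormalizable parameter is good for one of the domains of the family -/
theorem good_of_renC (hd : 2 ≤ d) {p : ℕ} {c : ℂ} (h : RenC d c p)
    (hne : ∀ m, 1 ≤ m → P d m c ≠ 0) :
    ∃ V ∈ FamV, Bornology.IsBounded V ∧ Good d p V c ∧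
      ∀ s, 1 ≤ s → s < p → ∀ z ∈ closure V, (fc d c)^[s] z ≠ 0 := by
  obtain ⟨U, hPL, h0, horb, hcrit⟩ := h
  have hg : Continuous ((fc d c)^[p]) := cont_it_y d p c
  have hfr := front_poly hg hPL
  obtain ⟨hUo, hUb, hsub, _, hdeg⟩ := hPL
  obtain ⟨K, hK⟩ : ∃ K : Set ℂ, K = closure U ∩ (fc d c)^[p] ⁻¹' closure U := ⟨_, rfl⟩
  have hKc : IsCompact K := by
    rw [hK]
    exact (Metric.isCompact_of_isClosed_isBounded isClosed_closure hUb.closure).inter_right
      (isClosed_closure.preimage hg)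
  have hKU : K ⊆ U := by
    rw [hK]
    rintro z ⟨h1, h2⟩
    by_contra hcon
    exact hfr z (by rw [hUo.frontier_eq]; exact ⟨h1, hcon⟩) h2
  obtain ⟨V, hV, hKV, hVU⟩ := approx hKc hUo hKU
  have hVU' : V ⊆ U := subset_closure.trans hVU
  have hPU : ∀ i, P d (p * i) c ∈ U := by
    intro i
    rcases Nat.eq_zero_or_pos i with hi | hi
    · subst hi
      simpa [P_zero] using h0
    · rw [Nat.mul_comm]
      exact horb i hi
  refine ⟨V, hV, hUb.subset hVU', ⟨?_, ?_, ?_⟩, ?_⟩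
  · intro z hz hgz
    have hz1 : z ∈ closure V := frontier_subset_closure hz
    rw [(FamV_open hV).frontier_eq] at hz
    apply hz.2
    apply hKV
    rw [hK]
    exact ⟨subset_closure (hVU hz1), subset_closure (hVU hgz)⟩
  · intro w hw
    have h1 : w ∈ (fc d c)^[p] '' U := hsub (subset_closure (hVU' hw))
    have h2 := hdeg w h1
    have h3 : {z | z ∈ V ∧ (fc d c)^[p] z = w} ⊆ {z | z ∈ U ∧ (fc d c)^[p] z = w} :=
      fun z hz => ⟨hVU' hz.1, hz.2⟩
    have h4 : {z | z ∈ V ∧ (fc d c)^[p] z = w}.encard ≤ d := (encard_le_encard h3).trans h2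
    have h5 : {z | z ∈ V ∧ (fc d c)^[p] z = w}.Finite :=
      finite_of_encard_le_coe h4
    refine ⟨h5, ?_⟩
    rw [← h5.cast_ncard_eq] at h4
    exact_mod_cast h4
  · intro i
    apply hKV
    rw [hK]
    refine ⟨subset_closure (hPU i), ?_⟩
    show (fc d c)^[p] (P d (p * i) c) ∈ closure U
    rw [iter_P, show p + p * i = p * (i + 1) by ring]
    exact subset_closure (hPU (i + 1))
  · intro s hs hsp z hz
    exact no_return hd hcrit hne hs hsp (hVU hz)

/-- **Renormalizable parameters close to superattracting ones.** -/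
theorem dim_near (hd : 2 ≤ d) {p : ℕ} (hp : 1 ≤ p) {X : ℝ} (hX : 0 < X) :
    dimH {c | c ∈ frontier (multibrotSet d) ∧ RenC d c p ∧ Near d X c} ≤
      ENNReal.ofReal (Real.log d / (p * X)) := by
  have hsub : {c | c ∈ frontier (multibrotSet d) ∧ RenC d c p ∧ Near d X c} ⊆
      ⋃ V ∈ {V : Set ℂ | V ∈ FamV ∧ Bornology.IsBounded V},
        {c | c ∈ frontier (multibrotSet d) ∧ Good d p V c ∧
          (∀ s, 1 ≤ s → s < p → ∀ z ∈ closure V, (fc d c)^[s] z ≠ 0) ∧ Near d X c} := by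
    rintro c ⟨h1, h2, h3⟩
    obtain ⟨V, hV, hVb, hg, hcr⟩ := good_of_renC hd h2 (fun m hm => frontier_ne hd h1 hm)
    rw [mem_iUnion₂]
    exact ⟨V, ⟨hV, hVb⟩, h1, hg, hcr, h3⟩
  refine (dimH_mono hsub).trans ?_
  rw [dimH_bUnion (FamV_countable.mono fun V hV => hV.1)]
  exact iSup₂_le fun V hV => dim_V hd hp (FamV_open hV.1) hV.2 hX

theorem Near.mono {X X' : ℝ} (h : X' ≤ X) {c : ℂ} (hc : Near d X c) : Near d X' c := by
  refine Filter.Frequently.mono hc ?_
  rintro n ⟨a, h1, h2⟩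
  refine ⟨a, h1, h2.trans ?_⟩
  apply Real.exp_le_exp.2
  have : (0:ℝ) ≤ n := Nat.cast_nonneg n
  nlinarith

/-- **Infinitely renormalizable parameters close to superattracting ones.** -/
theorem dim_near_inf (hd : 2 ≤ d) :
    dimH {c | c ∈ frontier (multibrotSet d) ∧ {p : ℕ | RenC d c p}.Infinite ∧
      ∃ X : ℝ, 0 < X ∧ Near d X c} = 0 := by
  have hdR : (1 : ℝ) < d := by exact_mod_cast (by omega : 1 < d)
  have hlogd : 0 < Real.log d := Real.log_pos hdR
  have hsub : {c | c ∈ frontier (multibrotSet d) ∧ {p : ℕ | RenC d c p}.Infinite ∧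
      ∃ X : ℝ, 0 < X ∧ Near d X c} ⊆ ⋃ k : ℕ, {c | c ∈ frontier (multibrotSet d) ∧
        {p : ℕ | RenC d c p}.Infinite ∧ Near d (1 / ((k : ℝ) + 1)) c} := by
    rintro c ⟨h1, h2, X, hX, h3⟩
    obtain ⟨k, hk⟩ := exists_nat_one_div_lt hX
    exact mem_iUnion.2 ⟨k, h1, h2, h3.mono hk.le⟩
  apply le_antisymm _ bot_le
  refine (dimH_mono hsub).trans ?_
  rw [dimH_iUnion]
  apply iSup_le
  intro k
  have hk0 : (0:ℝ) < 1 / ((k : ℝ) + 1) := by positivity
  have h1 : ∀ N : ℕ, dimH {c | c ∈ frontier (multibrotSet d) ∧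
      {p : ℕ | RenC d c p}.Infinite ∧ Near d (1 / ((k : ℝ) + 1)) c} ≤
      ENNReal.ofReal ((Real.log d * ((k : ℝ) + 1)) / ((N : ℝ) + 1)) := by
    intro N
    have h2 : {c | c ∈ frontier (multibrotSet d) ∧
        {p : ℕ | RenC d c p}.Infinite ∧ Near d (1 / ((k : ℝ) + 1)) c} ⊆
        ⋃ p : {p : ℕ // N + 1 ≤ p}, {c | c ∈ frontier (multibrotSet d) ∧ RenC d c p ∧
          Near d (1 / ((k : ℝ) + 1)) c} := by
      rintro c ⟨h3, h4, h5⟩
      obtain ⟨p, hp, hpN⟩ := h4.exists_gt N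
      exact mem_iUnion.2 ⟨⟨p, hpN⟩, h3, hp, h5⟩
    refine (dimH_mono h2).trans ?_
    rw [dimH_iUnion]
    apply iSup_le
    rintro ⟨p, hp⟩
    refine (dim_near (p := p) hd (le_trans (Nat.le_add_left 1 N) hp) hk0).trans ?_
    apply ENNReal.ofReal_le_ofReal
    have h5 : ((N : ℝ) + 1) ≤ p := by exact_mod_cast hp
    have h6 : (0:ℝ) < p := lt_of_lt_of_le (by positivity) h5
    have h7 : Real.log d / (p * (1 / ((k : ℝ) + 1))) = Real.log d * ((k : ℝ) + 1) / p := by
      field_simp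
    rw [h7]
    gcongr
  have h2 : Tendsto (fun N : ℕ => ENNReal.ofReal ((Real.log d * ((k : ℝ) + 1)) / ((N : ℝ) + 1)))
      atTop (𝓝 (ENNReal.ofReal 0)) := by
    apply ENNReal.tendsto_ofReal
    have h3 := (tendsto_one_div_add_atTop_nhds_zero_nat (𝕜 := ℝ)).const_mul
      (Real.log d * ((k : ℝ) + 1))
    rw [mul_zero] at h3
    refine h3.congr fun N => ?_
    ring
  rw [ENNReal.ofReal_zero] at h2
  exact ge_of_tendsto' h2 h1

end Pool.Agent.R240.Res
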