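import Pool.Agent.Y736.RN.K
import Pool.Agent.H712R2.MultibrotConnected
import Pool.Agent.R240.Loc

set_option autoImplicit false

/-! # Local connectivity and slim parameters -/

namespace Pool.Agent.R240.Slim

open Complex Filter Topology Set Metric MeasureTheory Pool.Agent.H713R2
open N62a1eb23
open Pool.Agent.H712R2 (P)
open Pool.Agent.Y736.HD (Ang)
open Pool.Agent.Y736.RN
open Pool.Agent.R240.Loc

variable {d : ℕ} {ψ : ℂ → ℂ}

/-- the circles about a point that meet a small set -/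
theorem circles_null {A : Set ℂ} (h : dimH A < 1) (p : ℂ) :
    volume ((fun z => dist z p) '' A) = 0 := by
  have h1 : LipschitzWith 1 (fun z : ℂ => dist z p) := LipschitzWith.dist_left p
  have h2 : dimH ((fun z => dist z p) '' A) < 1 := (h1.dimH_image_le A).trans_lt h
  have h3 := hausdorffMeasure_of_dimH_lt (d := 1) (s := (fun z => dist z p) '' A)
    (by exact_mod_cast h2)
  simpa [hausdorffMeasure_real] using h3

/-- the measure, Green's function and the derivatives of the iterates are small for every period -/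
def SlimAt (d : ℕ) (ψ : ℂ → ℂ) (c : ℂ) : Prop :=
  ∀ p : ℕ, 1 ≤ p → Ren d c p →
    (∀ κ : ℝ, 0 < κ → κ < p → ∀ᶠ r : ℝ in 𝓝[>] 0, (volume (Ang ψ c r)).toReal < r ^ κ ∧
      sSup {x | ∃ w : ℂ, 1 < ‖w‖ ∧ ‖ψ w - c‖ ≤ r ∧ Real.log ‖w‖ = x} < r ^ κ) ∧
    ∀ a : ℝ, Real.log d / p < a → ∀ᶠ n : ℕ in atTop, ‖deriv (P d n) c‖ < Real.exp (a * n)

theorem exists_big (hd : 2 ≤ d) (hψ : IsExteriorMap (multibrotSet d) ψ) {c : ℂ}
    (hc : c ∈ multibrotSet d) (h : ¬ SlimAt d ψ c) : ∃ p : ℕ, 1 ≤ p ∧ Ren d c p ∧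
      ∃ κ : ℝ, 0 < κ ∧ κ < p ∧ Big ψ κ c := by
  unfold SlimAt at h
  push Not at h
  obtain ⟨p, hp, hr, h⟩ := h
  refine ⟨p, hp, hr, ?_⟩
  have hpR : (1 : ℝ) ≤ p := by exact_mod_cast hp
  have hlogd : 0 < Real.log d := Real.log_pos (by exact_mod_cast (by omega : 1 < d))
  by_contra hcon
  push Not at hcon
  have h1 : ∀ κ : ℝ, 0 < κ → κ < p → ∀ᶠ r : ℝ in 𝓝[>] 0, (volume (Ang ψ c r)).toReal < r ^ κ ∧
      sSup {x | ∃ w : ℂ, 1 < ‖w‖ ∧ ‖ψ w - c‖ ≤ r ∧ Real.log ‖w‖ = x} < r ^ κ := by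
    intro κ hκ0 hκ
    apply Filter.Eventually.and
    · by_contra h2
      rw [not_eventually] at h2
      exact hcon κ hκ0 hκ (big_of_vol hd hψ hc hκ0 (h2.mono fun r hr => not_lt.1 hr))
    · by_contra h2
      rw [not_eventually] at h2
      exact hcon κ hκ0 hκ (big_of_green (h2.mono fun r hr => not_lt.1 hr))
  obtain ⟨a, ha, h2⟩ := h h1
  have hp0 : (0 : ℝ) < p := by linarith
  have ha0 : 0 < a := lt_trans (by positivity) ha
  have h3 : Real.log d / a < p := by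
    rw [div_lt_iff₀ ha0]
    rw [div_lt_iff₀ hp0] at ha
    linarith
  obtain ⟨κ, hκ1, hκ2⟩ := exists_between h3
  have hκ0 : 0 < κ := lt_trans (by positivity) hκ1
  rw [div_lt_iff₀ ha0] at hκ1
  exact hcon κ hκ0 hκ2 (big_of_deriv hd hψ hc hκ0 hκ1 h2)

/-- almost every circle misses the parameters that are not slim -/
theorem ae_slim (hd : 2 ≤ d) (hψ : IsExteriorMap (multibrotSet d) ψ) (p₀ : ℂ) :
    ∀ᵐ s : ℝ, ∀ c ∈ multibrotSet d, dist c p₀ = s → SlimAt d ψ c := by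
  have h1 : ∀ (p : ℕ) (q : ℚ), 1 ≤ p → 0 < q → (q : ℝ) < p →
      ∀ᵐ s : ℝ, ∀ c : ℂ, dist c p₀ = s → ¬ (Ren d c p ∧ Big ψ q c) := by
    intro p q hp hq0 hq
    have hpR : (0 : ℝ) < p := by exact_mod_cast hp
    have h2 : dimH {c | Ren d c p ∧ Big ψ q c} < 1 := by
      refine (dim_big hd hp hψ (by exact_mod_cast hq0)).trans_lt ?_
      rw [← ENNReal.ofReal_one, ENNReal.ofReal_lt_ofReal_iff one_pos, div_lt_one hpR]
      exact hq
    have h3 := circles_null h2 p₀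
    have h4 : ∀ᵐ s : ℝ, s ∉ (fun z => dist z p₀) '' {c | Ren d c p ∧ Big ψ q c} :=
      measure_eq_zero_iff_ae_notMem.1 h3
    filter_upwards [h4] with s hs c hc hcon
    exact hs ⟨c, hcon, hc⟩
  have h2 : ∀ᵐ s : ℝ, ∀ (p : ℕ) (q : ℚ), 1 ≤ p → 0 < q → (q : ℝ) < p →
      ∀ c : ℂ, dist c p₀ = s → ¬ (Ren d c p ∧ Big ψ q c) := by
    rw [ae_all_iff]; intro p
    rw [ae_all_iff]; intro q
    by_cases hp : 1 ≤ p
    · by_cases hq0 : 0 < q
      · by_cases hq : (q : ℝ) < p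
        · filter_upwards [h1 p q hp hq0 hq] with s hs _ _ _
          exact hs
        · exact ae_of_all _ fun s _ _ h => absurd h hq
      · exact ae_of_all _ fun s _ h => absurd h hq0
    · exact ae_of_all _ fun s h => absurd h hp
  filter_upwards [h2] with s hs c hc hcs
  by_contra hcon
  obtain ⟨p, hp, hr, κ, hκ0, hκ, hB⟩ := exists_big hd hψ hc hcon
  obtain ⟨q, hq1, hq2⟩ := exists_rat_btwn hκ
  refine hs p q hp ?_ hq2 c hcs ⟨hr, hB.mono hq1.le⟩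
  have : (0 : ℝ) < q := hκ0.trans hq1
  exact_mod_cast this

/-- **A parameter where the Multibrot set is not locally connected spreads to slim ones.** -/
theorem main (hd : 2 ≤ d) (hψ : IsExteriorMap (multibrotSet d) ψ) {p₀ : ℂ}
    (h : ¬ CIK (multibrotSet d) p₀) : ∃ ε : ℝ, 0 < ε ∧ ∀ᵐ s : ℝ, 0 < s → s < ε →
      ∃ c ∈ multibrotSet d, dist c p₀ = s ∧ SlimAt d ψ c ∧ ¬ CIK (multibrotSet d) c := by
  obtain ⟨ε, hε, hs⟩ := spread (Pool.Agent.H712R2.isCompact_multibrot hd)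
    (Pool.Agent.H712R2.isConnected_multibrot hd).isPreconnected h
  refine ⟨ε, hε, ?_⟩
  filter_upwards [ae_slim hd hψ p₀] with s h1 hs0 hsε
  obtain ⟨z, hz, hzs, hzc⟩ := hs s hs0 hsε
  exact ⟨z, hz, hzs, h1 z hz hzs, hzc⟩

theorem cik_interior {K : Set ℂ} {c : ℂ} (h : c ∈ interior K) : CIK K c := by
  intro ε hε
  obtain ⟨δ, hδ, hsub⟩ := Metric.isOpen_iff.1 isOpen_interior c h
  refine ⟨min δ ε, lt_min hδ hε, ?_⟩
  intro q _ hq
  refine ⟨ball c (min δ ε), ?_, (convex_ball _ _).isPreconnected, mem_ball_self (lt_min hδ hε), hq⟩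
  intro x hx
  exact ⟨interior_subset (hsub (ball_subset_ball (min_le_left _ _) hx)),
    ball_subset_ball (min_le_right _ _) hx⟩

/-- the same property, with the period one named -/
def SlimAt' (d : ℕ) (ψ : ℂ → ℂ) (c : ℂ) : Prop :=
  ∀ p : ℕ, 1 ≤ p → (p = 1 ∨ Ren d c p) →
    (∀ κ : ℝ, 0 < κ → κ < p → ∀ᶠ r : ℝ in 𝓝[>] 0, (volume (Ang ψ c r)).toReal < r ^ κ ∧
      sSup {x | ∃ w : ℂ, 1 < ‖w‖ ∧ ‖ψ w - c‖ ≤ r ∧ Real.log ‖w‖ = x} < r ^ κ) ∧
    ∀ a : ℝ, Real.log d / p < a → ∀ᶠ n : ℕ in atTop, ‖deriv (P d n) c‖ < Real.exp (a * n)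

theorem slim' (hd : 2 ≤ d) {c : ℂ} (hc : c ∈ multibrotSet d) (h : SlimAt d ψ c) :
    SlimAt' d ψ c := by
  intro p hp hr
  apply h p hp
  rcases hr with rfl | hr
  · exact ren_one hd hc
  · exact hr

theorem final (hd : 2 ≤ d) (hψ : IsExteriorMap (multibrotSet d) ψ) :
    (LocallyConnectedSpace (multibrotSet d) ↔
      ∀ c ∈ frontier (multibrotSet d), SlimAt' d ψ c → CIK (multibrotSet d) c) ∧
    (¬ LocallyConnectedSpace (multibrotSet d) →
      ∃ p ∈ multibrotSet d, ∃ ε : ℝ, 0 < ε ∧ ∀ᵐ s : ℝ, 0 < s → s < ε →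
        ∃ c ∈ frontier (multibrotSet d), dist c p = s ∧ SlimAt' d ψ c ∧
          ¬ CIK (multibrotSet d) c) := by
  have h2 : ¬ LocallyConnectedSpace (multibrotSet d) →
      ∃ p ∈ multibrotSet d, ∃ ε : ℝ, 0 < ε ∧ ∀ᵐ s : ℝ, 0 < s → s < ε →
        ∃ c ∈ frontier (multibrotSet d), dist c p = s ∧ SlimAt' d ψ c ∧
          ¬ CIK (multibrotSet d) c := by
    intro h
    rw [lcs_iff] at h
    push Not at h
    obtain ⟨p, hp, h⟩ := h
    obtain ⟨ε, hε, h1⟩ := main hd hψ h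
    refine ⟨p, hp, ε, hε, ?_⟩
    filter_upwards [h1] with s hs hs0 hsε
    obtain ⟨c, hc, h3, h4, h5⟩ := hs hs0 hsε
    refine ⟨c, ?_, h3, slim' hd hc h4, h5⟩
    refine ⟨subset_closure hc, fun hi => h5 (cik_interior hi)⟩
  refine ⟨⟨fun h c hc _ => ?_, fun h => ?_⟩, h2⟩
  · exact lcs_iff.1 h c ((Pool.Agent.H712R2.isCompact_multibrot hd).isClosed.frontier_subset hc)
  · by_contra hcon
    obtain ⟨p, hp, ε, hε, h1⟩ := h2 hcon
    have h3 : ∃ s : ℝ, s ∈ Ioo 0 ε ∧ (0 < s → s < ε →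
        ∃ c ∈ frontier (multibrotSet d), dist c p = s ∧ SlimAt' d ψ c ∧
          ¬ CIK (multibrotSet d) c) := by
      by_contra h4
      push Not at h4
      have h5 : volume (Ioo 0 ε) = 0 := by
        apply measure_mono_null _ h1
        intro s hs hcon
        obtain ⟨h6, h7, h8⟩ := h4 s hs
        obtain ⟨c, hc1, hc2, hc3, hc4⟩ := hcon h6 h7
        exact hc4 (h8 c hc1 hc2 hc3)
      rw [Real.volume_Ioo, ENNReal.ofReal_eq_zero] at h5
      linarith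
    obtain ⟨s, hs, h4⟩ := h3
    obtain ⟨c, hc1, _, hc3, hc4⟩ := h4 hs.1 hs.2
    exact hc4 (h c hc1 hc3)

end Pool.Agent.R240.Slim
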