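import Pool.Agent.R240.Res2
import Pool.Agent.R240.Slim
import Pool.Agent.R240.Newton

set_option autoImplicit false

/-! # Nonresonant parameters -/

namespace Pool.Agent.R240.Res

open Complex Filter Topology Set Metric MeasureTheory Pool.Agent.H713R2
open N62a1eb23
open Pool.Agent.H712R2 (P P_succ P_one P_zero fc continuous_P mem_multibrot_iff)
open Pool.Agent.Y736.RN
open Pool.Agent.R240.Loc Pool.Agent.R240.Slim
open Pool.Agent.R240.Univ (vel)

variable {d : ℕ}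

/-- the constant -/
noncomputable def KR : ℝ := 4 * Pool.Agent.R240.KN + 2

theorem KR_pos : 0 < KR := by
  have := Pool.Agent.R240.KN_pos
  unfold KR
  positivity

/-- the motion of the critical orbit in all directions, if no superattracting parameter is near -/
theorem vel_bound (hd : 2 ≤ d) {c : ℂ} (hc : c ∈ multibrotSet d) {ρ : ℝ} (hρ : 1 ≤ ρ) {n : ℕ}
    (hn : 1 ≤ n) (h : ∀ a : ℂ, P d n a = 0 → ρ⁻¹ < ‖a - c‖) {Φ : ℂ → ℂ} {M : ℝ}
    (hΦ : DifferentiableOn ℂ Φ (ball 0 4)) (hM : ∀ x ∈ ball (0 : ℂ) 4, ‖Φ x‖ ≤ M) :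
    ‖vel d c Φ n‖ ≤ KR * M * ρ * (‖P d n c‖ * (1 + |Real.log ‖P d n c‖|)) := by
  have hM0 : 0 ≤ M := (norm_nonneg _).trans (hM 0 (mem_ball_self (by norm_num)))
  have hK := Pool.Agent.R240.KN_pos
  have hρ0 : 0 < ρ := by linarith
  obtain ⟨N, rfl⟩ : ∃ N, n = N + 1 := ⟨n - 1, by omega⟩
  obtain ⟨a, ha1, ha2⟩ := Pool.Agent.R240.newton hd
    (Pool.Agent.R240.Univ.norm_P_le hd hc (N + 1)) (Pool.Agent.R240.Univ.norm_c_le hd hc)
  have h1 := h a ha1
  have h2 : deriv (P d (N + 1)) c = vel d c (fun _ => 1) (N + 1) :=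
    (Pool.Agent.R240.Univ.vel_one c (N + 1)).deriv
  have h3 := Pool.Agent.R240.Univ.univ hd hc (N + 1) hΦ hM
  rw [h2] at ha2
  obtain ⟨L, hL⟩ : ∃ L, L = |Real.log ‖P d (N + 1) c‖| := ⟨_, rfl⟩
  have hL0 : 0 ≤ L := by rw [hL]; exact abs_nonneg _
  rw [← hL] at ha2 h3 ⊢
  obtain ⟨x, hx⟩ : ∃ x, x = ‖P d (N + 1) c‖ := ⟨_, rfl⟩
  have hx0 : 0 ≤ x := by rw [hx]; exact norm_nonneg _
  rw [← hx] at ha2 h3 ⊢
  obtain ⟨v, hv⟩ : ∃ v, v = ‖vel d c (fun _ => 1) (N + 1)‖ := ⟨_, rfl⟩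
  have hv0 : 0 ≤ v := by rw [hv]; exact norm_nonneg _
  rw [← hv] at ha2 h3
  have h4 : v ≤ ρ * (Pool.Agent.R240.KN * x * (1 + L)) := by
    have h5 : ρ⁻¹ * v ≤ Pool.Agent.R240.KN * x * (1 + L) :=
      (mul_le_mul_of_nonneg_right h1.le hv0).trans ha2
    calc v = ρ * (ρ⁻¹ * v) := by rw [← mul_assoc, mul_inv_cancel₀ hρ0.ne', one_mul]
      _ ≤ _ := by gcongr
  have h5 : x * (2 + L) ≤ 2 * ρ * (x * (1 + L)) := by
    have h6 : x * (2 + L) ≤ 2 * (x * (1 + L)) := by nlinarith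
    have h7 : 0 ≤ x * (1 + L) := by positivity
    nlinarith
  calc ‖vel d c Φ (N + 1)‖ ≤ M * (4 * v + x * (2 + L)) := h3
    _ ≤ M * (4 * (ρ * (Pool.Agent.R240.KN * x * (1 + L))) + 2 * ρ * (x * (1 + L))) := by gcongr
    _ = KR * M * ρ * (x * (1 + L)) := by unfold KR; ring

/-- the property at the exponent `X` -/
def Far (d : ℕ) (X : ℝ) (c : ℂ) : Prop :=
  ∀ᶠ n : ℕ in atTop, (∀ a : ℂ, P d n a = 0 → Real.exp (-(X * n)) < ‖a - c‖) ∧
    ∀ (Φ : ℂ → ℂ) (M : ℝ), DifferentiableOn ℂ Φ (ball 0 4) →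
      (∀ x ∈ ball (0 : ℂ) 4, ‖Φ x‖ ≤ M) →
      ‖vel d c Φ n‖ ≤ KR * M * Real.exp (X * n) * (‖P d n c‖ * (1 + |Real.log ‖P d n c‖|))

theorem far_of_not_near (hd : 2 ≤ d) {c : ℂ} (hc : c ∈ multibrotSet d) {X : ℝ} (hX : 0 ≤ X)
    (h : ¬ Near d X c) : Far d X c := by
  unfold Near at h
  rw [not_frequently] at h
  filter_upwards [h, eventually_ge_atTop 1] with n hn hn1
  push Not at hn
  refine ⟨hn, fun Φ M hΦ hM => ?_⟩
  apply vel_bound hd hc (Real.one_le_exp (by positivity)) hn1 _ hΦ hM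
  intro a ha
  rw [← Real.exp_neg]
  exact hn a ha

/-- every parameter is renormalizable of period one -/
theorem renC_one (hd : 2 ≤ d) {c : ℂ} (hc : c ∈ multibrotSet d) : RenC d c 1 := by
  obtain ⟨U, h1, h2, h3⟩ := ren_one hd hc
  refine ⟨U, h1, h2, h3, ?_⟩
  intro z _ hz
  have h4 : HasDerivAt (fc d c) ((d : ℂ) * z ^ (d - 1)) z := by
    have := (hasDerivAt_pow d z).add_const c
    exact this
  rw [Function.iterate_one, h4.deriv, mul_eq_zero] at hz
  rcases hz with hz | hz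
  · have : (d : ℂ) ≠ 0 := by exact_mod_cast (by omega : d ≠ 0)
    exact absurd hz this
  · exact eq_zero_of_pow_eq_zero hz

/-- nonresonant parameters -/
def Nonres (d : ℕ) (c : ℂ) : Prop :=
  ∀ p : ℕ, 1 ≤ p → (p = 1 ∨ RenC d c p) → ∀ X : ℝ, Real.log d / p < X → Far d X c

/-- almost every circle misses the resonant parameters -/
theorem ae_nonres (hd : 2 ≤ d) (p₀ : ℂ) :
    ∀ᵐ s : ℝ, ∀ c ∈ frontier (multibrotSet d), dist c p₀ = s → Nonres d c := by
  have hdR : (1 : ℝ) < d := by exact_mod_cast (by omega : 1 < d)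
  have hlogd : 0 < Real.log d := Real.log_pos hdR
  have h1 : ∀ (p : ℕ) (q : ℚ), 1 ≤ p → Real.log d / p < (q : ℝ) →
      ∀ᵐ s : ℝ, ∀ c : ℂ, dist c p₀ = s →
        ¬ (c ∈ frontier (multibrotSet d) ∧ RenC d c p ∧ Near d q c) := by
    intro p q hp hq
    have hp0 : (0 : ℝ) < p := by exact_mod_cast hp
    have hq0 : (0 : ℝ) < q := lt_trans (by positivity) hq
    have h2 : dimH {c | c ∈ frontier (multibrotSet d) ∧ RenC d c p ∧ Near d q c} < 1 := by
      refine (dim_near hd hp hq0).trans_lt ?_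
      rw [← ENNReal.ofReal_one, ENNReal.ofReal_lt_ofReal_iff one_pos, div_lt_one (by positivity)]
      rwa [div_lt_iff₀ hp0, mul_comm] at hq
    have h3 := circles_null h2 p₀
    have h4 : ∀ᵐ s : ℝ, s ∉ (fun z => dist z p₀) ''
        {c | c ∈ frontier (multibrotSet d) ∧ RenC d c p ∧ Near d q c} :=
      measure_eq_zero_iff_ae_notMem.1 h3
    filter_upwards [h4] with s hs c hc hcon
    exact hs ⟨c, hcon, hc⟩
  have h2 : ∀ᵐ s : ℝ, ∀ (p : ℕ) (q : ℚ), 1 ≤ p → Real.log d / p < (q : ℝ) →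
      ∀ c : ℂ, dist c p₀ = s →
        ¬ (c ∈ frontier (multibrotSet d) ∧ RenC d c p ∧ Near d q c) := by
    rw [ae_all_iff]; intro p
    rw [ae_all_iff]; intro q
    by_cases hp : 1 ≤ p
    · by_cases hq : Real.log d / p < (q : ℝ)
      · filter_upwards [h1 p q hp hq] with s hs _ _
        exact hs
      · exact ae_of_all _ fun s _ h => absurd h hq
    · exact ae_of_all _ fun s h => absurd h hp
  filter_upwards [h2] with s hs c hc hcs p hp hr X hX
  have hcM : c ∈ multibrotSet d :=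
    (Pool.Agent.H712R2.isCompact_multibrot hd).isClosed.frontier_subset hc
  have hp0 : (0 : ℝ) < p := by exact_mod_cast hp
  have hX0 : 0 < X := lt_trans (by positivity) hX
  apply far_of_not_near hd hcM hX0.le
  intro hcon
  obtain ⟨q, hq1, hq2⟩ := exists_rat_btwn hX
  have hr' : RenC d c p := by
    rcases hr with rfl | hr
    · exact renC_one hd hcM
    · exact hr
  exact hs p q hp hq1 c hcs ⟨hc, hr', hcon.mono hq2.le⟩

/-- **Spreading to nonresonant parameters.** -/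
theorem spread_nonres (hd : 2 ≤ d) {p₀ : ℂ} (h : ¬ CIK (multibrotSet d) p₀) :
    ∃ ε : ℝ, 0 < ε ∧ ∀ᵐ s : ℝ, 0 < s → s < ε →
      ∃ c ∈ frontier (multibrotSet d), dist c p₀ = s ∧ Nonres d c ∧
        ¬ CIK (multibrotSet d) c := by
  obtain ⟨ε, hε, hs⟩ := spread (Pool.Agent.H712R2.isCompact_multibrot hd)
    (Pool.Agent.H712R2.isConnected_multibrot hd).isPreconnected h
  refine ⟨ε, hε, ?_⟩
  filter_upwards [ae_nonres hd p₀] with s h1 hs0 hsε
  obtain ⟨z, hz, hzs, hzc⟩ := hs s hs0 hsε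
  have hzf : z ∈ frontier (multibrotSet d) :=
    ⟨subset_closure hz, fun hi => hzc (cik_interior hi)⟩
  exact ⟨z, hzf, hzs, h1 z hzf hzs, hzc⟩

/-- local connectivity at one point is decided at the nonresonant parameters nearby -/
theorem local_iff (hd : 2 ≤ d) {p : ℂ} {ε : ℝ} (hε : 0 < ε)
    (h : ∀ c ∈ frontier (multibrotSet d), c ≠ p → dist c p < ε →
      Nonres d c → CIK (multibrotSet d) c) : CIK (multibrotSet d) p := by
  by_contra hcon
  obtain ⟨ε', hε', h1⟩ := spread_nonres hd hcon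
  have h3 : ∃ s : ℝ, s ∈ Ioo 0 (min ε ε') ∧ (0 < s → s < ε' →
      ∃ c ∈ frontier (multibrotSet d), dist c p = s ∧ Nonres d c ∧
        ¬ CIK (multibrotSet d) c) := by
    by_contra h4
    push Not at h4
    have h5 : volume (Ioo 0 (min ε ε')) = 0 := by
      apply measure_mono_null _ h1
      intro s hs hcon
      obtain ⟨h6, h7, h8⟩ := h4 s hs
      obtain ⟨c, hc1, hc2, hc3, hc4⟩ := hcon h6 h7
      exact hc4 (h8 c hc1 hc2 hc3)
    rw [Real.volume_Ioo, ENNReal.ofReal_eq_zero] at h5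
    have := lt_min hε hε'
    linarith
  obtain ⟨s, hs, h4⟩ := h3
  obtain ⟨c, hc1, hcs, hc3, hc4⟩ := h4 hs.1 (hs.2.trans_le (min_le_right _ _))
  refine hc4 (h c hc1 ?_ ?_ hc3)
  · rintro rfl
    rw [dist_self] at hcs
    linarith [hs.1]
  · rw [hcs]
    exact hs.2.trans_le (min_le_left _ _)

end Pool.Agent.R240.Res
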