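import Pool.Agent.R240.Res3

set_option autoImplicit false

/-! # Superattracting parameters in the interior of the connectedness locus -/

namespace Pool.Agent.R240.Res

open Complex Filter Topology Set Metric MeasureTheory Pool.Agent.H713R2
open N62a1eb23
open Pool.Agent.H712R2 (P P_succ P_one P_zero fc continuous_P mem_multibrot_iff)
open Pool.Agent.Y736.RN

variable {d : ℕ}

/-- convergence to zero propagates -/
theorem vitali {G : ℕ → ℂ → ℂ} {a : ℂ} {ρ s B : ℝ} (hs : 0 < s)
    (hG : ∀ k, DifferentiableOn ℂ (G k) (ball a ρ)) (hb : ∀ k, ∀ z ∈ ball a ρ, ‖G k z‖ ≤ B)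
    {e : ℕ → ℝ} (he : Tendsto e atTop (𝓝 0)) (hsm : ∀ k, ∀ z ∈ ball a s, ‖G k z‖ ≤ e k)
    {z : ℂ} (hz : z ∈ ball a ρ) : Tendsto (fun k => G k z) atTop (𝓝 0) := by
  rw [mem_ball, dist_eq_norm] at hz
  obtain ⟨ρ', h1, h2⟩ := exists_between hz
  have hz0 := norm_nonneg (z - a)
  have hρ'0 : 0 < ρ' := by linarith
  have hsum : ∀ k, HasSum (fun n : ℕ => ((n.factorial : ℂ))⁻¹ • (z - a) ^ n • iteratedDeriv n (G k) a)
      (G k z) := by
    intro k
    exact Complex.hasSum_taylorSeries_on_ball (hG k) (by rw [mem_ball, dist_eq_norm]; exact hz)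
  have hcoef : ∀ k n, ‖iteratedDeriv n (G k) a‖ ≤ n.factorial * B / ρ' ^ n := by
    intro k n
    apply Complex.norm_iteratedDeriv_le_of_forall_mem_sphere_norm_le n hρ'0
    · apply DifferentiableOn.diffContOnCl
      refine (hG k).mono ?_
      rw [closure_ball _ hρ'0.ne']
      exact closedBall_subset_ball h2
    · intro w hw
      apply hb k
      exact sphere_subset_closedBall.trans (closedBall_subset_ball h2) hw
  obtain ⟨s', hs'⟩ : ∃ s', s' = min s ρ / 2 := ⟨_, rfl⟩
  have hs'0 : 0 < s' := by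
    rw [hs']
    have : 0 < ρ := by linarith
    positivity
  have hs's : s' < s := by
    rw [hs'] at hs'0 ⊢
    have := min_le_left s ρ
    linarith
  have hs'ρ : s' < ρ := by
    rw [hs'] at hs'0 ⊢
    have := min_le_right s ρ
    linarith
  have hcoef2 : ∀ k n, ‖iteratedDeriv n (G k) a‖ ≤ n.factorial * e k / s' ^ n := by
    intro k n
    apply Complex.norm_iteratedDeriv_le_of_forall_mem_sphere_norm_le n hs'0
    · apply DifferentiableOn.diffContOnCl
      refine (hG k).mono ?_
      rw [closure_ball _ hs'0.ne']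
      exact closedBall_subset_ball hs'ρ
    · intro w hw
      apply hsm k
      exact sphere_subset_closedBall.trans (closedBall_subset_ball hs's) hw
  have hlim : Tendsto (fun k => ∑' n : ℕ,
      ((n.factorial : ℂ))⁻¹ • (z - a) ^ n • iteratedDeriv n (G k) a) atTop
      (𝓝 (∑' _ : ℕ, (0:ℂ))) := by
    apply tendsto_tsum_of_dominated_convergence (bound := fun n => B * (‖z - a‖ / ρ') ^ n)
    · apply Summable.mul_left
      apply summable_geometric_of_lt_one (by positivity)
      rw [div_lt_one hρ'0]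
      exact h1
    · intro n
      have h3 : Tendsto (fun k => iteratedDeriv n (G k) a) atTop (𝓝 0) := by
        apply squeeze_zero_norm (hcoef2 · n)
        have h4 := (he.const_mul (n.factorial : ℝ)).div_const (s' ^ n)
        rw [mul_zero, zero_div] at h4
        exact h4
      have h4 := (h3.const_smul ((z - a) ^ n)).const_smul (((n.factorial : ℂ))⁻¹)
      rw [smul_zero, smul_zero] at h4
      exact h4
    · refine Eventually.of_forall fun k n => ?_
      rw [norm_smul, norm_smul, norm_inv, norm_pow, Complex.norm_natCast]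
      have hf : (0:ℝ) < n.factorial := by exact_mod_cast n.factorial_pos
      calc ((n.factorial : ℝ))⁻¹ * (‖z - a‖ ^ n * ‖iteratedDeriv n (G k) a‖)
          ≤ ((n.factorial : ℝ))⁻¹ * (‖z - a‖ ^ n * (n.factorial * B / ρ' ^ n)) := by
            gcongr
            exact hcoef k n
        _ = B * (‖z - a‖ / ρ') ^ n := by
            rw [div_pow]
            field_simp
  rw [tsum_zero] at hlim
  refine hlim.congr fun k => ?_
  exact (hsum k).tsum_eq

theorem it_mul (n k : ℕ) (c : ℂ) : P d ((k + 1) * n) c = (fc d c)^[n] (P d (k * n) c) := by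
  rw [iter_P]
  congr 1
  ring

/-- contraction near a superattracting parameter -/
theorem near_centre (hd : 2 ≤ d) {a : ℂ} {n : ℕ} (hn : 1 ≤ n) (ha : P d n a = 0) :
    ∃ s : ℝ, 0 < s ∧ ∀ k : ℕ, ∀ c ∈ ball a s,
      ‖P d ((k + 1) * n) c - P d (k * n) c‖ ≤ (1 / 2) ^ k := by
  obtain ⟨F, hF⟩ : ∃ F : ℂ × ℂ → ℂ, F = fun q => (fc d q.1)^[n] q.2 := ⟨_, rfl⟩
  have hFc : ContDiff ℂ ⊤ F := by
    rw [hF]
    exact contDiff_it d n
  have hFd : Differentiable ℂ F := hFc.differentiable (by simp)
  have hder : ∀ c' w : ℂ, deriv ((fc d c')^[n]) w = fderiv ℂ F (c', w) (0, 1) := by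
    intro c' w
    have h1 : HasFDerivAt F (fderiv ℂ F (c', w)) (c', w) := (hFd _).hasFDerivAt
    have h2 : HasDerivAt (fun y : ℂ => ((c', y) : ℂ × ℂ)) (0, 1) w :=
      (hasDerivAt_const w c').prodMk (hasDerivAt_id w)
    have h3 := h1.comp_hasDerivAt w h2
    have h4 : (F ∘ fun y : ℂ => (c', y)) = (fc d c')^[n] := by
      rw [hF]
      rfl
    rw [h4] at h3
    exact h3.deriv
  have hcont : Continuous fun p : ℂ × ℂ => ‖fderiv ℂ F p (0, 1)‖ :=
    ((hFc.continuous_fderiv (by simp)).clm_apply continuous_const).norm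
  have hev : ∀ᶠ p in 𝓝 (a, (0:ℂ)), ‖fderiv ℂ F p (0, 1)‖ < 1 / 2 := by
    apply hcont.continuousAt.eventually_lt continuousAt_const
    rw [← hder a 0, deriv_it_zero hd a hn, norm_zero]
    norm_num
  obtain ⟨ε, hε, hball⟩ := Metric.eventually_nhds_iff.1 hev
  obtain ⟨η, hη⟩ : ∃ η, η = min (ε / 2) 1 := ⟨_, rfl⟩
  have hη0 : 0 < η := by rw [hη]; positivity
  have hηε : η < ε := by
    have := min_le_left (ε / 2) 1
    rw [← hη] at this
    linarith
  have hη1 : η ≤ 1 := by rw [hη]; exact min_le_right _ _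
  have hPc : ContinuousAt (fun c => ‖P d n c‖) a := (continuous_P d n).norm.continuousAt
  have hev2 : ∀ᶠ c in 𝓝 a, ‖P d n c‖ < η / 2 := by
    apply hPc.eventually_lt continuousAt_const
    rw [ha, norm_zero]
    positivity
  obtain ⟨s₀, hs₀, hball2⟩ := Metric.eventually_nhds_iff.1 hev2
  refine ⟨min s₀ ε, by positivity, ?_⟩
  intro k c hc
  have hc1 : dist c a < s₀ := (mem_ball.1 hc).trans_le (min_le_left _ _)
  have hc2 : dist c a < ε := (mem_ball.1 hc).trans_le (min_le_right _ _)
  have hlip : ∀ z ∈ closedBall (0:ℂ) η, ∀ w ∈ closedBall (0:ℂ) η,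
      ‖(fc d c)^[n] w - (fc d c)^[n] z‖ ≤ 1 / 2 * ‖w - z‖ := by
    intro z hz w hw
    apply (convex_closedBall (0:ℂ) η).norm_image_sub_le_of_norm_deriv_le (𝕜 := ℂ) _ _ hz hw
    · intro x _
      exact diff_it_y d n c x
    · intro x hx
      rw [hder c x]
      apply le_of_lt
      apply hball
      rw [Prod.dist_eq, max_lt_iff]
      refine ⟨hc2, ?_⟩
      exact (mem_closedBall.1 hx).trans_lt hηε
  have h0 : (0:ℂ) ∈ closedBall (0:ℂ) η := mem_closedBall_self hη0.le
  have hstay : ∀ j : ℕ, P d (j * n) c ∈ closedBall (0:ℂ) η := by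
    intro j
    induction j with
    | zero => rw [Nat.zero_mul, P_zero]; exact h0
    | succ j ih =>
      rw [it_mul]
      have h1 := hlip 0 h0 _ ih
      rw [sub_zero] at h1
      rw [mem_closedBall_zero_iff] at ih ⊢
      have h2 : (fc d c)^[n] 0 = P d n c := rfl
      rw [h2] at h1
      have h3 := hball2 hc1
      have h4 : (fc d c)^[n] (P d (j * n) c) =
          ((fc d c)^[n] (P d (j * n) c) - P d n c) + P d n c := by ring
      rw [h4]
      refine (norm_add_le _ _).trans ?_
      linarith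
  induction k with
  | zero =>
    rw [Nat.zero_mul, P_zero, sub_zero, pow_zero]
    have := hstay 1
    rw [mem_closedBall_zero_iff] at this
    simpa using this.trans hη1
  | succ k ih =>
    rw [it_mul n (k + 1), it_mul n k]
    have h1 := hlip _ (hstay k) _ (hstay (k + 1))
    rw [← it_mul n k] at h1 ⊢
    rw [pow_succ, mul_comm _ (1 / 2 : ℝ)]
    exact h1.trans (by gcongr)

/-- superattracting parameters in a disc in the connectedness locus -/
theorem centres_same (hd : 2 ≤ d) {a : ℂ} {ρ : ℝ} (hM : ball a ρ ⊆ multibrotSet d) {n : ℕ}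
    (hn : 1 ≤ n) (ha : P d n a = 0) {b : ℂ} (hb : b ∈ ball a ρ) {m : ℕ} (hm : 1 ≤ m)
    (hbm : P d m b = 0) : P d n b = 0 := by
  obtain ⟨s, hs, h1⟩ := near_centre hd hn ha
  have h2 : Tendsto (fun k : ℕ => P d ((k + 1) * n) b - P d (k * n) b) atTop (𝓝 0) := by
    apply vitali (G := fun k c => P d ((k + 1) * n) c - P d (k * n) c) (a := a) (ρ := ρ) (B := 4)
      (e := fun k => (1 / 2 : ℝ) ^ k) hs _ _ _ h1 hb
    · intro k
      exact ((diff_it_c d _ 0).sub (diff_it_c d _ 0)).differentiableOn
    · intro k z hz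
      have h3 := (mem_multibrot_iff hd z).1 (hM hz)
      refine (norm_sub_le _ _).trans ?_
      have := h3 ((k + 1) * n)
      have := h3 (k * n)
      linarith
    · exact tendsto_pow_atTop_nhds_zero_of_lt_one (by norm_num) (by norm_num)
  have h3 : Tendsto (fun l : ℕ => l * m) atTop atTop :=
    tendsto_atTop_mono (fun l => Nat.le_mul_of_pos_right l hm) tendsto_id
  have h4 := h2.comp h3
  have hz : ∀ l : ℕ, P d (l * m) b = 0 := by
    intro l
    induction l with
    | zero => rw [Nat.zero_mul, P_zero]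
    | succ l ih =>
      rw [it_mul, ih]
      exact hbm
  have h5 : ((fun k : ℕ => P d ((k + 1) * n) b - P d (k * n) b) ∘ fun l : ℕ => l * m) =
      fun _ => P d n b := by
    funext l
    show P d ((l * m + 1) * n) b - P d (l * m * n) b = P d n b
    have h6 : P d (l * m * n) b = 0 := by
      rw [show l * m * n = (l * n) * m by ring]
      exact hz _
    rw [it_mul, h6, sub_zero]
    rfl
  rw [h5] at h4
  exact tendsto_nhds_unique tendsto_const_nhds h4

/-- interior parameters which are not superattracting are far from superattracting ones -/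
theorem interior_far (hd : 2 ≤ d) {c : ℂ} (hc : c ∈ interior (multibrotSet d))
    (hne : ∀ m, 1 ≤ m → P d m c ≠ 0) {X : ℝ} (hX : 0 < X) : ¬ Near d X c := by
  obtain ⟨r, hr, hball⟩ := Metric.isOpen_iff.1 isOpen_interior c hc
  have hM : ball c r ⊆ multibrotSet d := hball.trans interior_subset
  -- a positive distance
  have hdist : ∃ δ : ℝ, 0 < δ ∧ ∀ a : ℂ, ∀ m, 1 ≤ m → P d m a = 0 → δ ≤ ‖a - c‖ := by
    by_cases h : ∃ a ∈ ball c (r / 4), ∃ n, 1 ≤ n ∧ P d n a = 0
    · obtain ⟨a, ha, n, hn, han⟩ := h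
      have hMa : ball a (r / 2) ⊆ multibrotSet d := by
        refine (ball_subset_ball' ?_).trans hM
        have := mem_ball.1 ha
        linarith
      have hfin : {x : ℂ | P d n x = 0}.Finite := by
        obtain ⟨N, rfl⟩ : ∃ N, n = N + 1 := ⟨n - 1, by omega⟩
        exact Pool.Agent.R240.Univ.zeros_finite hd N
      have hcn : c ∉ {x : ℂ | P d n x = 0} := hne n hn
      obtain ⟨δ, hδ, hδ'⟩ := Metric.isOpen_iff.1 hfin.isClosed.isOpen_compl c hcn
      refine ⟨min δ (r / 4), by positivity, ?_⟩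
      intro b m hm hbm
      by_contra hcon
      push Not at hcon
      have h1 : b ∈ ball a (r / 2) := by
        rw [mem_ball]
        have h2 := mem_ball.1 ha
        have h3 := hcon.trans_le (min_le_right _ _)
        rw [← dist_eq_norm] at h3
        have := dist_triangle_right b a c
        linarith
      have h2 := centres_same hd hMa hn han h1 hm hbm
      apply hδ' (show b ∈ ball c δ by
        rw [mem_ball, dist_eq_norm]; exact hcon.trans_le (min_le_left _ _))
      exact h2
    · push Not at h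
      refine ⟨r / 4, by positivity, ?_⟩
      intro a m hm ham
      by_contra hcon
      push Not at hcon
      exact h a (by rw [mem_ball, dist_eq_norm]; exact hcon) m hm ham
  obtain ⟨δ, hδ, h1⟩ := hdist
  unfold Near
  rw [not_frequently]
  have hlim : Tendsto (fun n : ℕ => Real.exp (-(X * n))) atTop (𝓝 0) := by
    apply Real.tendsto_exp_neg_atTop_nhds_zero.comp
    exact Tendsto.const_mul_atTop hX tendsto_natCast_atTop_atTop
  filter_upwards [hlim.eventually (gt_mem_nhds hδ), eventually_ge_atTop 1] with n hn hn1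
  rintro ⟨a, ha, hac⟩
  have := h1 a n hn1 ha
  have hn' : Real.exp (-(X * n)) < δ := hn
  linarith

/-- **Renormalizable parameters close to superattracting ones**, with the interior. -/
theorem dim_near' (hd : 2 ≤ d) {p : ℕ} (hp : 1 ≤ p) {X : ℝ} (hX : 0 < X) :
    dimH {c | RenC d c p ∧ Near d X c} ≤ ENNReal.ofReal (Real.log d / (p * X)) := by
  have hMc : IsClosed (multibrotSet d) := (Pool.Agent.H712R2.isCompact_multibrot hd).isClosed
  have hsub : {c | RenC d c p ∧ Near d X c} ⊆
      {c | c ∈ frontier (multibrotSet d) ∧ RenC d c p ∧ Near d X c} ∪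
        ⋃ N : ℕ, {x : ℂ | P d (N + 1) x = 0} := by
    rintro c ⟨h1, h2⟩
    have hcM : c ∈ multibrotSet d := ren_mem hp h1.ren
    by_cases hi : c ∈ interior (multibrotSet d)
    · right
      by_contra hcon
      rw [mem_iUnion] at hcon
      push Not at hcon
      refine interior_far hd hi ?_ hX h2
      intro m hm h3
      exact hcon (m - 1) (by rw [mem_ofPred_eq, Nat.sub_add_cancel hm]; exact h3)
    · left
      exact ⟨⟨subset_closure hcM, hi⟩, h1, h2⟩
  refine (dimH_mono hsub).trans ?_
  rw [dimH_union]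
  refine max_le (dim_near hd hp hX) ?_
  have h1 : (⋃ N : ℕ, {x : ℂ | P d (N + 1) x = 0}).Countable :=
    countable_iUnion fun N => (Pool.Agent.R240.Univ.zeros_finite hd N).countable
  rw [dimH_countable h1]
  exact bot_le

/-- **Infinitely renormalizable parameters close to superattracting ones**, with the interior. -/
theorem dim_near_inf' (hd : 2 ≤ d) :
    dimH {c | {p : ℕ | RenC d c p}.Infinite ∧ ∃ X : ℝ, 0 < X ∧ Near d X c} = 0 := by
  have hsub : {c | {p : ℕ | RenC d c p}.Infinite ∧ ∃ X : ℝ, 0 < X ∧ Near d X c} ⊆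
      {c | c ∈ frontier (multibrotSet d) ∧ {p : ℕ | RenC d c p}.Infinite ∧
        ∃ X : ℝ, 0 < X ∧ Near d X c} ∪ ⋃ N : ℕ, {x : ℂ | P d (N + 1) x = 0} := by
    rintro c ⟨h1, X, hX, h2⟩
    obtain ⟨p, hp, hp0⟩ := h1.exists_gt 0
    have hp' : RenC d c p := hp
    have hcM : c ∈ multibrotSet d := ren_mem hp0 hp'.ren
    by_cases hi : c ∈ interior (multibrotSet d)
    · right
      by_contra hcon
      rw [mem_iUnion] at hcon
      push Not at hcon
      refine interior_far hd hi ?_ hX h2
      intro m hm h3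
      exact hcon (m - 1) (by rw [mem_ofPred_eq, Nat.sub_add_cancel hm]; exact h3)
    · left
      exact ⟨⟨subset_closure hcM, hi⟩, h1, X, hX, h2⟩
  apply le_antisymm _ bot_le
  refine (dimH_mono hsub).trans ?_
  rw [dimH_union]
  refine max_le (dim_near_inf hd).le ?_
  have h1 : (⋃ N : ℕ, {x : ℂ | P d (N + 1) x = 0}).Countable :=
    countable_iUnion fun N => (Pool.Agent.R240.Univ.zeros_finite hd N).countable
  exact (dimH_countable h1).le

theorem near_of_not_far (hd : 2 ≤ d) {c : ℂ} (hc : c ∈ multibrotSet d) {X : ℝ} (hX : 0 ≤ X)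
    (h : ¬ Far d X c) : Near d X c := by
  by_contra hcon
  exact h (far_of_not_near hd hc hX hcon)

end Pool.Agent.R240.Res
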