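import Pool.Agent.H548R3.MB.Eff

set_option autoImplicit false

/-! # A Schottky bound, uniform in the degree, for maps omitting the roots of unity -/

namespace Pool.Agent.R240

open Complex Metric Set Filter Topology Pool.Agent.H712R2 N62a1eb23

/-- two adjacent `d`-th roots of unity near a point of the unit circle -/
theorem near_roots {d : ℕ} (hd : 2 ≤ d) {u : ℂ} (hu : ‖u‖ = 1) : ∃ a b : ℂ, a ^ d = 1 ∧
    b ^ d = 1 ∧ ‖u - a‖ ≤ 2 * Real.pi / d ∧ 4 / (d : ℝ) ≤ ‖a - b‖ ∧
    ‖a - b‖ ≤ 2 * Real.pi / d := by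
  have hdR : (2 : ℝ) ≤ d := by exact_mod_cast hd
  have hd0 : (0 : ℝ) < d := by linarith
  have hdC : (d : ℂ) ≠ 0 := by exact_mod_cast hd0.ne'
  have hpi := Real.pi_pos
  obtain ⟨φ, hφ⟩ : ∃ φ : ℝ, u = exp (φ * I) := by
    refine ⟨arg u, ?_⟩
    have := norm_mul_exp_arg_mul_I u
    rw [hu] at this
    simpa using this.symm
  obtain ⟨k, hk⟩ : ∃ k : ℤ, k = ⌊φ * d / (2 * Real.pi)⌋ := ⟨_, rfl⟩
  have hk1 : (k : ℝ) ≤ φ * d / (2 * Real.pi) := by rw [hk]; exact Int.floor_le _
  have hk2 : φ * d / (2 * Real.pi) < k + 1 := by rw [hk]; exact Int.lt_floor_add_one _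
  have root : ∀ m : ℤ, exp (((2 * Real.pi * m / d : ℝ) : ℂ) * I) ^ d = 1 := by
    intro m
    rw [← exp_nat_mul]
    have : (d : ℂ) * (((2 * Real.pi * m / d : ℝ) : ℂ) * I) = m * (2 * Real.pi * I) := by
      push_cast
      field_simp
    rw [this]
    exact exp_int_mul_two_pi_mul_I m
  have hsub : ∀ x y : ℝ, ‖exp (x * I) - exp (y * I)‖ = ‖exp (I * ((x - y : ℝ) : ℂ)) - 1‖ := by
    intro x y
    have h1 : exp (x * I) - exp (y * I) = exp (y * I) * (exp (I * ((x - y : ℝ) : ℂ)) - 1) := by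
      rw [mul_sub, mul_one, ← exp_add]
      congr 2
      push_cast
      ring
    rw [h1, norm_mul, norm_exp_ofReal_mul_I, one_mul]
  refine ⟨exp (((2 * Real.pi * k / d : ℝ) : ℂ) * I),
    exp (((2 * Real.pi * (k + 1 : ℤ) / d : ℝ) : ℂ) * I), root k, root (k + 1), ?_, ?_, ?_⟩
  · rw [hφ, hsub]
    refine (Real.norm_exp_I_mul_ofReal_sub_one_le).trans ?_
    rw [Real.norm_eq_abs, abs_le]
    have h1 : 2 * Real.pi * k / d ≤ φ := by
      rw [div_le_iff₀ hd0]
      rw [le_div_iff₀ (by positivity)] at hk1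
      linarith
    have h2 : φ ≤ 2 * Real.pi * k / d + 2 * Real.pi / d := by
      rw [← add_div, le_div_iff₀ hd0]
      rw [div_lt_iff₀ (by positivity)] at hk2
      linarith
    have h3 : (0 : ℝ) < 2 * Real.pi / d := by positivity
    constructor <;> linarith
  · rw [hsub]
    have h1 : (2 * Real.pi * (k : ℝ) / d - 2 * Real.pi * ((k + 1 : ℤ) : ℝ) / d) =
        -(2 * Real.pi / d) := by
      push_cast
      ring
    rw [h1, norm_exp_I_mul_ofReal_sub_one, Real.norm_eq_abs, neg_div, Real.sin_neg, mul_neg,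
      abs_neg, abs_of_nonneg (mul_nonneg (by norm_num) (Real.sin_nonneg_of_nonneg_of_le_pi
        (by positivity) (by
          rw [div_div, div_le_iff₀ (by positivity)]
          nlinarith)))]
    have h2 := Real.mul_le_sin (x := 2 * Real.pi / d / 2) (by positivity) (by
      rw [div_div, div_le_div_iff₀ (by positivity) (by norm_num)]
      nlinarith)
    have h3 : 2 / Real.pi * (2 * Real.pi / d / 2) = 2 / d := by
      field_simp
    rw [h3] at h2
    have h4 : (4 : ℝ) / d = 2 * (2 / d) := by ring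
    rw [h4]
    linarith
  · rw [hsub]
    refine (Real.norm_exp_I_mul_ofReal_sub_one_le).trans ?_
    have h1 : (2 * Real.pi * (k : ℝ) / d - 2 * Real.pi * ((k + 1 : ℤ) : ℝ) / d) =
        -(2 * Real.pi / d) := by
      push_cast
      ring
    rw [h1, Real.norm_eq_abs, abs_neg, abs_of_pos (by positivity)]

/-- The Schottky bound. -/
noncomputable def SH (A : ℝ) : ℝ :=
  Real.exp (Real.pi * Real.exp (Real.pi * Real.exp (Real.pi * (A + 5 + 386))))

theorem SH_ge {A : ℝ} (hA : 1 ≤ A) : A ≤ SH A := by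
  have h3 := Real.pi_gt_three
  have key : ∀ x : ℝ, 0 ≤ x → x ≤ Real.exp (Real.pi * x) := by
    intro x hx
    have := Real.add_one_le_exp (Real.pi * x)
    nlinarith
  have h1 : A ≤ Real.exp (Real.pi * (A + 5 + 386)) := by
    have := key (A + 5 + 386) (by linarith)
    linarith
  have h2 := key _ (Real.exp_pos (Real.pi * (A + 5 + 386))).le
  have h4 := key _ (Real.exp_pos (Real.pi * Real.exp (Real.pi * (A + 5 + 386)))).le
  unfold SH
  linarith

theorem SH_one {A : ℝ} (hA : 1 ≤ A) : 1 ≤ SH A := hA.trans (SH_ge hA)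

theorem SH_mono {A B : ℝ} (h : A ≤ B) : SH A ≤ SH B := by
  unfold SH
  have := Real.pi_pos
  gcongr

/-- **Schottky's theorem**, uniform in `d`, for functions omitting the `d`-th roots of unity. -/
theorem omit_roots {d : ℕ} (hd : 2 ≤ d) {g : ℂ → ℂ} (hg : DifferentiableOn ℂ g (ball 0 1))
    (h : ∀ t ∈ ball (0 : ℂ) 1, g t ^ d ≠ 1) {A : ℝ} (hA : 1 ≤ A) (h0 : ‖g 0‖ ^ d ≤ A)
    {t : ℂ} (ht : ‖t‖ ≤ 1 / 4) : ‖g t‖ ^ d ≤ SH A := by
  have hdR : (2 : ℝ) ≤ d := by exact_mod_cast hd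
  have hd0 : (0 : ℝ) < d := by linarith
  by_cases h1 : ‖g t‖ ≤ 1
  · exact (pow_le_one₀ (norm_nonneg _) h1).trans (SH_one hA)
  push Not at h1
  -- a point on the segment with `1 ≤ |g|` and `|g| ^ d ≤ A`
  obtain ⟨t₀, ht₀, ht₁, hg1, hgA⟩ : ∃ t₀ : ℂ, ‖t₀‖ ≤ 1 / 4 ∧ ‖t - t₀‖ ≤ 1 / 4 ∧ 1 ≤ ‖g t₀‖ ∧
      ‖g t₀‖ ^ d ≤ A := by
    by_cases h2 : 1 ≤ ‖g 0‖
    · exact ⟨0, by norm_num, by simpa using ht, h2, h0⟩
    push Not at h2
    have hmem : ∀ s ∈ Icc (0 : ℝ) 1, (s : ℂ) * t ∈ ball (0 : ℂ) 1 := by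
      intro s hs
      rw [mem_ball_zero_iff, norm_mul, Complex.norm_real, Real.norm_eq_abs, abs_of_nonneg hs.1]
      nlinarith [norm_nonneg t, hs.2]
    have hc : ContinuousOn (fun s : ℝ => ‖g ((s : ℂ) * t)‖) (Icc 0 1) := by
      apply ContinuousOn.norm
      apply hg.continuousOn.comp (by fun_prop)
      exact hmem
    have := intermediate_value_Icc (zero_le_one) hc
    obtain ⟨s, hs, hs1⟩ := this (show (1 : ℝ) ∈ Icc _ _ by
      constructor
      · simpa using h2.le
      · simpa using h1.le)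
    simp only at hs1
    refine ⟨s * t, ?_, ?_, hs1.ge, ?_⟩
    · rw [norm_mul, Complex.norm_real, Real.norm_eq_abs, abs_of_nonneg hs.1]
      nlinarith [norm_nonneg t, hs.2]
    · have : t - s * t = ((1 - s : ℝ) : ℂ) * t := by push_cast; ring
      rw [this, norm_mul, Complex.norm_real, Real.norm_eq_abs, abs_of_nonneg (by linarith [hs.2])]
      nlinarith [norm_nonneg t, hs.1]
    · rw [hs1, one_pow]; exact hA
  -- the neighbouring roots
  have hne : g t₀ ≠ 0 := by
    intro h3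
    rw [h3, norm_zero] at hg1
    linarith
  have hn0 : (0 : ℝ) < ‖g t₀‖ := by linarith
  obtain ⟨a, b, ha, hb, hua, hab, hab'⟩ := near_roots hd (u := g t₀ / ‖g t₀‖) (by
    rw [norm_div, Complex.norm_real, norm_norm, div_self hn0.ne'])
  have hab0 : a - b ≠ 0 := by
    intro h3
    rw [h3, norm_zero] at hab
    have : (0 : ℝ) < 4 / d := by positivity
    linarith
  have habn : 0 < ‖a - b‖ := norm_pos_iff.2 hab0
  have hgb : ‖g t₀‖ - 1 ≤ (A - 1) / d := by
    have h3 := one_add_mul_le_pow (a := ‖g t₀‖ - 1) (by linarith) d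
    rw [add_sub_cancel] at h3
    rw [le_div_iff₀ hd0]
    linarith
  have hga : ‖g t₀ - a‖ ≤ (A - 1) / d + 2 * Real.pi / d := by
    have h3 : g t₀ - a = (g t₀ - g t₀ / ‖g t₀‖) + (g t₀ / ‖g t₀‖ - a) := by ring
    have h4 : ‖g t₀ - g t₀ / ‖g t₀‖‖ = ‖g t₀‖ - 1 := by
      have h5 : g t₀ - g t₀ / ‖g t₀‖ = ((‖g t₀‖ - 1 : ℝ) : ℂ) * (g t₀ / ‖g t₀‖) := by
        have : (‖g t₀‖ : ℂ) ≠ 0 := by exact_mod_cast hn0.ne'
        push_cast
        field_simp
      rw [h5, norm_mul, norm_div, Complex.norm_real, Complex.norm_real, norm_norm,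
        div_self hn0.ne', mul_one, Real.norm_eq_abs, abs_of_nonneg (by linarith)]
    rw [h3]
    refine (norm_add_le _ _).trans ?_
    rw [h4]
    linarith
  -- the normalised function
  obtain ⟨q, hq⟩ : ∃ q : ℝ, q = 1 - ‖t₀‖ := ⟨_, rfl⟩
  have hq34 : 3 / 4 ≤ q := by rw [hq]; linarith
  have hmap : ∀ z ∈ ball (0 : ℂ) 1, t₀ + q * z ∈ ball (0 : ℂ) 1 := by
    intro z hz
    rw [mem_ball_zero_iff] at hz ⊢
    have h3 := norm_add_le t₀ (q * z)
    rw [norm_mul, Complex.norm_real, Real.norm_eq_abs, abs_of_pos (by linarith)] at h3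
    nlinarith
  have hF := H113G.schottky_all (fun z => (2 * g (t₀ + q * z) - a - b) / (a - b)) (A + 5)
    (by
      apply DifferentiableOn.div_const
      apply DifferentiableOn.sub_const
      apply DifferentiableOn.sub_const
      exact (hg.comp (by fun_prop) hmap).const_mul 2)
    (by
      intro z hz h3
      rw [div_eq_iff hab0, one_mul] at h3
      apply h _ (hmap z hz)
      have : g (t₀ + q * z) = a := by linear_combination h3 / 2
      rw [this, ha])
    (by
      intro z hz h3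
      rw [div_eq_iff hab0] at h3
      apply h _ (hmap z hz)
      have : g (t₀ + q * z) = b := by linear_combination h3 / 2
      rw [this, hb])
    (by
      simp only [mul_zero, add_zero]
      have h3 : 2 * g t₀ - a - b = 2 * (g t₀ - a) + (a - b) := by ring
      rw [norm_div, div_le_iff₀ habn, h3]
      refine (norm_add_le _ _).trans ?_
      rw [norm_mul, Complex.norm_ofNat]
      have h4 : 2 * ‖g t₀ - a‖ ≤ (A + 4) * (4 / d) := by
        have h5 : 2 * ((A - 1) / d + 2 * Real.pi / d) = (2 * (A - 1) + 4 * Real.pi) / d := by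
          ring
        have h6 : (A + 4) * (4 / d) = (4 * A + 16) / d := by ring
        have h7 : (2 * (A - 1) + 4 * Real.pi) / d ≤ (4 * A + 16) / d := by
          apply div_le_div_of_nonneg_right _ hd0.le
          have := Real.pi_lt_d2
          linarith
        linarith
      nlinarith)
    ((t - t₀) / q) (by
      rw [mem_ball_zero_iff, norm_div, Complex.norm_real, Real.norm_eq_abs,
        abs_of_pos (by linarith), div_lt_iff₀ (by linarith)]
      linarith)
  have hqC : (q : ℂ) ≠ 0 := by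
    have : q ≠ 0 := by linarith
    exact_mod_cast this
  have hbk : t₀ + q * ((t - t₀) / q) = t := by field_simp; ring
  simp only [hbk] at hF
  obtain ⟨E, hE⟩ : ∃ E, E = Real.exp (Real.pi * Real.exp (Real.pi * (A + 5 + 386))) := ⟨_, rfl⟩
  rw [← hE, norm_div, div_le_iff₀ habn] at hF
  have hE0 : 0 < E := by rw [hE]; exact Real.exp_pos _
  have ha1 : ‖a‖ = 1 := norm_eq_one_of_pow_eq_one ha (by omega)
  have hb1 : ‖b‖ = 1 := norm_eq_one_of_pow_eq_one hb (by omega)
  have hgt : ‖g t‖ ≤ 1 + E * Real.pi / d := by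
    have h3 : 2 * g t = (2 * g t - a - b) + (a + b) := by ring
    have h4 : 2 * ‖g t‖ ≤ E * ‖a - b‖ + 2 := by
      have h5 : ‖2 * g t‖ = 2 * ‖g t‖ := by rw [norm_mul, Complex.norm_ofNat]
      rw [← h5, h3]
      refine (norm_add_le _ _).trans ?_
      have := norm_add_le a b
      linarith
    have h6 : E * ‖a - b‖ ≤ E * (2 * Real.pi / d) := by gcongr
    have h7 : E * (2 * Real.pi / d) = 2 * (E * Real.pi / d) := by ring
    linarith
  have hfin : ‖g t‖ ^ d ≤ Real.exp (Real.pi * E) := by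
    have h3 : 1 + E * Real.pi / d ≤ Real.exp (E * Real.pi / d) := by
      linarith [Real.add_one_le_exp (E * Real.pi / d)]
    calc ‖g t‖ ^ d ≤ Real.exp (E * Real.pi / d) ^ d :=
          pow_le_pow_left₀ (norm_nonneg _) (hgt.trans h3) d
      _ = Real.exp (Real.pi * E) := by
          rw [← Real.exp_nat_mul]
          congr 1
          field_simp
  rw [hE] at hfin
  exact hfin

end Pool.Agent.R240
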