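import Pool.Agent.H462R2.CD1
import Pool.Agent.H749R2.Hyp1

set_option autoImplicit false

/-! # The size of the hyperbolic discs about superattracting parameters -/

namespace Pool.Agent.R240.Size

open Complex Metric Set Filter Topology N62a1eb23

/-- the map -/
def g (d : ℕ) (c : ℂ) : ℂ → ℂ := fun z => z ^ d + c

theorem g_deriv (d : ℕ) (c z : ℂ) : HasDerivAt (g d c) (d * z ^ (d - 1)) z :=
  (hasDerivAt_pow d z).add_const c

theorem g_diff (d : ℕ) (c : ℂ) : Differentiable ℂ (g d c) :=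
  fun z => (g_deriv d c z).differentiableAt

theorem pow_sub_le (d : ℕ) {x y : ℂ} {ρ : ℝ} (hx : ‖x‖ ≤ ρ) (hy : ‖y‖ ≤ ρ) :
    ‖x ^ d - y ^ d‖ ≤ d * ρ ^ (d - 1) * ‖x - y‖ := by
  have hd : ∀ z ∈ closedBall (0 : ℂ) ρ, ‖deriv (fun z : ℂ => z ^ d) z‖ ≤ d * ρ ^ (d - 1) := by
    intro z hz
    rw [(hasDerivAt_pow d z).deriv, norm_mul, norm_pow, Complex.norm_natCast]
    rw [mem_closedBall_zero_iff] at hz
    gcongr
  exact (convex_closedBall (0 : ℂ) ρ).norm_image_sub_le_of_norm_deriv_le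
    (f := fun z : ℂ => z ^ d) (fun z _ => (hasDerivAt_pow d z).differentiableAt) hd
    (mem_closedBall_zero_iff.2 hy) (mem_closedBall_zero_iff.2 hx)

/-- the radius is at most `2 e ^ (1/n)` to the power `d - 1` -/
theorem pow_le {d n : ℕ} (hd : 2 ≤ d) (hn : 1 ≤ n) {y : ℝ} (hy0 : 0 ≤ y) (hy : y ^ (d - 1) ≤ 2)
    {δ : ℝ} (hδ0 : 0 ≤ δ) (hδ : δ ≤ 1 / (n * d)) : (y + δ) ^ (d - 1) ≤ 2 * Real.exp (1 / n) := by
  have hn0 : (1 : ℝ) ≤ n := by exact_mod_cast hn
  have hd0 : (2 : ℝ) ≤ d := by exact_mod_cast hd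
  obtain ⟨R, hR⟩ : ∃ R : ℝ, R = max y 1 := ⟨_, rfl⟩
  have hR1 : 1 ≤ R := by rw [hR]; exact le_max_right _ _
  have hRy : y ≤ R := by rw [hR]; exact le_max_left _ _
  have hR2 : R ^ (d - 1) ≤ 2 := by
    rw [hR]
    rcases le_total y 1 with h | h
    · rw [max_eq_right h]
      simp
    · rw [max_eq_left h]
      exact hy
  have h1 : y + δ ≤ R * (1 + 1 / (n * d)) := by
    have : 1 / ((n : ℝ) * d) ≤ R * (1 / (n * d)) := by
      have h2 : (0 : ℝ) ≤ 1 / (n * d) := by positivity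
      nlinarith
    linarith
  have h2 : (1 + 1 / ((n : ℝ) * d)) ^ (d - 1) ≤ Real.exp (1 / n) := by
    calc (1 + 1 / ((n : ℝ) * d)) ^ (d - 1) ≤ (Real.exp (1 / (n * d))) ^ (d - 1) := by
          gcongr
          have := Real.add_one_le_exp (1 / ((n : ℝ) * d))
          linarith
      _ ≤ (Real.exp (1 / (n * d))) ^ d := by
          apply pow_le_pow_right₀ (Real.one_le_exp (by positivity)) (by omega)
      _ = Real.exp (1 / n) := by
          rw [← Real.exp_nat_mul]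
          congr 1
          field_simp
  calc (y + δ) ^ (d - 1) ≤ (R * (1 + 1 / (n * d))) ^ (d - 1) := by gcongr
    _ = R ^ (d - 1) * (1 + 1 / ((n : ℝ) * d)) ^ (d - 1) := mul_pow _ _ _
    _ ≤ 2 * Real.exp (1 / n) := by gcongr

variable {d n : ℕ}

/-- orbits close to the critical orbit -/
theorem orbit_le (hd : 2 ≤ d) (hn : 1 ≤ n) {c' : ℂ}
    (hc' : ∀ j, ‖(g d c')^[j] 0‖ ^ (d - 1) ≤ 2) {c z : ℂ}
    (h : Real.exp 1 * (2 * d : ℝ) ^ (n - 1) * (‖z‖ ^ d + 2 * ‖c - c'‖) ≤ 1 / (n * d)) :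
    ∀ j, 1 ≤ j → j ≤ n → ‖(g d c)^[j] z - (g d c')^[j] 0‖ ≤
      (2 * d * Real.exp (1 / n)) ^ (j - 1) * (‖z‖ ^ d + 2 * ‖c - c'‖) - ‖c - c'‖ := by
  have hn0 : (1 : ℝ) ≤ n := by exact_mod_cast hn
  have hd0 : (2 : ℝ) ≤ d := by exact_mod_cast hd
  intro j hj
  induction j, hj using Nat.le_induction with
  | base =>
    intro _
    have h1 : (g d c)^[1] z - (g d c')^[1] 0 = z ^ d + (c - c') := by
      simp only [Function.iterate_one, g]
      rw [zero_pow (by omega)]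
      ring
    rw [h1]
    have h2 := norm_add_le (z ^ d) (c - c')
    rw [norm_pow] at h2
    simp only [Nat.sub_self, pow_zero, one_mul]
    linarith
  | succ j hj ih =>
    intro hjn
    have ih' := ih (by omega)
    have hΛ : (1 : ℝ) ≤ 2 * d * Real.exp (1 / n) := by
      have : 1 ≤ Real.exp (1 / (n : ℝ)) := Real.one_le_exp (by positivity)
      nlinarith
    have hsmall : (2 * d * Real.exp (1 / n)) ^ (j - 1) * (‖z‖ ^ d + 2 * ‖c - c'‖) ≤
        1 / (n * d) := by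
      refine le_trans ?_ h
      apply mul_le_mul_of_nonneg_right _ (by positivity)
      rw [mul_pow, mul_comm (Real.exp 1)]
      have h1 : (2 * (d : ℝ)) ^ (j - 1) ≤ (2 * d) ^ (n - 1) :=
        pow_le_pow_right₀ (by linarith) (by omega)
      have h2 : Real.exp (1 / (n : ℝ)) ^ (j - 1) ≤ Real.exp 1 := by
        rw [← Real.exp_nat_mul]
        apply Real.exp_le_exp.2
        rw [mul_one_div, div_le_one (by linarith)]
        exact_mod_cast (by omega : j - 1 ≤ n)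
      gcongr
    have hle : ‖(g d c)^[j] z - (g d c')^[j] 0‖ ≤ 1 / (n * d) := by
      have := norm_nonneg (c - c')
      linarith
    have h1 : (g d c)^[j + 1] z - (g d c')^[j + 1] 0 =
        (((g d c)^[j] z) ^ d - ((g d c')^[j] 0) ^ d) + (c - c') := by
      rw [Function.iterate_succ_apply', Function.iterate_succ_apply']
      simp only [g]
      ring
    have h2 : ‖(g d c)^[j] z‖ ≤ ‖(g d c')^[j] 0‖ + ‖(g d c)^[j] z - (g d c')^[j] 0‖ := by
      have := norm_add_le ((g d c')^[j] 0) ((g d c)^[j] z - (g d c')^[j] 0)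
      rwa [add_sub_cancel] at this
    have h3 := pow_sub_le d h2 (y := (g d c')^[j] 0) (by
      linarith [norm_nonneg ((g d c)^[j] z - (g d c')^[j] 0)])
    have h4 := pow_le hd hn (norm_nonneg _) (hc' j) (norm_nonneg _) hle
    have h5 : ‖((g d c)^[j] z) ^ d - ((g d c')^[j] 0) ^ d‖ ≤
        2 * d * Real.exp (1 / n) * ‖(g d c)^[j] z - (g d c')^[j] 0‖ := by
      refine h3.trans ?_
      apply mul_le_mul_of_nonneg_right _ (norm_nonneg _)
      nlinarith
    rw [h1]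
    refine (norm_add_le _ _).trans ?_
    have h6 : j + 1 - 1 = (j - 1) + 1 := by omega
    rw [h6, pow_succ]
    have h7 := mul_le_mul_of_nonneg_left ih' (by linarith : 0 ≤ 2 * d * Real.exp (1 / (n : ℝ)))
    have h8 : (2 : ℝ) ≤ 2 * d * Real.exp (1 / n) := by
      have : 1 ≤ Real.exp (1 / (n : ℝ)) := Real.one_le_exp (by positivity)
      nlinarith
    have h9 := mul_le_mul_of_nonneg_right h8 (norm_nonneg (c - c'))
    nlinarith

/-- the derivative of the iterate -/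
theorem deriv_le (hd : 2 ≤ d) (hn : 1 ≤ n) {c' : ℂ}
    (hc' : ∀ j, ‖(g d c')^[j] 0‖ ^ (d - 1) ≤ 2) {c z : ℂ}
    (h : Real.exp 1 * (2 * d : ℝ) ^ (n - 1) * (‖z‖ ^ d + 2 * ‖c - c'‖) ≤ 1 / (n * d)) :
    ∀ j, 1 ≤ j → j ≤ n → ‖deriv ((g d c)^[j]) z‖ ≤
      d * ‖z‖ ^ (d - 1) * (2 * d * Real.exp (1 / n)) ^ (j - 1) := by
  have hn0 : (1 : ℝ) ≤ n := by exact_mod_cast hn
  have hd0 : (2 : ℝ) ≤ d := by exact_mod_cast hd
  intro j hj
  induction j, hj using Nat.le_induction with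
  | base =>
    intro _
    rw [Function.iterate_one, (g_deriv d c z).deriv, norm_mul, norm_pow, Complex.norm_natCast]
    simp
  | succ j hj ih =>
    intro hjn
    have ih' := ih (by omega)
    have h1 := orbit_le hd hn hc' h j hj (by omega)
    have hsmall : (2 * d * Real.exp (1 / n)) ^ (j - 1) * (‖z‖ ^ d + 2 * ‖c - c'‖) ≤
        1 / (n * d) := by
      refine le_trans ?_ h
      apply mul_le_mul_of_nonneg_right _ (by positivity)
      rw [mul_pow, mul_comm (Real.exp 1)]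
      have h1 : (2 * (d : ℝ)) ^ (j - 1) ≤ (2 * d) ^ (n - 1) :=
        pow_le_pow_right₀ (by linarith) (by omega)
      have h2 : Real.exp (1 / (n : ℝ)) ^ (j - 1) ≤ Real.exp 1 := by
        rw [← Real.exp_nat_mul]
        apply Real.exp_le_exp.2
        rw [mul_one_div, div_le_one (by linarith)]
        exact_mod_cast (by omega : j - 1 ≤ n)
      gcongr
    have hle : ‖(g d c)^[j] z - (g d c')^[j] 0‖ ≤ 1 / (n * d) := by
      have := norm_nonneg (c - c')
      linarith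
    have h2 : ‖(g d c)^[j] z‖ ≤ ‖(g d c')^[j] 0‖ + ‖(g d c)^[j] z - (g d c')^[j] 0‖ := by
      have := norm_add_le ((g d c')^[j] 0) ((g d c)^[j] z - (g d c')^[j] 0)
      rwa [add_sub_cancel] at this
    have h4 := pow_le hd hn (norm_nonneg _) (hc' j) (norm_nonneg _) hle
    have h5 : deriv ((g d c)^[j + 1]) z = (d * ((g d c)^[j] z) ^ (d - 1)) * deriv ((g d c)^[j]) z := by
      rw [Function.iterate_succ']
      exact ((g_deriv d c ((g d c)^[j] z)).comp z
        (((g_diff d c).iterate j) z).hasDerivAt).deriv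
    rw [h5, norm_mul, norm_mul, norm_pow, Complex.norm_natCast]
    have h6 : j + 1 - 1 = (j - 1) + 1 := by omega
    rw [h6, pow_succ]
    have h7 : ‖(g d c)^[j] z‖ ^ (d - 1) ≤ 2 * Real.exp (1 / n) :=
      (pow_le_pow_left₀ (norm_nonneg _) h2 _).trans h4
    calc (d : ℝ) * ‖(g d c)^[j] z‖ ^ (d - 1) * ‖deriv ((g d c)^[j]) z‖
        ≤ d * (2 * Real.exp (1 / n)) *
          (d * ‖z‖ ^ (d - 1) * (2 * d * Real.exp (1 / n)) ^ (j - 1)) := by gcongr
      _ = _ := by ring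

/-- the radius -/
noncomputable def rr (d n : ℕ) : ℝ := 1 / (32 * (n * d) * (2 * d : ℝ) ^ ((n * d : ℝ) / (d - 1)))

/-- **The hyperbolic disc about a superattracting parameter.** -/
theorem disc (hd : 2 ≤ d) (hn : 1 ≤ n) {c' : ℂ} (hc' : c' ∈ multibrotSet d)
    (h0 : (g d c')^[n] 0 = 0) {c : ℂ} (hc : ‖c - c'‖ ≤ rr d n) :
    ∃ z, IsAttractingCycle (g d c) n z := by
  have hn0 : (1 : ℝ) ≤ n := by exact_mod_cast hn
  have hd0 : (2 : ℝ) ≤ d := by exact_mod_cast hd
  have hd1 : (0 : ℝ) < d - 1 := by linarith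
  have hpow : ∀ j, ‖(g d c')^[j] 0‖ ^ (d - 1) ≤ 2 := fun j =>
    Pool.Agent.H462R2.CD.pow_le_two hd hc' j
  obtain ⟨T, hT⟩ : ∃ T : ℝ, T = (2 * d : ℝ) ^ n := ⟨_, rfl⟩
  have hT0 : 0 < T := by rw [hT]; positivity
  obtain ⟨τ, hτ⟩ : ∃ τ : ℝ, τ = T ^ (-(1 / ((d : ℝ) - 1))) := ⟨_, rfl⟩
  have hτ0 : 0 < τ := by rw [hτ]; exact Real.rpow_pos_of_pos hT0 _
  have hτ1 : τ ^ (d - 1) = 1 / T := by
    rw [hτ, ← Real.rpow_natCast, ← Real.rpow_mul hT0.le, Nat.cast_sub (by omega), Nat.cast_one,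
      neg_mul, one_div_mul_cancel hd1.ne', Real.rpow_neg hT0.le, Real.rpow_one, one_div]
  obtain ⟨s, hs⟩ : ∃ s : ℝ, s = 1 / (4 * (n * d)) * τ := ⟨_, rfl⟩
  have hs0 : 0 < s := by rw [hs]; positivity
  have hnd : (2 : ℝ) ≤ n * d := by nlinarith
  have hT1 : 1 ≤ T := by
    rw [hT]
    exact one_le_pow₀ (by linarith)
  have hτle : τ ≤ 1 := by
    rw [hτ]
    apply Real.rpow_le_one_of_one_le_of_nonpos hT1
    rw [Left.neg_nonpos_iff]
    positivity
  have hs1 : s ≤ 1 / (4 * (n * d)) := by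
    rw [hs]
    exact mul_le_of_le_one_right (by positivity) hτle
  -- the power of the radius
  have hq : (1 / (4 * ((n : ℝ) * d))) ^ (d - 1) ≤ 1 / 8 := by
    have h1 : 1 / (4 * ((n : ℝ) * d)) ≤ 1 / 8 := by
      apply one_div_le_one_div_of_le (by norm_num)
      linarith
    calc (1 / (4 * ((n : ℝ) * d))) ^ (d - 1) ≤ (1 / 8) ^ (d - 1) := by gcongr
      _ ≤ (1 / 8) ^ 1 := pow_le_pow_of_le_one (by norm_num) (by norm_num) (by omega)
      _ = 1 / 8 := by norm_num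
  have hsd : s ^ (d - 1) ≤ 1 / (8 * T) := by
    rw [hs, mul_pow, hτ1]
    calc _ ≤ 1 / 8 * (1 / T) := by gcongr
      _ = _ := by field_simp
  -- the radius in parameter space
  have hrr : rr d n = s / (8 * T) := by
    unfold rr
    have h1 : (2 * d : ℝ) ^ ((n * d : ℝ) / (d - 1)) = T / τ := by
      rw [hτ, Real.rpow_neg hT0.le, div_inv_eq_mul]
      have h2 : ((n : ℝ) * d) / (d - 1) = n + n * (1 / (d - 1)) := by
        field_simp
        ring
      rw [h2, Real.rpow_add (by positivity), Real.rpow_natCast, hT]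
      congr 1
      rw [Real.rpow_mul (by positivity), Real.rpow_natCast]
    rw [h1, hs]
    field_simp
    ring
  rw [hrr] at hc
  have he : Real.exp 1 < 2.7182818286 := Real.exp_one_lt_d9
  have hT2 : (2 * d : ℝ) ^ (n - 1) = T / (2 * d) := by
    rw [hT, eq_div_iff (by positivity), ← pow_succ]
    congr 1
    omega
  have hkey : ∀ z ∈ closedBall (0 : ℂ) s,
      Real.exp 1 * (2 * d : ℝ) ^ (n - 1) * (‖z‖ ^ d + 2 * ‖c - c'‖) ≤ s := by
    intro z hz
    rw [mem_closedBall_zero_iff] at hz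
    have h1 : ‖z‖ ^ d ≤ s / (8 * T) := by
      calc ‖z‖ ^ d ≤ s ^ d := by gcongr
        _ = s * s ^ (d - 1) := by
          rw [← pow_succ']
          congr 1
          omega
        _ ≤ s * (1 / (8 * T)) := by gcongr
        _ = _ := by ring
    have h2 : ‖z‖ ^ d + 2 * ‖c - c'‖ ≤ 3 * (s / (8 * T)) := by linarith
    rw [hT2]
    calc Real.exp 1 * (T / (2 * d)) * (‖z‖ ^ d + 2 * ‖c - c'‖)
        ≤ Real.exp 1 * (T / (2 * d)) * (3 * (s / (8 * T))) := by gcongr
      _ = Real.exp 1 * (3 / 16) * (s / d) := by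
          field_simp
          ring
      _ ≤ 1 * s := by
          apply mul_le_mul
          · linarith
          · rw [div_le_iff₀ (by linarith)]
            nlinarith
          · positivity
          · norm_num
      _ = s := one_mul s
  have hcond : ∀ z ∈ closedBall (0 : ℂ) s,
      Real.exp 1 * (2 * d : ℝ) ^ (n - 1) * (‖z‖ ^ d + 2 * ‖c - c'‖) ≤ 1 / (n * d) := by
    intro z hz
    refine (hkey z hz).trans (hs1.trans ?_)
    apply one_div_le_one_div_of_le (by positivity)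
    linarith
  have hΛ : (2 * d * Real.exp (1 / n)) ^ (n - 1) ≤ Real.exp 1 * (2 * d : ℝ) ^ (n - 1) := by
    rw [mul_pow, mul_comm (Real.exp 1)]
    have h2 : Real.exp (1 / (n : ℝ)) ^ (n - 1) ≤ Real.exp 1 := by
      rw [← Real.exp_nat_mul]
      apply Real.exp_le_exp.2
      rw [mul_one_div, div_le_one (by linarith)]
      exact_mod_cast (by omega : n - 1 ≤ n)
    gcongr
  have hmaps : MapsTo ((g d c)^[n]) (closedBall 0 s) (closedBall 0 s) := by
    intro z hz
    have h1 := orbit_le hd hn hpow (hcond z hz) n hn le_rfl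
    rw [h0, sub_zero] at h1
    rw [mem_closedBall_zero_iff]
    have h2 := hkey z hz
    have h3 : (2 * d * Real.exp (1 / n)) ^ (n - 1) * (‖z‖ ^ d + 2 * ‖c - c'‖) ≤
        Real.exp 1 * (2 * d : ℝ) ^ (n - 1) * (‖z‖ ^ d + 2 * ‖c - c'‖) :=
      mul_le_mul_of_nonneg_right hΛ (by positivity)
    linarith [norm_nonneg (c - c')]
  have hder : ∀ z ∈ closedBall (0 : ℂ) s, ‖deriv ((g d c)^[n]) z‖ ≤ 1 / 2 := by
    intro z hz
    have h1 := deriv_le hd hn hpow (hcond z hz) n hn le_rfl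
    rw [mem_closedBall_zero_iff] at hz
    refine h1.trans ?_
    calc (d : ℝ) * ‖z‖ ^ (d - 1) * (2 * d * Real.exp (1 / n)) ^ (n - 1)
        ≤ d * s ^ (d - 1) * (Real.exp 1 * (2 * d : ℝ) ^ (n - 1)) := by gcongr
      _ ≤ d * (1 / (8 * T)) * (Real.exp 1 * (T / (2 * d))) := by
          rw [hT2]
          gcongr
      _ = Real.exp 1 / 16 := by
          field_simp
          ring
      _ ≤ 1 / 2 := by linarith
  obtain ⟨z, -, hz1, hz2⟩ := Pool.Agent.H749R2.Hyp.fixed_of_contr hs0.le (by norm_num)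
    (by norm_num : (1 : ℝ) / 2 < 1) ((g_diff d c).iterate n) hmaps hder
  exact ⟨z, by omega, hz1, ((g_diff d c).iterate n) z, hz2⟩

end Pool.Agent.R240.Size
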