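import Pool.Agent.R240.Close
import Pool.Agent.R240.Alm2
import Pool.Agent.R240.Size
import Pool.Agent.R240.Crit
import Pool.Agent.H548R3.MB.Eff2

set_option autoImplicit false

/-! # Separation of centres -/

namespace Pool.Agent.R240.Trans

open Complex Metric Set Filter Topology N62a1eb23
open Pool.Agent.H712R2 Pool.Agent.H713R2
open Pool.Agent.R240.Univ Pool.Agent.R240.Dpu
open Pool.Agent.H462R2.CD (F F_diff F_deriv pow_le_two)

variable {d : ℕ} {c : ℂ}

theorem centre_mem (hd : 2 ≤ d) {n : ℕ} (hn : 1 ≤ n) {a : ℂ} (h : P d n a = 0) :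
    a ∈ multibrotSet d := by
  have h1 := Pool.Agent.H548R3.MB.att_of_centre hd hn h
  exact interior_subset (Pool.Agent.R240.Alm.att_interior hd ⟨n, 0, h1⟩)

/-- exact periods -/
theorem exact (hd : 2 ≤ d) {n : ℕ} (hn : 1 ≤ n) {a : ℂ} (h : P d n a = 0) :
    ∃ N k, n = (N + 1) * k ∧ 1 ≤ k ∧ P d (N + 1) a = 0 ∧ ∀ i, 1 ≤ i → i ≤ N → P d i a ≠ 0 := by
  classical
  have hex : ∃ k, 1 ≤ k ∧ P d k a = 0 := ⟨n, hn, h⟩
  obtain ⟨p, hp⟩ : ∃ p, p = Nat.find hex := ⟨_, rfl⟩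
  have hp1 : 1 ≤ p := by rw [hp]; exact (Nat.find_spec hex).1
  have hpP : P d p a = 0 := by rw [hp]; exact (Nat.find_spec hex).2
  have hmin : ∀ i, 1 ≤ i → i < p → P d i a ≠ 0 := by
    intro i h1 h2 hcon
    rw [hp] at h2
    exact Nat.find_min hex h2 ⟨h1, hcon⟩
  have hdiv : n % p = 0 := by
    by_contra hcon
    have h2 : n % p < p := Nat.mod_lt _ (by omega)
    apply hmin (n % p) (by omega) h2
    have h3 : P d (n % p + p * (n / p)) a = P d (n % p) a := by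
      rw [P_add, P_mult hpP]
      rfl
    rw [← h3, Nat.mod_add_div, h]
  obtain ⟨N, rfl⟩ : ∃ N, p = N + 1 := ⟨p - 1, by omega⟩
  refine ⟨N, n / (N + 1), ?_, ?_, hpP, fun i h1 h2 => hmin i h1 (by omega)⟩
  · have := Nat.mod_add_div n (N + 1)
    omega
  · rcases Nat.eq_zero_or_pos (n / (N + 1)) with h1 | h1
    · have := Nat.mod_add_div n (N + 1)
      rw [h1, mul_zero] at this
      omega
    · exact h1

theorem Sm_zero (hd : 2 ≤ d) (p : ℕ) : Sm d p 0 := by
  unfold Sm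
  rw [zero_pow (by omega)]
  simp

theorem vel_succ (Φ : ℂ → ℂ) (k : ℕ) : vel d c Φ (k + 1) =
    d * P d k c ^ (d - 1) * vel d c Φ k + Φ (P d (k + 1) c) := rfl

theorem vel_mult (hd : 2 ≤ d) {p : ℕ} {a : ℂ} (h : P d p a = 0) (Φ : ℂ → ℂ) (k j : ℕ) :
    vel d a Φ (p * k + (j + 1)) = vel d a Φ (j + 1) := by
  induction j with
  | zero =>
    have h1 : P d (p * k) a = 0 := P_mult h k
    rw [zero_add]
    simp only [vel, h1, P_zero, zero_pow (show d - 1 ≠ 0 by omega), mul_zero, zero_mul, zero_add]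
    rw [P_succ, h1, zero_pow (by omega), zero_add, P_one hd]
  | succ j ih =>
    have h1 : ∀ i, P d (p * k + i) a = P d i a := by
      intro i
      rw [add_comm (p * k) i, P_add, P_mult h k]
      rfl
    rw [← add_assoc (p * k) (j + 1) 1, vel_succ, ih, h1 (j + 1), add_assoc (p * k) (j + 1) 1,
      h1 (j + 1 + 1)]
    rfl

/-- **The derivative at the centres.** -/
theorem der_centre (hd : 2 ≤ d) {n : ℕ} (hn : 1 ≤ n) {a : ℂ} (h : P d n a = 0) :
    1 ≤ 4 * AA d ^ (n - 1) * ‖deriv (P d n) a‖ := by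
  obtain ⟨N, k, h1, hk, h2, h3⟩ := exact hd hn h
  have hM := centre_mem hd hn h
  have h4 := trans0 hd hM le_rfl (Sm_zero hd (N + 1)) (by rw [h2, norm_zero]) (fun i hi hiN => by
    rw [mul_zero]
    exact norm_pos_iff.2 (h3 i hi hiN))
  rw [h2, norm_zero, zero_mul, add_zero] at h4
  have h5 : deriv (P d n) a = deriv (P d (N + 1)) a := by
    rw [(vel_one a n).deriv, (vel_one a (N + 1)).deriv]
    obtain ⟨k', rfl⟩ : ∃ k', k = k' + 1 := ⟨k - 1, by omega⟩
    have h6 : n = (N + 1) * k' + (N + 1) := by rw [h1]; ring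
    rw [h6]
    exact vel_mult hd h2 _ k' N
  rw [h5]
  refine h4.trans ?_
  have h6 : N ≤ n - 1 := by
    have : N + 1 ≤ (N + 1) * k := Nat.le_mul_of_pos_right _ hk
    omega
  have h7 : AA d ^ N ≤ AA d ^ (n - 1) := pow_le_pow_right₀ (AA_one hd) h6
  have h8 := norm_nonneg (deriv (P d (N + 1)) a)
  calc AA d ^ N * (4 * ‖deriv (P d (N + 1)) a‖) ≤ AA d ^ (n - 1) * (4 * ‖deriv (P d (N + 1)) a‖) := by
        gcongr
    _ = _ := by ring

/-- parameter Lipschitz bound -/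
theorem par_lip (hd : 2 ≤ d) {a b : ℂ} (ha : a ∈ multibrotSet d) (hb : b ∈ multibrotSet d) (j : ℕ) :
    ‖P d j a - P d j b‖ ≤ (3 * d) ^ j * ‖a - b‖ := by
  have hd0 : (2:ℝ) ≤ d := by exact_mod_cast hd
  induction j with
  | zero =>
    rw [P_zero, P_zero, sub_self, norm_zero]
    positivity
  | succ j ih =>
    rw [P_succ, P_succ]
    obtain ⟨ρ, hρ⟩ : ∃ ρ, ρ = max ‖P d j a‖ ‖P d j b‖ := ⟨_, rfl⟩
    have h1 := Pool.Agent.R240.Size.pow_sub_le d (x := P d j a) (y := P d j b) (ρ := ρ)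
      (by rw [hρ]; exact le_max_left _ _) (by rw [hρ]; exact le_max_right _ _)
    have h2 : ρ ^ (d - 1) ≤ 2 := by
      rw [hρ]
      rcases max_choice ‖P d j a‖ ‖P d j b‖ with h | h
      · rw [h]; exact pow_le_two hd ha j
      · rw [h]; exact pow_le_two hd hb j
    have h3 : (1:ℝ) ≤ (3 * d) ^ j := one_le_pow₀ (by linarith)
    have h4 := norm_nonneg (a - b)
    calc ‖P d j a ^ d + a - (P d j b ^ d + b)‖ = ‖(P d j a ^ d - P d j b ^ d) + (a - b)‖ := by
          congr 1; ring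
      _ ≤ ‖P d j a ^ d - P d j b ^ d‖ + ‖a - b‖ := norm_add_le _ _
      _ ≤ d * 2 * ((3 * d) ^ j * ‖a - b‖) + 1 * (1 * ‖a - b‖) := by
          rw [one_mul, one_mul]
          apply add_le_add _ le_rfl
          refine h1.trans ?_
          gcongr
      _ ≤ d * 2 * ((3 * d) ^ j * ‖a - b‖) + d * ((3 * d) ^ j * ‖a - b‖) := by
          gcongr
          linarith
      _ = _ := by ring

/-- following in the parameter plane -/
theorem par_follow (hd : 2 ≤ d) {a x : ℂ} (ha : a ∈ multibrotSet d) {n : ℕ}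
    (h : (16 * (d:ℝ)) ^ n * ‖x - a‖ ≤ 1 / d) {j : ℕ} (hj : j ≤ n) :
    ‖P d j x - P d j a‖ ≤ (16 * d) ^ j * ‖x - a‖ := by
  have hd0 : (2:ℝ) ≤ d := by exact_mod_cast hd
  induction j with
  | zero =>
    rw [P_zero, P_zero, sub_self, norm_zero]
    positivity
  | succ j ih =>
    have h1 := ih (by omega)
    have h2 : (16 * (d:ℝ)) ^ j * ‖x - a‖ ≤ 1 / d := by
      refine le_trans ?_ h
      gcongr
      · linarith
      · omega
    have h3 := (Pool.Agent.R240.Crit.step hd (c := a) (pow_le_two hd ha j) h1 h2).1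
    have h4 : F d a (P d j x) - F d a (P d j a) = P d j x ^ d - P d j a ^ d := by
      unfold F; ring
    rw [h4] at h3
    rw [P_succ, P_succ]
    have h5 : (1:ℝ) ≤ (16 * d) ^ j := one_le_pow₀ (by linarith)
    calc ‖P d j x ^ d + x - (P d j a ^ d + a)‖ = ‖(P d j x ^ d - P d j a ^ d) + (x - a)‖ := by
          congr 1; ring
      _ ≤ ‖P d j x ^ d - P d j a ^ d‖ + ‖x - a‖ := norm_add_le _ _
      _ ≤ 15 * d * ((16 * d) ^ j * ‖x - a‖) + 1 * (1 * ‖x - a‖) := by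
          rw [one_mul, one_mul]
          exact add_le_add h3 le_rfl
      _ ≤ 15 * d * ((16 * d) ^ j * ‖x - a‖) + d * ((16 * d) ^ j * ‖x - a‖) := by
          gcongr
          linarith
      _ = _ := by ring

/-- Two zeros of the same polynomial. -/
theorem sepA (hd : 2 ≤ d) {n : ℕ} (hn : 1 ≤ n) {a b : ℂ} (ha : P d n a = 0) (hb : P d n b = 0)
    (hab : a ≠ b) : 1 ≤ 12 * (256 * d ^ 2 * AA d) ^ n * ‖a - b‖ := by
  have hd0 : (2:ℝ) ≤ d := by exact_mod_cast hd
  have hdp : (0:ℝ) < d := by linarith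
  have hM := centre_mem hd hn ha
  have hA := AA_one hd
  have hdA : (d:ℝ) ≤ AA d := by unfold AA; nlinarith
  obtain ⟨L, hL⟩ : ∃ L : ℝ, L = (16 * d) ^ n := ⟨_, rfl⟩
  have hL1 : 1 ≤ L := by rw [hL]; exact one_le_pow₀ (by linarith)
  obtain ⟨ρ, hρ⟩ : ∃ ρ : ℝ, ρ = 1 / (d * L) := ⟨_, rfl⟩
  have hρ0 : 0 < ρ := by rw [hρ]; positivity
  have hfin : 12 * (d * (AA d ^ (n - 1) * L ^ 2)) ≤ 12 * (256 * d ^ 2 * AA d) ^ n := by
    have h1 : (256 * (d:ℝ) ^ 2 * AA d) ^ n = L ^ 2 * AA d ^ n := by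
      rw [hL, ← pow_mul, mul_comm n 2, pow_mul, ← mul_pow]
      congr 1
      ring
    have h2 : AA d ^ n = AA d ^ (n - 1) * AA d := by rw [← pow_succ, Nat.sub_add_cancel hn]
    rw [h1, h2]
    have h3 : 0 ≤ AA d ^ (n - 1) * L ^ 2 := by positivity
    nlinarith
  -- the main estimate
  have hkey : 1 ≤ 12 * (d * (AA d ^ (n - 1) * L ^ 2)) * ‖a - b‖ := by
    rcases le_or_gt ρ ‖b - a‖ with h | h
    · rw [norm_sub_rev b a, hρ, div_le_iff₀ (by positivity)] at h
      have h1 : (1:ℝ) ≤ AA d ^ (n - 1) := one_le_pow₀ hA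
      have h2 : L ≤ L ^ 2 := by nlinarith
      have h3 := norm_nonneg (a - b)
      have h4 : ‖a - b‖ * (d * L) ≤ ‖a - b‖ * (d * (AA d ^ (n - 1) * L ^ 2)) := by
        gcongr
        calc L ≤ L ^ 2 := h2
          _ = 1 * L ^ 2 := (one_mul _).symm
          _ ≤ _ := by gcongr
      nlinarith
    · have hball : b ∈ ball a ρ := by rw [mem_ball, dist_eq_norm]; exact h
      have hmaps : MapsTo (P d n) (ball a ρ) (closedBall (P d n a) (1 / d)) := by
        intro x hx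
        rw [mem_ball, dist_eq_norm, hρ, lt_div_iff₀ (by positivity)] at hx
        rw [mem_closedBall, dist_eq_norm]
        have h1 : (16 * (d:ℝ)) ^ n * ‖x - a‖ ≤ 1 / d := by
          rw [← hL, le_div_iff₀ hdp]
          nlinarith
        exact (par_follow hd hM h1 le_rfl).trans h1
      have hdiff : DifferentiableOn ℂ (P d n) (ball a ρ) := (differentiable_P d n).differentiableOn
      obtain ⟨g, hg⟩ : ∃ g, g = dslope (P d n) a := ⟨_, rfl⟩
      have hgB : ∀ z ∈ ball a ρ, ‖g z‖ ≤ L := by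
        intro z hz
        rw [hg]
        have := Complex.norm_dslope_le_div_of_mapsTo_ball hdiff hmaps hz
        refine this.trans (le_of_eq ?_)
        rw [hρ]
        field_simp
      have hgd : DifferentiableOn ℂ g (ball a ρ) := by
        rw [hg]
        exact (Complex.differentiableOn_dslope (isOpen_ball.mem_nhds (mem_ball_self hρ0))).2 hdiff
      have hga : g a = deriv (P d n) a := by rw [hg, dslope_same]
      have hgb : g b = 0 := by
        rw [hg, dslope_of_ne _ hab.symm, slope_def_module, ha, hb, sub_self, smul_zero]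
      have hgm : MapsTo g (ball a ρ) (closedBall (g a) (3 * L)) := by
        intro z hz
        rw [mem_closedBall, dist_eq_norm]
        have h1 := hgB z hz
        have h2 := hgB a (mem_ball_self hρ0)
        have h3 := norm_sub_le (g z) (g a)
        linarith
      have h1 := Complex.dist_le_div_mul_dist_of_mapsTo_ball hgd hgm hball
      rw [hgb, hga, dist_eq_norm, zero_sub, norm_neg, dist_eq_norm, norm_sub_rev b a] at h1
      have h2 := der_centre hd hn ha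
      have h3 : 3 * L / ρ = 3 * (d * L ^ 2) := by rw [hρ]; field_simp
      rw [h3] at h1
      have h4 : (0:ℝ) ≤ 4 * AA d ^ (n - 1) := by positivity
      calc (1:ℝ) ≤ 4 * AA d ^ (n - 1) * ‖deriv (P d n) a‖ := h2
        _ ≤ 4 * AA d ^ (n - 1) * (3 * (d * L ^ 2) * ‖a - b‖) := by gcongr
        _ = _ := by ring
  refine hkey.trans ?_
  gcongr

/-- Lower bound of the critical orbit at centres. -/
theorem orbit_low (hd : 2 ≤ d) {N : ℕ} {b : ℂ} (hM : b ∈ multibrotSet d) (h0 : P d (N + 1) b = 0)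
    (hne : ∀ i, 1 ≤ i → i ≤ N → P d i b ≠ 0) {i : ℕ} (hi : 1 ≤ i) (hiN : i ≤ N) :
    1 ≤ (800 * (d:ℝ)) ^ N * ‖P d i b‖ := by
  have hd0 : (2:ℝ) ≤ d := by exact_mod_cast hd
  have hnt : ∀ i, 1 ≤ i → i ≤ N → ∀ ρ, 0 < ρ → NT d b i ρ := by
    intro i h1 h2 ρ hρ
    exact nt_of hd hM (by omega : 1 ≤ N + 1) le_rfl (Sm_zero hd (N + 1)) (by rw [h0, norm_zero]) h1
      (by omega) (by rw [mul_zero]; exact norm_pos_iff.2 (hne i h1 h2)) hρ
  have h1 := prod_lower hd hne hnt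
  have hmem : i - 1 ∈ Finset.range N := by rw [Finset.mem_range]; omega
  rw [← Finset.mul_prod_erase _ _ hmem, Nat.sub_add_cancel hi] at h1
  have h2 : ∏ x ∈ (Finset.range N).erase (i - 1), ‖P d (x + 1) b‖ ^ (d - 1) ≤ 2 ^ N := by
    calc ∏ x ∈ (Finset.range N).erase (i - 1), ‖P d (x + 1) b‖ ^ (d - 1)
        ≤ ∏ _x ∈ (Finset.range N).erase (i - 1), (2:ℝ) :=
          Finset.prod_le_prod (fun _ _ => by positivity) (fun x _ => pow_le_two hd hM (x + 1))
      _ = 2 ^ ((Finset.range N).erase (i - 1)).card := by rw [Finset.prod_const]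
      _ ≤ 2 ^ N := by
          apply pow_le_pow_right₀ (by norm_num)
          rw [Finset.card_erase_of_mem hmem, Finset.card_range]
          omega
  have h3 : 1 ≤ (800 * (d:ℝ)) ^ N * ‖P d i b‖ ^ (d - 1) := by
    calc (1:ℝ) ≤ (400 * (d:ℝ)) ^ N * (‖P d i b‖ ^ (d - 1) *
          ∏ x ∈ (Finset.range N).erase (i - 1), ‖P d (x + 1) b‖ ^ (d - 1)) := h1
      _ ≤ (400 * (d:ℝ)) ^ N * (‖P d i b‖ ^ (d - 1) * 2 ^ N) := by gcongr
      _ = (400 * (d:ℝ)) ^ N * 2 ^ N * ‖P d i b‖ ^ (d - 1) := by ring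
      _ = (400 * (d:ℝ) * 2) ^ N * ‖P d i b‖ ^ (d - 1) := by rw [← mul_pow]
      _ = _ := by congr 2; ring
  have h4 : (1:ℝ) ≤ (800 * d) ^ N := one_le_pow₀ (by linarith)
  rcases le_or_gt 1 ‖P d i b‖ with h | h
  · nlinarith
  · have h5 : ‖P d i b‖ ^ (d - 1) ≤ ‖P d i b‖ ^ 1 :=
      pow_le_pow_of_le_one (norm_nonneg _) h.le (by omega)
    rw [pow_one] at h5
    refine h3.trans ?_
    gcongr

/-- **Separation of centres**, the longer period first. -/
theorem sepB (hd : 2 ≤ d) {p q : ℕ} {a b : ℂ} (hq : q + 1 ≤ p) (ha : P d p a = 0)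
    (hb : P d (q + 1) b = 0) (hne : ∀ i, 1 ≤ i → i ≤ q → P d i b ≠ 0)
    (hab : a ≠ b) : 1 ≤ 12 * (256 * d ^ 2 * AA d) ^ p * ‖a - b‖ := by
  have hd0 : (2:ℝ) ≤ d := by exact_mod_cast hd
  have hdp : (0:ℝ) < d := by linarith
  have hMa := centre_mem hd (by omega : 1 ≤ p) ha
  have hMb := centre_mem hd (by omega : 1 ≤ q + 1) hb
  have hA := AA_one hd
  have h2400 : (2400:ℝ) ≤ AA d := by unfold AA; nlinarith
  have h3 := norm_nonneg (a - b)
  rcases Nat.eq_zero_or_pos (p % (q + 1)) with h0 | h0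
  · have h1 : (q + 1) * (p / (q + 1)) = p := by
      have := Nat.mod_add_div p (q + 1)
      omega
    have h2 : P d p b = 0 := by rw [← h1]; exact P_mult hb _
    exact sepA hd (by omega) ha h2 hab
  · obtain ⟨i, hi⟩ : ∃ i, i = p % (q + 1) := ⟨_, rfl⟩
    rw [← hi] at h0
    have hiq : i < q + 1 := by rw [hi]; exact Nat.mod_lt _ (by omega)
    obtain ⟨ε, hε⟩ : ∃ ε, ε = (3 * d) ^ (q + 1) * ‖a - b‖ := ⟨_, rfl⟩
    have hε0 : 0 ≤ ε := by rw [hε]; positivity
    have hPq : ‖P d (q + 1) a‖ ≤ ε := by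
      have h1 := par_lip hd hMa hMb (q + 1)
      rw [hb, sub_zero] at h1
      rw [hε]
      exact h1
    have hbig : (256 * (d:ℝ) ^ 2 * AA d) ^ (q + 1) ≤ (256 * d ^ 2 * AA d) ^ p :=
      pow_le_pow_right₀ (by nlinarith) hq
    by_cases hs : (45 * (d:ℝ) ^ 2) ^ (q + 1) * ε ≤ 1
    · have hsm := Sm_of hd (by omega : 1 ≤ q + 1) le_rfl hε0 hs
      have h4 := Sm.ret hd hMa (by omega : 1 ≤ q + 1) hε0 hsm hPq (p / (q + 1))
      have h5 := Sm.near hd hMa hε0 hsm h4 h0 hiq.le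
      rw [← P_add, hi, Nat.mod_add_div, ha, zero_sub, norm_neg, ← hi] at h5
      have h6 := par_lip hd hMa hMb i
      have h7 : ‖P d i b‖ ≤ 2 * ε := by
        have h8 := norm_sub_norm_le (P d i b) (P d i a)
        rw [norm_sub_rev] at h8
        have h9 : ε / d ≤ ε := div_le_self hε0 (by linarith)
        have h10 : (3 * (d:ℝ)) ^ i * ‖a - b‖ ≤ ε := by
          rw [hε]
          gcongr
          linarith
        linarith
      have h8 := orbit_low hd hMb hb hne h0 (by omega)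
      calc (1:ℝ) ≤ (800 * (d:ℝ)) ^ q * ‖P d i b‖ := h8
        _ ≤ (800 * (d:ℝ)) ^ (q + 1) * (2 * ε) := by
            gcongr
            · linarith
            · omega
        _ = 2 * ((800 * (d:ℝ)) ^ (q + 1) * (3 * d) ^ (q + 1)) * ‖a - b‖ := by
            rw [hε]
            ring
        _ = 2 * (800 * d * (3 * d)) ^ (q + 1) * ‖a - b‖ := by rw [← mul_pow]
        _ ≤ 12 * (256 * d ^ 2 * AA d) ^ (q + 1) * ‖a - b‖ := by
            have : 800 * (d:ℝ) * (3 * d) ≤ 256 * d ^ 2 * AA d := by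
              nlinarith [sq_nonneg (d:ℝ), mul_le_mul_of_nonneg_left h2400 (sq_nonneg (d:ℝ))]
            gcongr
            norm_num
        _ ≤ _ := by gcongr
    · push Not at hs
      calc (1:ℝ) ≤ (45 * (d:ℝ) ^ 2) ^ (q + 1) * ε := hs.le
        _ = ((45 * (d:ℝ) ^ 2) ^ (q + 1) * (3 * d) ^ (q + 1)) * ‖a - b‖ := by
            rw [hε]
            ring
        _ = (45 * d ^ 2 * (3 * d)) ^ (q + 1) * ‖a - b‖ := by rw [← mul_pow]
        _ = 1 * (45 * d ^ 2 * (3 * d)) ^ (q + 1) * ‖a - b‖ := by rw [one_mul]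
        _ ≤ 12 * (256 * d ^ 2 * AA d) ^ (q + 1) * ‖a - b‖ := by
            have : 45 * (d:ℝ) ^ 2 * (3 * d) ≤ 256 * d ^ 2 * AA d := by
              have h4 : (d:ℝ) ≤ AA d := by unfold AA; nlinarith
              nlinarith [sq_nonneg (d:ℝ)]
            gcongr
            norm_num
        _ ≤ _ := by gcongr

/-- **Separation of centres.** -/
theorem sep (hd : 2 ≤ d) {n p q : ℕ} (hp : 1 ≤ p) (hq : 1 ≤ q) (hpn : p ≤ n) (hqn : q ≤ n) {a b : ℂ}
    (ha : P d p a = 0) (hb : P d q b = 0) (hab : a ≠ b) :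
    1 ≤ 12 * (256 * d ^ 2 * AA d) ^ n * ‖a - b‖ := by
  have hd0 : (2:ℝ) ≤ d := by exact_mod_cast hd
  have hA := AA_one hd
  have h256 : 1 ≤ 256 * (d:ℝ) ^ 2 * AA d := by nlinarith
  obtain ⟨N₁, k₁, h1, hk1, h2, h3⟩ := exact hd hp ha
  obtain ⟨N₂, k₂, h4, hk2, h5, h6⟩ := exact hd hq hb
  have e1 : N₁ + 1 ≤ n := by
    have : N₁ + 1 ≤ (N₁ + 1) * k₁ := Nat.le_mul_of_pos_right _ hk1
    omega
  have e2 : N₂ + 1 ≤ n := by
    have : N₂ + 1 ≤ (N₂ + 1) * k₂ := Nat.le_mul_of_pos_right _ hk2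
    omega
  rcases le_total N₂ N₁ with h | h
  · refine (sepB hd (by omega) h2 h5 h6 hab).trans ?_
    gcongr
  · rw [norm_sub_rev]
    refine (sepB hd (by omega) h5 h2 h3 hab.symm).trans ?_
    gcongr

end Pool.Agent.R240.Trans
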