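import Pool.Agent.R240.LL4
import Pool.Agent.R240.Slim

set_option autoImplicit false

/-! # Sparse centres at slim parameters -/

namespace Pool.Agent.R240.Sparse

open Complex Filter Topology Set Metric MeasureTheory Pool.Agent.H713R2
open N62a1eb23
open Pool.Agent.H712R2 (P)
open Pool.Agent.Y736.HD (Ang)
open Pool.Agent.Y736.RN
open Pool.Agent.R240.Loc Pool.Agent.R240.Slim

variable {d : ℕ} {ψ : ℂ → ℂ}

/-- the centres in a disc -/
def cen (d n : ℕ) (c : ℂ) (r : ℝ) : Set ℂ := {a | a ∈ ball c r ∧ P d n a = 0}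

theorem cen_eq (hd : 2 ≤ d) (N : ℕ) (c : ℂ) (r : ℝ) :
    (cen d (N + 1) c r).ncard = Pool.Agent.R240.LL.nz d N c r := by
  have h : cen d (N + 1) c r =
      (((Pool.Agent.R240.LL.ZZ d N).filter (fun a => ‖a - c‖ < r) : Finset ℂ) : Set ℂ) := by
    ext a
    rw [Finset.mem_coe, Finset.mem_filter, Pool.Agent.R240.LL.mem_ZZ hd]
    show (a ∈ ball c r ∧ P d (N + 1) a = 0) ↔ _
    rw [mem_ball, dist_eq_norm, and_comm]
  rw [h, Set.ncard_coe_finset]
  rfl

/-- number of centres from the decay of the harmonic measure -/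
theorem sparse_of (hd : 2 ≤ d) (hψ : IsExteriorMap (multibrotSet d) ψ) {c : ℂ}
    (hc : c ∈ multibrotSet d) {κ κ' : ℝ} (hκ : κ < κ')
    (h : ∀ᶠ r : ℝ in 𝓝[>] 0, (volume (Ang ψ c r)).toReal < r ^ κ') :
    ∀ᶠ r : ℝ in 𝓝[>] 0, ∀ n : ℕ, 1 ≤ n →
      ((cen d n c r).ncard : ℝ) ≤ (d:ℝ) ^ (n - 1) * r ^ κ + Pool.Agent.R240.LL.KL * n * Real.log d := by
  have hpi := Real.pi_gt_three
  have hd0 : (0:ℝ) < d := by exact_mod_cast (by omega : 0 < d)
  have h2 : Tendsto (fun r : ℝ => 2 * r) (𝓝[>] 0) (𝓝[>] 0) := by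
    apply tendsto_nhdsWithin_of_tendsto_nhds_of_eventually_within
    · have : Tendsto (fun r : ℝ => 2 * r) (𝓝 0) (𝓝 (2 * 0)) := (continuous_const.mul continuous_id).tendsto 0
      rw [mul_zero] at this
      exact this.mono_left nhdsWithin_le_nhds
    · filter_upwards [self_mem_nhdsWithin] with r hr
      have : 0 < r := hr
      show 0 < 2 * r
      linarith
  have h3 := h2.eventually h
  have h4 : ∀ᶠ r : ℝ in 𝓝[>] 0, 2 ^ κ' * r ^ (κ' - κ) < 1 := by
    have h5 : Tendsto (fun r : ℝ => 2 ^ κ' * r ^ (κ' - κ)) (𝓝[>] 0) (𝓝 (2 ^ κ' * 0)) := by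
      apply Tendsto.const_mul
      have h6 : ContinuousAt (fun r : ℝ => r ^ (κ' - κ)) 0 :=
        Real.continuousAt_rpow_const _ _ (Or.inr (by linarith))
      have h7 := h6.tendsto
      rw [Real.zero_rpow (by linarith)] at h7
      exact h7.mono_left nhdsWithin_le_nhds
    rw [mul_zero] at h5
    exact h5.eventually (gt_mem_nhds one_pos)
  filter_upwards [h3, h4, self_mem_nhdsWithin] with r h5 h6 hr n hn
  have hr0 : 0 < r := hr
  obtain ⟨N, rfl⟩ : ∃ N, n = N + 1 := ⟨n - 1, by omega⟩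
  have h7 := (Pool.Agent.R240.LL.law hd hψ hc N hr0 one_pos le_rfl).1
  rw [cen_eq hd, Nat.add_sub_cancel]
  rw [div_one, show (1 + 1) * r = 2 * r by ring] at h7
  refine h7.trans ?_
  gcongr
  calc (volume (Ang ψ c (2 * r))).toReal / (2 * Real.pi) ≤ (2 * r) ^ κ' / 1 := by
        gcongr
        linarith
    _ = 2 ^ κ' * r ^ κ' := by rw [div_one, Real.mul_rpow (by norm_num) hr0.le]
    _ = (2 ^ κ' * r ^ (κ' - κ)) * r ^ κ := by
        rw [mul_assoc, ← Real.rpow_add hr0]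
        congr 2
        ring
    _ ≤ 1 * r ^ κ := by gcongr
    _ = r ^ κ := one_mul _

/-- few centres near the parameter, for every period of renormalization -/
def SparseAt (d : ℕ) (K : ℝ) (c : ℂ) : Prop :=
  ∀ q : ℕ, 1 ≤ q → (q = 1 ∨ Ren d c q) → ∀ κ : ℝ, 0 < κ → κ < q →
    ∀ᶠ r : ℝ in 𝓝[>] 0, ∀ n : ℕ, 1 ≤ n →
      ((cen d n c r).ncard : ℝ) ≤ (d:ℝ) ^ (n - 1) * r ^ κ + K * n * Real.log d

theorem sparse_slim (hd : 2 ≤ d) (hψ : IsExteriorMap (multibrotSet d) ψ) {c : ℂ}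
    (hc : c ∈ multibrotSet d) (h : SlimAt' d ψ c) : SparseAt d Pool.Agent.R240.LL.KL c := by
  intro q hq hr κ hκ0 hκ
  obtain ⟨κ', h1, h2⟩ := exists_between hκ
  exact sparse_of hd hψ hc h1 (((h q hq hr).1 κ' (hκ0.trans h1) h2).mono fun r hr => hr.1)

/-- **Spreading to sparse parameters.** -/
theorem spread (hd : 2 ≤ d) {p₀ : ℂ} (h : ¬ CIK (multibrotSet d) p₀) :
    ∃ ε : ℝ, 0 < ε ∧ ∀ᵐ s : ℝ, 0 < s → s < ε →
      ∃ c ∈ frontier (multibrotSet d), dist c p₀ = s ∧ SparseAt d Pool.Agent.R240.LL.KL c ∧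
        ¬ CIK (multibrotSet d) c := by
  obtain ⟨β, hβ⟩ := exists_beta (d := d) hd
  have hψ := exteriorMap_of_beta hβ
  obtain ⟨ε, hε, h1⟩ := Pool.Agent.R240.Slim.main hd hψ h
  refine ⟨ε, hε, ?_⟩
  filter_upwards [h1] with s hs hs0 hsε
  obtain ⟨c, hc, h3, h4, h5⟩ := hs hs0 hsε
  exact ⟨c, ⟨subset_closure hc, fun hi => h5 (cik_interior hi)⟩, h3,
    sparse_slim hd hψ hc (slim' hd hc h4), h5⟩

/-- local connectivity at one point is decided at the sparse parameters nearby -/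
theorem local_iff (hd : 2 ≤ d) {p : ℂ} {ε : ℝ} (hε : 0 < ε)
    (h : ∀ c ∈ frontier (multibrotSet d), c ≠ p → dist c p < ε →
      SparseAt d Pool.Agent.R240.LL.KL c → CIK (multibrotSet d) c) : CIK (multibrotSet d) p := by
  by_contra hcon
  obtain ⟨ε', hε', h1⟩ := spread hd hcon
  have h3 : ∃ s : ℝ, s ∈ Ioo 0 (min ε ε') ∧ (0 < s → s < ε' →
      ∃ c ∈ frontier (multibrotSet d), dist c p = s ∧ SparseAt d Pool.Agent.R240.LL.KL c ∧
        ¬ CIK (multibrotSet d) c) := by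
    by_contra h4
    push Not at h4
    have h5 : volume (Ioo 0 (min ε ε')) = 0 := by
      apply measure_mono_null _ h1
      intro s hs hcon
      obtain ⟨h6, h7, h8⟩ := h4 s hs
      obtain ⟨c, hc1, hc2, hc3, hc4⟩ := hcon h6 h7
      exact hc4 (h8 c hc1 hc2 hc3)
    rw [Real.volume_Ioo, ENNReal.ofReal_eq_zero] at h5
    have := lt_min hε hε'
    linarith
  obtain ⟨s, hs, h4⟩ := h3
  obtain ⟨c, hc1, hcs, hc3, hc4⟩ := h4 hs.1 (hs.2.trans_le (min_le_right _ _))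
  refine hc4 (h c hc1 ?_ ?_ hc3)
  · rintro rfl
    rw [dist_self] at hcs
    linarith [hs.1]
  · rw [hcs]
    exact hs.2.trans_le (min_le_left _ _)

end Pool.Agent.R240.Sparse
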