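import Pool.Agent.R240.Univ
import Pool.Agent.R240.Mass

set_option autoImplicit false

/-! # Universal transversality: the inequality for the critical orbit -/

namespace Pool.Agent.R240.Univ

open Complex Metric Set Filter Topology MeasureTheory ENNReal N62a1eb23
open Pool.Agent.H712R2 Pool.Agent.H713R2 Pool.Agent.R240.Push

/-- The velocity of the critical orbit in the direction `Φ`: the derivative at `t = 0` of the
`k`-th iterate of `0` under `(id + t Φ) ∘ f`. -/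
noncomputable def vel (d : ℕ) (c : ℂ) (Φ : ℂ → ℂ) : ℕ → ℂ
  | 0 => 0
  | k + 1 => d * P d k c ^ (d - 1) * vel d c Φ k + Φ (P d (k + 1) c)

theorem vel_one {d : ℕ} (c : ℂ) (k : ℕ) : HasDerivAt (P d k) (vel d c (fun _ => 1) k) c := by
  induction k with
  | zero => exact hasDerivAt_const c 0
  | succ k ih =>
    have h1 : P d (k + 1) = fun x => P d k x ^ d + x := by
      funext x
      exact P_succ d k x
    rw [h1]
    exact (ih.fun_pow d).fun_add (hasDerivAt_id' c)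

theorem vel_eq {d : ℕ} (hd : 2 ≤ d) {c : ℂ} (Φ : ℂ → ℂ) {N : ℕ}
    (h : ∀ m, 1 ≤ m → m ≤ N → P d m c ≠ 0) :
    vel d c Φ (N + 1) = DD d c N * ∑ k ∈ Finset.range (N + 1), (DD d c k)⁻¹ * Φ (zz d c k) := by
  induction N with
  | zero =>
    simp only [vel, zero_add, Finset.sum_range_one, DD_zero, inv_one, one_mul, mul_zero]
    rfl
  | succ N ih =>
    have h1 := ih fun m hm hm' => h m hm (by omega)
    rw [vel, h1, Finset.sum_range_succ _ (N + 1), mul_add]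
    have h2 := DD_ne hd h (k := N + 1) le_rfl
    rw [mul_inv_cancel_left₀ h2, DD_succ]
    have h3 : Φ (P d (N + 1 + 1) c) = Φ (zz d c (N + 1)) := rfl
    rw [h3]
    ring

theorem log24 : Real.log 24 ≤ 4 := by
  rw [Real.log_le_iff_le_exp (by norm_num)]
  have h1 : Real.exp 4 = Real.exp 1 ^ 4 := by rw [← Real.exp_nat_mul]; norm_num
  rw [h1]
  have h2 : (2.7 : ℝ) ≤ Real.exp 1 := by
    have := Real.exp_one_gt_d9
    linarith
  calc (24 : ℝ) ≤ 2.7 ^ 4 := by norm_num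
    _ ≤ _ := by gcongr

theorem univ_sum {d : ℕ} (hd : 2 ≤ d) {c : ℂ} (hc : c ∈ multibrotSet d) {N : ℕ}
    (h : ∀ m, 1 ≤ m → m ≤ N → P d m c ≠ 0) {Φ : ℂ → ℂ} {M : ℝ}
    (hΦ : DifferentiableOn ℂ Φ (ball 0 4)) (hM : ∀ x ∈ ball (0:ℂ) 4, ‖Φ x‖ ≤ M) :
    ‖∑ k ∈ Finset.range (N + 1), (DD d c k)⁻¹ * Φ (zz d c k)‖ ≤
      M * (4 * ‖∑ k ∈ Finset.range (N + 1), (DD d c k)⁻¹‖ +
        ‖(DD d c N)⁻¹‖ * (‖zz d c N‖ * (2 + |Real.log ‖zz d c N‖|))) := by
  have hd0 : (0:ℝ) < d := by exact_mod_cast (by omega : 0 < d)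
  have hd2 : (2:ℝ) ≤ d := by exact_mod_cast hd
  have hpi := Real.pi_pos
  have hM0 : 0 ≤ M := (norm_nonneg _).trans (hM 0 (mem_ball_self (by norm_num)))
  obtain ⟨S, hS⟩ : ∃ S, S = ∑ k ∈ Finset.range (N + 1), (DD d c k)⁻¹ := ⟨_, rfl⟩
  obtain ⟨w, hw⟩ : ∃ w, w = zz d c N := ⟨_, rfl⟩
  have hw4 : ‖w‖ ^ d ≤ 4 := by rw [hw]; exact Pool.Agent.R240.pow_le_four hd hc (N + 1)
  have h1 := resid (n := N + 1) (ρ := fun k => (DD d c k)⁻¹) (z := zz d c)
    (fun k _ => norm_P_le hd hc (k + 1)) hΦ hM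
  have h2 := ann_bound hd hc h
  rw [← hS, ← hw] at h2
  rw [← hS, ← hw]
  obtain ⟨T, hT⟩ : ∃ T, T = ∑ k ∈ Finset.range (N + 1), (DD d c k)⁻¹ * Φ (zz d c k) := ⟨_, rfl⟩
  rw [← hT] at h1 ⊢
  obtain ⟨ρ, hρ⟩ : ∃ ρ, ρ = ‖(DD d c N)⁻¹‖ := ⟨_, rfl⟩
  have hρ0 : 0 ≤ ρ := by rw [hρ]; exact norm_nonneg _
  rw [norm_mul, ← hρ] at h2
  rw [← hρ]
  obtain ⟨B, hB⟩ : ∃ B : ℝ, B = ρ * ‖w‖ / d *
    (4 * Real.pi + 2 * Real.pi * Real.log (24 / ‖w‖ ^ d)) := ⟨_, rfl⟩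
  rw [← hB] at h2
  have hBle : B ≤ 3 * Real.pi * (ρ * (‖w‖ * (2 + |Real.log ‖w‖|))) ∧ 0 ≤ B := by
    rcases eq_or_ne w 0 with rfl | hw0
    · rw [hB, norm_zero, mul_zero, zero_div, zero_mul, zero_mul, mul_zero, mul_zero]
      exact ⟨le_rfl, le_rfl⟩
    · have hwn : 0 < ‖w‖ := norm_pos_iff.2 hw0
      have hl : Real.log (24 / ‖w‖ ^ d) = Real.log 24 - d * Real.log ‖w‖ := by
        rw [Real.log_div (by norm_num) (by positivity), Real.log_pow]
      have hl0 : 0 ≤ Real.log (24 / ‖w‖ ^ d) := by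
        apply Real.log_nonneg
        rw [le_div_iff₀ (by positivity)]
        linarith
      constructor
      · rw [hB]
        have h3 : Real.log (24 / ‖w‖ ^ d) ≤ 4 + d * |Real.log ‖w‖| := by
          rw [hl]
          have := log24
          have h4 := neg_abs_le (Real.log ‖w‖)
          nlinarith
        calc ρ * ‖w‖ / d * (4 * Real.pi + 2 * Real.pi * Real.log (24 / ‖w‖ ^ d))
            ≤ ρ * ‖w‖ / d * (4 * Real.pi + 2 * Real.pi * (4 + d * |Real.log ‖w‖|)) := by gcongr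
          _ = Real.pi * (ρ * ‖w‖) * (12 / d + 2 * |Real.log ‖w‖|) := by field_simp; ring
          _ ≤ Real.pi * (ρ * ‖w‖) * (6 + 3 * |Real.log ‖w‖|) := by
              have h5 : 12 / (d:ℝ) ≤ 6 := by
                rw [div_le_iff₀ hd0]
                linarith
              have h6 := abs_nonneg (Real.log ‖w‖)
              gcongr
              linarith
          _ = _ := by ring
      · rw [hB]
        positivity
  have h3 : ENNReal.ofReal (3 * Real.pi * ‖T‖) ≤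
      ENNReal.ofReal (M * (12 * Real.pi * ‖S‖ + B)) := by
    rw [ENNReal.ofReal_mul hM0, ENNReal.ofReal_add (by positivity) hBle.2]
    exact h1.trans (by gcongr)
  rw [ENNReal.ofReal_le_ofReal_iff (by have := hBle.2; positivity)] at h3
  have h4 : 3 * Real.pi * ‖T‖ ≤ 3 * Real.pi * (M * (4 * ‖S‖ + ρ * (‖w‖ * (2 + |Real.log ‖w‖|)))) := by
    calc 3 * Real.pi * ‖T‖ ≤ M * (12 * Real.pi * ‖S‖ + B) := h3
      _ ≤ M * (12 * Real.pi * ‖S‖ + 3 * Real.pi * (ρ * (‖w‖ * (2 + |Real.log ‖w‖|)))) := by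
          gcongr
          exact hBle.1
      _ = _ := by ring
  exact le_of_mul_le_mul_left h4 (by positivity)

/-- **Universal transversality**, along orbits which do not return exactly. -/
theorem univ_ne {d : ℕ} (hd : 2 ≤ d) {c : ℂ} (hc : c ∈ multibrotSet d) {N : ℕ}
    (h : ∀ m, 1 ≤ m → m ≤ N → P d m c ≠ 0) {Φ : ℂ → ℂ} {M : ℝ}
    (hΦ : DifferentiableOn ℂ Φ (ball 0 4)) (hM : ∀ x ∈ ball (0:ℂ) 4, ‖Φ x‖ ≤ M) :
    ‖vel d c Φ (N + 1)‖ ≤ M * (4 * ‖vel d c (fun _ => 1) (N + 1)‖ +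
      ‖P d (N + 1) c‖ * (2 + |Real.log ‖P d (N + 1) c‖|)) := by
  have h1 := univ_sum hd hc h hΦ hM
  have h2 := DD_ne hd h (k := N) le_rfl
  rw [vel_eq hd Φ h, vel_eq hd (fun _ => 1) h, norm_mul, norm_mul]
  simp only [mul_one]
  have h3 : P d (N + 1) c = zz d c N := rfl
  rw [h3]
  calc ‖DD d c N‖ * ‖∑ k ∈ Finset.range (N + 1), (DD d c k)⁻¹ * Φ (zz d c k)‖
      ≤ ‖DD d c N‖ * (M * (4 * ‖∑ k ∈ Finset.range (N + 1), (DD d c k)⁻¹‖ +
        ‖(DD d c N)⁻¹‖ * (‖zz d c N‖ * (2 + |Real.log ‖zz d c N‖|)))) := by gcongr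
    _ = _ := by
        rw [norm_inv]
        have : ‖DD d c N‖ ≠ 0 := norm_ne_zero_iff.2 h2
        field_simp

end Pool.Agent.R240.Univ
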