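import Pool.Agent.R240.Dpu2
import Pool.Agent.R240.Univ2

set_option autoImplicit false

/-! # Uniform transversality of the first close return -/

namespace Pool.Agent.R240.Trans

open Complex Metric Set Filter Topology N62a1eb23
open Pool.Agent.H712R2 Pool.Agent.H713R2
open Pool.Agent.R240.Univ Pool.Agent.R240.Dpu

variable {d : ℕ} {c : ℂ}

/-- the transversality base -/
noncomputable def AA (d : ℕ) : ℝ := 384000000 * (d:ℝ) ^ 2

theorem AA_one (hd : 2 ≤ d) : 1 ≤ AA d := by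
  have hd0 : (2:ℝ) ≤ d := by exact_mod_cast hd
  unfold AA
  nlinarith

/-- the testing function -/
noncomputable def Ph (d : ℕ) (c : ℂ) (N : ℕ) (x : ℂ) : ℂ :=
  ∏ i ∈ Finset.range N, (x - zz d c (i + 1)) / (c - zz d c (i + 1))

theorem c_sub (d : ℕ) (c : ℂ) (i : ℕ) : c - zz d c (i + 1) = -(P d (i + 1) c ^ d) := by
  unfold zz
  rw [P_succ]
  ring

theorem Ph_diff (d : ℕ) (c : ℂ) (N : ℕ) : Differentiable ℂ (Ph d c N) := by
  unfold Ph
  fun_prop

theorem Ph_bound (hd : 2 ≤ d) (hc : c ∈ multibrotSet d) (N : ℕ) {x : ℂ} (hx : x ∈ ball (0:ℂ) 4) :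
    ‖Ph d c N x‖ ≤ 6 ^ N / (∏ i ∈ Finset.range N, ‖P d (i + 1) c‖) ^ d := by
  unfold Ph
  rw [norm_prod, ← Finset.prod_pow]
  have h6 : (6:ℝ) ^ N = ∏ _i ∈ Finset.range N, (6:ℝ) := by simp
  rw [h6, ← Finset.prod_div_distrib]
  apply Finset.prod_le_prod (fun _ _ => norm_nonneg _)
  intro i _
  rw [norm_div, c_sub, norm_neg, norm_pow]
  have h1 : ‖x - zz d c (i + 1)‖ ≤ 6 := by
    have h2 := norm_sub_le x (zz d c (i + 1))
    have h3 : ‖zz d c (i + 1)‖ ≤ 2 := norm_P_le hd hc _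
    rw [mem_ball_zero_iff] at hx
    linarith
  gcongr

/-- **Uniform transversality at the first close return.** -/
theorem trans0 (hd : 2 ≤ d) (hc : c ∈ multibrotSet d) {N : ℕ} {ε : ℝ} (hε0 : 0 ≤ ε)
    (h : Sm d (N + 1) ε) (hP : ‖P d (N + 1) c‖ ≤ ε)
    (hPi : ∀ i, 1 ≤ i → i ≤ N → 2 * ε < ‖P d i c‖) :
    1 ≤ AA d ^ N * (4 * ‖deriv (P d (N + 1)) c‖ +
      ‖P d (N + 1) c‖ * (2 + |Real.log ‖P d (N + 1) c‖|)) := by
  have hd0 : (2:ℝ) ≤ d := by exact_mod_cast hd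
  have hdp : (0:ℝ) < d := by linarith
  have hne : ∀ m, 1 ≤ m → m ≤ N → P d m c ≠ 0 := by
    intro m h1 h2 h3
    have := hPi m h1 h2
    rw [h3, norm_zero] at this
    linarith
  have hnt : ∀ i, 1 ≤ i → i ≤ N → ∀ ρ, 0 < ρ → NT d c i ρ := by
    intro i h1 h2 ρ hρ
    exact nt_of hd hc (by omega) hε0 h hP h1 (by omega) (hPi i h1 h2) hρ
  have h1 := prod_lower hd hne hnt
  rw [Finset.prod_pow] at h1
  obtain ⟨Q, hQ⟩ : ∃ Q, Q = ∏ i ∈ Finset.range N, ‖P d (i + 1) c‖ := ⟨_, rfl⟩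
  rw [← hQ] at h1
  have hQ0 : 0 < Q := by
    rw [hQ]
    apply Finset.prod_pos
    intro i hi
    rw [Finset.mem_range] at hi
    exact norm_pos_iff.2 (hne (i + 1) (by omega) (by omega))
  have hκ : (1:ℝ) ≤ (400 * d) ^ N := one_le_pow₀ (by linarith)
  have h2 : 1 ≤ (400 * (d:ℝ)) ^ N * Q := by
    rcases le_or_gt 1 Q with h3 | h3
    · nlinarith
    · have h4 : Q ^ (d - 1) ≤ Q ^ 1 := pow_le_pow_of_le_one hQ0.le h3.le (by omega)
      rw [pow_one] at h4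
      refine h1.trans ?_
      gcongr
  -- the testing function
  have h3 := univ_ne hd hc hne (Φ := Ph d c N) (Ph_diff d c N).differentiableOn
    (fun x hx => Ph_bound hd hc N hx)
  rw [← hQ, (vel_one c (N + 1)).deriv.symm] at h3
  have h4 : vel d c (Ph d c N) (N + 1) = DD d c N := by
    rw [vel_eq hd _ hne, Finset.sum_range_succ']
    have h5 : ∀ k ∈ Finset.range N, (DD d c (k + 1))⁻¹ * Ph d c N (zz d c (k + 1)) = 0 := by
      intro k hk
      have : Ph d c N (zz d c (k + 1)) = 0 := by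
        unfold Ph
        apply Finset.prod_eq_zero hk
        rw [sub_self, zero_div]
      rw [this, mul_zero]
    rw [Finset.sum_eq_zero h5, DD_zero]
    have h6 : Ph d c N (zz d c 0) = 1 := by
      unfold Ph
      apply Finset.prod_eq_one
      intro i hi
      rw [Finset.mem_range] at hi
      have h7 : zz d c 0 = c := by
        unfold zz
        rw [zero_add, P_one (by omega)]
      rw [h7]
      apply div_self
      rw [c_sub, neg_ne_zero]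
      exact pow_ne_zero _ (hne (i + 1) (by omega) (by omega))
    rw [h6]
    simp
  have h5 : ‖DD d c N‖ = d ^ N * Q ^ (d - 1) := by
    unfold DD
    rw [norm_prod, hQ, ← Finset.prod_pow]
    have h6 : (d:ℝ) ^ N = ∏ _i ∈ Finset.range N, (d:ℝ) := by simp
    rw [h6, ← Finset.prod_mul_distrib]
    apply Finset.prod_congr rfl
    intro i _
    rw [norm_mul, norm_pow, Complex.norm_natCast]
  rw [h4, h5] at h3
  obtain ⟨X, hX⟩ : ∃ X, X = 4 * ‖deriv (P d (N + 1)) c‖ +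
      ‖P d (N + 1) c‖ * (2 + |Real.log ‖P d (N + 1) c‖|) := ⟨_, rfl⟩
  rw [← hX] at h3 ⊢
  rw [div_mul_eq_mul_div, le_div_iff₀ (by positivity)] at h3
  have h6 : AA d ^ N * d ^ N = (400 * d) ^ N * (400 * d) ^ N * (400 * d) ^ N * 6 ^ N := by
    rw [← mul_pow, ← mul_pow, ← mul_pow, ← mul_pow]
    congr 1
    unfold AA
    ring
  have h7 : Q ^ d = Q ^ (d - 1) * Q := by rw [← pow_succ, Nat.sub_add_cancel (by omega)]
  have h8 : 1 ≤ ((400 * (d:ℝ)) ^ N * Q ^ (d - 1)) * (((400 * (d:ℝ)) ^ N * Q ^ (d - 1)) *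
      ((400 * (d:ℝ)) ^ N * Q)) := one_le_mul_of_one_le_of_one_le h1 (one_le_mul_of_one_le_of_one_le h1 h2)
  have hdN : (0:ℝ) < d ^ N := by positivity
  have h9 : (d:ℝ) ^ N * 1 ≤ d ^ N * (AA d ^ N * X) := by
    calc (d:ℝ) ^ N * 1 ≤ d ^ N * (((400 * (d:ℝ)) ^ N * Q ^ (d - 1)) * (((400 * (d:ℝ)) ^ N *
          Q ^ (d - 1)) * ((400 * (d:ℝ)) ^ N * Q))) := by gcongr
      _ = ((400 * d) ^ N * (400 * d) ^ N * (400 * d) ^ N) * (d ^ N * Q ^ (d - 1) * Q ^ d) := by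
          rw [h7]; ring
      _ ≤ ((400 * d) ^ N * (400 * d) ^ N * (400 * d) ^ N) * (6 ^ N * X) := by gcongr
      _ = (AA d ^ N * d ^ N) * X := by rw [h6]; ring
      _ = _ := by ring
  exact le_of_mul_le_mul_left h9 hdN

/-- The error term. -/
theorem xlog_le {x : ℝ} (hx0 : 0 ≤ x) (hx1 : x ≤ 1) : x * (2 + |Real.log x|) ≤ 2 * √x := by
  rcases hx0.eq_or_lt with rfl | hx
  · simp
  · have h1 : |Real.log x| = -Real.log x := abs_of_nonpos (Real.log_nonpos hx.le hx1)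
    have hs : 0 < √x := Real.sqrt_pos.2 hx
    have hs2 : √x * √x = x := Real.mul_self_sqrt hx.le
    have h2 : -Real.log x = 2 * Real.log (√x)⁻¹ := by
      rw [Real.log_inv, Real.log_sqrt hx.le]
      ring
    have h3 : Real.log (√x)⁻¹ ≤ (√x)⁻¹ - 1 := Real.log_le_sub_one_of_pos (by positivity)
    rw [h1, h2]
    calc x * (2 + 2 * Real.log (√x)⁻¹) ≤ x * (2 + 2 * ((√x)⁻¹ - 1)) := by gcongr
      _ = 2 * (x * (√x)⁻¹) := by ring
      _ = 2 * √x := by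
          congr 1
          nth_rewrite 1 [← hs2]
          field_simp

/-- **Lower bound of the derivative at the first close return.** -/
theorem trans1 (hd : 2 ≤ d) (hc : c ∈ multibrotSet d) {N : ℕ} {ε : ℝ} (hε0 : 0 ≤ ε)
    (h : Sm d (N + 1) ε) (hP : ‖P d (N + 1) c‖ ≤ ε)
    (hPi : ∀ i, 1 ≤ i → i ≤ N → 2 * ε < ‖P d i c‖)
    (hP2 : 16 * (AA d ^ N) ^ 2 * ‖P d (N + 1) c‖ ≤ 1) :
    1 ≤ 8 * AA d ^ N * ‖deriv (P d (N + 1)) c‖ := by
  have h1 := trans0 hd hc hε0 h hP hPi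
  have hA : 1 ≤ AA d ^ N := one_le_pow₀ (AA_one hd)
  obtain ⟨x, hx⟩ : ∃ x, x = ‖P d (N + 1) c‖ := ⟨_, rfl⟩
  have hx0 : 0 ≤ x := by rw [hx]; exact norm_nonneg _
  obtain ⟨A, hAe⟩ : ∃ A, A = AA d ^ N := ⟨_, rfl⟩
  rw [← hx, ← hAe] at h1 hP2
  rw [← hAe] at hA ⊢
  have hx1 : x ≤ 1 := by nlinarith
  have h2 := xlog_le hx0 hx1
  have h3 : A * (2 * √x) ≤ 1 / 2 := by
    have h4 : (4 * A * √x) ^ 2 ≤ 1 ^ 2 := by
      rw [mul_pow, mul_pow, Real.sq_sqrt hx0]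
      linarith
    have h5 : 4 * A * √x ≤ 1 := by
      apply le_of_sq_le_sq h4 (by norm_num) |>.trans le_rfl
    linarith
  have h4 : A * (x * (2 + |Real.log x|)) ≤ 1 / 2 := by
    refine le_trans ?_ h3
    gcongr
  nlinarith [norm_nonneg (deriv (P d (N + 1)) c)]

end Pool.Agent.R240.Trans
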