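import Pool.Agent.R240.Univ2
import Pool.Agent.R240.Growth

set_option autoImplicit false

/-! # Universal transversality: all parameters of the Multibrot set -/

namespace Pool.Agent.R240.Univ

open Complex Metric Set Filter Topology MeasureTheory ENNReal N62a1eb23
open Pool.Agent.H712R2 Pool.Agent.H713R2 Pool.Agent.R240.Push

theorem zeros_finite {d : ℕ} (hd : 2 ≤ d) (N : ℕ) : {x : ℂ | P d (N + 1) x = 0}.Finite := by
  refine (Cen_finite hd N 0 3).subset ?_
  intro x hx
  refine ⟨?_, hx⟩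
  have hM : x ∈ multibrotSet d := by
    rw [mem_multibrot_iff hd]
    by_contra hcon
    push Not at hcon
    obtain ⟨k, hk⟩ := hcon
    have hgr : ∀ j, 2 < ‖P d (k + j) x‖ := by
      intro j
      induction j with
      | zero => exact hk
      | succ j ih =>
        rw [← add_assoc, P_succ]
        have hx0 : ‖x‖ ≤ ‖P d (k + j) x‖ := by
          by_contra hlt
          push Not at hlt
          have hx2 : 2 < ‖x‖ := ih.trans hlt
          have hesc : ∀ i, ‖x‖ ≤ ‖P d (i + 1) x‖ := by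
            intro i
            induction i with
            | zero => rw [zero_add, P_one hd]
            | succ i ih2 =>
              rw [P_succ]
              have h1 : ‖P d (i + 1) x‖ ^ 2 ≤ ‖P d (i + 1) x‖ ^ d :=
                pow_le_pow_right₀ (by linarith) hd
              have h2 : ‖P d (i + 1) x ^ d‖ ≤ ‖P d (i + 1) x ^ d + x‖ + ‖x‖ := by
                calc ‖P d (i + 1) x ^ d‖ = ‖(P d (i + 1) x ^ d + x) - x‖ := by congr 1; ring
                  _ ≤ _ := norm_sub_le _ _
              rw [norm_pow] at h2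
              nlinarith
          have := hesc N
          rw [hx, norm_zero] at this
          linarith
        have h1 : ‖P d (k + j) x‖ ^ 2 ≤ ‖P d (k + j) x‖ ^ d :=
          pow_le_pow_right₀ (by linarith) hd
        have h2 : ‖P d (k + j) x ^ d‖ ≤ ‖P d (k + j) x ^ d + x‖ + ‖x‖ := by
          calc ‖P d (k + j) x ^ d‖ = ‖(P d (k + j) x ^ d + x) - x‖ := by congr 1; ring
            _ ≤ _ := norm_sub_le _ _
        rw [norm_pow] at h2
        nlinarith
    have hper : ∀ j, P d ((N + 1) + j) x = P d j x := by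
      intro j
      induction j with
      | zero => exact hx
      | succ j ih => rw [← add_assoc, P_succ, ih, P_succ]
    have h3 : ∀ i j, P d ((N + 1) * i + j) x = P d j x := by
      intro i
      induction i with
      | zero => intro j; rw [mul_zero, zero_add]
      | succ i ih => intro j; rw [Nat.mul_succ, add_assoc, ih, hper]
    have h4 := h3 k 0
    rw [add_zero, P_zero] at h4
    have h5 : k ≤ (N + 1) * k := Nat.le_mul_of_pos_left k (by omega)
    have h6 := hgr ((N + 1) * k - k)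
    rw [Nat.add_sub_cancel' h5, h4, norm_zero] at h6
    linarith
  rw [mem_ball_zero_iff]
  have := norm_c_le hd hM
  linarith

theorem vel_cont {d : ℕ} {c₀ : ℂ} {Φ : ℂ → ℂ} (hΦ : ContinuousOn Φ (ball 0 4))
    (h2 : ∀ k, ‖P d k c₀‖ ≤ 2) (k : ℕ) : ContinuousAt (fun c => vel d c Φ k) c₀ := by
  induction k with
  | zero => exact continuousAt_const
  | succ k ih =>
    unfold vel
    apply ContinuousAt.add
    · apply ContinuousAt.mul _ ih
      exact (continuousAt_const.mul ((differentiable_P d k).continuous.continuousAt.pow _))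
    · have h3 : ContinuousAt Φ (P d (k + 1) c₀) := by
        apply hΦ.continuousAt
        apply isOpen_ball.mem_nhds
        rw [mem_ball_zero_iff]
        have := h2 (k + 1)
        linarith
      exact ContinuousAt.comp (f := P d (k + 1)) h3
        (differentiable_P d (k + 1)).continuous.continuousAt

/-- **Universal transversality.** -/
theorem univ {d : ℕ} (hd : 2 ≤ d) {c : ℂ} (hc : c ∈ multibrotSet d) (n : ℕ) {Φ : ℂ → ℂ} {M : ℝ}
    (hΦ : DifferentiableOn ℂ Φ (ball 0 4)) (hM : ∀ x ∈ ball (0:ℂ) 4, ‖Φ x‖ ≤ M) :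
    ‖vel d c Φ n‖ ≤ M * (4 * ‖vel d c (fun _ => 1) n‖ +
      ‖P d n c‖ * (2 + |Real.log ‖P d n c‖|)) := by
  have hM0 : 0 ≤ M := (norm_nonneg _).trans (hM 0 (mem_ball_self (by norm_num)))
  rcases Nat.eq_zero_or_pos n with rfl | hn
  · simp only [vel, P_zero, norm_zero]
    positivity
  obtain ⟨N, rfl⟩ : ∃ N, n = N + 1 := ⟨n - 1, by omega⟩
  by_cases h : ∀ m, 1 ≤ m → m ≤ N → P d m c ≠ 0
  · exact univ_ne hd hc h hΦ hM
  push Not at h
  obtain ⟨m, hm1, hmN, hm0⟩ := h
  -- an interior point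
  have hint : c ∈ interior (multibrotSet d) := by
    apply Pool.Agent.R240.Alm.att_interior hd
    obtain ⟨k, rfl⟩ : ∃ k, m = k + 1 := ⟨m - 1, by omega⟩
    apply Pool.Agent.R240.Crit.att hd hc (k := k)
    rw [hm0, norm_zero, zero_pow (by omega)]
    positivity
  obtain ⟨Z, hZ⟩ : ∃ Z : Set ℂ, Z = ⋃ m ∈ Finset.range N, {x : ℂ | P d (m + 1) x = 0} := ⟨_, rfl⟩
  have hZf : Z.Finite := by
    rw [hZ]
    exact Set.Finite.biUnion (Finset.finite_toSet _) fun k _ => zeros_finite hd k
  have hne : (𝓝[Zᶜ] c).NeBot := by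
    have h1 : (𝓝[(Z \ {c})ᶜ ∩ {c}ᶜ] c).NeBot := by
      rw [inter_comm]
      apply mem_closure_iff_nhdsWithin_neBot.1
      have h2 : (Z \ {c})ᶜ ∈ 𝓝 c :=
        (hZf.subset diff_subset).isClosed.isOpen_compl.mem_nhds (by simp)
      have h3 : c ∈ closure ({c}ᶜ : Set ℂ) := by
        rw [closure_compl_singleton]
        exact mem_univ c
      exact mem_closure_iff_nhds.2 fun t ht => by
        obtain ⟨y, hy1, hy2⟩ := mem_closure_iff_nhds.1 h3 (t ∩ (Z \ {c})ᶜ) (inter_mem ht h2)
        exact ⟨y, hy1.1, hy2, hy1.2⟩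
    apply h1.mono
    apply nhdsWithin_mono
    rintro y ⟨hy1, hy2⟩ hy3
    exact hy1 ⟨hy3, hy2⟩
  have h2 : ∀ k, ‖P d k c‖ ≤ 2 := norm_P_le hd hc
  have hcP : ContinuousAt (fun x => ‖P d (N + 1) x‖) c :=
    (differentiable_P d (N + 1)).continuous.continuousAt.norm
  have hcL : ContinuousAt (fun x => ‖P d (N + 1) x‖ * (2 + |Real.log ‖P d (N + 1) x‖|)) c := by
    have h3 : (fun x => ‖P d (N + 1) x‖ * (2 + |Real.log ‖P d (N + 1) x‖|)) =
        fun x => ‖P d (N + 1) x‖ * 2 + |‖P d (N + 1) x‖ * Real.log ‖P d (N + 1) x‖| := by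
      funext x
      rw [abs_mul, abs_of_nonneg (norm_nonneg _)]
      ring
    rw [h3]
    apply ContinuousAt.add (hcP.mul continuousAt_const)
    apply ContinuousAt.abs
    exact ContinuousAt.comp (g := fun t : ℝ => t * Real.log t) (f := fun x => ‖P d (N + 1) x‖)
      Real.continuous_mul_log.continuousAt hcP
  have hl : Tendsto (fun x => ‖vel d x Φ (N + 1)‖) (𝓝[Zᶜ] c) (𝓝 ‖vel d c Φ (N + 1)‖) :=
    (vel_cont hΦ.continuousOn h2 (N + 1)).norm.tendsto.mono_left nhdsWithin_le_nhds
  have hr : Tendsto (fun x => M * (4 * ‖vel d x (fun _ => 1) (N + 1)‖ +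
      ‖P d (N + 1) x‖ * (2 + |Real.log ‖P d (N + 1) x‖|))) (𝓝[Zᶜ] c)
      (𝓝 (M * (4 * ‖vel d c (fun _ => 1) (N + 1)‖ +
      ‖P d (N + 1) c‖ * (2 + |Real.log ‖P d (N + 1) c‖|)))) := by
    have h3 := (vel_cont (Φ := fun _ => 1) continuousOn_const h2 (N + 1)).norm
    exact (continuousAt_const.mul ((continuousAt_const.mul h3).add hcL)).tendsto.mono_left
      nhdsWithin_le_nhds
  refine le_of_tendsto_of_tendsto hl hr ?_
  have h4 : ∀ᶠ x in 𝓝[Zᶜ] c, x ∈ interior (multibrotSet d) :=
    nhdsWithin_le_nhds (isOpen_interior.mem_nhds hint)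
  filter_upwards [h4, self_mem_nhdsWithin] with x hx hxZ
  apply univ_ne hd (interior_subset hx) _ hΦ hM
  intro m hm1 hmN hm0
  apply hxZ
  rw [hZ]
  simp only [mem_iUnion, Finset.mem_range]
  exact ⟨m - 1, by omega, by rw [mem_ofPred_eq, Nat.sub_add_cancel hm1]; exact hm0⟩

end Pool.Agent.R240.Univ
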